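import Pool.Agent.H.MP_80ce29_pr.Arr2

/-!
# Infinitely many reflections, merging of orbits
-/

open Set MeasureTheory Complex Filter Topology
open scoped ComplexConjugate

namespace Mir

variable {ι : Type*} {X : Cfg ι}

variable {l : List ι} {t T : ℝ} {x v y z u : ℂ}

/-- A ray from a free point which never arrives at a vertex and is bounded has infinitely many
reflections. Induction on `n`. `n = 0`: a short flight. Step: if the flight from `y` with velocity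
`u` were free for ever, the run could be extended by `T` for all `T > 0`, and
`‖y + T * u‖ ≥ T - ‖y‖ > R` for large `T` (`‖u‖ = ‖v‖ = 1`). So it meets `M`; `Run.hit` gives an
arrival at a point `z ∈ M`, which is not a vertex; `not_vertex` and `Arr.bounce`. -/
theorem exists_run_length (hlf : X.LF) {R : ℝ} (hv : ‖v‖ = 1) (hx : x ∉ X.M)
    (hns : X.NonSing x v) (hb : ∀ l t y u, X.Run l t x v y u → ‖y‖ ≤ R) (n : ℕ) :
    ∃ l t y u, X.Run l t x v y u ∧ l.length = n := by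
  induction n with
  | zero =>
    have hcont : Continuous fun s : ℝ => x + (s : ℂ) * v := by fun_prop
    have hopen : IsOpen ((fun s : ℝ => x + (s : ℂ) * v) ⁻¹' X.Mᶜ) :=
      hlf.isClosed_M.isOpen_compl.preimage hcont
    have h0 : (0 : ℝ) ∈ (fun s : ℝ => x + (s : ℂ) * v) ⁻¹' X.Mᶜ := by
      simpa using hx
    obtain ⟨ε, hε, hball⟩ := Metric.isOpen_iff.1 hopen 0 h0
    refine ⟨[], ε / 2, _, v, Cfg.Run.fly (by linarith) fun s hs => ?_, rfl⟩
    have h1 : s ∈ Metric.ball (0 : ℝ) ε := by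
      rw [Metric.mem_ball, Real.dist_eq, sub_zero, abs_of_pos hs.1]
      linarith [hs.2]
    exact hball h1
  | succ n ih =>
    obtain ⟨l, t, y, u, h, hl⟩ := ih
    have hu : ‖u‖ = 1 := by rw [h.norm_eq, hv]
    obtain ⟨T, hT, hTM⟩ : ∃ T : ℝ, 0 < T ∧ y + (T : ℂ) * u ∈ X.M := by
      by_contra hcon
      push Not at hcon
      have hR : ‖y‖ ≤ R := hb l t y u h
      obtain ⟨T, hT⟩ : ∃ T : ℝ, T = R + ‖y‖ + 1 := ⟨_, rfl⟩
      have hT0 : 0 < T := by
        rw [hT]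
        linarith [norm_nonneg y]
      have h1 : X.Run [] T y u (y + (T : ℂ) * u) u :=
        Cfg.Run.fly hT0 fun s hs => hcon s hs.1
      have h2 := hb _ _ _ _ (h.append h1)
      have h3 : ‖(T : ℂ) * u‖ = T := by
        rw [norm_mul, hu, mul_one, Complex.norm_real, Real.norm_of_nonneg hT0.le]
      have h4 : ‖(T : ℂ) * u‖ ≤ ‖y + (T : ℂ) * u‖ + ‖y‖ := by
        have h5 : (T : ℂ) * u = (y + (T : ℂ) * u) - y := by ring
        calc ‖(T : ℂ) * u‖ = ‖(y + (T : ℂ) * u) - y‖ := by rw [← h5]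
          _ ≤ ‖y + (T : ℂ) * u‖ + ‖y‖ := norm_sub_le _ _
      rw [h3] at h4
      linarith
    obtain ⟨r, hr, hrT, hrM, harr⟩ := h.hit hlf.isClosed_M hT hTM
    obtain ⟨i, hi, hin, ho⟩ := Cfg.not_vertex hrM (hns _ _ _ _ harr)
    obtain ⟨σ₀, hσ₀, hrun⟩ := harr.bounce hlf hi hin ho
    refine ⟨_, _, _, _, hrun (σ₀ / 2) ⟨by linarith, by linarith⟩, ?_⟩
    rw [List.length_append, hl]
    rfl

/-- Two arrivals at the same point with the same velocity, `l` shorter than `l'`: the ray from `q`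
passes `p`. Choose a small common `ρ` and use `Run.passes`. -/
theorem Cfg.Arr.passes {p q vp vq : ℂ} {l' : List ι} {t' : ℝ} (hp : p ∉ X.M) (hq : q ∉ X.M)
    (h : X.Arr l t p vp z u) (h' : X.Arr l' t' q vq z u) (hl : l.length < l'.length) :
    ∃ L, l' = L ++ l ∧ X.Run L (t' - t) q vq p vp := by
  obtain ⟨ρ₀, hρ₀, h1⟩ := h
  obtain ⟨ρ₁, hρ₁, h2⟩ := h'
  obtain ⟨ρ, hρ, hρ2, hρ3⟩ : ∃ ρ : ℝ, 0 < ρ ∧ ρ < ρ₀ ∧ ρ < ρ₁ := by
    refine ⟨min ρ₀ ρ₁ / 2, by positivity, ?_, ?_⟩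
    · have := min_le_left ρ₀ ρ₁
      linarith
    · have := min_le_right ρ₀ ρ₁
      linarith
  obtain ⟨L, hL, hrun⟩ := Cfg.Run.passes hp hq (h1 ρ ⟨hρ, hρ2⟩) (h2 ρ ⟨hρ, hρ3⟩) hl
  refine ⟨L, hL, ?_⟩
  have e : t' - ρ - (t - ρ) = t' - t := by ring
  rwa [e] at hrun

end Mir
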