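import Pool.Agent.H.MP_80ce29_pr.Vert

/-!
# Arrival at a point of a mirror

`X.Arr l t x v z u`: the ray from `(x, v)` arrives at time `t` at the point `z` (which may be on a
mirror) with velocity `u`, after the reflections of `l`.
-/

open Set MeasureTheory Complex Filter Topology
open scoped ComplexConjugate

namespace Mir

variable {ι : Type*} {X : Cfg ι}

/-- Arrival; see the header. -/
def Cfg.Arr (X : Cfg ι) (l : List ι) (t : ℝ) (x v z u : ℂ) : Prop :=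
  ∃ ρ₀ > 0, ∀ ρ ∈ Ioo (0 : ℝ) ρ₀, X.Run l (t - ρ) x v (z - (ρ : ℂ) * u) u

/-- A state `(x, v)` whose ray never arrives at a vertex. -/
def Cfg.NonSing (X : Cfg ι) (x v : ℂ) : Prop := ∀ l t z u, X.Arr l t x v z u → z ∉ X.V

/-- First hit: if `y ∉ M` and `y + T * u ∈ M` for some `T > 0`, then there is a first such time in
`(0, T]`: take the infimum of the closed set `{s ∈ [0, T] | y + s * u ∈ M}`. -/
theorem first_hit (hM : IsClosed X.M) {y u : ℂ} (hy : y ∉ X.M) {T : ℝ} (hT : 0 < T)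
    (h : y + (T : ℂ) * u ∈ X.M) :
    ∃ r, 0 < r ∧ r ≤ T ∧ y + (r : ℂ) * u ∈ X.M ∧ ∀ s ∈ Ioo 0 r, y + (s : ℂ) * u ∉ X.M := by
  have hcont : Continuous fun s : ℝ => y + (s : ℂ) * u := by fun_prop
  have hcl : IsClosed ((fun s : ℝ => y + (s : ℂ) * u) ⁻¹' X.M) := hM.preimage hcont
  have hK : IsCompact (Icc 0 T ∩ (fun s : ℝ => y + (s : ℂ) * u) ⁻¹' X.M) :=
    isCompact_Icc.inter_right hcl
  have hne : (Icc 0 T ∩ (fun s : ℝ => y + (s : ℂ) * u) ⁻¹' X.M).Nonempty :=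
    ⟨T, ⟨hT.le, le_rfl⟩, h⟩
  have hmem := hK.sInf_mem hne
  set r := sInf (Icc 0 T ∩ (fun s : ℝ => y + (s : ℂ) * u) ⁻¹' X.M) with hr
  have hr0 : 0 < r := by
    rcases hmem.1.1.lt_or_eq with h1 | h1
    · exact h1
    · exfalso
      apply hy
      have h2 : y + (r : ℂ) * u ∈ X.M := hmem.2
      rw [← h1] at h2
      simpa using h2
  refine ⟨r, hr0, hmem.1.2, hmem.2, fun s hs hsM => ?_⟩
  have h3 : r ≤ s := by
    rw [hr]
    exact csInf_le hK.bddBelow ⟨⟨hs.1.le, hs.2.le.trans hmem.1.2⟩, hsM⟩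
  exact absurd hs.2 (not_lt.2 h3)

variable {l : List ι} {t T : ℝ} {x v y z u : ℂ}

theorem Cfg.Arr.time_pos (h : X.Arr l t x v z u) : 0 < t := by
  obtain ⟨ρ₀, h0, h1⟩ := h
  have h2 := (h1 (ρ₀ / 2) ⟨by positivity, by linarith⟩).time_pos
  linarith

/-- From `Run.unfold`: `z - ρ * u = A l (x + (t - ρ) * v) = A l (x + t * v) - ρ * B l v` and
`u = B l v`. -/
theorem Cfg.Arr.unfold (h : X.Arr l t x v z u) : z = X.A l (x + (t : ℂ) * v) ∧ u = X.B l v := by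
  obtain ⟨ρ₀, h0, h1⟩ := h
  obtain ⟨h2, h3⟩ := (h1 (ρ₀ / 2) ⟨by positivity, by linarith⟩).unfold
  refine ⟨?_, h3⟩
  have e : x + ((t - ρ₀ / 2 : ℝ) : ℂ) * v = x + (t : ℂ) * v + -(((ρ₀ / 2 : ℝ) : ℂ) * v) := by
    push_cast
    ring
  rw [e, Cfg.A_add, Cfg.B_neg, Cfg.B_smul, ← h3] at h2
  linear_combination h2

/-- `Run.shorten`. -/
theorem Cfg.Run.arr (h : X.Run l t x v y u) : X.Arr l t x v y u := by
  obtain ⟨ρ₀, h0, -, h1⟩ := h.shorten
  exact ⟨ρ₀, h0, h1⟩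

/-- A run followed by a free open flight is an arrival. `Run.append` with the flights of length
`r - ρ`, `ρ < r`. -/
theorem Cfg.Run.arr_add (h : X.Run l t x v y u) {r : ℝ} (hr : 0 < r)
    (hf : ∀ s ∈ Ioo 0 r, y + (s : ℂ) * u ∉ X.M) : X.Arr l (t + r) x v (y + (r : ℂ) * u) u := by
  refine ⟨r, hr, fun ρ hρ => ?_⟩
  have h1 : X.Run [] (r - ρ) y u (y + ((r - ρ : ℝ) : ℂ) * u) u :=
    Cfg.Run.fly (by linarith [hρ.2]) (fun s hs => hf s ⟨hs.1, by linarith [hs.2, hρ.1]⟩)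
  have h2 := h.append h1
  rw [List.append_nil] at h2
  have e1 : t + r - ρ = t + (r - ρ) := by ring
  have e2 : y + (r : ℂ) * u - (ρ : ℂ) * u = y + ((r - ρ : ℝ) : ℂ) * u := by
    push_cast
    ring
  rw [e1, e2]
  exact h2

end Mir
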