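import Pool.Agent.H.MP_80ce29_pr.Arr1

/-!
# Bounces after arrivals, intermediate times
-/

open Set MeasureTheory Complex Filter Topology
open scoped ComplexConjugate

namespace Mir

variable {ι : Type*} {X : Cfg ι}

variable {l : List ι} {t T : ℝ} {x v y z u : ℂ}

/-- A bounce after an arrival. The velocity `u` is transversal to mirror `i` (`not_par_of_hit`,
applied to the last flight). The departing ray `z + s * (w i * conj u)`, `s > 0` small, is free: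
the mirrors `j ≠ i` avoid a neighbourhood of `z` (`LF.isClosed_sub` for `J = {j | j ≠ i}`), and it
meets the line of mirror `i` only at `s = 0` (`cross_unique`, `par_refl_iff`). So
`Run.append` of the run to `z - ρ * u` and the run which flies `ρ`, bounces at `i` and flies
`σ`. -/
theorem Cfg.Arr.bounce (hlf : X.LF) (h : X.Arr l t x v z u) {i : ι} (hi : i ∈ X.S)
    (hp : z ∈ X.inner i) (ho : ∀ j ∈ X.S, j ≠ i → z ∉ X.seg j) :
    ∃ σ₀ > 0, ∀ σ ∈ Ioo (0 : ℝ) σ₀, X.Run (l ++ [i]) (t + σ) x v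
      (z + (σ : ℂ) * ((X.w i : ℂ) * conj u)) ((X.w i : ℂ) * conj u) := by
  obtain ⟨ρ₀, hρ₀, hrun⟩ := h
  -- the last flight
  obtain ⟨ρ, hρ⟩ : ∃ ρ : ℝ, ρ = ρ₀ / 2 := ⟨_, rfl⟩
  have hρ1 : 0 < ρ := by rw [hρ]; linarith
  have hρ2 : ρ < ρ₀ := by rw [hρ]; linarith
  have hz : z - (ρ : ℂ) * u + (ρ : ℂ) * u = z := by ring
  have hf : ∀ s ∈ Ioo 0 ρ, z - (ρ : ℂ) * u + (s : ℂ) * u ∉ X.M := by
    intro s hs
    have h1 := (hrun (ρ - s) ⟨by linarith [hs.2], by linarith [hs.1]⟩).end_free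
    have h2 : z - ((ρ - s : ℝ) : ℂ) * u = z - (ρ : ℂ) * u + (s : ℂ) * u := by
      push_cast
      ring
    rwa [h2] at h1
  have hpar : ¬ Par (X.w i) u := by
    refine Cfg.Run.bounce_not_par (x := z - (ρ : ℂ) * u) hρ1 hf hi ?_
    rwa [hz]
  have hpar' : ¬ Par (X.w i) ((X.w i : ℂ) * conj u) := fun h => hpar (par_refl_iff.1 h)
  -- the departing ray
  have hcl := hlf.isClosed_sub {j | j ≠ i}
  have hcont : Continuous fun s : ℝ => z + (s : ℂ) * ((X.w i : ℂ) * conj u) := by fun_prop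
  have hopen : IsOpen ((fun s : ℝ => z + (s : ℂ) * ((X.w i : ℂ) * conj u)) ⁻¹'
      {z | ∃ j ∈ {j | j ≠ i}, j ∈ X.S ∧ z ∈ X.seg j}ᶜ) := hcl.isOpen_compl.preimage hcont
  have h0 : (0 : ℝ) ∈ (fun s : ℝ => z + (s : ℂ) * ((X.w i : ℂ) * conj u)) ⁻¹'
      {z | ∃ j ∈ {j | j ≠ i}, j ∈ X.S ∧ z ∈ X.seg j}ᶜ := by
    simp only [mem_preimage, Complex.ofReal_zero, zero_mul, add_zero, mem_compl_iff, mem_ofPred_eq]
    rintro ⟨j, hj, hjS, hjz⟩
    exact ho j hjS hj hjz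
  obtain ⟨σ₀, hσ₀, hball⟩ := Metric.isOpen_iff.1 hopen 0 h0
  have hdep : ∀ s : ℝ, 0 < s → s < σ₀ → z + (s : ℂ) * ((X.w i : ℂ) * conj u) ∉ X.M := by
    intro s hs hs' hM
    obtain ⟨j, hjS, hj⟩ := Cfg.mem_M_iff.1 hM
    by_cases hji : j = i
    · subst hji
      have h1 : OnLine (X.c j) (X.w j) (z + (s : ℂ) * ((X.w j : ℂ) * conj u)) := (mem_Seg.1 hj).1
      have h2 : OnLine (X.c j) (X.w j) (z + ((0 : ℝ) : ℂ) * ((X.w j : ℂ) * conj u)) := by
        rw [Complex.ofReal_zero, zero_mul, add_zero]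
        exact (mem_Inner.1 hp).1
      exact hs.ne' (cross_unique hpar' h1 h2)
    · have h1 : s ∈ Metric.ball (0 : ℝ) σ₀ := by
        rw [Metric.mem_ball, Real.dist_eq, sub_zero, abs_of_pos hs]
        exact hs'
      exact hball h1 ⟨j, hji, hjS, hj⟩
  refine ⟨σ₀, hσ₀, fun σ hσ => ?_⟩
  have hfly : X.Run [] σ (z - (ρ : ℂ) * u + (ρ : ℂ) * u) ((X.w i : ℂ) * conj u)
      (z - (ρ : ℂ) * u + (ρ : ℂ) * u + (σ : ℂ) * ((X.w i : ℂ) * conj u))
      ((X.w i : ℂ) * conj u) := by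
    refine Cfg.Run.fly hσ.1 fun s hs => ?_
    rw [hz]
    exact hdep s hs.1 (lt_of_le_of_lt hs.2 hσ.2)
  have hb : X.Run [i] (ρ + σ) (z - (ρ : ℂ) * u) u
      (z - (ρ : ℂ) * u + (ρ : ℂ) * u + (σ : ℂ) * ((X.w i : ℂ) * conj u))
      ((X.w i : ℂ) * conj u) := by
    refine Cfg.Run.bounce hρ1 hf hi ?_ ?_ hfly
    · rwa [hz]
    · rw [hz]
      exact ho
  have happ := (hrun ρ ⟨hρ1, hρ2⟩).append hb
  rw [hz] at happ
  have ht : t - ρ + (ρ + σ) = t + σ := by ring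
  rwa [ht] at happ

/-- A run whose continued flight meets `M` within time `T` arrives at a point of `M` (its first
hit). -/
theorem Cfg.Run.hit (hM : IsClosed X.M) (h : X.Run l t x v y u) (hT : 0 < T)
    (hy : y + (T : ℂ) * u ∈ X.M) :
    ∃ r, 0 < r ∧ r ≤ T ∧ y + (r : ℂ) * u ∈ X.M ∧ X.Arr l (t + r) x v (y + (r : ℂ) * u) u := by
  obtain ⟨r, hr, hrT, hrM, hf⟩ := first_hit hM h.end_free hT hy
  exact ⟨r, hr, hrT, hrM, h.arr_add hr hf⟩

/-- The state at an intermediate time `T`: either the ray is at a free point, or it is just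
arriving at a point of a mirror. Induction on the run.
* fly `r`, `T < r`: fly `T`.
* bounce after `r`: `T < r`: fly `T`; `T = r`: arrival at the bounce point with `l₁ = []`,
  `ρ₀ = r`; `T > r`: induction hypothesis for `T - r`, then put the bounce in front (for `Arr`: use
  `ρ₀` smaller than the one of the induction hypothesis; `r + (T - r - ρ) = T - ρ`). -/
theorem Cfg.Run.at_time (h : X.Run l t x v y u) (hT : 0 < T) (hTt : T < t) :
    (∃ l₁ z u₁, X.Run l₁ T x v z u₁) ∨ (∃ l₁ z u₁, z ∈ X.M ∧ X.Arr l₁ T x v z u₁) := by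
  induction h generalizing T with
  | @fly x v r hr hf =>
    exact Or.inl ⟨[], _, v, Cfg.Run.fly hT fun s hs => hf s ⟨hs.1, hs.2.trans hTt.le⟩⟩
  | @bounce x v r i l t y u hr hf hi hp ho hn ih =>
    rcases lt_trichotomy T r with h1 | h1 | h1
    · exact Or.inl ⟨[], _, v, Cfg.Run.fly hT fun s hs => hf s ⟨hs.1, lt_of_le_of_lt hs.2 h1⟩⟩
    · subst h1
      refine Or.inr ⟨[], _, v, Cfg.mem_M_of_seg hi (Cfg.inner_sub_seg hp), T, hT, fun ρ hρ => ?_⟩
      have h2 : x + (T : ℂ) * v - (ρ : ℂ) * v = x + ((T - ρ : ℝ) : ℂ) * v := by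
        push_cast
        ring
      rw [h2]
      refine Cfg.Run.fly (by linarith [hρ.2]) fun s hs => hf s ⟨hs.1, ?_⟩
      linarith [hs.2, hρ.1]
    · rcases ih (T := T - r) (by linarith) (by linarith) with ⟨l₁, z, u₁, h2⟩ | ⟨l₁, z, u₁, hz, h2⟩
      · refine Or.inl ⟨i :: l₁, z, u₁, ?_⟩
        have h3 := Cfg.Run.bounce hr hf hi hp ho h2
        have h4 : r + (T - r) = T := by ring
        rwa [h4] at h3
      · obtain ⟨ρ₀, hρ₀, h3⟩ := h2
        refine Or.inr ⟨i :: l₁, z, u₁, hz, ρ₀, hρ₀, fun ρ hρ => ?_⟩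
        have h4 := Cfg.Run.bounce hr hf hi hp ho (h3 ρ hρ)
        have h5 : r + (T - r - ρ) = T - ρ := by ring
        rwa [h5] at h4

end Mir
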