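import Pool.Agent.H.MP_80ce29_pr.Ineq

/-!
# The Baire argument and the equality of the thresholds
-/

open Set MeasureTheory Complex Filter Topology
open scoped ComplexConjugate ENNReal

namespace Mir

variable {T : Type*} [TopologicalSpace T] {κ : T → ProbabilityMeasure Circle}

/-- `(t, ε) ↦ fR m (κ t) ε + gG (κ t) ε` is lower semicontinuous: `lsc_law` for `VR m` with
`E = Base × unitInterval`, and for `VG` with `E = Base`; sum of lower semicontinuous functions. -/
theorem lsc_sum (hκ : Continuous κ) (m : ℕ) :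
    LowerSemicontinuous fun p : T × ℝ => fR m (κ p.1) p.2 + gG (κ p.1) p.2 := by
  have h1 := lsc_law hκ
    (⟨baseLaw.prod (volume : Measure unitInterval), inferInstance⟩ :
      ProbabilityMeasure (Base × unitInterval)) (isOpen_VR m)
  have h2 := lsc_law hκ (⟨baseLaw, inferInstance⟩ : ProbabilityMeasure Base) isOpen_VG
  exact h1.add h2

/-- For a compact interval `[a, b]` and a number `c`, the set of `t` with
`c < fR + gG` for all `ε ∈ [a, b]` is open (tube lemma,
`IsCompact.eventually_forall_of_forall_eventually`). -/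
theorem isOpen_all (hκ : Continuous κ) (m : ℕ) (a b : ℝ) (c : ℝ≥0∞) :
    IsOpen {t | ∀ ε ∈ Icc a b, c < fR m (κ t) ε + gG (κ t) ε} := by
  rw [isOpen_iff_mem_nhds]
  intro t ht
  exact isCompact_Icc.eventually_forall_of_forall_eventually (x₀ := t)
    (P := fun t ε => c < fR m (κ t) ε + gG (κ t) ε)
    (fun ε hε => lsc_sum hκ m (t, ε) c (ht ε hε))

/-- The Baire argument: for `m, k ∈ ℕ` and rationals `0 < a < b` the set of `t` with
`1 - 1 / (k + 1) < fR m (κ t) ε + gG (κ t) ε` for all `ε ∈ [a, b]` is open (`isOpen_all`) and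
contains the dense set of the `t` with rational `κ t` (`one_le_of_rat`). The countable intersection is
residual, and for its elements `1 ≤ fR m (κ t) ε + gG (κ t) ε` for all `m` and all `ε > 0`;
`allEscape_of_ineq`. -/
theorem residual_allEscape (hκ : Continuous κ) (hd : Dense {t | IsRat (κ t)}) :
    ∀ᶠ t in residual T, ∀ ε : ℝ, 0 < ε → AllEscape (κ t) ε := by
  have key : ∀ᶠ t in residual T, ∀ (m k : ℕ) (a b : ℚ), 0 < a →
      ∀ ε ∈ Icc (a : ℝ) (b : ℝ), 1 - ((k + 1 : ℕ) : ℝ≥0∞)⁻¹ < fR m (κ t) ε + gG (κ t) ε := by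
    refine eventually_countable_forall.2 (fun m => eventually_countable_forall.2 (fun k =>
      eventually_countable_forall.2 (fun a => eventually_countable_forall.2 (fun b =>
      eventually_countable_forall.2 (fun ha => ?_)))))
    refine residual_of_dense_open (isOpen_all hκ m a b _) (hd.mono ?_)
    intro t ht ε hε
    have hε0 : 0 < ε := lt_of_lt_of_le (by exact_mod_cast ha) hε.1
    refine lt_of_lt_of_le ?_ (one_le_of_rat ht hε0 m)
    refine ENNReal.sub_lt_self ENNReal.one_ne_top one_ne_zero ?_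
    exact ENNReal.inv_ne_zero.2 (ENNReal.natCast_ne_top _)
  refine key.mono (fun t ht ε hε => allEscape_of_ineq (fun m => ?_))
  obtain ⟨a, ha0, ha1⟩ := exists_rat_btwn hε
  obtain ⟨b, hb1, _⟩ := exists_rat_btwn (lt_add_one ε)
  have h1 : ∀ k : ℕ, 1 - ((k + 1 : ℕ) : ℝ≥0∞)⁻¹ ≤ fR m (κ t) ε + gG (κ t) ε := fun k =>
    (ht m k a b (by exact_mod_cast ha0) ε ⟨ha1.le, hb1.le⟩).le
  have h2 : Tendsto (fun k : ℕ => 1 - ((k + 1 : ℕ) : ℝ≥0∞)⁻¹) atTop (𝓝 (1 - 0)) :=
    ENNReal.Tendsto.sub tendsto_const_nhds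
      (ENNReal.tendsto_inv_nat_nhds_zero.comp (tendsto_add_atTop_nat 1))
      (Or.inl ENNReal.one_ne_top)
  rw [tsub_zero] at h2
  exact le_of_tendsto' h2 h1

/-- If some ray escapes then `C` is unbounded, almost surely (`Escapes.unbounded`,
`ae_zero_free`). -/
theorem ae_unbounded_of_escape (μ : ProbabilityMeasure Circle) (ε : ℝ) :
    ∀ᵐ ω ∂(law μ), ω ∈ escapeSet ε → ω ∈ unbddSet ε := by
  filter_upwards [ae_zero_free μ ε] with ω h0 hesc
  obtain ⟨α, hα⟩ := hesc
  exact Cfg.Escapes.unbounded (fam_cfg.LF (ω, ε)) h0 hα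

/-- If `AllEscape μ ε` then almost surely: some ray escapes iff `C` is unbounded. (A property which
holds for almost every `s` holds for some `s`; `dir s = exp (2 π s * I)`.) -/
theorem ae_iff_of_allEscape {μ : ProbabilityMeasure Circle} {ε : ℝ} (h : AllEscape μ ε) :
    ∀ᵐ ω ∂(law μ), ω ∈ escapeSet ε ↔ ω ∈ unbddSet ε := by
  filter_upwards [ae_unbounded_of_escape μ ε, h] with ω h1 h2
  refine ⟨h1, fun hub => ?_⟩
  obtain ⟨s, hs⟩ := (h2 hub).exists
  exact ⟨2 * Real.pi * s, hs⟩

/-- Equality of the thresholds: the two sets of `ε` in the definitions coincide, since the two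
events are almost surely equal (`measure_congr`). -/
theorem epsC_eq {μ : ProbabilityMeasure Circle} (h : ∀ ε : ℝ, 0 < ε → AllEscape μ ε) :
    epsC' μ = epsC μ := by
  unfold epsC' epsC
  congr 1
  ext e
  refine exists_congr (fun ε => and_congr_right (fun hε => and_congr_right (fun _ => ?_)))
  rw [measure_congr (Filter.eventuallyEq_set.2 (ae_iff_of_allEscape (h ε hε)))]

end Mir
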