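import Pool.Agent.H.MP_80ce29_pr.Transfer

/-!
# Invariant sets and beams
-/

open Set MeasureTheory Complex Filter Topology
open scoped ComplexConjugate

namespace Mir

variable {ι : Type*} {X : Cfg ι}

/-- Bounded closed sets of states, invariant in both time directions, without periodic states. -/
structure Inv (X : Cfg ι) (N : ℕ) (R : ℝ) (K : Set (ℂ × ℂ)) : Prop where
  free : ∀ q ∈ K, q.1 ∉ X.M
  bdd : ∀ q ∈ K, ‖q.1‖ ≤ R
  unit : ∀ q ∈ K, ‖q.2‖ = 1
  transv : ∀ q ∈ K, Transv N q.2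
  closed : ∀ x u, x ∉ X.M → (∀ δ > 0, ∃ y, (y, u) ∈ K ∧ ‖y - x‖ < δ) → (x, u) ∈ K
  fwd : ∀ x u l t y u', (x, u) ∈ K → X.Run l t x u y u' → (y, u') ∈ K
  bwd : ∀ x u l t y u', (x, u) ∈ K → X.Run l t x (-u) y (-u') → (y, u') ∈ K
  nonper : ∀ x u l t, (x, u) ∈ K → ¬ X.Run l t x u x u

/-- Reversal of velocities. For `nonper` use `Run.reverse`. -/
theorem Inv.neg {N : ℕ} {R : ℝ} {K : Set (ℂ × ℂ)} (h : Inv X N R K) :
    Inv X N R {q | (q.1, -q.2) ∈ K} where
  free q hq := h.free (q.1, -q.2) hq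
  bdd q hq := h.bdd (q.1, -q.2) hq
  unit q hq := by
    have h1 := h.unit (q.1, -q.2) hq
    simpa using h1
  transv q hq := by
    have h1 := (h.transv (q.1, -q.2) hq).neg
    simpa using h1
  closed x u hx hc := h.closed x (-u) hx hc
  fwd x u l t y u' hx hr := by
    refine h.bwd x (-u) l t y (-u') hx ?_
    rw [neg_neg, neg_neg]
    exact hr
  bwd x u l t y u' hx hr := h.fwd x (-u) l t y (-u') hx hr
  nonper x u l t hx hr := h.nonper x (-u) l.reverse t hx (hr.reverse (h.free _ hx))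

/-- The state `(x₀ + s * e, u)` has a run with list `l`. -/
def Beam (X : Cfg ι) (x₀ e u : ℂ) (l : List ι) (s : ℝ) : Prop :=
  ∃ t y u', X.Run l t (x₀ + (s : ℂ) * e) u y u'

/-- The data of the gap lemma: a state `(x₀, u)` of an invariant set `K`, which never arrives at a
vertex, such that the parallel states `(x₀ + s * e, u)`, `0 < s < δ`, are not in `K`; here `e` is
orthogonal to `u`, and the ball of radius `2 * δ` about `x₀` is free. `it n` is the list of the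
first `n` reflections of `(x₀, u)`. -/
structure GapData (X : Cfg ι) (N : ℕ) (R : ℝ) (K : Set (ℂ × ℂ)) (x₀ u e : ℂ) (δ : ℝ)
    (it : ℕ → List ι) : Prop where
  rat : Rat X N
  inv : Inv X N R K
  mem : (x₀, u) ∈ K
  ns : X.NonSing x₀ u
  orth : e = I * u ∨ e = -(I * u)
  δpos : 0 < δ
  ball : ∀ z, ‖z - x₀‖ < 2 * δ → z ∉ X.M
  gap : ∀ s ∈ Ioo 0 δ, (x₀ + (s : ℂ) * e, u) ∉ K
  len : ∀ n, (it n).length = n
  beam : ∀ n, Beam X x₀ e u (it n) 0

/-- The width of the beam with `n` common reflections. -/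
noncomputable def width (X : Cfg ι) (x₀ u e : ℂ) (δ : ℝ) (l : List ι) : ℝ :=
  sSup {w | w ∈ Icc 0 δ ∧ ∀ s ∈ Ico 0 w, Beam X x₀ e u l s}

/-- Existence of the itinerary: `exists_run_length` (the runs from `(x₀, u)` stay in `K`, so they
are bounded by `R`). -/
theorem exists_it {N : ℕ} {R : ℝ} {K : Set (ℂ × ℂ)} {x₀ u e : ℂ} (hX : Rat X N)
    (hK : Inv X N R K) (hm : (x₀, u) ∈ K) (hns : X.NonSing x₀ u) :
    ∃ it : ℕ → List ι, (∀ n, (it n).length = n) ∧ ∀ n, Beam X x₀ e u (it n) 0 := by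
  have h1 : ∀ n : ℕ, ∃ l t y u', X.Run l t x₀ u y u' ∧ l.length = n := fun n =>
    exists_run_length hX.lf (hK.unit _ hm) (hK.free _ hm) hns
      (fun l t y u' hr => hK.bdd _ (hK.fwd _ _ _ _ _ _ hm hr)) n
  choose it h2 using h1
  refine ⟨it, fun n => ?_, fun n => ?_⟩
  · obtain ⟨t, y, u', -, h3⟩ := h2 n
    exact h3
  · obtain ⟨t, y, u', h3, -⟩ := h2 n
    refine ⟨t, y, u', ?_⟩
    rw [Complex.ofReal_zero, zero_mul, add_zero]
    exact h3

namespace GapData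

variable {N : ℕ} {R : ℝ} {K : Set (ℂ × ℂ)} {x₀ u e : ℂ} {δ : ℝ} {it : ℕ → List ι}

theorem norm_e (g : GapData X N R K x₀ u e δ it) : ‖e‖ = 1 := by
  have h1 : ‖u‖ = 1 := g.inv.unit _ g.mem
  rcases g.orth with h | h
  · rw [h, norm_mul, Complex.norm_I, one_mul, h1]
  · rw [h, norm_neg, norm_mul, Complex.norm_I, one_mul, h1]

/-- The points `x₀ + s * e`, `|s| < 2 * δ`, are free. -/
theorem free (g : GapData X N R K x₀ u e δ it) {s : ℝ} (hs : |s| < 2 * δ) :
    x₀ + (s : ℂ) * e ∉ X.M := by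
  apply g.ball
  rw [add_sub_cancel_left, norm_mul, g.norm_e, mul_one, Complex.norm_real]
  exact hs

/-- The lists are nested (`Run.prefix_of_le`, `List.length`). -/
theorem it_succ (g : GapData X N R K x₀ u e δ it) (n : ℕ) : ∃ i, it (n + 1) = it n ++ [i] := by
  obtain ⟨t, y, u', h1⟩ := g.beam n
  obtain ⟨t', y', u'', h2⟩ := g.beam (n + 1)
  obtain ⟨l, hl⟩ := Cfg.Run.prefix_of_le h1 h2 (by rw [g.len, g.len]; omega)
  have h3 := congrArg List.length hl
  rw [List.length_append, g.len, g.len] at h3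
  obtain ⟨i, hi⟩ := List.length_eq_one_iff.1 (show l.length = 1 by omega)
  exact ⟨i, by rw [← hl, hi]⟩

theorem width_nonempty_Beam (X : Cfg ι) (x₀ u e : ℂ) {δ : ℝ} (hδ : 0 < δ) (l : List ι) :
    {w | w ∈ Icc 0 δ ∧ ∀ s ∈ Ico 0 w, Beam X x₀ e u l s}.Nonempty :=
  ⟨0, ⟨le_rfl, hδ.le⟩, fun s hs => absurd hs.2 (not_lt.2 hs.1)⟩

theorem width_bdd_Beam (X : Cfg ι) (x₀ u e : ℂ) (δ : ℝ) (l : List ι) :
    BddAbove {w | w ∈ Icc 0 δ ∧ ∀ s ∈ Ico 0 w, Beam X x₀ e u l s} :=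
  ⟨δ, fun _ hw => hw.1.2⟩

theorem width_le (g : GapData X N R K x₀ u e δ it) (n : ℕ) : width X x₀ u e δ (it n) ≤ δ :=
  csSup_le (width_nonempty_Beam X x₀ u e g.δpos (it n)) fun _ hw => hw.1.2

/-- The set of `s` (with `x₀ + s * e` free) such that `Beam l s` is open, by `Run.stab`. -/
theorem beam_open (g : GapData X N R K x₀ u e δ it) {l : List ι} {s : ℝ} (hs : |s| < 2 * δ)
    (h : Beam X x₀ e u l s) : ∀ᶠ s' in 𝓝 s, Beam X x₀ e u l s' := by
  obtain ⟨t, y, u', h1⟩ := h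
  have h2 := h1.stab g.rat.lf (g.free hs)
  have hcont : Continuous fun s' : ℝ => x₀ + (s' : ℂ) * e := by fun_prop
  have h3 := (hcont.tendsto s).eventually h2
  filter_upwards [h3] with s' hs'
  exact ⟨t, _, u', hs'⟩

theorem le_width_Beam (g : GapData X N R K x₀ u e δ it) (l : List ι) {w : ℝ}
    (hw : w ∈ Icc 0 δ) (h : ∀ s ∈ Ico 0 w, Beam X x₀ e u l s) : w ≤ width X x₀ u e δ l :=
  le_csSup (width_bdd_Beam X x₀ u e δ l) ⟨hw, h⟩

/-- By `beam_open` at `s = 0`. -/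
theorem width_pos (g : GapData X N R K x₀ u e δ it) (n : ℕ) : 0 < width X x₀ u e δ (it n) := by
  have hδ := g.δpos
  have h1 := g.beam_open (s := 0) (by rw [abs_zero]; linarith) (g.beam n)
  obtain ⟨ε, hε, h2⟩ := Metric.eventually_nhds_iff.1 h1
  have hm : 0 < min ε δ := lt_min hε hδ
  refine lt_of_lt_of_le hm (g.le_width_Beam (it n) ⟨hm.le, min_le_right _ _⟩ fun s hs => h2 ?_)
  rw [Real.dist_eq, sub_zero, abs_of_nonneg hs.1]
  exact lt_of_lt_of_le hs.2 (min_le_left _ _)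

/-- Definition of the supremum. -/
theorem beam_of_lt (g : GapData X N R K x₀ u e δ it) (n : ℕ) {s : ℝ} (hs : 0 ≤ s)
    (h : s < width X x₀ u e δ (it n)) : Beam X x₀ e u (it n) s := by
  obtain ⟨w, hw, hsw⟩ := exists_lt_of_lt_csSup (width_nonempty_Beam X x₀ u e g.δpos (it n)) h
  exact hw.2 s ⟨hs, hsw⟩

/-- If the width `w` is `< δ`, then `Beam (it n) w` fails, since otherwise by `beam_open` the width
would be larger. -/
theorem not_beam (g : GapData X N R K x₀ u e δ it) (n : ℕ)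
    (h : width X x₀ u e δ (it n) < δ) :
    ¬ Beam X x₀ e u (it n) (width X x₀ u e δ (it n)) := by
  intro hb
  have hδ := g.δpos
  have hw := g.width_pos n
  obtain ⟨w, hwdef⟩ : ∃ w, w = width X x₀ u e δ (it n) := ⟨_, rfl⟩
  rw [← hwdef] at hb h hw
  have h1 := g.beam_open (s := w) (by rw [abs_of_pos hw]; linarith) hb
  obtain ⟨ε, hε, h2⟩ := Metric.eventually_nhds_iff.1 h1
  have hm : w < min (w + ε) δ := lt_min (by linarith) h
  have h3 : min (w + ε) δ ≤ width X x₀ u e δ (it n) := by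
    refine g.le_width_Beam (it n) ⟨by linarith, min_le_right _ _⟩ fun s hs => ?_
    by_cases hsw : s < w
    · exact g.beam_of_lt n hs.1 (by rw [← hwdef]; exact hsw)
    · push Not at hsw
      apply h2
      have h4 := lt_of_lt_of_le hs.2 (min_le_left _ _)
      rw [Real.dist_eq, abs_of_nonneg (by linarith)]
      linarith
  rw [← hwdef] at h3
  linarith

/-- `Run.take`: a run with list `it (n + 1) = it n ++ [i]` passes a point with list `it n`. -/
theorem width_anti (g : GapData X N R K x₀ u e δ it) :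
    Antitone fun n => width X x₀ u e δ (it n) := by
  refine antitone_nat_of_succ_le fun n => ?_
  obtain ⟨i, hi⟩ := g.it_succ n
  refine csSup_le_csSup (width_bdd_Beam X x₀ u e δ (it n))
    (width_nonempty_Beam X x₀ u e g.δpos (it (n + 1))) ?_
  rintro w ⟨hw, h1⟩
  refine ⟨hw, fun s hs => ?_⟩
  obtain ⟨t, y, u', h2⟩ := h1 s hs
  rw [hi] at h2
  obtain ⟨t', z, w', -, h3⟩ := h2.take
  exact ⟨t', z, w', h3⟩

/-- Mirrors in the itinerary meet the closed ball of radius `R` (`Run.visit_lim` for the ray of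
`(x₀, u)`, whose points have norm at most `R`, and compactness of the mirror, or just: the limit
point `b` satisfies `‖b‖ ≤ R`), so all their points have norm at most `R + 2 * h`. -/
theorem norm_seg (g : GapData X N R K x₀ u e δ it) {n : ℕ} {i : ι} (hi : i ∈ it n) {z : ℂ}
    (hz : z ∈ X.seg i) : ‖z‖ ≤ R + 2 * X.h := by
  obtain ⟨t, y, u', h1⟩ := g.beam n
  rw [Complex.ofReal_zero, zero_mul, add_zero] at h1
  obtain ⟨b, hb, h2⟩ := h1.visit_lim hi
  have h3 : ‖b‖ ≤ R := by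
    refine le_of_forall_pos_le_add fun η hη => ?_
    obtain ⟨l', t', y', u'', h4, h5⟩ := h2 η hη
    have h6 : ‖y'‖ ≤ R := g.inv.bdd _ (g.inv.fwd _ _ _ _ _ _ g.mem h4)
    have h7 : ‖b‖ ≤ ‖y'‖ + ‖y' - b‖ := by
      have h8 : b = y' - (y' - b) := by ring
      calc ‖b‖ = ‖y' - (y' - b)‖ := by rw [← h8]
        _ ≤ ‖y'‖ + ‖y' - b‖ := norm_sub_le _ _
    linarith
  have h8 : ‖z - X.c i‖ ≤ X.h := (mem_Seg.1 hz).2
  have h9 : ‖b - X.c i‖ ≤ X.h := (mem_Seg.1 hb).2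
  have h10 : ‖z‖ ≤ ‖b‖ + ‖z - X.c i‖ + ‖b - X.c i‖ := by
    have h11 : z = b + (z - X.c i) - (b - X.c i) := by ring
    calc ‖z‖ = ‖b + (z - X.c i) - (b - X.c i)‖ := by rw [← h11]
      _ ≤ ‖b + (z - X.c i)‖ + ‖b - X.c i‖ := norm_sub_le _ _
      _ ≤ ‖b‖ + ‖z - X.c i‖ + ‖b - X.c i‖ := by
          have := norm_add_le b (z - X.c i)
          linarith
  linarith

end GapData

end Mir
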