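import Pool.Agent.H.MP_80ce29_pr.Comp1

/-!
# The deterministic theorem
-/

open Set MeasureTheory Complex Filter Topology
open scoped ComplexConjugate

namespace Mir

variable {ι : Type*} {X : Cfg ι} {N : ℕ}

/-- If the ray of a good direction is bounded then `C` is bounded. Let `P` be the set of first
components of `K0`. It is not empty (`K0_nonempty`), contained in `C`, bounded, open
(`Inv.isOpen`, union over `u`), and closed in the complement of `M` (if `x ∉ M` is a limit of
points of `P`, then, as there are only finitely many velocities (`Rat.B_finite`), there is `u` such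
that `x` is a limit of `y` with `(y, u) ∈ K0`, and `Inv.closed` applies). As `C` is preconnected
and contained in the complement of `M`, `C ⊆ P` (`IsPreconnected.subset_of_closure_inter_subset`
or a clopen argument). -/
theorem bounded_of_good (hX : Rat X N) (h0 : (0 : ℂ) ∉ X.M) {v₀ : ℂ} (hg : Good X N v₀)
    {R : ℝ} (hb : ∀ l t y u, X.Run l t 0 v₀ y u → ‖y‖ ≤ R) : Bornology.IsBounded X.C := by
  have hI : Inv X N R (K0 X v₀) := K0_inv hX h0 hg hb
  have hF := hX.B_finite v₀
  have hvel : ∀ q ∈ K0 X v₀, q.2 ∈ {u | ∃ l, u = X.B l v₀} := by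
    intro q hq
    obtain ⟨l, t, y, -, hr, -⟩ := hq.2 0 1 one_pos
    exact ⟨l, hr.unfold.2⟩
  have hP : {x | ∃ u, (x, u) ∈ K0 X v₀} =
      ⋃ u ∈ {u | ∃ l, u = X.B l v₀}, {x | (x, u) ∈ K0 X v₀} := by
    ext x
    simp only [mem_iUnion, exists_prop]
    constructor
    · rintro ⟨u, hu⟩
      exact ⟨u, hvel _ hu, hu⟩
    · rintro ⟨u, -, hu⟩
      exact ⟨u, hu⟩
  have hopen : IsOpen {x | ∃ u, (x, u) ∈ K0 X v₀} := by
    rw [hP]
    exact isOpen_biUnion fun u _ =>
      hI.isOpen hX (fun q hq => K0_nonSing hX hg hq) u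
  have hsub : X.C ⊆ {x | ∃ u, (x, u) ∈ K0 X v₀} := by
    refine IsPreconnected.subset_of_closure_inter_subset isPreconnected_connectedComponentIn
      hopen ?_ ?_
    · obtain ⟨q, hq⟩ := K0_nonempty hX h0 hg hb
      exact ⟨q.1, K0_subset_C hX h0 hq, q.2, hq⟩
    · rintro x ⟨hx1, hx2⟩
      have hxM : x ∈ X.Mᶜ := connectedComponentIn_subset _ _ hx2
      rw [hP, hF.closure_biUnion] at hx1
      simp only [mem_iUnion, exists_prop] at hx1
      obtain ⟨u, -, hu⟩ := hx1
      refine ⟨u, hI.closed x u hxM fun δ hδ => ?_⟩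
      obtain ⟨y, hy, hd⟩ := Metric.mem_closure_iff.1 hu δ hδ
      refine ⟨y, hy, ?_⟩
      rwa [dist_comm, dist_eq_norm] at hd
  refine (Metric.isBounded_closedBall (x := (0 : ℂ)) (r := R)).subset ?_
  intro x hx
  obtain ⟨u, hu⟩ := hsub hx
  rw [mem_closedBall_zero_iff]
  exact hI.bdd _ hu

/-- The deterministic theorem. -/
theorem escapes_of_good (hX : Rat X N) (h0 : (0 : ℂ) ∉ X.M) {v₀ : ℂ} (hg : Good X N v₀)
    (hC : ¬ Bornology.IsBounded X.C) : X.Escapes v₀ := by
  by_contra hne
  unfold Cfg.Escapes at hne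
  push Not at hne
  obtain ⟨m, hm⟩ := hne
  exact hC (bounded_of_good hX h0 hg fun l t y u h => hm l t y u h)

/-- If the ray of some direction escapes then `C` is unbounded (`Run.mem_comp`). -/
theorem Cfg.Escapes.unbounded (hlf : X.LF) (h0 : (0 : ℂ) ∉ X.M) {v : ℂ} (h : X.Escapes v) :
    ¬ Bornology.IsBounded X.C := by
  intro hb
  obtain ⟨m, hm⟩ := isBounded_iff_forall_norm_le.1 hb
  obtain ⟨l, t, y, u, hr, hy⟩ := h m
  exact absurd (hm y (hr.mem_comp hlf (mem_connectedComponentIn h0))) (not_le.2 hy)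

end Mir
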