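import Pool.Agent.H.MP_80ce29_pr.Fan

/-!
# Runs stay in one component
-/

open Set MeasureTheory Complex Filter Topology
open scoped ComplexConjugate

namespace Mir

variable {ι : Type*} {X : Cfg ι} {N : ℕ}

/-- Two points joined by a free segment are in the same component. -/
theorem mem_comp_of_segment {F : Set ℂ} {x y b : ℂ} (hx : x ∈ connectedComponentIn Fᶜ b)
    (h : segment ℝ x y ⊆ Fᶜ) : y ∈ connectedComponentIn Fᶜ b := by
  rw [connectedComponentIn_eq hx]
  exact (convex_segment x y).isPreconnected.subset_connectedComponentIn (left_mem_segment ℝ x y) h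
    (right_mem_segment ℝ x y)

/-- Around a bounce: let `p` be an inner point of mirror `i` and on no other mirror, `v` transversal.
Then for all small `s > 0` the segment from `p - s * v` to `p + s * (w i * conj v)` is free: the
difference of its end points, `s * (v + w i * conj v)`, is parallel to mirror `i`, so the segment
does not meet the line of `i` (otherwise `p - s * v` would be on it, `OnLine.add_par`); and it is
in the ball of radius `s * ‖v‖` about `p`, which the other mirrors do not meet for small `s`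
(`LF.isClosed_sub`). -/
theorem free_segment_bounce (hlf : X.LF) {i : ι} {p v : ℂ} (hp : p ∈ X.inner i)
    (ho : ∀ j ∈ X.S, j ≠ i → p ∉ X.seg j) (hv : ¬ Par (X.w i) v) :
    ∃ s₀ > 0, ∀ s ∈ Ioo (0 : ℝ) s₀,
      segment ℝ (p - (s : ℂ) * v) (p + (s : ℂ) * ((X.w i : ℂ) * conj v)) ⊆ X.Mᶜ := by
  have hA := hlf.isClosed_sub {j | j ≠ i}
  have hpA : p ∈ {z | ∃ j ∈ {j | j ≠ i}, j ∈ X.S ∧ z ∈ X.seg j}ᶜ := by
    rintro ⟨j, hj, hjS, hz⟩
    exact ho j hjS hj hz
  obtain ⟨ε, hε, hball⟩ := Metric.isOpen_iff.1 hA.isOpen_compl p hpA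
  have hn : 0 < ‖v‖ + 1 := by positivity
  refine ⟨ε / (‖v‖ + 1), by positivity, ?_⟩
  rintro s ⟨hs0, hs1⟩ z ⟨a, b, ha, hb, hab, rfl⟩ hz
  rw [lt_div_iff₀ hn] at hs1
  have hpL : OnLine (X.c i) (X.w i) p := ((mem_Inner).1 hp).1
  have hba : (a : ℂ) = 1 - b := by
    have : a = 1 - b := by linarith
    rw [this]
    push_cast
    rfl
  have ez : a • (p - (s : ℂ) * v) + b • (p + (s : ℂ) * ((X.w i : ℂ) * conj v)) =
      (p - (s : ℂ) * v) + ((b * s : ℝ) : ℂ) * (v + (X.w i : ℂ) * conj v) := by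
    rw [real_smul, real_smul, hba]
    push_cast
    ring
  have hz' := hz
  rw [Cfg.mem_M_iff] at hz
  obtain ⟨j, hjS, hz⟩ := hz
  by_cases hji : j = i
  · subst hji
    have h1 : OnLine (X.c j) (X.w j)
        (a • (p - (s : ℂ) * v) + b • (p + (s : ℂ) * ((X.w j : ℂ) * conj v))) :=
      ((mem_Seg).1 hz).1
    rw [ez] at h1
    have hpar : Par (X.w j) (v + (X.w j : ℂ) * conj v) := by
      unfold Par
      rw [map_add, mul_add, refl_refl, add_comm]
    have h2 := h1.add_par (hpar.smul (-(b * s)))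
    have e2 : p - (s : ℂ) * v + ((b * s : ℝ) : ℂ) * (v + (X.w j : ℂ) * conj v) +
        ((-(b * s) : ℝ) : ℂ) * (v + (X.w j : ℂ) * conj v) = p - (s : ℂ) * v := by
      push_cast
      ring
    rw [e2] at h2
    have h3 := hpL.par_sub h2
    have e3 : p - (p - (s : ℂ) * v) = (s : ℂ) * v := by ring
    rw [e3] at h3
    exact hv (h3.of_smul hs0.ne')
  · refine hball ?_ ⟨j, hji, hjS, hz⟩
    rw [mem_ball_iff_norm]
    have e4 : a • (p - (s : ℂ) * v) + b • (p + (s : ℂ) * ((X.w i : ℂ) * conj v)) - p =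
        (b * s : ℝ) * ((X.w i : ℂ) * conj v) - (a * s : ℝ) * v := by
      rw [real_smul, real_smul]
      push_cast
      have : (a : ℂ) + b = 1 := by rw [hba]; ring
      linear_combination p * this
    rw [e4]
    calc ‖((b * s : ℝ) : ℂ) * ((X.w i : ℂ) * conj v) - ((a * s : ℝ) : ℂ) * v‖
        ≤ ‖((b * s : ℝ) : ℂ) * ((X.w i : ℂ) * conj v)‖ + ‖((a * s : ℝ) : ℂ) * v‖ := norm_sub_le _ _
      _ = b * s * ‖v‖ + a * s * ‖v‖ := by
        rw [norm_mul ((b * s : ℝ) : ℂ), norm_refl, norm_mul ((a * s : ℝ) : ℂ), norm_real,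
          norm_real, Real.norm_of_nonneg, Real.norm_of_nonneg] <;> positivity
      _ = s * ‖v‖ := by
        have : b * s * ‖v‖ + a * s * ‖v‖ = (a + b) * (s * ‖v‖) := by ring
        rw [this, hab, one_mul]
      _ < s * (‖v‖ + 1) := by nlinarith
      _ < ε := hs1

/-- A free flight stays in the component. -/
theorem fly_comp_Comp1 {x v b : ℂ} {r : ℝ} (hr : 0 < r)
    (hf : ∀ s ∈ Ioc 0 r, x + (s : ℂ) * v ∉ X.M)
    (hx : ∃ s₀ > 0, ∀ s ∈ Ioo (0 : ℝ) s₀, x + (s : ℂ) * v ∈ connectedComponentIn X.Mᶜ b) :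
    x + (r : ℂ) * v ∈ connectedComponentIn X.Mᶜ b := by
  obtain ⟨s₀, hs₀, h⟩ := hx
  obtain ⟨s, hs1, hs2⟩ : ∃ s, 0 < s ∧ s < min s₀ r := exists_between (lt_min hs₀ hr)
  have h1 := h s ⟨hs1, hs2.trans_le (min_le_left _ _)⟩
  refine mem_comp_of_segment h1 ?_
  rintro z ⟨a, c, ha, hc, hac, rfl⟩
  have hsr : s < r := hs2.trans_le (min_le_right _ _)
  have e : a • (x + (s : ℂ) * v) + c • (x + (r : ℂ) * v) =
      x + ((a * s + c * r : ℝ) : ℂ) * v := by
    rw [real_smul, real_smul]
    push_cast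
    have : (a : ℂ) + c = 1 := by exact_mod_cast congrArg (fun t : ℝ => (t : ℂ)) hac
    linear_combination x * this
  rw [e]
  refine hf _ ⟨?_, ?_⟩
  · have ha' : a = 1 - c := by linarith
    rw [ha']
    nlinarith
  · have ha' : a = 1 - c := by linarith
    rw [ha']
    nlinarith

/-- All points reached by the ray are in the component of its start. General form for an induction:
if all points `x + s * v`, `s > 0` small, are in the component, so is the end of the run. Flights are
free segments; at a bounce use `free_segment_bounce` (the velocity is transversal by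
`bounce_not_par`). -/
theorem Cfg.Run.mem_comp_aux (hlf : X.LF) {l : List ι} {t : ℝ} {x v y u b : ℂ}
    (h : X.Run l t x v y u)
    (hx : ∃ s₀ > 0, ∀ s ∈ Ioo (0 : ℝ) s₀, x + (s : ℂ) * v ∈ connectedComponentIn X.Mᶜ b) :
    y ∈ connectedComponentIn X.Mᶜ b := by
  induction h with
  | fly hr hf => exact fly_comp_Comp1 hr hf hx
  | @bounce x v r i l t y u hr hf hi hp ho hn ih =>
    apply ih
    have hv : ¬ Par (X.w i) v := Cfg.Run.bounce_not_par hr hf hi hp
    obtain ⟨s₁, hs₁, h1⟩ := free_segment_bounce hlf hp ho hv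
    refine ⟨min s₁ r, lt_min hs₁ hr, ?_⟩
    rintro s ⟨hs0, hs⟩
    have hss : s < s₁ := hs.trans_le (min_le_left _ _)
    have hsr : s < r := hs.trans_le (min_le_right _ _)
    refine mem_comp_of_segment ?_ (h1 s ⟨hs0, hss⟩)
    have e : x + (r : ℂ) * v - (s : ℂ) * v = x + ((r - s : ℝ) : ℂ) * v := by
      push_cast
      ring
    rw [e]
    exact fly_comp_Comp1 (by linarith) (fun s' hs' => hf s' ⟨hs'.1, by linarith [hs'.2]⟩) hx

/-- The same for a free start in the component: a short flight is a free segment. -/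
theorem Cfg.Run.mem_comp (hlf : X.LF) {l : List ι} {t : ℝ} {x v y u b : ℂ}
    (h : X.Run l t x v y u) (hx : x ∈ connectedComponentIn X.Mᶜ b) :
    y ∈ connectedComponentIn X.Mᶜ b := by
  refine h.mem_comp_aux hlf ?_
  have hxM : x ∈ X.Mᶜ := connectedComponentIn_subset _ _ hx
  obtain ⟨ε, hε, hball⟩ := Metric.isOpen_iff.1 hlf.isClosed_M.isOpen_compl x hxM
  have hn : 0 < ‖v‖ + 1 := by positivity
  refine ⟨ε / (‖v‖ + 1), by positivity, ?_⟩
  rintro s ⟨hs0, hs1⟩
  rw [lt_div_iff₀ hn] at hs1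
  refine mem_comp_of_segment hx ?_
  refine Subset.trans ((convex_ball x ε).segment_subset (Metric.mem_ball_self hε) ?_) hball
  rw [mem_ball_iff_norm]
  have : x + (s : ℂ) * v - x = (s : ℂ) * v := by ring
  rw [this, norm_mul, norm_real, Real.norm_of_nonneg hs0.le]
  nlinarith [norm_nonneg v]

/-- Points of `K0` are in `C`: they are free and limits of points of `C` (`mem_comp`); a free ball
about the point contains a point of `C`. -/
theorem K0_subset_C (hX : Rat X N) (h0 : (0 : ℂ) ∉ X.M) {v₀ : ℂ} {q : ℂ × ℂ}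
    (hq : q ∈ K0 X v₀) : q.1 ∈ X.C := by
  obtain ⟨hqM, hq⟩ := hq
  obtain ⟨ε, hε, hball⟩ := Metric.isOpen_iff.1 hX.lf.isClosed_M.isOpen_compl q.1 hqM
  obtain ⟨l, t, y, -, hrun, hy⟩ := hq 0 ε hε
  have h1 : y ∈ X.C := hrun.mem_comp hX.lf (mem_connectedComponentIn h0)
  refine mem_comp_of_segment h1 ?_
  refine Subset.trans ((convex_ball q.1 ε).segment_subset ?_ (Metric.mem_ball_self hε)) hball
  rwa [mem_ball_iff_norm]

end Mir
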