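import Pool.Agent.H.MP_80ce29_pr.KSet

/-!
# Almost all directions are good
-/

open Set MeasureTheory Complex Filter Topology
open scoped ComplexConjugate

namespace Mir

variable {ι : Type*} {X : Cfg ι} {N : ℕ}

/-- The solutions of `z ^ N = c` are finitely many. -/
private theorem pow_eq_finite (c : ℂ) (hN : 0 < N) : {z : ℂ | z ^ N = c}.Finite := by
  refine ((Polynomial.nthRoots N c).toFinset.finite_toSet).subset ?_
  intro z hz
  have hz' : z ^ N = c := hz
  simp only [Finset.mem_coe, Multiset.mem_toFinset]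
  exact (Polynomial.mem_nthRoots hN).2 hz'

/-- The `N`-th roots of unity on the circle are countably many. -/
private theorem roots_countable (hN : 0 < N) : {a : Circle | a ^ N = 1}.Countable := by
  have h1 : ((fun a : Circle => (a : ℂ)) ⁻¹' {z : ℂ | z ^ N = 1}).Finite :=
    (pow_eq_finite 1 hN).preimage (Circle.coe_injective.injOn)
  refine (h1.subset ?_).countable
  intro a ha
  have ha' : a ^ N = 1 := ha
  show (a : ℂ) ^ N = 1
  rw [← Circle.coe_pow, ha', Circle.coe_one]

/-- A unit vector is determined by a positive multiple. -/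
private theorem dir_subsingleton (D : ℂ) (a : Circle) :
    {v : ℂ | ‖v‖ = 1 ∧ ∃ r : ℝ, 0 < r ∧ D = (r : ℂ) * ((a : ℂ) * v)}.Subsingleton := by
  rintro v ⟨hv, r, hr, h⟩ v' ⟨hv', r', hr', h'⟩
  have e1 : ‖D‖ = r := by
    rw [h, norm_mul, norm_mul, Circle.norm_coe, hv, Complex.norm_real, Real.norm_eq_abs,
      abs_of_pos hr]
    ring
  have e2 : ‖D‖ = r' := by
    rw [h', norm_mul, norm_mul, Circle.norm_coe, hv', Complex.norm_real, Real.norm_eq_abs,
      abs_of_pos hr']
    ring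
  have e3 : r = r' := by rw [← e1, e2]
  rw [← e3, h] at h'
  have hr0 : (r : ℂ) ≠ 0 := by exact_mod_cast hr.ne'
  exact mul_left_cancel₀ (Circle.coe_ne_zero a) (mul_left_cancel₀ hr0 h')

/-- The same for the conjugate. -/
private theorem dir_conj_subsingleton (D : ℂ) (a : Circle) :
    {v : ℂ | ‖v‖ = 1 ∧ ∃ r : ℝ, 0 < r ∧ D = (r : ℂ) * ((a : ℂ) * conj v)}.Subsingleton := by
  rintro v ⟨hv, r, hr, h⟩ v' ⟨hv', r', hr', h'⟩
  have h1 : conj v = conj v' := by
    refine dir_subsingleton D a ⟨?_, r, hr, h⟩ ⟨?_, r', hr', h'⟩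
    · rw [RCLike.norm_conj, hv]
    · rw [RCLike.norm_conj, hv']
  exact (starRingEnd ℂ).injective h1

/-- Only countably many directions are not good. For transversality: `ζ * conj v = v` and `‖v‖ = 1`
give `v ^ 2 = ζ`, at most two `v` for each of the finitely many `ζ`. For `sep`: for each of the
countably many `(l₁, l₂, τ₁, τ₂, a)` the difference `D = A l₁ τ₁ - A l₂ τ₂` determines `r = ‖D‖`
and hence `v₀ = conj a * D / r` or `conj v₀ = conj a * D / r`. -/
theorem not_good_countable [Countable ι] (hX : Rat X N) :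
    {v : ℂ | ‖v‖ = 1 ∧ ¬ Good X N v}.Countable := by
  have hR := roots_countable hX.pos
  have hV : (insert 0 X.V).Countable := hX.V_countable.insert 0
  have hbig : ((⋃ ζ ∈ {a : Circle | a ^ N = 1}, {v : ℂ | v ^ 2 = (ζ : ℂ)}) ∪
      ⋃ l₁ : List ι, ⋃ l₂ : List ι, ⋃ τ₁ ∈ insert 0 X.V, ⋃ τ₂ ∈ insert 0 X.V,
        ⋃ a ∈ {a : Circle | a ^ N = 1},
        ({v : ℂ | ‖v‖ = 1 ∧ ∃ r : ℝ, 0 < r ∧ X.A l₁ τ₁ - X.A l₂ τ₂ = (r : ℂ) * ((a : ℂ) * v)} ∪
          {v : ℂ | ‖v‖ = 1 ∧ ∃ r : ℝ, 0 < r ∧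
            X.A l₁ τ₁ - X.A l₂ τ₂ = (r : ℂ) * ((a : ℂ) * conj v)})).Countable := by
    refine Countable.union ?_ ?_
    · exact hR.biUnion fun ζ _ => (pow_eq_finite (ζ : ℂ) two_pos).countable
    · refine countable_iUnion fun l₁ => countable_iUnion fun l₂ => ?_
      refine hV.biUnion fun τ₁ _ => hV.biUnion fun τ₂ _ => hR.biUnion fun a _ => ?_
      exact (dir_subsingleton _ a).finite.countable.union
        (dir_conj_subsingleton _ a).finite.countable
  refine hbig.mono ?_
  rintro v ⟨hv, hng⟩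
  by_contra hcon
  rw [mem_union, not_or] at hcon
  obtain ⟨hc1, hc2⟩ := hcon
  apply hng
  refine ⟨hv, ?_, ?_⟩
  · intro ζ hζ hpar
    apply hc1
    refine mem_biUnion (show ζ ∈ {a : Circle | a ^ N = 1} from hζ) ?_
    have hpar' : (ζ : ℂ) * conj v = v := hpar
    show v ^ 2 = (ζ : ℂ)
    have h1 : conj v * v = 1 := by
      rw [mul_comm, Complex.mul_conj, Complex.normSq_eq_norm_sq, hv]
      norm_num
    calc v ^ 2 = v * v := by ring
      _ = ((ζ : ℂ) * conj v) * v := by rw [hpar']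
      _ = (ζ : ℂ) * (conj v * v) := by ring
      _ = ζ := by rw [h1, mul_one]
  · intro l₁ l₂ τ₁ hτ₁ τ₂ hτ₂ a ha r hr
    constructor
    · intro h
      apply hc2
      refine mem_iUnion.2 ⟨l₁, mem_iUnion.2 ⟨l₂, mem_biUnion hτ₁ (mem_biUnion hτ₂
        (mem_biUnion (show a ∈ {a : Circle | a ^ N = 1} from ha) (Or.inl ⟨hv, r, hr, h⟩)))⟩⟩
    · intro h
      apply hc2
      refine mem_iUnion.2 ⟨l₁, mem_iUnion.2 ⟨l₂, mem_biUnion hτ₁ (mem_biUnion hτ₂
        (mem_biUnion (show a ∈ {a : Circle | a ^ N = 1} from ha) (Or.inr ⟨hv, r, hr, h⟩)))⟩⟩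

/-- Almost all angles are good: the preimage of a countable set under `α ↦ exp (α * I)` is
countable, because each fibre is countable (`Complex.exp_eq_exp_iff_exists_int`). -/
theorem ae_good [Countable ι] (hX : Rat X N) :
    ∀ᵐ α : ℝ, Good X N (Complex.exp ((α : ℂ) * I)) := by
  have hc : {α : ℝ | ¬ Good X N (Complex.exp ((α : ℂ) * I))}.Countable := by
    have h1 : {α : ℝ | ¬ Good X N (Complex.exp ((α : ℂ) * I))} ⊆
        ⋃ v ∈ {v : ℂ | ‖v‖ = 1 ∧ ¬ Good X N v}, {α : ℝ | Complex.exp ((α : ℂ) * I) = v} := by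
      intro α hα
      refine mem_biUnion (x := Complex.exp ((α : ℂ) * I)) ?_ rfl
      exact ⟨Complex.norm_exp_ofReal_mul_I α, hα⟩
    refine (Countable.biUnion (not_good_countable hX) ?_).mono h1
    intro v _
    rcases ({α : ℝ | Complex.exp ((α : ℂ) * I) = v}).eq_empty_or_nonempty with he | ⟨α₀, hα₀⟩
    · rw [he]
      exact countable_empty
    · refine (countable_range fun n : ℤ => α₀ + n * (2 * Real.pi)).mono ?_
      intro α hα
      have h2 : Complex.exp ((α : ℂ) * I) = Complex.exp ((α₀ : ℂ) * I) := by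
        rw [show Complex.exp ((α : ℂ) * I) = v from hα,
          show Complex.exp ((α₀ : ℂ) * I) = v from hα₀]
      obtain ⟨n, hn⟩ := Complex.exp_eq_exp_iff_exists_int.1 h2
      refine ⟨n, ?_⟩
      have h3 : ((α : ℂ) - α₀ - n * (2 * Real.pi)) * I = 0 := by
        linear_combination hn
      have h4 : (α : ℂ) - α₀ - n * (2 * Real.pi) = 0 := by
        rcases mul_eq_zero.1 h3 with h | h
        · exact h
        · exact absurd h I_ne_zero
      have h5 : α - α₀ - n * (2 * Real.pi) = 0 := by exact_mod_cast h4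
      show α₀ + n * (2 * Real.pi) = α
      linarith
  have h0 : volume {α : ℝ | ¬ Good X N (Complex.exp ((α : ℂ) * I))} = 0 := hc.measure_zero _
  exact h0

end Mir
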