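import Pool.Agent.H.MP_80ce29_pr.Cut2

/-!
# The deterministic theorem for a coset of the roots of unity
-/

open Set MeasureTheory Complex Filter Topology
open scoped ComplexConjugate

namespace Mir

variable {ι : Type*} {X : Cfg ι} {R : ℝ}

/-- If every direction is a root of unity (of an order which depends on the mirror), then
`X.cut R` is rational: the present mirrors are finitely many (`LF.finite_meet`); let `N` be the
product of their orders. -/
theorem rat_cut (hlf : X.LF) (hpos : 0 < X.h) (hgp : X.GP)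
    (hw : ∀ i, ∃ n : ℕ, 0 < n ∧ X.w i ^ n = 1) (R : ℝ) : ∃ N, Rat (X.cut R) N := by
  classical
  choose n hn0 hn using hw
  have hfin : {i | i ∈ X.S ∧ ∃ z ∈ X.seg i, ‖z‖ ≤ R + 1}.Finite := hlf.finite_meet (R + 1)
  refine ⟨∏ i ∈ hfin.toFinset, n i, Finset.prod_pos fun i _ => hn0 i, fun i => ?_, hpos, ?_, ?_⟩
  · by_cases hi : i ∈ (X.cut R).S
    · rw [Cfg.cut_w hi]
      have h1 : n i ∣ ∏ i ∈ hfin.toFinset, n i :=
        Finset.dvd_prod_of_mem _ (hfin.mem_toFinset.2 hi)
      obtain ⟨m, hm⟩ := h1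
      rw [hm, pow_mul, hn i, one_pow]
    · have h1 : (X.cut R).w i = 1 := by
        have h2 : ¬ (i ∈ X.S ∧ ∃ z ∈ X.seg i, ‖z‖ ≤ R + 1) := hi
        simp only [Cfg.cut, if_neg h2]
      rw [h1, one_pow]
  · intro r
    exact (hlf r).subset fun i hi => ⟨Cfg.cut_S_subset hi.1, hi.2⟩
  · rintro i hi j hj hij ⟨z, hz1, hz2⟩
    rw [Cfg.cut_seg hi] at hz1
    rw [Cfg.cut_seg hj] at hz2
    rw [Cfg.cut_w hi, Cfg.cut_w hj]
    exact (hgp i (Cfg.cut_S_subset hi) j (Cfg.cut_S_subset hj) hij z hz1 hz2).1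

private theorem ae_dir_Cut {B : Set ℂ} (hB : B.Countable) :
    ∀ᵐ s ∂(volume : Measure unitInterval), dir s ∉ B := by
  have hc : {α : ℝ | Complex.exp ((α : ℂ) * I) ∈ B}.Countable := by
    have h1 : {α : ℝ | Complex.exp ((α : ℂ) * I) ∈ B} ⊆
        ⋃ v ∈ B, {α : ℝ | Complex.exp ((α : ℂ) * I) = v} := by
      intro α hα
      exact mem_biUnion (x := Complex.exp ((α : ℂ) * I)) hα rfl
    refine (Countable.biUnion hB ?_).mono h1
    intro v _
    rcases ({α : ℝ | Complex.exp ((α : ℂ) * I) = v}).eq_empty_or_nonempty with he | ⟨α₀, hα₀⟩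
    · rw [he]
      exact countable_empty
    · refine (countable_range fun n : ℤ => α₀ + n * (2 * Real.pi)).mono ?_
      intro α hα
      have h2 : Complex.exp ((α : ℂ) * I) = Complex.exp ((α₀ : ℂ) * I) := by
        rw [show Complex.exp ((α : ℂ) * I) = v from hα,
          show Complex.exp ((α₀ : ℂ) * I) = v from hα₀]
      obtain ⟨n, hn⟩ := Complex.exp_eq_exp_iff_exists_int.1 h2
      refine ⟨n, ?_⟩
      have h3 : ((α : ℂ) - α₀ - n * (2 * Real.pi)) * I = 0 := by
        linear_combination hn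
      have h4 : (α : ℂ) - α₀ - n * (2 * Real.pi) = 0 := by
        rcases mul_eq_zero.1 h3 with h | h
        · exact h
        · exact absurd h I_ne_zero
      have h5 : α - α₀ - n * (2 * Real.pi) = 0 := by exact_mod_cast h4
      show α₀ + n * (2 * Real.pi) = α
      linarith
  have h0 : volume {α : ℝ | Complex.exp ((α : ℂ) * I) ∈ B} = 0 := hc.measure_zero _
  have h1 := unitInterval.measurePreserving_coe
  have h2 : ∀ᵐ x : ℝ, Complex.exp (((2 * Real.pi * x : ℝ) : ℂ) * I) ∉ B := by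
    have h4 : volume ((fun x : ℝ => 2 * Real.pi * x) ⁻¹'
        {α : ℝ | Complex.exp ((α : ℂ) * I) ∈ B}) = 0 := by
      rw [Real.volume_preimage_mul_left (by positivity), h0, mul_zero]
    have h5 : {x : ℝ | ¬ Complex.exp (((2 * Real.pi * x : ℝ) : ℂ) * I) ∉ B} =
        (fun x : ℝ => 2 * Real.pi * x) ⁻¹' {α : ℝ | Complex.exp ((α : ℂ) * I) ∈ B} := by
      ext x
      simp only [mem_ofPred_eq, not_not, mem_preimage]
    show volume {x : ℝ | ¬ Complex.exp (((2 * Real.pi * x : ℝ) : ℂ) * I) ∉ B} = 0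
    rw [h5]
    exact h4
  have h3 : ∀ᵐ x ∂(volume.restrict unitInterval : Measure ℝ),
      Complex.exp (((2 * Real.pi * x : ℝ) : ℂ) * I) ∉ B := ae_restrict_of_ae h2
  exact h1.quasiMeasurePreserving.ae h3

/-- The deterministic theorem for mirrors whose directions are, after multiplication by a fixed `ζ`,
roots of unity of any orders. Let `a ^ 2 = ζ` (`a` on the circle) and `Y = X.rot a`, whose
directions `a ^ 2 * X.w i = ζ * X.w i` are roots of unity. For each natural `R`, `Y.cut R` is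
rational (`rat_cut`) with some `N R`, so all unit vectors `v` outside a countable set
(`not_good_countable`) satisfy `Good (Y.cut R) (N R) v`. The set of the `s ∈ [0, 1]` such that
`a * dir s` is bad for some `R` is countable, hence null (`volume` on `unitInterval` has no atoms;
`dir` has countable fibres). For all other `s`: if the orbit of `v = a * dir s` in `Y` were
bounded by some natural `R`, then by `bdd_cut` and `bounded_of_good` `(Y.cut R).C` would be
bounded, so `Y.C` (`bounded_of_cut`) and `X.C` (`bounded_of_rot`) as well. So `Y.Escapes v` and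
`X.Escapes (dir s)` (`Escapes.of_rot`). -/
theorem ae_escapes_coset [Countable ι] (hlf : X.LF) (hpos : 0 < X.h) (hgp : X.GP)
    (h0 : (0 : ℂ) ∉ X.M) (ζ : Circle) (hw : ∀ i, ∃ n : ℕ, 0 < n ∧ (ζ * X.w i) ^ n = 1)
    (hC : ¬ Bornology.IsBounded X.C) :
    ∀ᵐ s ∂(volume : Measure unitInterval), X.Escapes (dir s) := by
  obtain ⟨d, hd⟩ := exists_sq ζ
  have hd1 : ‖d‖ = 1 := norm_sq_root hd
  obtain ⟨a, ha⟩ : ∃ a : Circle, (a : ℂ) = d := ⟨⟨d, mem_sphere_zero_iff_norm.2 hd1⟩, rfl⟩
  have ha2 : a ^ 2 = ζ := by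
    apply Circle.coe_injective
    rw [Circle.coe_pow, ha, hd]
  have hlfY : (X.rot a).LF := hlf.rot a
  have hgpY : (X.rot a).GP := hgp.rot a
  have hwY : ∀ i, ∃ n : ℕ, 0 < n ∧ (X.rot a).w i ^ n = 1 := by
    intro i
    obtain ⟨n, hn, h⟩ := hw i
    refine ⟨n, hn, ?_⟩
    show (a ^ 2 * X.w i) ^ n = 1
    rw [ha2]
    exact h
  have h0Y : (0 : ℂ) ∉ (X.rot a).M := by
    have h1 := Cfg.mem_M_rot (X := X) a (z := 0)
    rw [mul_zero] at h1
    rwa [h1]
  have hR : ∀ k : ℕ, ∃ N, Rat ((X.rot a).cut k) N := fun k =>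
    rat_cut hlfY hpos hgpY hwY k
  choose N hN using hR
  have hB : {v : ℂ | ∃ k : ℕ, ‖(a : ℂ) * v‖ = 1 ∧
      ¬ Good ((X.rot a).cut k) (N k) ((a : ℂ) * v)}.Countable := by
    have h1 : (⋃ k : ℕ, {v : ℂ | ‖v‖ = 1 ∧ ¬ Good ((X.rot a).cut k) (N k) v}).Countable :=
      countable_iUnion fun k => not_good_countable (hN k)
    have hinj : Function.Injective fun v : ℂ => (a : ℂ) * v :=
      mul_right_injective₀ (Circle.coe_ne_zero a)
    refine (h1.preimage hinj).mono ?_
    rintro v ⟨k, hk⟩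
    exact mem_iUnion.2 ⟨k, hk⟩
  filter_upwards [ae_dir_Cut hB] with s hs
  have hds : ‖(a : ℂ) * dir s‖ = 1 := by
    rw [norm_mul, Circle.norm_coe, one_mul]
    exact Complex.norm_exp_ofReal_mul_I _
  have hgood : ∀ k : ℕ, Good ((X.rot a).cut k) (N k) ((a : ℂ) * dir s) := by
    intro k
    by_contra hne
    exact hs ⟨k, hds, hne⟩
  refine Cfg.Escapes.of_rot a ?_
  by_contra hne
  unfold Cfg.Escapes at hne
  push Not at hne
  obtain ⟨m, hm⟩ := hne
  obtain ⟨k, hk⟩ := exists_nat_ge m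
  apply hC
  refine Cfg.bounded_of_rot a (Cfg.bounded_of_cut (R := (k : ℝ)) ?_)
  refine bounded_of_good (R := (k : ℝ)) (hN k) (fun h => h0Y (Cfg.cut_M_subset h)) (hgood k) ?_
  exact Cfg.bdd_cut (Nat.cast_nonneg k) hds fun l t y u h => (hm l t y u h).trans hk

end Mir
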