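import Pool.Agent.H.MP_80ce29_pr.Defs

/-!
# The Poisson mirror model (definitions)

The Poisson point process of intensity `1` in the plane is constructed in the usual way: the
numbers of points in the unit cells `[a, a + 1] × [b, b + 1]`, `a, b ∈ ℤ`, are independent Poisson
variables with mean `1`, and the points of a cell are independent and uniform in the cell. The
directions `w = exp (2 i θ)` of the mirrors are independent with law `μ`.
-/

open Set MeasureTheory Complex Filter Topology
open scoped ComplexConjugate ENNReal

namespace Mir

/-- The Borel sets of the circle. -/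
noncomputable instance instMeasurableSpaceCircle : MeasurableSpace Circle := borel Circle

instance instBorelSpaceCircle : BorelSpace Circle := ⟨rfl⟩

/-- Labels: the cell and the number of the point in the cell. -/
abbrev Idx := (ℤ × ℤ) × ℕ

/-- Number of points in each cell, and positions relative to the lower left corner. -/
abbrev Base := (ℤ × ℤ → ℕ) × (Idx → unitInterval × unitInterval)

/-- Sample space: the points and the directions. -/
abbrev Sample := Base × (Idx → Circle)

/-- The configuration of mirrors of length `ε`. -/
noncomputable def cfg (ω : Sample) (ε : ℝ) : Cfg Idx where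
  S := {i | i.2 < ω.1.1 i.1}
  c := fun i => ((((i.1.1 : ℝ) + (ω.1.2 i).1 : ℝ) : ℂ) + (((i.1.2 : ℝ) + (ω.1.2 i).2 : ℝ) : ℂ) * I)
  w := ω.2
  h := ε / 2

/-- The law of the points. -/
noncomputable def baseLaw : Measure Base :=
  (Measure.infinitePi fun _ : ℤ × ℤ => ProbabilityTheory.poissonMeasure 1).prod
    (Measure.infinitePi fun _ : Idx => (volume : Measure (unitInterval × unitInterval)))

/-- The law of the configuration, when the directions have law `μ`. -/
noncomputable def law (μ : ProbabilityMeasure Circle) : Measure Sample :=
  baseLaw.prod (Measure.infinitePi fun _ : Idx => (μ : Measure Circle))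

/-- The unit vector with angle `2 π s` to the horizontal. -/
noncomputable def dir (s : unitInterval) : ℂ := Complex.exp (((2 * Real.pi * s : ℝ) : ℂ) * I)

/-- The samples for which the component of `0` is unbounded. -/
def unbddSet (ε : ℝ) : Set Sample := {ω | ¬ Bornology.IsBounded (cfg ω ε).C}

/-- The samples for which some ray from `0` is unbounded. -/
def escapeSet (ε : ℝ) : Set Sample :=
  {ω | ∃ α : ℝ, (cfg ω ε).Escapes (Complex.exp ((α : ℂ) * I))}

/-- The critical length of needle percolation. -/
noncomputable def epsC (μ : ProbabilityMeasure Circle) : ℝ≥0∞ :=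
  sInf {e | ∃ ε : ℝ, 0 < ε ∧ e = ENNReal.ofReal ε ∧ law μ (unbddSet ε) = 0}

/-- The critical length for light rays. -/
noncomputable def epsC' (μ : ProbabilityMeasure Circle) : ℝ≥0∞ :=
  sInf {e | ∃ ε : ℝ, 0 < ε ∧ e = ENNReal.ofReal ε ∧ law μ (escapeSet ε) = 0}

/-- The law is rational: all directions are `N`-th roots of unity, that is the angles of the
mirrors are multiples of `π / N`. -/
def IsRat (μ : ProbabilityMeasure Circle) : Prop :=
  ∃ N : ℕ, 0 < N ∧ ∀ᵐ w ∂(μ : Measure Circle), w ^ N = 1

/-- Almost surely: if `C` is unbounded then almost every ray from `0` is unbounded. -/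
def AllEscape (μ : ProbabilityMeasure Circle) (ε : ℝ) : Prop :=
  ∀ᵐ ω ∂(law μ), ¬ Bornology.IsBounded (cfg ω ε).C →
    ∀ᵐ s ∂(volume : Measure unitInterval), (cfg ω ε).Escapes (dir s)

instance : IsProbabilityMeasure baseLaw := by
  unfold baseLaw; infer_instance

instance (μ : ProbabilityMeasure Circle) : IsProbabilityMeasure (law μ) := by
  unfold law; infer_instance

end Mir
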