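import Pool.Agent.H.MP_80ce29_pr.Rot
import Pool.Agent.H.MP_80ce29_pr.Model0

/-!
# Removing the mirrors far away
-/

open Set MeasureTheory Complex Filter Topology
open scoped ComplexConjugate

namespace Mir

variable {ι : Type*}

/-- Only the mirrors which meet the closed ball of radius `R + 1` are kept. (The directions of the
absent mirrors are set to `1`.) -/
noncomputable def Cfg.cut (X : Cfg ι) (R : ℝ) : Cfg ι where
  S := {i | i ∈ X.S ∧ ∃ z ∈ X.seg i, ‖z‖ ≤ R + 1}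
  c := X.c
  w := fun i => by
    classical
    exact if i ∈ X.S ∧ ∃ z ∈ X.seg i, ‖z‖ ≤ R + 1 then X.w i else 1
  h := X.h

variable {X : Cfg ι} {R : ℝ}

theorem Cfg.cut_S_subset : (X.cut R).S ⊆ X.S := fun _ h => h.1

theorem Cfg.cut_w {i : ι} (h : i ∈ (X.cut R).S) : (X.cut R).w i = X.w i := by
  have h' : i ∈ X.S ∧ ∃ z ∈ X.seg i, ‖z‖ ≤ R + 1 := h
  simp only [Cfg.cut]
  exact if_pos h'

theorem Cfg.cut_seg {i : ι} (h : i ∈ (X.cut R).S) : (X.cut R).seg i = X.seg i := by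
  show Seg (X.c i) ((X.cut R).w i) X.h = Seg (X.c i) (X.w i) X.h
  rw [Cfg.cut_w h]

theorem Cfg.cut_inner {i : ι} (h : i ∈ (X.cut R).S) : (X.cut R).inner i = X.inner i := by
  show Inner (X.c i) ((X.cut R).w i) X.h = Inner (X.c i) (X.w i) X.h
  rw [Cfg.cut_w h]

theorem Cfg.cut_M_subset : (X.cut R).M ⊆ X.M := by
  intro z hz
  simp only [Cfg.M, mem_iUnion] at hz ⊢
  obtain ⟨i, hi, hzi⟩ := hz
  rw [Cfg.cut_seg hi] at hzi
  exact ⟨i, Cfg.cut_S_subset hi, hzi⟩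

/-- In the closed ball of radius `R + 1` the two sets of mirrors agree. -/
theorem Cfg.mem_cut_M {z : ℂ} (hz : ‖z‖ ≤ R + 1) : z ∈ (X.cut R).M ↔ z ∈ X.M := by
  refine ⟨fun h => Cfg.cut_M_subset h, fun h => ?_⟩
  simp only [Cfg.M, mem_iUnion] at h ⊢
  obtain ⟨i, hi, hzi⟩ := h
  have hi' : i ∈ (X.cut R).S := ⟨hi, z, hzi, hz⟩
  refine ⟨i, hi', ?_⟩
  rw [Cfg.cut_seg hi']
  exact hzi

/-- Fewer mirrors, larger component: `connectedComponentIn_mono`. -/
theorem Cfg.bounded_of_cut (h : Bornology.IsBounded (X.cut R).C) : Bornology.IsBounded X.C := by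
  refine h.subset ?_
  unfold Cfg.C
  exact connectedComponentIn_mono 0 (compl_subset_compl.2 Cfg.cut_M_subset)

end Mir
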