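import Pool.Agent.H.MP_80ce29_pr.Cut1

/-!
# Runs after removing the mirrors far away
-/

open Set MeasureTheory Complex Filter Topology
open scoped ComplexConjugate

namespace Mir

variable {ι : Type*} {X : Cfg ι} {R : ℝ}

/-- On a segment which starts in the ball of radius `R` and passes a point of norm `> R + 1 / 2`
there is an earlier point of norm `> R` such that the flight up to it is free for `X`. -/
theorem Cfg.cut2_exit {x v : ℂ} {r s₀ : ℝ} (hx : ‖x‖ ≤ R)
    (hf : ∀ s ∈ Ioo 0 r, x + (s : ℂ) * v ∉ (X.cut R).M) (h0 : 0 < s₀) (h1 : s₀ ≤ r)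
    (h2 : R + 1 / 2 < ‖x + (s₀ : ℂ) * v‖) :
    ∃ l' t' y' u', X.Run l' t' x v y' u' ∧ R < ‖y'‖ := by
  have hc : Continuous fun s : ℝ => ‖x + (s : ℂ) * v‖ := by fun_prop
  have h3 : R + 1 / 2 ∈ Icc ‖x + ((0 : ℝ) : ℂ) * v‖ ‖x + (s₀ : ℂ) * v‖ := by
    refine ⟨?_, h2.le⟩
    rw [Complex.ofReal_zero, zero_mul, add_zero]
    linarith
  obtain ⟨s₁, ⟨h4, h5⟩, h6⟩ := intermediate_value_Icc h0.le hc.continuousOn h3
  simp only at h6
  have h7 : 0 < s₁ := by
    rcases h4.lt_or_eq with h | h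
    · exact h
    · rw [← h, Complex.ofReal_zero, zero_mul, add_zero] at h6
      linarith
  have h8 : s₁ < s₀ := by
    rcases h5.lt_or_eq with h | h
    · exact h
    · rw [h] at h6
      linarith
  refine ⟨[], s₁, x + (s₁ : ℂ) * v, v, Cfg.Run.fly h7 fun s hs => ?_, by linarith⟩
  have h9 : ‖x + (s : ℂ) * v‖ ≤ R + 1 / 2 := by
    have e1 : x + (s : ℂ) * v = ((1 - s / s₁ : ℝ) : ℂ) * x +
        ((s / s₁ : ℝ) : ℂ) * (x + (s₁ : ℂ) * v) := by
      have : (s₁ : ℂ) ≠ 0 := by exact_mod_cast h7.ne'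
      push_cast
      field_simp
      ring
    have e2 : 0 ≤ s / s₁ := div_nonneg hs.1.le h7.le
    have e3 : 0 ≤ 1 - s / s₁ := by
      rw [sub_nonneg, div_le_one h7]
      exact hs.2
    rw [e1]
    refine (norm_add_le _ _).trans ?_
    rw [norm_mul, norm_mul, Complex.norm_real, Complex.norm_real, Real.norm_of_nonneg e2,
      Real.norm_of_nonneg e3, h6]
    nlinarith
  intro h10
  refine hf s ⟨hs.1, by linarith [hs.2]⟩ ((Cfg.mem_cut_M (by linarith)).2 h10)

/-- Comparison of runs. Let a run of `X.cut R` start at a point `x` with `‖x‖ ≤ R`, `‖v‖ = 1`. Then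
it is a run of `X`, or some run of `X` from `(x, v)` ends at a point of norm `> R`. Induction.

* fly `r`: if `‖x + s * v‖ ≤ R + 1 / 2` for all `s ∈ [0, r]` then the flight is free for `X`
  (`mem_cut_M`), so it is a run of `X`. Otherwise let `s` be the first time with
  `‖x + s * v‖ = R + 1 / 2` (intermediate value theorem, infimum of a closed set); the flight of
  length `s` is free for `X` and ends at norm `R + 1 / 2 > R`.
* bounce after `r` at `i`: if `‖x + s * v‖ > R + 1 / 2` for some `s ∈ [0, r]`, as before. Otherwise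
  `(0, r)` is free for `X`, `p = x + r * v` is an inner point of `i`, and on no other mirror of
  `X`: a mirror of `X` through `p` meets the ball of radius `R + 1`, so it is in `(X.cut R).S`. If
  `‖p‖ > R`: the flight of length `r - ρ`, `ρ > 0` small, ends at norm `> R`. If `‖p‖ ≤ R`:
  induction hypothesis for the rest, and put the bounce in front in both cases. -/
theorem Cfg.Run.of_cut {l : List ι} {t : ℝ} {x v y u : ℂ} (h : (X.cut R).Run l t x v y u)
    (hx : ‖x‖ ≤ R) (hv : ‖v‖ = 1) :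
    X.Run l t x v y u ∨ ∃ l' t' y' u', X.Run l' t' x v y' u' ∧ R < ‖y'‖ := by
  induction h with
  | @fly x v r hr hf =>
    by_cases hex : ∃ s₀ : ℝ, 0 < s₀ ∧ s₀ ≤ r ∧ R + 1 / 2 < ‖x + (s₀ : ℂ) * v‖
    · obtain ⟨s₀, h0, h1, h2⟩ := hex
      exact Or.inr (Cfg.cut2_exit hx (fun s hs => hf s ⟨hs.1, hs.2.le⟩) h0 h1 h2)
    · push Not at hex
      refine Or.inl (Cfg.Run.fly hr fun s hs hM => ?_)
      exact hf s hs ((Cfg.mem_cut_M (by linarith [hex s hs.1 hs.2])).2 hM)
  | @bounce x v r i l t y u hr hf hi hp ho hn ih =>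
    by_cases hex : ∃ s₀ : ℝ, 0 < s₀ ∧ s₀ ≤ r ∧ R + 1 / 2 < ‖x + (s₀ : ℂ) * v‖
    · obtain ⟨s₀, h0, h1, h2⟩ := hex
      exact Or.inr (Cfg.cut2_exit hx hf h0 h1 h2)
    · push Not at hex
      have hfX : ∀ s ∈ Ioo 0 r, x + (s : ℂ) * v ∉ X.M := fun s hs hM =>
        hf s hs ((Cfg.mem_cut_M (by linarith [hex s hs.1 hs.2.le])).2 hM)
      have hpR : ‖x + (r : ℂ) * v‖ ≤ R + 1 := by linarith [hex r hr le_rfl]
      rw [Cfg.cut_inner hi] at hp
      rw [Cfg.cut_w hi] at hn ih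
      have hoX : ∀ j ∈ X.S, j ≠ i → x + (r : ℂ) * v ∉ X.seg j := by
        intro j hj hji hjs
        have hjc : j ∈ (X.cut R).S := ⟨hj, _, hjs, hpR⟩
        refine ho j hjc hji ?_
        rw [Cfg.cut_seg hjc]
        exact hjs
      rcases le_or_gt ‖x + (r : ℂ) * v‖ R with hpn | hpn
      · rcases ih hpn (by rw [norm_refl, hv]) with h1 | ⟨l', t', y', u', h1, h2⟩
        · exact Or.inl (Cfg.Run.bounce hr hfX hi.1 hp hoX h1)
        · exact Or.inr ⟨i :: l', r + t', y', u', Cfg.Run.bounce hr hfX hi.1 hp hoX h1, h2⟩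
      · refine Or.inr ?_
        obtain ⟨ρ, h0, h1, h2⟩ : ∃ ρ : ℝ, 0 < ρ ∧ ρ < r ∧ ρ < ‖x + (r : ℂ) * v‖ - R := by
          refine ⟨min (r / 2) ((‖x + (r : ℂ) * v‖ - R) / 2),
            lt_min (by linarith) (by linarith), ?_, ?_⟩
          · exact (min_le_left _ _).trans_lt (by linarith)
          · exact (min_le_right _ _).trans_lt (by linarith)
        refine ⟨[], r - ρ, x + ((r - ρ : ℝ) : ℂ) * v, v, Cfg.Run.fly (by linarith) fun s hs =>
          hfX s ⟨hs.1, by linarith [hs.2]⟩, ?_⟩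
        have e1 : x + (r : ℂ) * v = (x + ((r - ρ : ℝ) : ℂ) * v) + (ρ : ℂ) * v := by
          push_cast
          ring
        have e2 : ‖x + (r : ℂ) * v‖ ≤ ‖x + ((r - ρ : ℝ) : ℂ) * v‖ + ρ := by
          conv_lhs => rw [e1]
          refine (norm_add_le _ _).trans ?_
          rw [norm_mul, Complex.norm_real, Real.norm_of_nonneg h0.le, hv, mul_one]
        linarith

/-- If the orbit in `X` is bounded by `R ≥ 0`, so is the orbit in `X.cut R`. -/
theorem Cfg.bdd_cut {v : ℂ} (hR : 0 ≤ R) (hv : ‖v‖ = 1)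
    (hb : ∀ l t y u, X.Run l t 0 v y u → ‖y‖ ≤ R) :
    ∀ l t y u, (X.cut R).Run l t 0 v y u → ‖y‖ ≤ R := by
  intro l t y u h
  rcases h.of_cut (by rw [norm_zero]; exact hR) hv with h1 | ⟨l', t', y', u', h1, h2⟩
  · exact hb _ _ _ _ h1
  · exact absurd (hb _ _ _ _ h1) (not_le.2 h2)

end Mir
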