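import Mathlib

/-!
# Poisson mirrors (MP_80ce29): definitions

Directions of lines are encoded by the unit complex number `w = exp (2 i θ)`, where `θ` is the
angle to the horizontal.
-/

open Set MeasureTheory Complex Filter Topology
open scoped ComplexConjugate

namespace Mir

/-- The closed segment of half length `h` centred at `c`, whose direction `d` satisfies
`d ^ 2 = w`. -/
def Seg (c : ℂ) (w : Circle) (h : ℝ) : Set ℂ :=
  {x | ∃ d : ℂ, d ^ 2 = (w : ℂ) ∧ ∃ s : ℝ, |s| ≤ h ∧ x = c + s * d}

/-- The same segment without its two end points. -/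
def Inner (c : ℂ) (w : Circle) (h : ℝ) : Set ℂ :=
  {x | ∃ d : ℂ, d ^ 2 = (w : ℂ) ∧ ∃ s : ℝ, |s| < h ∧ x = c + s * d}

/-- A configuration of mirrors, all of the same half length `h`. The mirrors are labelled by
`ι`; only those with label in `S` are present. Mirror `i` has centre `c i` and direction `w i`. -/
structure Cfg (ι : Type*) where
  /-- labels of the mirrors which are present -/
  S : Set ι
  /-- centres -/
  c : ι → ℂ
  /-- directions, `w i = exp (2 i θ)` -/
  w : ι → Circle
  /-- half length of the mirrors -/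
  h : ℝ

variable {ι : Type*}

namespace Cfg

variable (X : Cfg ι)

/-- Mirror `i` as a subset of the plane. -/
def seg (i : ι) : Set ℂ := Seg (X.c i) (X.w i) X.h

/-- Mirror `i` without its two end points. -/
def inner (i : ι) : Set ℂ := Inner (X.c i) (X.w i) X.h

/-- The union of all mirrors. -/
def M : Set ℂ := ⋃ i ∈ X.S, X.seg i

/-- The connected component of the complement of the mirrors which contains `0`. -/
def C : Set ℂ := connectedComponentIn X.Mᶜ 0

/-- `X.Run l t x v y u`: the light ray which leaves `x` with velocity `v` reaches at time `t > 0`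
the point `y`, which is on no mirror, with velocity `u`; on the way it is reflected by the mirrors
of the list `l`, in this order, each time in an interior point of this mirror which lies on no
other mirror. -/
inductive Run : List ι → ℝ → ℂ → ℂ → ℂ → ℂ → Prop
  | fly {x v : ℂ} {r : ℝ} (hr : 0 < r) (hf : ∀ s ∈ Ioc 0 r, x + (s : ℂ) * v ∉ X.M) :
      Run [] r x v (x + (r : ℂ) * v) v
  | bounce {x v : ℂ} {r : ℝ} {i : ι} {l : List ι} {t : ℝ} {y u : ℂ} (hr : 0 < r)
      (hf : ∀ s ∈ Ioo 0 r, x + (s : ℂ) * v ∉ X.M) (hi : i ∈ X.S)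
      (hp : x + (r : ℂ) * v ∈ X.inner i)
      (ho : ∀ j ∈ X.S, j ≠ i → x + (r : ℂ) * v ∉ X.seg j)
      (hn : Run l t (x + (r : ℂ) * v) ((X.w i : ℂ) * conj v) y u) :
      Run (i :: l) (r + t) x v y u

/-- The light ray which leaves `0` with velocity `v` is unbounded. -/
def Escapes (v : ℂ) : Prop := ∀ m : ℝ, ∃ l t y u, X.Run l t 0 v y u ∧ m < ‖y‖

end Cfg

end Mir
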