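import Pool.Agent.H.MP_80ce29_pr.Model0

/-!
# Density of the rational laws
-/

open Set MeasureTheory Complex Filter Topology
open scoped ComplexConjugate ENNReal

namespace Mir

private theorem continuous_coe_Dens : Continuous fun w : Circle => (w : ℂ) := by
  fun_prop

private theorem dist_exp_le (a b : ℝ) : dist (Circle.exp a) (Circle.exp b) ≤ |a - b| := by
  show dist ((Circle.exp a : Circle) : ℂ) ((Circle.exp b : Circle) : ℂ) ≤ |a - b|
  rw [Circle.coe_exp, Circle.coe_exp, dist_eq_norm]
  have h : Complex.exp (a * I) - Complex.exp (b * I) =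
      Complex.exp (b * I) * (Complex.exp (I * ((a - b : ℝ) : ℂ)) - 1) := by
    rw [mul_sub, mul_one, ← Complex.exp_add]
    congr 2
    push_cast
    ring
  rw [h, norm_mul, Complex.norm_exp_ofReal_mul_I, one_mul]
  exact Real.norm_exp_I_mul_ofReal_sub_one_le

/-- Rounding on the circle: there is a measurable map `r` with `r w ^ N = 1` and
`‖r w - w‖ ≤ 2 * π / N` (as complex numbers): `r w = exp (2 π i ⌊N arg w / (2 π)⌋ / N)`. -/
theorem exists_round {N : ℕ} (hN : 0 < N) : ∃ r : Circle → Circle, Measurable r ∧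
    (∀ w, r w ^ N = 1) ∧ ∀ w, dist (r w) w ≤ 2 * Real.pi / N := by
  have hNR : (0 : ℝ) < N := by exact_mod_cast hN
  have hpi := Real.pi_pos
  refine ⟨fun w => Circle.exp (2 * Real.pi * (⌊(N : ℝ) * Complex.arg (w : ℂ) / (2 * Real.pi)⌋ : ℤ) / N),
    ?_, ?_, ?_⟩
  · have h1 : Measurable fun w : Circle => Complex.arg (w : ℂ) :=
      Complex.measurable_arg.comp (continuous_coe_Dens.measurable)
    have h2 : Measurable fun w : Circle =>
        (⌊(N : ℝ) * Complex.arg (w : ℂ) / (2 * Real.pi)⌋ : ℤ) :=
      ((h1.const_mul _).div_const _).floor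
    have h3 : Measurable fun w : Circle =>
        (((⌊(N : ℝ) * Complex.arg (w : ℂ) / (2 * Real.pi)⌋ : ℤ) : ℝ)) :=
      (measurable_of_countable (fun n : ℤ => (n : ℝ))).comp h2
    exact Circle.exp.continuous.measurable.comp ((h3.const_mul _).div_const _)
  · intro w
    have h1 : ∀ (x : ℝ) (n : ℕ), Circle.exp x ^ n = Circle.exp (n * x) := by
      intro x n
      induction n with
      | zero => simp
      | succ n ih => rw [pow_succ, ih, ← Circle.exp_add]; congr 1; push_cast; ring
    rw [h1]
    have h2 : (N : ℝ) * (2 * Real.pi *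
        (⌊(N : ℝ) * Complex.arg (w : ℂ) / (2 * Real.pi)⌋ : ℤ) / N) =
        (⌊(N : ℝ) * Complex.arg (w : ℂ) / (2 * Real.pi)⌋ : ℤ) * (2 * Real.pi) := by
      field_simp
    rw [h2]
    exact Circle.exp_int_mul_two_pi _
  · intro w
    set t : ℝ := (N : ℝ) * Complex.arg (w : ℂ) / (2 * Real.pi) with ht
    have h1 : dist (Circle.exp (2 * Real.pi * (⌊t⌋ : ℤ) / N)) w =
        dist (Circle.exp (2 * Real.pi * (⌊t⌋ : ℤ) / N)) (Circle.exp (Complex.arg (w : ℂ))) := by
      rw [Circle.exp_arg]
    show dist (Circle.exp (2 * Real.pi * (⌊t⌋ : ℤ) / N)) w ≤ 2 * Real.pi / N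
    rw [h1]
    refine (dist_exp_le _ _).trans ?_
    have h2 : 2 * Real.pi * (⌊t⌋ : ℤ) / N - Complex.arg (w : ℂ) =
        -(2 * Real.pi / N * (t - (⌊t⌋ : ℤ))) := by
      rw [ht]
      field_simp
      ring
    rw [h2, abs_neg, abs_of_nonneg (mul_nonneg (by positivity) (sub_nonneg.2 (Int.floor_le t)))]
    have h3 : t - (⌊t⌋ : ℤ) ≤ 1 := by linarith [Int.lt_floor_add_one t]
    calc 2 * Real.pi / N * (t - (⌊t⌋ : ℤ)) ≤ 2 * Real.pi / N * 1 := by gcongr
      _ = 2 * Real.pi / N := mul_one _

private theorem tendsto_two_pi_div : Tendsto (fun n : ℕ => 2 * Real.pi / ((n + 1 : ℕ) : ℝ)) atTop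
    (𝓝 0) :=
  (tendsto_const_div_atTop_nhds_zero_nat (2 * Real.pi)).comp (tendsto_add_atTop_nat 1)

/-- The rational laws are dense. For `μ` let `μ N` be the image under the rounding map: it is
rational, and `∫ f d(μ N) = ∫ f (r w) dμ(w) → ∫ f dμ` for bounded continuous `f` by dominated
convergence (`ProbabilityMeasure.tendsto_iff_forall_integral_tendsto`). -/
theorem dense_isRat : Dense {μ : ProbabilityMeasure Circle | IsRat μ} := by
  intro μ
  choose r hr1 hr2 hr3 using fun n : ℕ => exists_round (N := n + 1) (Nat.succ_pos n)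
  have hlim : ∀ w, Tendsto (fun n => r n w) atTop (𝓝 w) := by
    intro w
    rw [tendsto_iff_dist_tendsto_zero]
    exact squeeze_zero (fun n => dist_nonneg) (fun n => hr3 n w) tendsto_two_pi_div
  have ht : Tendsto (fun n => μ.map (hr1 n).aemeasurable) atTop (𝓝 μ) := by
    rw [ProbabilityMeasure.tendsto_iff_forall_integral_tendsto]
    intro f
    have h1 : ∀ n, ∫ w, f w ∂((μ.map (hr1 n).aemeasurable : ProbabilityMeasure Circle) :
        Measure Circle) = ∫ w, f (r n w) ∂(μ : Measure Circle) := by
      intro n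
      rw [ProbabilityMeasure.toMeasure_map]
      exact integral_map (hr1 n).aemeasurable f.continuous.measurable.aestronglyMeasurable
    simp only [h1]
    refine tendsto_integral_of_dominated_convergence (fun _ => ‖f‖) ?_ ?_ ?_ ?_
    · intro n
      exact (f.continuous.measurable.comp (hr1 n)).aestronglyMeasurable
    · exact integrable_const _
    · intro n
      exact Eventually.of_forall fun w => f.norm_coe_le_norm _
    · exact Eventually.of_forall fun w => (f.continuous.tendsto w).comp (hlim w)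
  refine mem_closure_of_tendsto ht (Eventually.of_forall fun n => ?_)
  refine ⟨n + 1, Nat.succ_pos n, ?_⟩
  rw [ProbabilityMeasure.toMeasure_map]
  have hm : MeasurableSet {w : Circle | w ^ (n + 1) = 1} :=
    (isClosed_eq (continuous_pow (n + 1)) continuous_const).measurableSet
  rw [ae_map_iff (hr1 n).aemeasurable hm]
  exact Eventually.of_forall fun w => hr2 n w

/-- The law with finitely many directions `w j`, which occur with probabilities `p j`. -/
noncomputable def mixLaw {n : ℕ} (p : Fin n → NNReal) (hp : ∑ j, p j = 1) (w : Fin n → Circle) :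
    ProbabilityMeasure Circle :=
  ⟨∑ j, (p j : ℝ≥0∞) • Measure.dirac (w j), ⟨by
    simp only [Measure.coe_finsetSum, Finset.sum_apply, Measure.smul_apply, smul_eq_mul,
      measure_univ, mul_one]
    exact_mod_cast hp⟩⟩

/-- `w ↦ mixLaw p hp w` is continuous: `∫ f d(mixLaw) = ∑ j, p j * f (w j)`. -/
theorem continuous_mixLaw {n : ℕ} (p : Fin n → NNReal) (hp : ∑ j, p j = 1) :
    Continuous (mixLaw p hp) := by
  rw [continuous_iff_continuousAt]
  intro w₀
  unfold ContinuousAt
  rw [ProbabilityMeasure.tendsto_iff_forall_integral_tendsto]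
  intro f
  have h1 : ∀ w : Fin n → Circle, ∫ x, f x ∂((mixLaw p hp w : ProbabilityMeasure Circle) :
      Measure Circle) = ∑ j, (p j : ℝ) * f (w j) := by
    intro w
    show ∫ x, f x ∂(∑ j, (p j : ℝ≥0∞) • Measure.dirac (w j)) = _
    rw [integral_finsetSum_measure]
    · refine Finset.sum_congr rfl fun j _ => ?_
      rw [integral_smul_measure, integral_dirac]
      simp
    · intro j _
      exact (integrable_dirac (by simp)).smul_measure (by simp)
  simp only [h1]
  have h2 : Continuous fun w : Fin n → Circle => ∑ j, (p j : ℝ) * f (w j) := by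
    refine continuous_finsetSum _ fun j _ => ?_
    exact continuous_const.mul (f.continuous.comp (continuous_apply j))
  exact h2.tendsto w₀

/-- Roots of unity are dense in the circle (e.g. `exists_round` for the point `w`). -/
theorem dense_roots : Dense {w : Circle | ∃ N : ℕ, 0 < N ∧ w ^ N = 1} := by
  intro w
  choose r hr1 hr2 hr3 using fun n : ℕ => exists_round (N := n + 1) (Nat.succ_pos n)
  have hlim : Tendsto (fun n => r n w) atTop (𝓝 w) := by
    rw [tendsto_iff_dist_tendsto_zero]
    exact squeeze_zero (fun n => dist_nonneg) (fun n => hr3 n w) tendsto_two_pi_div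
  exact mem_closure_of_tendsto hlim
    (Eventually.of_forall fun n => ⟨n + 1, Nat.succ_pos n, hr2 n w⟩)

/-- The `w` such that the law with finitely many directions is rational are dense: if all `w j` are
roots of unity, `w j ^ N j = 1`, then `N = ∏ j, N j` works; products of dense sets are dense. -/
theorem dense_isRat_mix {n : ℕ} (p : Fin n → NNReal) (hp : ∑ j, p j = 1) :
    Dense {w : Fin n → Circle | IsRat (mixLaw p hp w)} := by
  have h1 : Dense (Set.pi univ fun _ : Fin n => {w : Circle | ∃ N : ℕ, 0 < N ∧ w ^ N = 1}) :=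
    dense_pi univ fun _ _ => dense_roots
  refine h1.mono fun w hw => ?_
  have hw' : ∀ j, ∃ N : ℕ, 0 < N ∧ w j ^ N = 1 := fun j => hw j (mem_univ j)
  choose N hN1 hN2 using hw'
  refine ⟨∏ j, N j, Finset.prod_pos fun j _ => hN1 j, ?_⟩
  have h2 : ∀ j, w j ^ (∏ i, N i) = 1 := by
    intro j
    obtain ⟨k, hk⟩ := Finset.dvd_prod_of_mem N (Finset.mem_univ j)
    rw [hk, pow_mul, hN2 j, one_pow]
  have hm : MeasurableSet {x : Circle | ¬ x ^ (∏ i, N i) = 1} :=
    (isClosed_eq (continuous_pow (∏ i, N i)) continuous_const).measurableSet.compl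
  show ∀ᵐ x ∂(∑ j, (p j : ℝ≥0∞) • Measure.dirac (w j)), x ^ (∏ i, N i) = 1
  rw [ae_iff, Measure.coe_finsetSum, Finset.sum_apply]
  refine Finset.sum_eq_zero fun j _ => ?_
  rw [Measure.smul_apply, Measure.dirac_apply' _ hm, Set.indicator_of_notMem, smul_zero]
  simp [h2 j]

end Mir
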