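import Pool.Agent.H.MP_80ce29_pr.Fam1

/-!
# Stability of free flights
-/

open Set MeasureTheory Complex Filter Topology
open scoped ComplexConjugate

namespace Mir

variable {ι : Type*} {Θ : Type*} [TopologicalSpace Θ] {X : Θ → Cfg ι}

/-- the position depends continuously on the data -/
theorem fam_pos {θ₀ : Θ} {x₀ v₀ : ℂ} {r₀ s₀ : ℝ} :
    Tendsto (fun z : (Θ × ℂ × ℂ × ℝ) × ℝ => (z.1.1, z.1.2.1 + (z.2 : ℂ) * z.1.2.2.1))
      (𝓝 ((θ₀, x₀, v₀, r₀), s₀)) (𝓝 (θ₀, x₀ + (s₀ : ℂ) * v₀)) := by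
  have h1 : Continuous (fun z : (Θ × ℂ × ℂ × ℝ) × ℝ =>
      (z.1.1, z.1.2.1 + (z.2 : ℂ) * z.1.2.2.1)) := by
    fun_prop
  exact h1.tendsto _

/-- free points are stable -/
theorem fam_free (hF : Fam X) {θ₀ : Θ} {x₀ v₀ : ℂ} {r₀ s₀ : ℝ}
    (h : x₀ + (s₀ : ℂ) * v₀ ∉ (X θ₀).M) :
    ∀ᶠ z : (Θ × ℂ × ℂ × ℝ) × ℝ in 𝓝 ((θ₀, x₀, v₀, r₀), s₀),
      z.1.2.1 + (z.2 : ℂ) * z.1.2.2.1 ∉ (X z.1.1).M := by
  have h2 : {p : Θ × ℂ | p.2 ∈ (X p.1).M}ᶜ ∈ 𝓝 (θ₀, x₀ + (s₀ : ℂ) * v₀) :=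
    hF.isClosed_M.isOpen_compl.mem_nhds h
  exact fam_pos.eventually h2

/-- points on no mirror except possibly `i` are stable -/
theorem fam_free_ne (hF : Fam X) {θ₀ : Θ} {x₀ v₀ : ℂ} {r₀ s₀ : ℝ} (i : ι)
    (h : ∀ j ∈ (X θ₀).S, j ≠ i → x₀ + (s₀ : ℂ) * v₀ ∉ (X θ₀).seg j) :
    ∀ᶠ z : (Θ × ℂ × ℂ × ℝ) × ℝ in 𝓝 ((θ₀, x₀, v₀, r₀), s₀),
      ∀ j ∈ (X z.1.1).S, j ≠ i → z.1.2.1 + (z.2 : ℂ) * z.1.2.2.1 ∉ (X z.1.1).seg j := by
  have h2 : {p : Θ × ℂ | ∃ j ∈ {j | j ≠ i}, j ∈ (X p.1).S ∧ p.2 ∈ (X p.1).seg j}ᶜ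
      ∈ 𝓝 (θ₀, x₀ + (s₀ : ℂ) * v₀) := by
    apply (hF.isClosed_graph {j | j ≠ i}).isOpen_compl.mem_nhds
    rintro ⟨j, hj, hjS, hjx⟩
    exact h j hjS hj hjx
  filter_upwards [fam_pos.eventually h2] with z hz j hjS hj hjx
  exact hz ⟨j, hj, hjS, hjx⟩

/-- The free flight part of the stability theorem. Let the ray start at `(x₀, v₀)` under the start
condition `o`, and let `(0, r₀)` be free for `θ₀`; suppose that at `r₀` either (`b = none`) the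
point `x₀ + r₀ * v₀` is free, or (`b = some i'`) it is on no mirror except possibly `i'`, and `v₀`
is transversal to `i'`. Then for `(θ, x, v, r)` near `(θ₀, x₀, v₀, r₀)` which satisfy
the start condition `o` and, if `b = some i'`, such that `x + r * v` is on the line of `i'`, the
part `(0, r)` is free.

Proof. For each real `s₀` we show that for `(q, s)` near `(q₀, s₀)`, `q = (θ, x, v, r)`:
if `0 < s < r(q)` and the two conditions hold for `q` then `x + s * v ∉ M θ`.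
* `s₀ < 0` or `s₀ > r₀`: `0 < s < r` is false nearby.
* `0 < s₀ < r₀`: closed graph of `M` (`Fam.isClosed_M`).
* `s₀ = 0` (`< r₀`): if `o = none` closed graph of `M`. If `o = some i`: `x₀` is on no mirror
  `j ≠ i`, so nearby `x + s * v` is on no mirror `j ≠ i` (`Fam.isClosed_graph`), and it is not on
  mirror `i`, because `x` is on the line of `i`, `s > 0` and `v` is transversal (`cross_unique`).
* `s₀ = r₀`: if `b = none` closed graph of `M`; if `b = some i'` similarly: nearby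
  `x + s * v` is on no mirror `≠ i'`, and not on `i'` since `x + r * v` is on its line and `s < r`
  (`v` is transversal to `i'` nearby by `eventually_not_par`).
Now `IsCompact.eventually_forall_of_forall_eventually` for `s ∈ [0, r₀ + 1]`, and `r < r₀ + 1`
nearby. -/
theorem Fam.flight (hF : Fam X) {θ₀ : Θ} {x₀ v₀ : ℂ} {r₀ : ℝ} {o b : Option ι}
    (hd : (X θ₀).Dep o x₀ v₀) (hr : 0 < r₀)
    (hf : ∀ s ∈ Ioo 0 r₀, x₀ + (s : ℂ) * v₀ ∉ (X θ₀).M)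
    (hb : match b with
      | none => x₀ + (r₀ : ℂ) * v₀ ∉ (X θ₀).M
      | some i' => ¬ Par ((X θ₀).w i') v₀ ∧
          ∀ j ∈ (X θ₀).S, j ≠ i' → x₀ + (r₀ : ℂ) * v₀ ∉ (X θ₀).seg j) :
    ∀ᶠ q : Θ × ℂ × ℂ × ℝ in 𝓝 (θ₀, x₀, v₀, r₀),
      (X q.1).Dep o q.2.1 q.2.2.1 →
      (∀ i' ∈ b, OnLine ((X q.1).c i') ((X q.1).w i') (q.2.1 + (q.2.2.2 : ℂ) * q.2.2.1)) →
      ∀ s ∈ Ioo 0 q.2.2.2, q.2.1 + (s : ℂ) * q.2.2.1 ∉ (X q.1).M := by
  have key : ∀ s₀ ∈ Icc (0 : ℝ) (r₀ + 1),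
      ∀ᶠ z : (Θ × ℂ × ℂ × ℝ) × ℝ in 𝓝 ((θ₀, x₀, v₀, r₀), s₀),
        (X z.1.1).Dep o z.1.2.1 z.1.2.2.1 →
        (∀ i' ∈ b, OnLine ((X z.1.1).c i') ((X z.1.1).w i')
          (z.1.2.1 + (z.1.2.2.2 : ℂ) * z.1.2.2.1)) →
        z.2 ∈ Ioo 0 z.1.2.2.2 → z.1.2.1 + (z.2 : ℂ) * z.1.2.2.1 ∉ (X z.1.1).M := by
    intro s₀ hs₀
    have hts : Tendsto (fun z : (Θ × ℂ × ℂ × ℝ) × ℝ => z.2) (𝓝 ((θ₀, x₀, v₀, r₀), s₀))
        (𝓝 s₀) := continuous_snd.tendsto _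
    have htr : Tendsto (fun z : (Θ × ℂ × ℂ × ℝ) × ℝ => z.1.2.2.2) (𝓝 ((θ₀, x₀, v₀, r₀), s₀))
        (𝓝 r₀) := by
      have h1 : Continuous (fun z : (Θ × ℂ × ℂ × ℝ) × ℝ => z.1.2.2.2) := by fun_prop
      exact h1.tendsto _
    have htθ : Tendsto (fun z : (Θ × ℂ × ℂ × ℝ) × ℝ => z.1.1) (𝓝 ((θ₀, x₀, v₀, r₀), s₀))
        (𝓝 θ₀) := by
      have h1 : Continuous (fun z : (Θ × ℂ × ℂ × ℝ) × ℝ => z.1.1) := by fun_prop
      exact h1.tendsto _
    have htv : Tendsto (fun z : (Θ × ℂ × ℂ × ℝ) × ℝ => z.1.2.2.1) (𝓝 ((θ₀, x₀, v₀, r₀), s₀))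
        (𝓝 v₀) := by
      have h1 : Continuous (fun z : (Θ × ℂ × ℂ × ℝ) × ℝ => z.1.2.2.1) := by fun_prop
      exact h1.tendsto _
    rcases lt_trichotomy s₀ r₀ with hlt | heq | hgt
    · rcases eq_or_lt_of_le hs₀.1 with h0 | h0
      · -- start
        subst h0
        cases o with
        | none =>
          have h1 : x₀ + ((0 : ℝ) : ℂ) * v₀ ∉ (X θ₀).M := by
            have hd' : x₀ ∉ (X θ₀).M := hd
            simpa using hd'
          filter_upwards [fam_free hF (r₀ := r₀) h1] with z hz _ _ _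
          exact hz
        | some i =>
          obtain ⟨hiS, hiL, hiP, hij⟩ := hd
          have h1 : ∀ j ∈ (X θ₀).S, j ≠ i → x₀ + ((0 : ℝ) : ℂ) * v₀ ∉ (X θ₀).seg j := by
            intro j hj hji
            simpa using hij j hj hji
          filter_upwards [fam_free_ne hF (r₀ := r₀) i h1] with z hz hdz _ hsz hM
          obtain ⟨hzS, hzL, hzP, -⟩ := hdz
          simp only [Cfg.M, mem_iUnion] at hM
          obtain ⟨j, hjS, hjx⟩ := hM
          by_cases hji : j = i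
          · subst hji
            have h2 : OnLine ((X z.1.1).c j) ((X z.1.1).w j)
                (z.1.2.1 + (z.2 : ℂ) * z.1.2.2.1) := (mem_Seg.1 hjx).1
            have h3 : OnLine ((X z.1.1).c j) ((X z.1.1).w j)
                (z.1.2.1 + ((0 : ℝ) : ℂ) * z.1.2.2.1) := by simpa using hzL
            have h4 := cross_unique hzP h2 h3
            exact absurd h4 hsz.1.ne'
          · exact hz j hjS hji hjx
      · have h1 := hf s₀ ⟨h0, hlt⟩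
        filter_upwards [fam_free hF (r₀ := r₀) h1] with z hz _ _ _
        exact hz
    · subst heq
      cases b with
      | none =>
        have h1 : x₀ + (s₀ : ℂ) * v₀ ∉ (X θ₀).M := hb
        filter_upwards [fam_free hF (r₀ := s₀) h1] with z hz _ _ _
        exact hz
      | some i' =>
        obtain ⟨hbP, hbj⟩ := hb
        have hw : Tendsto (fun z : (Θ × ℂ × ℂ × ℝ) × ℝ => (X z.1.1).w i')
            (𝓝 ((θ₀, x₀, v₀, s₀), s₀)) (𝓝 ((X θ₀).w i')) := ((hF.hw i').tendsto θ₀).comp htθ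
        filter_upwards [fam_free_ne hF (r₀ := s₀) i' hbj, eventually_not_par hw htv hbP]
          with z hz hzP _ hL hsz hM
        simp only [Cfg.M, mem_iUnion] at hM
        obtain ⟨j, hjS, hjx⟩ := hM
        by_cases hji : j = i'
        · subst hji
          have h2 : OnLine ((X z.1.1).c j) ((X z.1.1).w j)
              (z.1.2.1 + (z.2 : ℂ) * z.1.2.2.1) := (mem_Seg.1 hjx).1
          have h3 := hL j rfl
          have h4 := cross_unique hzP h2 h3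
          exact absurd h4 hsz.2.ne
        · exact hz j hjS hji hjx
    · filter_upwards [htr.eventually_lt hts hgt] with z hz _ _ hsz
      exact absurd hsz.2 (not_lt.2 hz.le)
  have hK := (isCompact_Icc (a := (0 : ℝ)) (b := r₀ + 1)).eventually_forall_of_forall_eventually
    (x₀ := (θ₀, x₀, v₀, r₀))
    (P := fun (q : Θ × ℂ × ℂ × ℝ) (s : ℝ) => (X q.1).Dep o q.2.1 q.2.2.1 →
        (∀ i' ∈ b, OnLine ((X q.1).c i') ((X q.1).w i')
          (q.2.1 + (q.2.2.2 : ℂ) * q.2.2.1)) →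
        s ∈ Ioo 0 q.2.2.2 → q.2.1 + (s : ℂ) * q.2.2.1 ∉ (X q.1).M) key
  have htr : Tendsto (fun q : Θ × ℂ × ℂ × ℝ => q.2.2.2) (𝓝 (θ₀, x₀, v₀, r₀)) (𝓝 r₀) := by
    have h1 : Continuous (fun q : Θ × ℂ × ℂ × ℝ => q.2.2.2) := by fun_prop
    exact h1.tendsto _
  filter_upwards [hK, htr.eventually (gt_mem_nhds (show r₀ < r₀ + 1 by linarith))]
    with q hq hqr hD hL s hs
  exact hq s ⟨hs.1.le, (hs.2.trans hqr).le⟩ hD hL hs

end Mir
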