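import Pool.Agent.H.MP_80ce29_pr.Arr

/-!
# Continuous families of configurations

The parameter `θ` runs over a topological space. Centres, directions and the half length depend
continuously on `θ`, the presence of each mirror is locally constant, and the family is locally
finite, locally uniformly in `θ`.
-/

open Set MeasureTheory Complex Filter Topology
open scoped ComplexConjugate

namespace Mir

variable {ι : Type*}

/-- See the header. -/
structure Fam {Θ : Type*} [TopologicalSpace Θ] (X : Θ → Cfg ι) : Prop where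
  hc : ∀ i, Continuous fun θ => (X θ).c i
  hw : ∀ i, Continuous fun θ => (X θ).w i
  hh : Continuous fun θ => (X θ).h
  hS : ∀ i, IsClopen {θ | i ∈ (X θ).S}
  lf : ∀ (θ₀ : Θ) (R : ℝ), ∃ F : Finset ι, ∀ᶠ θ in 𝓝 θ₀, ∀ i ∈ (X θ).S, ‖(X θ).c i‖ ≤ R → i ∈ F

/-- Start conditions for a ray: `none`: the point is free; `some i`: the point is on the line of the
present mirror `i` and on no other mirror, and the velocity is transversal to mirror `i`. -/
def Cfg.Dep (X : Cfg ι) : Option ι → ℂ → ℂ → Prop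
  | none, x, _ => x ∉ X.M
  | some i, x, v => i ∈ X.S ∧ OnLine (X.c i) (X.w i) x ∧ ¬ Par (X.w i) v ∧
      ∀ j ∈ X.S, j ≠ i → x ∉ X.seg j

variable {Θ : Type*} [TopologicalSpace Θ] {X : Θ → Cfg ι}

/-- A constant family. -/
theorem Fam.const {X₀ : Cfg ι} (h : X₀.LF) : Fam (fun _ : Θ => X₀) := by
  refine ⟨fun i => continuous_const, fun i => continuous_const, continuous_const, fun i => ?_,
    fun θ₀ R => ⟨(h R).toFinset, Filter.Eventually.of_forall fun θ i hi hR => ?_⟩⟩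
  · by_cases hi : i ∈ X₀.S
    · have : {θ : Θ | i ∈ X₀.S} = univ := by
        ext θ; simp [hi]
      rw [this]
      exact isClopen_univ
    · have : {θ : Θ | i ∈ X₀.S} = ∅ := by
        ext θ; simp [hi]
      rw [this]
      exact isClopen_empty
  · exact (Set.Finite.mem_toFinset _).2 ⟨hi, hR⟩

/-- Pull back along a continuous map. -/
theorem Fam.comp (hF : Fam X) {Θ' : Type*} [TopologicalSpace Θ'] {f : Θ' → Θ}
    (hf : Continuous f) : Fam (fun θ' => X (f θ')) := by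
  refine ⟨fun i => (hF.hc i).comp hf, fun i => (hF.hw i).comp hf, hF.hh.comp hf,
    fun i => (hF.hS i).preimage hf, fun θ₀ R => ?_⟩
  obtain ⟨F, hF'⟩ := hF.lf (f θ₀) R
  exact ⟨F, hf.continuousAt.eventually hF'⟩

theorem Fam.LF (hF : Fam X) (θ : Θ) : (X θ).LF := by
  intro R
  obtain ⟨F, hF'⟩ := hF.lf θ R
  have h1 := hF'.self_of_nhds
  exact F.finite_toSet.subset fun i hi => h1 i hi.1 hi.2

/-- Near `θ₀`, only finitely many labels matter for the mirrors which meet a given ball: if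
`z ∈ seg i`, `‖z‖ ≤ R` then `‖c i‖ ≤ R + h θ ≤ R + h θ₀ + 1` for `θ` near `θ₀`. -/
theorem Fam.finite_meet (hF : Fam X) (θ₀ : Θ) (R : ℝ) :
    ∃ F : Finset ι, ∀ᶠ θ in 𝓝 θ₀, ∀ i ∈ (X θ).S, (∃ z ∈ (X θ).seg i, ‖z‖ ≤ R) → i ∈ F := by
  obtain ⟨F, hF'⟩ := hF.lf θ₀ (R + ((X θ₀).h + 1))
  have h1 : ∀ᶠ θ in 𝓝 θ₀, (X θ).h < (X θ₀).h + 1 :=
    hF.hh.continuousAt.eventually_lt_const (by linarith)
  refine ⟨F, (hF'.and h1).mono ?_⟩
  rintro θ ⟨h2, h3⟩ i hi ⟨z, hz, hzR⟩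
  refine h2 i hi ?_
  have h4 : ‖z - (X θ).c i‖ ≤ (X θ).h := (mem_Seg.1 hz).2
  have h5 : ‖(X θ).c i‖ ≤ ‖z‖ + ‖z - (X θ).c i‖ := by
    have h6 : (X θ).c i = z - (z - (X θ).c i) := by ring
    calc ‖(X θ).c i‖ = ‖z - (z - (X θ).c i)‖ := by rw [← h6]
      _ ≤ ‖z‖ + ‖z - (X θ).c i‖ := norm_sub_le _ _
  linarith

/-- Closed graph, for the mirrors with label in `J`. The complement is open: let
`x₀` be on no present mirror of `J` at `θ₀`; take `F` from `finite_meet` for `R = ‖x₀‖ + 1`. For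
`(θ, x)` near `(θ₀, x₀)` a mirror which contains `x` has its label in `F`; for each of the finitely
many `j ∈ F ∩ J`, the set of `(θ, x)` with `j ∈ S θ` and `x ∈ seg j` is closed (`hS` and
`isClosed_Seg_graph`) and does not contain `(θ₀, x₀)`. -/
theorem Fam.isClosed_graph (hF : Fam X) (J : Set ι) :
    IsClosed {p : Θ × ℂ | ∃ j ∈ J, j ∈ (X p.1).S ∧ p.2 ∈ (X p.1).seg j} := by
  have hC : ∀ j : ι, IsClosed {p : Θ × ℂ | j ∈ (X p.1).S ∧ p.2 ∈ (X p.1).seg j} := by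
    intro j
    have h1 : IsClosed {p : Θ × ℂ | j ∈ (X p.1).S} := (hF.hS j).isClosed.preimage continuous_fst
    have h2 : Continuous fun p : Θ × ℂ =>
        ((((X p.1).c j, (X p.1).w j, (X p.1).h) : ℂ × Circle × ℝ), p.2) :=
      ((((hF.hc j).comp continuous_fst).prodMk
        (((hF.hw j).comp continuous_fst).prodMk (hF.hh.comp continuous_fst))).prodMk continuous_snd)
    exact h1.inter (isClosed_Seg_graph.preimage h2)
  rw [← isOpen_compl_iff, isOpen_iff_mem_nhds]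
  rintro ⟨θ₀, x₀⟩ hp
  obtain ⟨F, hF'⟩ := hF.finite_meet θ₀ (‖x₀‖ + 1)
  have h1 : ∀ᶠ p : Θ × ℂ in 𝓝 (θ₀, x₀), ∀ j ∈ F, j ∈ J →
      ¬ (j ∈ (X p.1).S ∧ p.2 ∈ (X p.1).seg j) := by
    rw [Filter.eventually_all_finset]
    intro j _
    by_cases hJ : j ∈ J
    · have h2 : (θ₀, x₀) ∉ {p : Θ × ℂ | j ∈ (X p.1).S ∧ p.2 ∈ (X p.1).seg j} :=
        fun hc => hp ⟨j, hJ, hc.1, hc.2⟩
      have h3 := (hC j).isOpen_compl.mem_nhds h2
      exact Filter.mem_of_superset h3 fun p hp' _ => hp'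
    · exact Filter.Eventually.of_forall fun p h => absurd h hJ
  have h2 : ∀ᶠ p : Θ × ℂ in 𝓝 (θ₀, x₀), ‖p.2‖ < ‖x₀‖ + 1 :=
    (continuous_snd.norm.continuousAt (x := (θ₀, x₀))).eventually_lt_const (by
      show ‖x₀‖ < ‖x₀‖ + 1
      linarith)
  have h3 : ∀ᶠ p : Θ × ℂ in 𝓝 (θ₀, x₀), ∀ i ∈ (X p.1).S,
      (∃ z ∈ (X p.1).seg i, ‖z‖ ≤ ‖x₀‖ + 1) → i ∈ F :=
    (continuous_fst.continuousAt (x := (θ₀, x₀))).eventually hF'
  filter_upwards [h1, h2, h3] with p hp1 hp2 hp3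
  rintro ⟨j, hJ, hjS, hjs⟩
  exact hp1 j (hp3 j hjS ⟨p.2, hjs, hp2.le⟩) hJ ⟨hjS, hjs⟩

/-- The graph of `M` is closed: `J = univ`. -/
theorem Fam.isClosed_M (hF : Fam X) : IsClosed {p : Θ × ℂ | p.2 ∈ (X p.1).M} := by
  have h1 := hF.isClosed_graph univ
  have h2 : {p : Θ × ℂ | p.2 ∈ (X p.1).M} =
      {p : Θ × ℂ | ∃ j ∈ (univ : Set ι), j ∈ (X p.1).S ∧ p.2 ∈ (X p.1).seg j} := by
    ext p
    simp only [Cfg.M, Set.mem_iUnion, Set.mem_ofPred_eq, Set.mem_univ, true_and, exists_prop]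
  rw [h2]
  exact h1

end Mir
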