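import Pool.Agent.H.MP_80ce29_pr.Fan1

/-!
# The limit set of a bounded orbit is not empty
-/

open Set MeasureTheory Complex Filter Topology
open scoped ComplexConjugate

namespace Mir

variable {ι : Type*} {X : Cfg ι} {N : ℕ}

/-- A bounded orbit of a good direction has arbitrarily late flights of a fixed length `η > 0`.
By `exists_run_length` there are runs `(l n, t n)` from `(0, v₀)` to `(y n, u n)` with
`(l n).length = n`, `‖y n‖ ≤ R`. Let `z₀` be an accumulation point of `y n` and `η₀` the radius of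
`LF.local_star` for `z₀`. Let `η = η₀ / (8 * (N + 2))`. Given `n`, choose `m ≥ n` with
`‖y m - z₀‖ < η₀ / 4` and a run from `(y m, u m)` with list `l'` of length `N + 1`, duration `t'`
(split the run with `m + N + 1` reflections, `lt_of_length_lt`). By `fan` some mirror `j` of
`l'` does not pass through `z₀`, so it does not meet the ball of radius `η₀` about `z₀`; by
`Run.visit` `t' ≥ 3 * η₀ / 4 > (N + 2) * (3 * η)`. `long_flight` and `append`. -/
theorem exists_long_flights {v₀ : ℂ} (hX : Rat X N) (h0 : (0 : ℂ) ∉ X.M) (hg : Good X N v₀)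
    {R : ℝ} (hb : ∀ l t y u, X.Run l t 0 v₀ y u → ‖y‖ ≤ R) :
    ∃ η : ℝ, 0 < η ∧ ∀ n : ℕ, ∃ l t z u, n ≤ l.length ∧ X.Run l t 0 v₀ z u ∧
      ∀ s ∈ Icc (0 : ℝ) η, z + (s : ℂ) * u ∉ X.M := by
  choose l t y u hrun hlen using
    fun n => exists_run_length hX.lf hg.unit h0 hg.nonSing hb n
  have hball : ∀ n, y n ∈ Metric.closedBall (0 : ℂ) R := by
    intro n
    rw [mem_closedBall_zero_iff]
    exact hb _ _ _ _ (hrun n)
  obtain ⟨z₀, -, φ, hφ, hlim⟩ := (isCompact_closedBall (0 : ℂ) R).tendsto_subseq hball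
  obtain ⟨η₀, hη₀, hstar⟩ := hX.lf.local_star z₀
  have hN2 : (0 : ℝ) < (N : ℝ) + 2 := by positivity
  refine ⟨η₀ / (8 * ((N : ℝ) + 2)), by positivity, fun n => ?_⟩
  have hev : ∀ᶠ k in atTop, y (φ k) ∈ Metric.ball z₀ (η₀ / 4) :=
    hlim (Metric.ball_mem_nhds z₀ (by linarith))
  obtain ⟨k, hk1, hk2⟩ := (hev.and (eventually_ge_atTop n)).exists
  rw [Metric.mem_ball, dist_eq_norm] at hk1
  obtain ⟨m, hm⟩ : ∃ m, m = φ k := ⟨_, rfl⟩
  have hmn : n ≤ m := by
    rw [hm]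
    exact hk2.trans (hφ.id_le k)
  rw [← hm] at hk1
  have hll : (l m).length < (l (m + N + 1)).length := by
    rw [hlen, hlen]
    omega
  have htt := (hrun m).lt_of_length_lt (hrun (m + N + 1)) hll
  obtain ⟨l'', hl'', hr''⟩ := (hrun m).split (hrun (m + N + 1)) htt
  have hlen'' : l''.length = N + 1 := by
    have h1 := congrArg List.length hl''
    rw [List.length_append, hlen, hlen] at h1
    omega
  have hum : Transv N (u m) := by
    rw [(hrun m).unfold.2]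
    exact hg.transv.B hX.root (l m)
  have hun : ‖u m‖ = 1 := by rw [(hrun m).norm_eq, hg.unit]
  have hex : ∃ j ∈ l'', ¬ OnLine (X.c j) (X.w j) z₀ := by
    by_contra hcon
    push Not at hcon
    have h1 := fan hX.pos hX.root hum hr'' hcon
    omega
  obtain ⟨j, hj, hjline⟩ := hex
  have hjS : j ∈ X.S := hr''.mem j hj
  obtain ⟨b, hbj, hbd⟩ := hr''.visit hj
  rw [hun, mul_one] at hbd
  have hbz : η₀ ≤ ‖b - z₀‖ := by
    by_contra hcon
    push Not at hcon
    have h1 := hstar j hjS ⟨b, hbj, by rwa [Metric.mem_ball, dist_eq_norm]⟩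
    exact hjline (mem_Seg.1 h1).1
  have hbz2 : ‖b - z₀‖ ≤ ‖b - y m‖ + ‖y m - z₀‖ := by
    have h1 : b - z₀ = (b - y m) + (y m - z₀) := by ring
    rw [h1]
    exact norm_add_le _ _
  have hlong : ((l''.length : ℝ) + 1) * (3 * (η₀ / (8 * ((N : ℝ) + 2)))) <
      t (m + N + 1) - t m := by
    rw [hlen'']
    push_cast
    have h1 : ((N : ℝ) + 1 + 1) * (3 * (η₀ / (8 * ((N : ℝ) + 2)))) = 3 * η₀ / 8 := by
      field_simp
      ring
    rw [h1]
    linarith
  obtain ⟨l₁, t₁, z, u₁, h1, h2⟩ := long_flight (by positivity) hr'' hlong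
  refine ⟨l m ++ l₁, t m + t₁, z, u₁, ?_, (hrun m).append h1, h2⟩
  rw [List.length_append, hlen]
  omega

/-- The limit set is not empty. Take the flights `(z n, u n)` of `exists_long_flights`; along a
subsequence `z n → z₀` and `u n = u` is constant (`Rat.B_finite`). If `z₀ + s * u ∈ M` with
`0 < s < η` and not a vertex then it is an inner point of a mirror `j`, `u` is transversal to it
(`Transv.B`), and by `eventually_cross` the line `z n + ℝ u` meets mirror `j` at a time near `s`, for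
`n` large, against the freeness of the flight. So only vertices occur, and there are finitely many
in a ball (`Rat.V_finite`), while `s ↦ z₀ + s * u` is injective; hence there is `s₁ ∈ (0, η)` with
`z₀ + s₁ * u ∉ M`. The points `z n + s₁ * u` are on the orbit (`append` with a flight), with at
least `n` reflections, and tend to `z₀ + s₁ * u`. -/
theorem K0_nonempty {v₀ : ℂ} (hX : Rat X N) (h0 : (0 : ℂ) ∉ X.M) (hg : Good X N v₀)
    {R : ℝ} (hb : ∀ l t y u, X.Run l t 0 v₀ y u → ‖y‖ ≤ R) : (K0 X v₀).Nonempty := by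
  obtain ⟨η, hη, hfl⟩ := exists_long_flights hX h0 hg hb
  choose l t z u hlen hrun hfree using hfl
  have hF := hX.B_finite v₀
  have hmem : ∀ n, (z n, u n) ∈ Metric.closedBall (0 : ℂ) R ×ˢ {u | ∃ l, u = X.B l v₀} := by
    intro n
    refine ⟨?_, l n, (hrun n).unfold.2⟩
    rw [mem_closedBall_zero_iff]
    exact hb _ _ _ _ (hrun n)
  obtain ⟨⟨z₀, u₀⟩, hq, φ, hφ, hlim⟩ :=
    ((isCompact_closedBall (0 : ℂ) R).prod hF.isCompact).tendsto_subseq hmem
  obtain ⟨l₀, hl₀⟩ : u₀ ∈ {u | ∃ l, u = X.B l v₀} := hq.2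
  have hz : Tendsto (fun k => z (φ k)) atTop (𝓝 z₀) :=
    (continuous_fst.tendsto (z₀, u₀)).comp hlim
  have hu : Tendsto (fun k => u (φ k)) atTop (𝓝 u₀) :=
    (continuous_snd.tendsto (z₀, u₀)).comp hlim
  have hu' : ∀ᶠ k in atTop, u (φ k) = u₀ := by
    have h1 : IsClosed ({u | ∃ l, u = X.B l v₀} \ {u₀}) := (hF.subset sdiff_subset).isClosed
    have h2 : ({u | ∃ l, u = X.B l v₀} \ {u₀})ᶜ ∈ 𝓝 u₀ :=
      h1.isOpen_compl.mem_nhds (fun h => h.2 rfl)
    filter_upwards [hu h2] with k hk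
    by_contra hne
    exact hk ⟨(hmem (φ k)).2, hne⟩
  have hut : Transv N u₀ := by
    rw [hl₀]
    exact hg.transv.B hX.root l₀
  have hun : ‖u₀‖ = 1 := by rw [hl₀, Cfg.norm_B, hg.unit]
  -- only vertices occur
  have hV : ∀ s ∈ Ioo 0 η, z₀ + (s : ℂ) * u₀ ∈ X.M → z₀ + (s : ℂ) * u₀ ∈ X.V := by
    intro s hs hM
    by_contra hV
    obtain ⟨i, hi, hin, -⟩ := Cfg.not_vertex hM hV
    obtain ⟨h1, h2⟩ := eventually_cross (F := atTop) (c := fun _ : ℕ => X.c i)
      (w := fun _ => X.w i) (h := fun _ => X.h) (x := fun k => z (φ k)) (v := fun _ => u₀)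
      tendsto_const_nhds tendsto_const_nhds tendsto_const_nhds hz tendsto_const_nhds
      (hut _ (hX.root i)) hin
    have h3 := h1 (Ioo_mem_nhds hs.1 hs.2)
    obtain ⟨k, hk1, hk2, hk3⟩ := (hu'.and (h2.and h3)).exists
    have h4 := hfree (φ k) _ ⟨(le_of_lt hk3.1), (le_of_lt hk3.2)⟩
    rw [hk1] at h4
    exact h4 (Cfg.mem_M_of_seg hi (Inner_subset_Seg hk2))
  -- a free point
  have hinj : Function.Injective fun s : ℝ => z₀ + (s : ℂ) * u₀ := by
    intro s s' hss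
    have hu0 : u₀ ≠ 0 := by
      intro h
      rw [h, norm_zero] at hun
      exact zero_ne_one hun
    have h1 : (s : ℂ) * u₀ = (s' : ℂ) * u₀ := add_left_cancel hss
    exact_mod_cast mul_right_cancel₀ hu0 h1
  have hfin : ((fun s : ℝ => z₀ + (s : ℂ) * u₀) ⁻¹' {z | z ∈ X.V ∧ ‖z‖ ≤ ‖z₀‖ + η}).Finite :=
    (hX.V_finite (‖z₀‖ + η)).preimage hinj.injOn
  obtain ⟨s₁, hs₁, hs₁'⟩ := (Ioo_infinite hη).exists_notMem_finite hfin
  have hs₁M : z₀ + (s₁ : ℂ) * u₀ ∉ X.M := by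
    intro hM
    refine hs₁' ⟨hV s₁ hs₁ hM, ?_⟩
    refine (norm_add_le _ _).trans ?_
    rw [norm_mul, hun, mul_one, Complex.norm_real, Real.norm_eq_abs, abs_of_pos hs₁.1]
    linarith [hs₁.2]
  refine ⟨(z₀ + (s₁ : ℂ) * u₀, u₀), hs₁M, fun n δ hδ => ?_⟩
  have hev : ∀ᶠ k in atTop, z (φ k) ∈ Metric.ball z₀ δ := hz (Metric.ball_mem_nhds z₀ hδ)
  obtain ⟨k, hk1, hk2, hk3⟩ := (hu'.and (hev.and (eventually_ge_atTop n))).exists
  have h1 : X.Run [] s₁ (z (φ k)) (u (φ k)) (z (φ k) + (s₁ : ℂ) * u (φ k)) (u (φ k)) :=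
    Cfg.Run.fly hs₁.1 fun s hs => hfree (φ k) s ⟨hs.1.le, hs.2.trans hs₁.2.le⟩
  have h2 := (hrun (φ k)).append h1
  rw [hk1] at h2
  refine ⟨_, _, _, ?_, h2, ?_⟩
  · rw [List.append_nil]
    exact (hk3.trans (hφ.id_le k)).trans (hlen (φ k))
  · have h3 : z (φ k) + (s₁ : ℂ) * u₀ - (z₀ + (s₁ : ℂ) * u₀) = z (φ k) - z₀ := by ring
    change ‖z (φ k) + (s₁ : ℂ) * u₀ - (z₀ + (s₁ : ℂ) * u₀)‖ < δ
    rw [h3]
    rwa [Metric.mem_ball, dist_eq_norm] at hk2

end Mir
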