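import Pool.Agent.H.MP_80ce29_pr.KSet

/-!
# Reflections around one point, long flights
-/

open Set MeasureTheory Complex Filter Topology
open scoped ComplexConjugate

namespace Mir

variable {ι : Type*} {X : Cfg ι} {N : ℕ}

/-- If the reflection of `q` is parallel to `m`, then `q` is parallel to `m⁻¹ w²`. -/
theorem par_reflect_Fan1 {m w : Circle} {q : ℂ} (h : Par m ((w : ℂ) * conj q)) :
    Par (m⁻¹ * w ^ 2) q := by
  have h1 : (m : ℂ) * conj ((w : ℂ) * conj q) = (w : ℂ) * conj q := h
  rw [map_mul, Complex.conj_conj] at h1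
  have hm : (m : ℂ) * conj (m : ℂ) = 1 := by
    rw [Complex.mul_conj, Complex.normSq_eq_norm_sq, Circle.norm_coe]
    norm_num
  have hw : (w : ℂ) * conj (w : ℂ) = 1 := by
    rw [Complex.mul_conj, Complex.normSq_eq_norm_sq, Circle.norm_coe]
    norm_num
  show ((m⁻¹ * w ^ 2 : Circle) : ℂ) * conj q = q
  have h2 : ((m⁻¹ * w ^ 2 : Circle) : ℂ) = conj (m : ℂ) * (w : ℂ) ^ 2 := by
    rw [Circle.coe_mul, Circle.coe_pow, Circle.coe_inv_eq_conj]
  rw [h2]
  linear_combination (-(conj (m : ℂ)) * (w : ℂ)) * h1 + q * ((w : ℂ) * conj (w : ℂ)) * hm + q * hw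

/-- Runs around a point `p` which is on the lines of all mirrors of the list. For each bounce, at
time `s`, the unfolded position `x + s * v - p` is parallel to some `N`-th root of unity.
The statement gives the finite set `S` of these times. Induction: for a bounce at `i` after time `r`,
`x' = x + r * v` and `p` are on the line of `i`, so `w i * conj (x' - p) = x' - p`, which gives the
first time `r` (`m = w i`). For a later time `s` of the rest of the run (start `x'`, velocity
`w i * conj v`): `x' + s * (w i * conj v) - p = w i * conj q` with `q = x + (r + s) * v - p`; if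
`m * conj (w i * conj q) = w i * conj q`, then `q = (conj m * w i ^ 2) * conj q`. So put
`S = insert r (S'.image (r + ·))`; all elements are positive, so the cardinality increases by
one. -/
theorem fan_aux (hw : ∀ i, X.w i ^ N = 1) {l : List ι} {t : ℝ} {x v y u p : ℂ}
    (h : X.Run l t x v y u) (hp : ∀ i ∈ l, OnLine (X.c i) (X.w i) p) :
    ∃ S : Finset ℝ, S.card = l.length ∧ (∀ s ∈ S, 0 < s) ∧
      ∀ s ∈ S, ∃ m : Circle, m ^ N = 1 ∧ Par m (x + (s : ℂ) * v - p) := by
  classical
  induction h with
  | fly hr hf => exact ⟨∅, by simp, by simp, by simp⟩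
  | @bounce x v r i l t y u hr hf hi hp' ho hn ih =>
    obtain ⟨S', hc, hpos, hS'⟩ := ih fun j hj => hp j (List.mem_cons_of_mem _ hj)
    have hline : Par (X.w i) (x + (r : ℂ) * v - p) := by
      have h1 : OnLine (X.c i) (X.w i) (x + (r : ℂ) * v) := (mem_Inner.1 hp').1
      exact h1.par_sub (hp i List.mem_cons_self)
    refine ⟨insert r (S'.image (r + ·)), ?_, ?_, ?_⟩
    · rw [Finset.card_insert_of_notMem, Finset.card_image_of_injective _ (add_right_injective r),
        hc]
      · rfl
      · intro hmem
        obtain ⟨s, hs, hs'⟩ := Finset.mem_image.1 hmem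
        have := hpos s hs
        linarith
    · intro s hs
      rcases Finset.mem_insert.1 hs with rfl | hs
      · exact hr
      · obtain ⟨s', hs', rfl⟩ := Finset.mem_image.1 hs
        have := hpos s' hs'
        linarith
    · intro s hs
      rcases Finset.mem_insert.1 hs with rfl | hs
      · exact ⟨X.w i, hw i, hline⟩
      · obtain ⟨s', hs', rfl⟩ := Finset.mem_image.1 hs
        obtain ⟨m, hm, hm'⟩ := hS' s' hs'
        refine ⟨m⁻¹ * X.w i ^ 2, ?_, ?_⟩
        · rw [mul_pow, inv_pow, hm, ← pow_mul, mul_comm 2 N, pow_mul, hw i, one_pow, inv_one,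
            one_mul]
        · apply par_reflect_Fan1
          have h1 : (X.w i : ℂ) * conj (x + (r : ℂ) * v - p) = x + (r : ℂ) * v - p := hline
          have h2 : (X.w i : ℂ) * conj (x + ((r + s' : ℝ) : ℂ) * v - p) =
              x + (r : ℂ) * v + (s' : ℂ) * ((X.w i : ℂ) * conj v) - p := by
            have h3 : x + ((r + s' : ℝ) : ℂ) * v - p = (x + (r : ℂ) * v - p) + (s' : ℂ) * v := by
              push_cast
              ring
            rw [h3, map_add, mul_add, h1, map_mul, Complex.conj_ofReal]
            ring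
          rw [← h2] at hm'
          exact hm'

/-- At most `N` reflections in mirrors whose lines pass through a common point: for each `m` there
is at most one `s` with `Par m (x + s * v - p)`, since the difference of two such
vectors is a real multiple of `v` and `v` is transversal; there are at most `N` roots `m`. -/
theorem fan (hN : 0 < N) (hw : ∀ i, X.w i ^ N = 1) {l : List ι} {t : ℝ} {x v y u p : ℂ}
    (hv : Transv N v) (h : X.Run l t x v y u) (hp : ∀ i ∈ l, OnLine (X.c i) (X.w i) p) :
    l.length ≤ N := by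
  classical
  obtain ⟨S, hc, hpos, hS⟩ := fan_aux hw h hp
  rw [← hc]
  choose! m hm hm' using hS
  have h1 : S.card ≤ ((Polynomial.nthRoots N (1 : ℂ)).toFinset).card := by
    refine Finset.card_le_card_of_injOn (fun s => ((m s : Circle) : ℂ)) ?_ ?_
    · intro s hs
      rw [Finset.mem_coe, Multiset.mem_toFinset, Polynomial.mem_nthRoots hN]
      have h2 := congrArg (fun c : Circle => (c : ℂ)) (hm s hs)
      simpa using h2
    · intro s hs s' hs' hss
      have hmm : m s = m s' := Circle.ext hss
      have h2 := hm' s hs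
      have h3 := hm' s' hs'
      rw [← hmm] at h3
      have h4 := h2.sub h3
      have h5 : x + (s : ℂ) * v - p - (x + (s' : ℂ) * v - p) = ((s - s' : ℝ) : ℂ) * v := by
        push_cast
        ring
      rw [h5] at h4
      by_contra hne
      exact hv (m s) (hm s hs) (h4.of_smul (sub_ne_zero.2 hne))
  exact h1.trans ((Multiset.toFinset_card_le _).trans (Polynomial.card_nthRoots N 1))

/-- A long run contains a long free flight. Induction. fly `r`: `r > 3 * η`, take the flight of
length `η`, `z = x + η * v`. Bounce after `r`: if `r > 3 * η` the same; otherwise the rest of the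
run has duration `> (l.length + 1) * (3 * η)`. -/
theorem long_flight {l : List ι} {t η : ℝ} {x v y u : ℂ} (hη : 0 < η) (h : X.Run l t x v y u)
    (ht : ((l.length : ℝ) + 1) * (3 * η) < t) :
    ∃ l₁ t₁ z u₁, X.Run l₁ t₁ x v z u₁ ∧ ∀ s ∈ Icc (0 : ℝ) η, z + (s : ℂ) * u₁ ∉ X.M := by
  have key : ∀ (x v : ℂ) (r : ℝ), 3 * η < r → (∀ s ∈ Ioo 0 r, x + (s : ℂ) * v ∉ X.M) →
      ∃ l₁ t₁ z u₁, X.Run l₁ t₁ x v z u₁ ∧ ∀ s ∈ Icc (0 : ℝ) η, z + (s : ℂ) * u₁ ∉ X.M := by
    intro x v r hr hf
    refine ⟨[], η, _, v, Cfg.Run.fly hη fun s hs => hf s ⟨hs.1, by linarith [hs.2]⟩,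
      fun s hs => ?_⟩
    have h1 : x + (η : ℂ) * v + (s : ℂ) * v = x + ((η + s : ℝ) : ℂ) * v := by
      push_cast
      ring
    rw [h1]
    exact hf (η + s) ⟨by linarith [hs.1], by linarith [hs.2]⟩
  induction h with
  | @fly x v r hr hf =>
    refine key x v r ?_ fun s hs => hf s ⟨hs.1, hs.2.le⟩
    simpa using ht
  | @bounce x v r i l t y u hr hf hi hp' ho hn ih =>
    by_cases hr3 : 3 * η < r
    · exact key x v r hr3 hf
    · push Not at hr3
      have h1 : ((l.length : ℝ) + 1) * (3 * η) < t := by
        rw [List.length_cons] at ht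
        push_cast at ht
        linarith
      obtain ⟨l₁, t₁, z, u₁, h2, h3⟩ := ih h1
      exact ⟨i :: l₁, r + t₁, z, u₁, Cfg.Run.bounce hr hf hi hp' ho h2, h3⟩

end Mir
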