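import Pool.Agent.H.MP_80ce29_pr.Geo1

/-!
# Unfolding

`X.pt i` is the reflection of the plane in the line of mirror `i`. `X.A l` is the composition of
these reflections along the list `l` (the first element of the list acts first), and `X.B l` is
its linear part.
-/

open Set MeasureTheory Complex Filter Topology
open scoped ComplexConjugate

namespace Mir

variable {ι : Type*}

namespace Cfg

variable (X : Cfg ι)

/-- The reflection of the plane in the line of mirror `i`. -/
def pt (i : ι) (z : ℂ) : ℂ := X.c i + (X.w i : ℂ) * conj (z - X.c i)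

/-- The composition of the reflections along `l`. -/
def A : List ι → ℂ → ℂ
  | [], z => z
  | i :: l, z => A l (X.pt i z)

/-- The linear part of `A l`. -/
def B : List ι → ℂ → ℂ
  | [], v => v
  | i :: l, v => B l ((X.w i : ℂ) * conj v)

@[simp] theorem A_nil (z : ℂ) : X.A [] z = z := rfl
@[simp] theorem A_cons (i : ι) (l : List ι) (z : ℂ) : X.A (i :: l) z = X.A l (X.pt i z) := rfl
@[simp] theorem B_nil (v : ℂ) : X.B [] v = v := rfl
@[simp] theorem B_cons (i : ι) (l : List ι) (v : ℂ) :
    X.B (i :: l) v = X.B l ((X.w i : ℂ) * conj v) := rfl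

/-- Points of the line of mirror `i` are fixed. -/
theorem pt_of_onLine {i : ι} {z : ℂ} (h : OnLine (X.c i) (X.w i) z) : X.pt i z = z := by
  have h' : (X.w i : ℂ) * conj (z - X.c i) = z - X.c i := h
  show X.c i + (X.w i : ℂ) * conj (z - X.c i) = z
  rw [h']
  ring

theorem pt_add (i : ι) (z v : ℂ) : X.pt i (z + v) = X.pt i z + (X.w i : ℂ) * conj v := by
  show X.c i + (X.w i : ℂ) * conj (z + v - X.c i) =
    X.c i + (X.w i : ℂ) * conj (z - X.c i) + (X.w i : ℂ) * conj v
  simp only [map_sub, map_add]
  ring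

/-- `pt i` is an involution. -/
theorem pt_pt (i : ι) (z : ℂ) : X.pt i (X.pt i z) = z := by
  have hw : (X.w i : ℂ) * conj (X.w i : ℂ) = 1 := by
    rw [Complex.mul_conj, Complex.normSq_eq_norm_sq, Circle.norm_coe]
    norm_num
  show X.c i + (X.w i : ℂ) * conj (X.c i + (X.w i : ℂ) * conj (z - X.c i) - X.c i) = z
  simp only [map_sub, map_add, map_mul, Complex.conj_conj]
  linear_combination (z - X.c i) * hw

/-- Induction on `l`. -/
theorem B_add (l : List ι) (v v' : ℂ) : X.B l (v + v') = X.B l v + X.B l v' := by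
  induction l generalizing v v' with
  | nil => rfl
  | cons i l ih =>
    rw [B_cons, B_cons, B_cons, map_add, mul_add, ih]

/-- Induction on `l`; `conj (s * v) = s * conj v` for real `s`. -/
theorem B_smul (l : List ι) (s : ℝ) (v : ℂ) : X.B l ((s : ℂ) * v) = (s : ℂ) * X.B l v := by
  induction l generalizing v with
  | nil => rfl
  | cons i l ih =>
    rw [B_cons, B_cons, map_mul, Complex.conj_ofReal, mul_left_comm, ih]

theorem B_neg (l : List ι) (v : ℂ) : X.B l (-v) = - X.B l v := by
  have h := X.B_smul l (-1) v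
  rw [Complex.ofReal_neg, Complex.ofReal_one, neg_one_mul, neg_one_mul] at h
  exact h

theorem norm_B (l : List ι) (v : ℂ) : ‖X.B l v‖ = ‖v‖ := by
  induction l generalizing v with
  | nil => rfl
  | cons i l ih =>
    rw [B_cons, ih, norm_mul, Circle.norm_coe, one_mul, RCLike.norm_conj]

/-- Induction on `l` with `pt_add`. -/
theorem A_add (l : List ι) (z v : ℂ) : X.A l (z + v) = X.A l z + X.B l v := by
  induction l generalizing z v with
  | nil => rfl
  | cons i l ih =>
    rw [A_cons, A_cons, B_cons, pt_add, ih]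

theorem A_sub (l : List ι) (z z' : ℂ) : X.A l z - X.A l z' = X.B l (z - z') := by
  have h := X.A_add l z' (z - z')
  rw [add_sub_cancel] at h
  rw [h]
  ring

theorem dist_A (l : List ι) (z z' : ℂ) : ‖X.A l z - X.A l z'‖ = ‖z - z'‖ := by
  rw [A_sub, norm_B]

theorem continuous_A (l : List ι) : Continuous (X.A l) := by
  induction l with
  | nil => exact continuous_id
  | cons i l ih =>
    have h : Continuous (X.pt i) := by
      show Continuous fun z : ℂ => X.c i + (X.w i : ℂ) * conj (z - X.c i)
      fun_prop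
    exact ih.comp h

theorem A_append (l l' : List ι) (z : ℂ) : X.A (l ++ l') z = X.A l' (X.A l z) := by
  induction l generalizing z with
  | nil => rfl
  | cons i l ih =>
    rw [List.cons_append, A_cons, A_cons, ih]

theorem B_append (l l' : List ι) (v : ℂ) : X.B (l ++ l') v = X.B l' (X.B l v) := by
  induction l generalizing v with
  | nil => rfl
  | cons i l ih =>
    rw [List.cons_append, B_cons, B_cons, ih]

/-- Induction on `l` with `A_append` and `pt_pt`. -/
theorem A_reverse (l : List ι) (z : ℂ) : X.A l.reverse (X.A l z) = z := by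
  induction l generalizing z with
  | nil => rfl
  | cons i l ih =>
    rw [List.reverse_cons, A_append, A_cons, A_cons, A_nil, ih, pt_pt]

/-- The same for the linear parts. -/
theorem B_reverse (l : List ι) (v : ℂ) : X.B l.reverse (X.B l v) = v := by
  induction l generalizing v with
  | nil => rfl
  | cons i l ih =>
    have hw : (X.w i : ℂ) * conj (X.w i : ℂ) = 1 := by
      rw [Complex.mul_conj, Complex.normSq_eq_norm_sq, Circle.norm_coe]
      norm_num
    rw [List.reverse_cons, B_append, B_cons, B_cons, B_nil, ih, map_mul, Complex.conj_conj,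
      ← mul_assoc, hw, one_mul]

/-- If all directions are `N`-th roots of unity then `B l v` is `a * v` for all `v` or
`a * conj v` for all `v`, with an `N`-th root of unity `a`. Induction on `l`: if
`B l v = a * v` then `B (i :: l) v = (a * w i) * conj v`, and if `B l v = a * conj v` then
`B (i :: l) v = (a * conj (w i)) * v`. -/
theorem B_form {N : ℕ} (hw : ∀ i, X.w i ^ N = 1) (l : List ι) :
    ∃ a : Circle, a ^ N = 1 ∧
      ((∀ v, X.B l v = (a : ℂ) * v) ∨ (∀ v, X.B l v = (a : ℂ) * conj v)) := by
  induction l with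
  | nil => exact ⟨1, one_pow N, Or.inl fun v => by rw [B_nil, Circle.coe_one, one_mul]⟩
  | cons i l ih =>
    obtain ⟨a, ha, h | h⟩ := ih
    · refine ⟨a * X.w i, by rw [mul_pow, ha, hw i, one_mul], Or.inr fun v => ?_⟩
      rw [B_cons, h, Circle.coe_mul, mul_assoc]
    · refine ⟨a * (X.w i)⁻¹, by rw [mul_pow, inv_pow, ha, hw i, inv_one, one_mul],
        Or.inl fun v => ?_⟩
      rw [B_cons, h, Circle.coe_mul, Circle.coe_inv_eq_conj, map_mul, Complex.conj_conj, mul_assoc]

end Cfg

/-- `v` is parallel to no direction which is an `N`-th root of unity. -/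
def Transv (N : ℕ) (v : ℂ) : Prop := ∀ ζ : Circle, ζ ^ N = 1 → ¬ Par ζ v

/-- Transversality is preserved by the linear parts. By `B_form` it is enough to treat `a * v` and
`a * conj v`. If `ζ * conj (a * v) = a * v` then `(ζ * conj a ^ 2) * conj v = v`. If
`ζ * conj (a * conj v) = a * conj v`, then, multiplying by `conj ζ` and `a`..., one gets
`v = (conj ζ * a ^ 2) * conj v`. Both factors are `N`-th roots of unity. -/
theorem Transv.B {X : Cfg ι} {N : ℕ} (hw : ∀ i, X.w i ^ N = 1) {v : ℂ} (hv : Transv N v)
    (l : List ι) : Transv N (X.B l v) := by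
  obtain ⟨a, ha, h | h⟩ := X.B_form hw l
  · intro ζ hζ hP
    have haa : (a : ℂ) * conj (a : ℂ) = 1 := by
      rw [Complex.mul_conj, Complex.normSq_eq_norm_sq, Circle.norm_coe]
      norm_num
    refine hv (ζ * a⁻¹ * a⁻¹) (by rw [mul_pow, mul_pow, inv_pow, ha, hζ]; simp) ?_
    have hP' : (ζ : ℂ) * conj (X.B l v) = X.B l v := hP
    show ((ζ * a⁻¹ * a⁻¹ : Circle) : ℂ) * conj v = v
    rw [h, map_mul] at hP'
    rw [Circle.coe_mul, Circle.coe_mul, Circle.coe_inv_eq_conj]
    linear_combination conj (a : ℂ) * hP' + v * haa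
  · intro ζ hζ hP
    have haa : (a : ℂ) * conj (a : ℂ) = 1 := by
      rw [Complex.mul_conj, Complex.normSq_eq_norm_sq, Circle.norm_coe]
      norm_num
    have hzz : (ζ : ℂ) * conj (ζ : ℂ) = 1 := by
      rw [Complex.mul_conj, Complex.normSq_eq_norm_sq, Circle.norm_coe]
      norm_num
    refine hv (ζ⁻¹ * a * a) (by rw [mul_pow, mul_pow, inv_pow, ha, hζ]; simp) ?_
    have hP' : (ζ : ℂ) * conj (X.B l v) = X.B l v := hP
    show ((ζ⁻¹ * a * a : Circle) : ℂ) * conj v = v
    rw [h, map_mul, Complex.conj_conj] at hP'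
    rw [Circle.coe_mul, Circle.coe_mul, Circle.coe_inv_eq_conj]
    linear_combination -(conj (ζ : ℂ) * (a : ℂ)) * hP' + (ζ : ℂ) * conj (ζ : ℂ) * v * haa +
      v * hzz

theorem Transv.neg {N : ℕ} {v : ℂ} (hv : Transv N v) : Transv N (-v) := by
  intro ζ hζ hP
  refine hv ζ hζ ?_
  have hP' : (ζ : ℂ) * conj (-v) = -v := hP
  show (ζ : ℂ) * conj v = v
  rw [map_neg] at hP'
  linear_combination -hP'

/-- If `B l` fixes a transversal vector `v`, then `B l` is the identity. By `B_form`: if
`B l v = a * v` for all `v`, then `a = 1` (as `v ≠ 0`, because `0` is parallel to everything, take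
`ζ = 1`). If `B l v = a * conj v` for all `v`, then `a * conj v = v` contradicts `Transv`. -/
theorem Transv.B_eq_id {X : Cfg ι} {N : ℕ} (hw : ∀ i, X.w i ^ N = 1) {v : ℂ} (hv : Transv N v)
    {l : List ι} (h : X.B l v = v) (v' : ℂ) : X.B l v' = v' := by
  obtain ⟨a, ha, h1 | h1⟩ := X.B_form hw l
  · have hv0 : v ≠ 0 := by
      rintro rfl
      refine hv 1 (one_pow N) ?_
      show ((1 : Circle) : ℂ) * conj (0 : ℂ) = 0
      rw [map_zero, mul_zero]
    have h2 : (a : ℂ) = 1 := by
      rw [h1] at h
      exact mul_right_cancel₀ hv0 (by rw [h, one_mul])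
    rw [h1, h2, one_mul]
  · exact (hv a ha (by rw [h1] at h; exact h)).elim

end Mir
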