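import Pool.Agent.H.MP_80ce29_pr.Gap3

/-!
# The gap lemma

Notation: `p s` is the state `(x₀ + s * e, u)` and `W n = width X x₀ u e δ (it n)`.
-/

open Set MeasureTheory Complex Filter Topology
open scoped ComplexConjugate

namespace Mir

variable {ι : Type*} {X : Cfg ι}

namespace GapData

variable {N : ℕ} {R : ℝ} {K : Set (ℂ × ℂ)} {x₀ u e : ℂ} {δ : ℝ} {it : ℕ → List ι}

/-- The gap lemma. Take `W` from `exists_width`, `s₀ = W / 2`, `s₁`, `L`, `T` from `exists_shift`,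
`c = s₁ - s₀`. All `p s`, `s ∈ [0, W)`, have runs with arbitrarily long lists.
* `c > 0`: `transfer` on `[0, s₀]`: `p 0` passes `p c`, `0 < c < δ`; so `p c ∈ K` (`inv.fwd`),
  against `gap`.
* `c = 0`: `transfer` on `[0, s₀]`: `p 0` passes `p 0`, against `inv.nonper`.
* `c < 0`: `-c < s₀` as `s₁ > 0`. `transfer` on `[-c, s₀]`: `p (-c)` passes `p 0`; by
  `Run.reverse` and `inv.bwd` `p (-c) ∈ K`, `0 < -c < δ`, against `gap`. -/
theorem false (g : GapData X N R K x₀ u e δ it) : False := by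
  obtain ⟨W, hW, hWδ, hB⟩ := g.exists_width
  obtain ⟨s₁, ⟨hs₀, hs₁⟩, L, T, hrun⟩ := g.exists_shift hW hWδ hB
  have hu : ‖u‖ = 1 := g.inv.unit _ g.mem
  have ht : Transv N u := g.inv.transv _ g.mem
  have hδ := g.δpos
  have hlong : ∀ s ∈ Ico 0 W, ∃ l t y u', L.length < l.length ∧
      X.Run l t (x₀ + (s : ℂ) * e) u y u' := by
    intro s hs
    obtain ⟨t, y, u', h⟩ := hB s hs (L.length + 1)
    exact ⟨it (L.length + 1), t, y, u', by rw [g.len]; exact Nat.lt_succ_self _, h⟩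
  obtain ⟨c, hc⟩ : ∃ c : ℝ, c = s₁ - W / 2 := ⟨_, rfl⟩
  have hrun' : X.Run L T (x₀ + ((W / 2 : ℝ) : ℂ) * e) u (x₀ + ((W / 2 + c : ℝ) : ℂ) * e) u := by
    have h1 : W / 2 + c = s₁ := by rw [hc]; ring
    rw [h1]
    exact hrun
  have key : ∀ a : ℝ, 0 ≤ a → a ≤ W / 2 → 0 ≤ a + c →
      X.Run L T (x₀ + (a : ℂ) * e) u (x₀ + ((a + c : ℝ) : ℂ) * e) u := by
    intro a ha haW hac
    refine transfer g.rat.lf g.rat.root hu ht g.norm_e haW hrun' (fun s hs => ?_) (fun s hs => ?_)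
      (fun s hs => hlong s ⟨ha.trans hs.1, by linarith [hs.2]⟩)
    · exact g.free (by rw [abs_lt]; constructor <;> linarith [hs.1, hs.2])
    · exact g.free (by rw [abs_lt]; constructor <;> linarith [hs.1, hs.2])
  have hx0 : x₀ + ((0 : ℝ) : ℂ) * e = x₀ := by
    rw [Complex.ofReal_zero, zero_mul, add_zero]
  rcases lt_trichotomy c 0 with h | h | h
  · have h1 := key (-c) (by linarith) (by linarith) (by linarith)
    rw [neg_add_cancel, hx0] at h1
    have h2 := h1.reverse (g.free (by rw [abs_lt]; constructor <;> linarith))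
    exact g.gap (-c) ⟨by linarith, by linarith⟩ (g.inv.bwd _ _ _ _ _ _ g.mem h2)
  · have h1 := key 0 le_rfl (by linarith) (by linarith)
    rw [h, add_zero, hx0] at h1
    exact g.inv.nonper _ _ _ _ g.mem h1
  · have h1 := key 0 le_rfl (by linarith) (by linarith)
    rw [zero_add, hx0] at h1
    exact g.gap c ⟨h, by linarith⟩ (g.inv.fwd _ _ _ _ _ _ g.mem h1)

end GapData

/-- The gap lemma without the itinerary (`exists_it`). -/
theorem gap_lemma {N : ℕ} {R : ℝ} {K : Set (ℂ × ℂ)} (hX : Rat X N) (hK : Inv X N R K)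
    {x₀ u e : ℂ} (hm : (x₀, u) ∈ K) (hns : X.NonSing x₀ u) (he : e = I * u ∨ e = -(I * u))
    {δ : ℝ} (hδ : 0 < δ) (hball : ∀ z, ‖z - x₀‖ < 2 * δ → z ∉ X.M)
    (hgap : ∀ s ∈ Ioo 0 δ, (x₀ + (s : ℂ) * e, u) ∉ K) : False := by
  obtain ⟨it, h1, h2⟩ := exists_it (e := e) hX hK hm hns
  exact GapData.false ⟨hX, hK, hm, hns, he, hδ, hball, hgap, h1, h2⟩

end Mir
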