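import Pool.Agent.H.MP_80ce29_pr.Beam

/-!
# The gap lemma, part 1: drops

Notation: `p s` is the state `(x₀ + s * e, u)` and `W n = width X x₀ u e δ (it n)`.
-/

open Set MeasureTheory Complex Filter Topology
open scoped ComplexConjugate

namespace Mir

variable {ι : Type*} {X : Cfg ι}

namespace GapData

variable {N : ℕ} {R : ℝ} {K : Set (ℂ × ℂ)} {x₀ u e : ℂ} {δ : ℝ} {it : ℕ → List ι}

/-- Part 1 of the drop lemma: at a drop `s' = W (n + 1) < W n` the ray of `p s'` arrives, after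
exactly the reflections of `it n`, at a vertex `τ`, and `τ` lies on a segment `[b, f]`
where `b` is `x₀ + s' * e` or a point of a mirror in `it n`, and `f` is a point of the last mirror of
`it (n + 1)`.

Proof. Let `it (n + 1) = it n ++ [i]`. `p s'` has a run with list `it n`, duration `t₁`, end
`(y₁, u')` (`beam_of_lt`). `u'` is transversal to mirror `i` (`Transv.B`). For `s < s'` near
`s'` the ray of `p s` has a run with list `it n` and duration `t₁` to
`y s = A (it n) (x₀ + s * e + t₁ * u)` (`Run.stab`), which tends to `y₁`, and a run with list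
`it n ++ [i]` (`beam_of_lt`); by `lt_of_length_lt` and `split` the ray from `(y s, u')` bounces first
at `i`, at a time `r s > 0`, and `r s = crossT (c i) (w i) (y s) u'` (`eq_crossT`). So
`r s → r' := crossT (c i) (w i) y₁ u'` (`tendsto_crossT`), `r' ≥ 0`, and
`f := y₁ + r' * u' ∈ seg i` since mirrors are closed; `r' ≠ 0` because `y₁ ∉ M`. By `Run.hit`
the ray of `p s'` arrives with list `it n` at a point `z = y₁ + r * u' ∈ M`, `0 < r ≤ r'`. If `z`
were not a vertex, then by `not_vertex` and `Arr.bounce` `p s'` would have a run with a list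
`it n ++ [j]`; by `Run.stab` so would `p s` for `s` near `s'`, and for `s < s'` `Run.list_eq` gives
`j = i`. Hence `Beam (it (n + 1)) s'`, against `not_beam`. So `z ∈ V`, take `τ = z`. If `n = 0`
then `it 0 = []`, the run is a flight and `y₁ = x₀ + s' * e + t₁ * u`; put `b = x₀ + s' * e`. If
`n > 0` use `Run.last` for the run to `y₁`: `b = y₁ - ρ * u'` is on the last mirror of `it n`. In
both cases `b`, `y₁`, `z`, `f` are in this order on the line `y₁ + ℝ u'`. -/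
theorem drop_aux (g : GapData X N R K x₀ u e δ it) {n : ℕ}
    (h : width X x₀ u e δ (it (n + 1)) < width X x₀ u e δ (it n)) :
    ∃ t τ u' b f, X.Arr (it n) t (x₀ + (width X x₀ u e δ (it (n + 1)) : ℂ) * e) u τ u' ∧
      τ ∈ X.V ∧ τ ∈ segment ℝ b f ∧
      (b = x₀ + (width X x₀ u e δ (it (n + 1)) : ℂ) * e ∨ ∃ i ∈ it n, b ∈ X.seg i) ∧
      (∃ i ∈ it (n + 1), f ∈ X.seg i) := by
  classical
  obtain ⟨i, hi⟩ := g.it_succ n
  obtain ⟨s', hs'⟩ : ∃ s', s' = width X x₀ u e δ (it (n + 1)) := ⟨_, rfl⟩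
  rw [← hs'] at h
  rw [← hs']
  have hs0 : 0 < s' := by rw [hs']; exact g.width_pos (n + 1)
  have hsδ : s' < δ := h.trans_le (g.width_le n)
  have hclosed := g.rat.lf.isClosed_M
  obtain ⟨t₁, y₁, u', hrun⟩ := g.beam_of_lt n hs0.le h
  have hfree : x₀ + (s' : ℂ) * e ∉ X.M := g.free (by rw [abs_of_pos hs0]; linarith [g.δpos])
  have hu' : u' = X.B (it n) u := hrun.unfold.2
  have hy₁ : y₁ = X.A (it n) (x₀ + (s' : ℂ) * e + (t₁ : ℂ) * u) := hrun.unfold.1
  have htr : Transv N u := g.inv.transv _ g.mem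
  have hnp : ¬ Par (X.w i) u' := by
    rw [hu']
    exact (htr.B g.rat.root (it n)) _ (g.rat.root i)
  -- states near `p s'`
  have hlim0 : Tendsto (fun s : ℝ => x₀ + (s : ℂ) * e) (𝓝[<] s') (𝓝 (x₀ + (s' : ℂ) * e)) := by
    have h1 : Continuous fun s : ℝ => x₀ + (s : ℂ) * e := by fun_prop
    exact h1.continuousAt.tendsto.mono_left nhdsWithin_le_nhds
  have hpos : ∀ᶠ s : ℝ in 𝓝[<] s', 0 ≤ s ∧ s < s' := by
    have h1 : ∀ᶠ s : ℝ in 𝓝[<] s', 0 < s := (lt_mem_nhds hs0).filter_mono nhdsWithin_le_nhds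
    filter_upwards [h1, self_mem_nhdsWithin] with s h2 h3
    exact ⟨h2.le, h3⟩
  have hrs := hlim0.eventually (hrun.stab g.rat.lf hfree)
  have hlong : ∀ᶠ s : ℝ in 𝓝[<] s', ∃ t y u'', X.Run (it n ++ [i]) t (x₀ + (s : ℂ) * e) u y u'' := by
    filter_upwards [hpos] with s hs
    have h1 := g.beam_of_lt (n + 1) hs.1 (by rw [← hs']; exact hs.2)
    rw [hi] at h1
    exact h1
  have hlimA : Tendsto (fun s : ℝ => X.A (it n) (x₀ + (s : ℂ) * e + (t₁ : ℂ) * u)) (𝓝[<] s')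
      (𝓝 y₁) := by
    rw [hy₁]
    have h1 : Continuous fun z : ℂ => X.A (it n) (z + (t₁ : ℂ) * u) :=
      (X.continuous_A (it n)).comp (by fun_prop)
    exact (h1.continuousAt.tendsto).comp hlim0
  have hiS : i ∈ X.S := by
    obtain ⟨s, t, y, u'', h1⟩ := hlong.exists
    exact h1.mem i (by simp)
  have hhit : ∀ᶠ s : ℝ in 𝓝[<] s',
      0 < crossT (X.c i) (X.w i) (X.A (it n) (x₀ + (s : ℂ) * e + (t₁ : ℂ) * u)) u' ∧
      X.A (it n) (x₀ + (s : ℂ) * e + (t₁ : ℂ) * u) +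
        (crossT (X.c i) (X.w i) (X.A (it n) (x₀ + (s : ℂ) * e + (t₁ : ℂ) * u)) u' : ℂ) * u' ∈
          X.seg i := by
    filter_upwards [hrs, hlong] with s h1 h2
    obtain ⟨t, y, u'', h3⟩ := h2
    have h4 : t₁ < t := Cfg.Run.lt_of_length_lt h1 h3 (by simp)
    obtain ⟨l'', h5, h6⟩ := Cfg.Run.split h1 h3 h4
    have h7 : l'' = [i] := (List.append_cancel_left h5).symm
    subst h7
    obtain ⟨T, hT⟩ : ∃ T, T = t - t₁ := ⟨_, rfl⟩
    rw [← hT] at h6
    clear hT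
    cases h6 with
    | @bounce _ _ r _ _ _ _ _ hr hf hi' hp ho hn =>
      have h8 : r = crossT (X.c i) (X.w i)
          (X.A (it n) (x₀ + (s : ℂ) * e + (t₁ : ℂ) * u)) u' :=
        eq_crossT hnp (mem_Inner.1 hp).1
      rw [← h8]
      exact ⟨hr, Cfg.inner_sub_seg hp⟩
  obtain ⟨r', hr'⟩ : ∃ r', r' = crossT (X.c i) (X.w i) y₁ u' := ⟨_, rfl⟩
  have hlimr : Tendsto (fun s : ℝ => crossT (X.c i) (X.w i)
      (X.A (it n) (x₀ + (s : ℂ) * e + (t₁ : ℂ) * u)) u') (𝓝[<] s') (𝓝 r') := by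
    rw [hr']
    exact tendsto_crossT tendsto_const_nhds tendsto_const_nhds hlimA tendsto_const_nhds hnp
  have hr'0 : 0 ≤ r' := ge_of_tendsto hlimr (hhit.mono fun s h1 => h1.1.le)
  have hf : y₁ + (r' : ℂ) * u' ∈ X.seg i := by
    have h1 : Tendsto (fun s : ℝ => X.A (it n) (x₀ + (s : ℂ) * e + (t₁ : ℂ) * u) +
        (crossT (X.c i) (X.w i) (X.A (it n) (x₀ + (s : ℂ) * e + (t₁ : ℂ) * u)) u' : ℂ) * u')
        (𝓝[<] s') (𝓝 (y₁ + (r' : ℂ) * u')) :=
      hlimA.add (((Complex.continuous_ofReal.tendsto r').comp hlimr).mul tendsto_const_nhds)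
    exact (isClosed_Seg (X.c i) (X.w i) X.h).mem_of_tendsto h1 (hhit.mono fun s h2 => h2.2)
  have hr'1 : 0 < r' := by
    rcases hr'0.lt_or_eq with h1 | h1
    · exact h1
    · exfalso
      rw [← h1, Complex.ofReal_zero, zero_mul, add_zero] at hf
      exact hrun.end_free (Cfg.mem_M_of_seg hiS hf)
  obtain ⟨r, hr0, hrr, hzM, harr⟩ := hrun.hit hclosed hr'1 (Cfg.mem_M_of_seg hiS hf)
  have hzV : y₁ + (r : ℂ) * u' ∈ X.V := by
    by_contra hV
    obtain ⟨j, hj, hjin, hjo⟩ := Cfg.not_vertex hzM hV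
    obtain ⟨σ₀, hσ₀, hσ⟩ := harr.bounce g.rat.lf hj hjin hjo
    have h1 := hσ (σ₀ / 2) ⟨by linarith, by linarith⟩
    have h2 := hlim0.eventually (h1.stab g.rat.lf hfree)
    obtain ⟨s, h3, t, y, u'', h4⟩ := (h2.and hlong).exists
    have h5 := Cfg.Run.list_eq h3 h4 (by simp)
    rw [h5] at h1
    refine g.not_beam (n + 1) (by rw [← hs']; exact hsδ) ?_
    rw [← hs', hi]
    exact ⟨_, _, _, h1⟩
  have hseg : ∀ b : ℂ, ∀ a : ℝ, 0 < a → y₁ = b + (a : ℂ) * u' →
      y₁ + (r : ℂ) * u' ∈ segment ℝ b (y₁ + (r' : ℂ) * u') := by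
    intro b a ha hb
    have h1 : 0 < a + r' := by linarith
    rw [segment_eq_image']
    refine ⟨(a + r) / (a + r'), ⟨by positivity, ?_⟩, ?_⟩
    · rw [div_le_one h1]
      linarith
    · have h2 : (a + r') ≠ 0 := h1.ne'
      have h3 : ((a : ℂ) + (r' : ℂ)) ≠ 0 := by exact_mod_cast h2
      show b + ((a + r) / (a + r')) • (y₁ + (r' : ℂ) * u' - b) = y₁ + (r : ℂ) * u'
      rw [hb, Complex.real_smul]
      push_cast
      field_simp
      ring
  rcases List.eq_nil_or_concat (it n) with h1 | ⟨L, j, h1⟩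
  · rw [h1] at hrun
    cases hrun with
    | fly hr hf' =>
      refine ⟨t₁ + r, _, _, x₀ + (s' : ℂ) * e, _, harr, hzV, hseg _ t₁ hr rfl, Or.inl rfl,
        i, by rw [hi]; simp, hf⟩
  · have h2 := hrun
    rw [h1, List.concat_eq_append] at h2
    obtain ⟨ρ, hρ, -, hb, -⟩ := h2.last
    refine ⟨t₁ + r, _, u', y₁ - (ρ : ℂ) * u', _, harr, hzV, hseg _ ρ hρ (by ring), Or.inr ?_,
      i, by rw [hi]; simp, hf⟩
    exact ⟨j, by rw [h1]; simp, hb⟩

/-- The drop lemma: as `drop_aux`, with a bound for `τ`: `‖b‖, ‖f‖ ≤ R + 2 * h + δ` by `norm_seg`,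
`‖x₀‖ ≤ R` and `width ≤ δ`; balls are convex. -/
theorem drop (g : GapData X N R K x₀ u e δ it) {n : ℕ}
    (h : width X x₀ u e δ (it (n + 1)) < width X x₀ u e δ (it n)) :
    ∃ t τ u', X.Arr (it n) t (x₀ + (width X x₀ u e δ (it (n + 1)) : ℂ) * e) u τ u' ∧
      τ ∈ X.V ∧ ‖τ‖ ≤ R + 2 * X.h + δ := by
  obtain ⟨t, τ, u', b, f, harr, hV, hseg, hb, i, hi, hf⟩ := g.drop_aux h
  refine ⟨t, τ, u', harr, hV, ?_⟩
  have hh := g.rat.hpos
  have hδ := g.δpos
  have h1 : ‖f‖ ≤ R + 2 * X.h + δ := by linarith [g.norm_seg hi hf]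
  have h2 : ‖b‖ ≤ R + 2 * X.h + δ := by
    rcases hb with hb | ⟨j, hj, hb⟩
    · have h3 : ‖x₀‖ ≤ R := g.inv.bdd _ g.mem
      have h4 := g.width_pos (n + 1)
      have h5 := g.width_le (n + 1)
      have h6 : ‖(width X x₀ u e δ (it (n + 1)) : ℂ) * e‖ = width X x₀ u e δ (it (n + 1)) := by
        rw [norm_mul, g.norm_e, mul_one, Complex.norm_real, Real.norm_eq_abs, abs_of_pos h4]
      have h7 := norm_add_le x₀ ((width X x₀ u e δ (it (n + 1)) : ℂ) * e)
      rw [hb]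
      linarith
    · linarith [g.norm_seg hj hb]
  have h3 : τ ∈ Metric.closedBall (0 : ℂ) (R + 2 * X.h + δ) :=
    (convex_closedBall (0 : ℂ) (R + 2 * X.h + δ)).segment_subset
      (by rwa [mem_closedBall_zero_iff]) (by rwa [mem_closedBall_zero_iff]) hseg
  rwa [mem_closedBall_zero_iff] at h3

end GapData

end Mir
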