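import Pool.Agent.H.MP_80ce29_pr.Gap1

/-!
# The gap lemma, part 2: finitely many drops

Notation: `p s` is the state `(x₀ + s * e, u)` and `W n = width X x₀ u e δ (it n)`.
-/

open Set MeasureTheory Complex Filter Topology
open scoped ComplexConjugate

namespace Mir

variable {ι : Type*} {X : Cfg ι}

namespace GapData

variable {N : ℕ} {R : ℝ} {K : Set (ℂ × ℂ)} {x₀ u e : ℂ} {δ : ℝ} {it : ℕ → List ι}

/-- Two drops `n < m` cannot have the same vertex and the same velocity. -/
theorem no_two_drops_Gap2 (g : GapData X N R K x₀ u e δ it) {n m : ℕ} (hnm : n < m)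
    (hm : width X x₀ u e δ (it (m + 1)) < width X x₀ u e δ (it m)) {t t' : ℝ} {τ u' : ℂ}
    (h1 : X.Arr (it n) t (x₀ + (width X x₀ u e δ (it (n + 1)) : ℂ) * e) u τ u')
    (h2 : X.Arr (it m) t' (x₀ + (width X x₀ u e δ (it (m + 1)) : ℂ) * e) u τ u') : False := by
  obtain ⟨sa, hsa⟩ : ∃ s, s = width X x₀ u e δ (it (n + 1)) := ⟨_, rfl⟩
  obtain ⟨sb, hsb⟩ : ∃ s, s = width X x₀ u e δ (it (m + 1)) := ⟨_, rfl⟩
  have hsa0 : 0 < sa := by rw [hsa]; exact g.width_pos _
  have hsb0 : 0 < sb := by rw [hsb]; exact g.width_pos _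
  have hsaδ : sa ≤ δ := by rw [hsa]; exact g.width_le _
  have hab : sb < sa := by
    have h3 := g.width_anti (show n + 1 ≤ m from hnm)
    rw [hsa, hsb]
    exact hm.trans_le h3
  have hδ := g.δpos
  rw [← hsa] at h1
  rw [← hsb] at h2
  have hfa : x₀ + (sa : ℂ) * e ∉ X.M := g.free (by rw [abs_of_pos hsa0]; linarith)
  have hfb : x₀ + (sb : ℂ) * e ∉ X.M := g.free (by rw [abs_of_pos hsb0]; linarith)
  obtain ⟨L, hL, hrun⟩ := Cfg.Arr.passes hfa hfb h1 h2 (by rw [g.len, g.len]; exact hnm)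
  have hLl : L.length ≤ m := by
    have h3 := congrArg List.length hL
    rw [List.length_append, g.len] at h3
    omega
  have key := transfer g.rat.lf g.rat.root (L := L) (T := t' - t) (x₀ := x₀) (e := e) (u := u)
    (a := 0) (b := sb) (c := sa - sb) (g.inv.unit _ g.mem) (g.inv.transv _ g.mem) g.norm_e
    hsb0.le (by rw [add_sub_cancel]; exact hrun)
    (fun s hs => g.free (by rw [abs_of_nonneg hs.1]; linarith [hs.2]))
    (fun s hs => g.free (by
      rw [abs_of_nonneg (by linarith [hs.1])]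
      linarith [hs.2]))
    (fun s hs => by
      obtain ⟨t, y, v, h⟩ := g.beam_of_lt (m + 1) hs.1 (by rw [← hsb]; exact hs.2)
      exact ⟨_, t, y, v, by rw [g.len]; omega, h⟩)
  rw [Complex.ofReal_zero, zero_mul, add_zero, zero_add] at key
  exact g.gap (sa - sb) ⟨by linarith, by linarith⟩ (g.inv.fwd _ _ _ _ _ _ g.mem key)

/-- Only finitely many drops. Otherwise, as there are finitely many vertices `τ` with
`‖τ‖ ≤ R + 2 * h + δ` (`Rat.V_finite`) and finitely many velocities (`Rat.B_finite`, `Arr.unfold`),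
there are drops `n < m` with the same `τ` and `u'`. Put `sa = W (n + 1)`,
`sb = W (m + 1) < W m ≤ W (n + 1) = sa`. By `Arr.passes` (both starts are free) there is `L` with
`it m = L ++ it n` and `Run L T` from `p sb` to `p sa`. Apply `transfer` on `[0, sb]` with
`c = sa - sb`: for `s < sb` there is a run with list `it (m + 1)` (`beam_of_lt`), longer than `L`;
the points `x₀ + s * e` and `x₀ + (s + c) * e`, `s + c ≤ sa < δ`, are free. So `p 0` passes `p c`,
`0 < c < δ`, and `p c ∈ K` by `inv.fwd`, against `gap`. -/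
theorem finite_drops (g : GapData X N R K x₀ u e δ it) :
    {n | width X x₀ u e δ (it (n + 1)) < width X x₀ u e δ (it n)}.Finite := by
  by_contra hinf
  have hinf' : {n | width X x₀ u e δ (it (n + 1)) < width X x₀ u e δ (it n)}.Infinite := hinf
  have hex : ∀ n : ℕ, ∃ q : ℂ × ℂ,
      width X x₀ u e δ (it (n + 1)) < width X x₀ u e δ (it n) →
      (∃ t, X.Arr (it n) t (x₀ + (width X x₀ u e δ (it (n + 1)) : ℂ) * e) u q.1 q.2) ∧
        q.1 ∈ X.V ∧ ‖q.1‖ ≤ R + 2 * X.h + δ := by
    intro n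
    by_cases h : width X x₀ u e δ (it (n + 1)) < width X x₀ u e δ (it n)
    · obtain ⟨t, τ, u', h1, h2, h3⟩ := g.drop h
      exact ⟨(τ, u'), fun _ => ⟨⟨t, h1⟩, h2, h3⟩⟩
    · exact ⟨(0, 0), fun h' => absurd h' h⟩
  choose q hq using hex
  have hfin := (g.rat.V_finite (R + 2 * X.h + δ)).prod (g.rat.B_finite u)
  obtain ⟨n, hn, m, hm, hne, he⟩ := hinf'.exists_ne_map_eq_of_mapsTo (f := q)
    (fun n hn => by
      obtain ⟨⟨t, h1⟩, h2, h3⟩ := hq n hn
      exact ⟨⟨h2, h3⟩, ⟨_, h1.unfold.2⟩⟩) hfin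
  obtain ⟨⟨t, h1⟩, -, -⟩ := hq n hn
  obtain ⟨⟨t', h2⟩, -, -⟩ := hq m hm
  rcases lt_or_gt_of_ne hne with h | h
  · rw [← he] at h2
    exact g.no_two_drops_Gap2 h hm h1 h2
  · rw [← he] at h2
    exact g.no_two_drops_Gap2 h hn h2 h1

/-- From `finite_drops`, `width_anti` and `width_pos`: there is `W > 0`, `W ≤ δ`, such that all
`s ∈ [0, W)` satisfy `Beam (it n) s` for all `n`. -/
theorem exists_width (g : GapData X N R K x₀ u e δ it) :
    ∃ W, 0 < W ∧ W ≤ δ ∧ ∀ s ∈ Ico 0 W, ∀ n, Beam X x₀ e u (it n) s := by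
  obtain ⟨k, hk⟩ := g.finite_drops.bddAbove
  have hconst : ∀ n, width X x₀ u e δ (it (k + 1 + n)) = width X x₀ u e δ (it (k + 1)) := by
    intro n
    induction n with
    | zero => rfl
    | succ n ih =>
      rw [← ih]
      refine le_antisymm (g.width_anti (by omega)) ?_
      by_contra hlt
      push Not at hlt
      have h1 := hk (show k + 1 + n ∈ {n | width X x₀ u e δ (it (n + 1)) <
        width X x₀ u e δ (it n)} from hlt)
      omega
  refine ⟨width X x₀ u e δ (it (k + 1)), g.width_pos _, g.width_le _, fun s hs n => ?_⟩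
  refine g.beam_of_lt n hs.1 (hs.2.trans_le ?_)
  rcases le_total n (k + 1) with h | h
  · exact g.width_anti h
  · obtain ⟨m, rfl⟩ := Nat.exists_eq_add_of_le h
    exact (hconst m).ge

end GapData

end Mir
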