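import Pool.Agent.H.MP_80ce29_pr.Gap2

/-!
# The gap lemma, part 3: recurrence in the beam

Notation: `p s` is the state `(x₀ + s * e, u)` and `W n = width X x₀ u e δ (it n)`.
-/

open Set MeasureTheory Complex Filter Topology
open scoped ComplexConjugate

namespace Mir

variable {ι : Type*} {X : Cfg ι}

theorem im_ofReal_mul_I_GapAux (a : ℝ) : ((a : ℂ) * I).im = a := by
  simp

namespace GapData

variable {N : ℕ} {R : ℝ} {K : Set (ℂ × ℂ)} {x₀ u e : ℂ} {δ : ℝ} {it : ℕ → List ι}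

/-- Two bounces of the middle ray at nearly the same place. Let `W` be as in `exists_width` and
`s₀ = W / 2`. For each `n` the ray of `p s₀` has a run with list `it (n + 1) = it n ++ [i]`;
`Run.last` gives the bounce point `b n` on mirror `i`, `‖b n‖ ≤ R + 2 * h` (`norm_seg`), and the
velocity `u n` after it. There are finitely many labels `i` (`LF.finite_meet`) and velocities
(`Rat.B_finite`), and the closed ball is totally bounded, so by the pigeonhole principle there are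
`n < m` with the same label, the same velocity, and `‖b n - b m‖ < W / 2`. -/
theorem exists_close (g : GapData X N R K x₀ u e δ it) {W : ℝ} (hW : 0 < W)
    (hB : ∀ s ∈ Ico 0 W, ∀ n, Beam X x₀ e u (it n) s) :
    ∃ (n m : ℕ) (i : ι) (t r t' r' : ℝ) (y y' u' : ℂ), n < m ∧
      (∃ l, it (n + 1) = l ++ [i]) ∧ (∃ l, it (m + 1) = l ++ [i]) ∧
      X.Run (it (n + 1)) t (x₀ + ((W / 2 : ℝ) : ℂ) * e) u y u' ∧
      X.Run (it (m + 1)) t' (x₀ + ((W / 2 : ℝ) : ℂ) * e) u y' u' ∧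
      0 < r ∧ r < t ∧ 0 < r' ∧ r' < t' ∧
      y - (r : ℂ) * u' ∈ X.seg i ∧ y' - (r' : ℂ) * u' ∈ X.seg i ∧
      (∀ ρ ∈ Ioc 0 r', X.Run (it (m + 1)) (t' - r' + ρ) (x₀ + ((W / 2 : ℝ) : ℂ) * e) u
        (y' - (r' : ℂ) * u' + (ρ : ℂ) * u') u') ∧
      ‖(y - (r : ℂ) * u') - (y' - (r' : ℂ) * u')‖ < W / 2 := by
  classical
  have hW2 : W / 2 ∈ Ico 0 W := ⟨by linarith, by linarith⟩
  have key : ∀ n : ℕ, ∃ (i : ι) (t r : ℝ) (y u' : ℂ), (∃ l, it (n + 1) = l ++ [i]) ∧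
      X.Run (it (n + 1)) t (x₀ + ((W / 2 : ℝ) : ℂ) * e) u y u' ∧ 0 < r ∧ r < t ∧
      y - (r : ℂ) * u' ∈ X.seg i ∧
      (∀ ρ ∈ Ioc 0 r, X.Run (it (n + 1)) (t - r + ρ) (x₀ + ((W / 2 : ℝ) : ℂ) * e) u
        (y - (r : ℂ) * u' + (ρ : ℂ) * u') u') ∧ i ∈ it (n + 1) := by
    intro n
    obtain ⟨t, y, u', hrun⟩ := hB (W / 2) hW2 (n + 1)
    obtain ⟨i, hi⟩ := g.it_succ n
    have hrun' := hrun
    rw [hi] at hrun'
    obtain ⟨r, hr, hrt, hseg, hall⟩ := hrun'.last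
    refine ⟨i, t, r, y, u', ⟨it n, hi⟩, hrun, hr, hrt, hseg, ?_, ?_⟩
    · intro ρ hρ
      rw [hi]
      exact hall ρ hρ
    · rw [hi]; simp
  choose i t r y u' hl hrun hr hrt hseg hall hmem using key
  have hfinS := g.rat.lf.finite_meet (R + 2 * X.h)
  have hfinB := g.rat.B_finite u
  obtain ⟨T, hTfin, hTcov⟩ := Metric.totallyBounded_iff.1
    (isCompact_closedBall (0 : ℂ) (R + 2 * X.h)).totallyBounded (W / 4) (by linarith)
  have hbn : ∀ n, ‖y n - (r n : ℂ) * u' n‖ ≤ R + 2 * X.h := fun n =>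
    g.norm_seg (hmem n) (hseg n)
  have hc : ∀ n, ∃ c ∈ T, ‖(y n - (r n : ℂ) * u' n) - c‖ < W / 4 := by
    intro n
    have h1 : y n - (r n : ℂ) * u' n ∈ Metric.closedBall (0 : ℂ) (R + 2 * X.h) := by
      rw [mem_closedBall_zero_iff]; exact hbn n
    have h2 := hTcov h1
    simp only [mem_iUnion, Metric.mem_ball, dist_eq_norm] at h2
    obtain ⟨c, hc, hc'⟩ := h2
    exact ⟨c, hc, hc'⟩
  choose c hcT hcd using hc
  haveI := hfinS.to_subtype
  haveI := hfinB.to_subtype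
  haveI := hTfin.to_subtype
  let f : ℕ → ({i | i ∈ X.S ∧ ∃ z ∈ X.seg i, ‖z‖ ≤ R + 2 * X.h} : Set ι) ×
      ({v | ∃ l, v = X.B l u} : Set ℂ) × T := fun n =>
    (⟨i n, (hrun n).mem _ (hmem n), _, hseg n, hbn n⟩, ⟨u' n, _, (hrun n).unfold.2⟩,
      ⟨c n, hcT n⟩)
  obtain ⟨n, m, hnm, hf⟩ := Finite.exists_ne_map_eq_of_infinite f
  have main : ∀ n m : ℕ, n < m → f n = f m → ∃ (n m : ℕ) (i : ι) (t r t' r' : ℝ)
      (y y' u' : ℂ), n < m ∧
      (∃ l, it (n + 1) = l ++ [i]) ∧ (∃ l, it (m + 1) = l ++ [i]) ∧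
      X.Run (it (n + 1)) t (x₀ + ((W / 2 : ℝ) : ℂ) * e) u y u' ∧
      X.Run (it (m + 1)) t' (x₀ + ((W / 2 : ℝ) : ℂ) * e) u y' u' ∧
      0 < r ∧ r < t ∧ 0 < r' ∧ r' < t' ∧
      y - (r : ℂ) * u' ∈ X.seg i ∧ y' - (r' : ℂ) * u' ∈ X.seg i ∧
      (∀ ρ ∈ Ioc 0 r', X.Run (it (m + 1)) (t' - r' + ρ) (x₀ + ((W / 2 : ℝ) : ℂ) * e) u
        (y' - (r' : ℂ) * u' + (ρ : ℂ) * u') u') ∧
      ‖(y - (r : ℂ) * u') - (y' - (r' : ℂ) * u')‖ < W / 2 := by
    intro n m hnm hf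
    have e1 : i n = i m := congrArg (fun q => (q.1 : ι)) hf
    have e2 : u' n = u' m := congrArg (fun q => (q.2.1 : ℂ)) hf
    have e3 : c n = c m := congrArg (fun q => (q.2.2 : ℂ)) hf
    refine ⟨n, m, i m, t n, r n, t m, r m, y n, y m, u' m, hnm, ?_, hl m, ?_, hrun m, hr n, hrt n,
      hr m, hrt m, ?_, hseg m, hall m, ?_⟩
    · rw [← e1]; exact hl n
    · rw [← e2]; exact hrun n
    · rw [← e2, ← e1]; exact hseg n
    · have h1 := hcd n
      have h2 := hcd m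
      rw [e3, e2] at h1
      have h3 : (y n - (r n : ℂ) * u' m) - (y m - (r m : ℂ) * u' m) =
          ((y n - (r n : ℂ) * u' m) - c m) - ((y m - (r m : ℂ) * u' m) - c m) := by ring
      rw [h3]
      have h4 := norm_sub_le ((y n - (r n : ℂ) * u' m) - c m) ((y m - (r m : ℂ) * u' m) - c m)
      linarith
  rcases lt_or_gt_of_ne hnm with h | h
  · exact main n m h hf
  · exact main m n h hf.symm

/-- The middle ray passes a parallel ray of the beam: there are `s₁ ∈ (0, W)` and a run from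
`p (W / 2)` to `p s₁`. With the notation of `exists_close` let `b = y - r * u'`,
`z = y' - r' * u'`, both on mirror `i`. Let `z' = A (it (n + 1)).reverse z`,
`s₁ = re ((z' - x₀) * conj e)`, `τ = re ((z' - x₀) * conj u)`, so
`z' = x₀ + s₁ * e + τ * u` as `e, u` is an orthonormal basis. Since
`b = A (it (n + 1)) (x₀ + (W / 2) * e + (t - r) * u)`, we get `|s₁ - W / 2| ≤ ‖z - b‖ < W / 2`
(`dist_A`). So `Beam (it (n + 1)) s₁`; let `b'` be its last bounce point, on mirror `i`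
(`Run.last`): `b' = A (it (n + 1)) (x₀ + s₁ * e + τ' * u)`, so
`z - b' = (τ - τ') * u'`, which is parallel to mirror `i`; `u'` is transversal (`Transv.B`), hence
`τ = τ'` and `b' = z`. For small `ρ` both rays pass the state `(z + ρ * u', u')`: the ray of `p s₁`
with list `it (n + 1)`, the ray of `p (W / 2)` with list `it (m + 1)`. Now `Run.passes`. -/
theorem exists_shift (g : GapData X N R K x₀ u e δ it) {W : ℝ} (hW : 0 < W) (hWδ : W ≤ δ)
    (hB : ∀ s ∈ Ico 0 W, ∀ n, Beam X x₀ e u (it n) s) :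
    ∃ s₁ ∈ Ioo 0 W, ∃ L T, X.Run L T (x₀ + ((W / 2 : ℝ) : ℂ) * e) u (x₀ + (s₁ : ℂ) * e) u := by
  obtain ⟨n, m, i, t, r, t', r', y, y', u', hnm, ⟨l1, hl1⟩, -, run1, run2, hr, hrt, hr', hrt', hb,
    hz, hall, hclose⟩ := g.exists_close hW hB
  have hu : ‖u‖ = 1 := g.inv.unit _ g.mem
  have he : ‖e‖ = 1 := g.norm_e
  set A := X.A (it (n + 1)) with hAdef
  set b := y - (r : ℂ) * u' with hbdef
  set z := y' - (r' : ℂ) * u' with hzdef
  set z' := X.A (it (n + 1)).reverse z with hz'def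
  have hAz' : X.A (it (n + 1)) z' = z := by
    have := X.A_reverse (it (n + 1)).reverse z
    rwa [List.reverse_reverse] at this
  have huc : u * conj u = 1 := by
    rw [Complex.mul_conj, Complex.normSq_eq_norm_sq, hu]; norm_num
  obtain ⟨s₁, τ, hdec⟩ : ∃ s₁ τ : ℝ, z' = x₀ + (s₁ : ℂ) * e + (τ : ℂ) * u := by
    have hzz : z' - x₀ = ((z' - x₀) * conj u) * u := by
      rw [mul_assoc, mul_comm (conj u) u, huc, mul_one]
    set q := (z' - x₀) * conj u with hq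
    rcases g.orth with ho | ho
    · refine ⟨q.im, q.re, ?_⟩
      have h1 : z' = x₀ + q * u := by rw [← hzz]; ring
      rw [h1, ho]
      conv_lhs => rw [← Complex.re_add_im q]
      ring
    · refine ⟨-q.im, q.re, ?_⟩
      have h1 : z' = x₀ + q * u := by rw [← hzz]; ring
      rw [h1, ho]
      conv_lhs => rw [← Complex.re_add_im q]
      push_cast
      ring
  have hbA : b = X.A (it (n + 1)) (x₀ + ((W / 2 : ℝ) : ℂ) * e + ((t - r : ℝ) : ℂ) * u) := by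
    have h1 := run1.unfold
    have h2 : x₀ + ((W / 2 : ℝ) : ℂ) * e + (t : ℂ) * u =
        (x₀ + ((W / 2 : ℝ) : ℂ) * e + ((t - r : ℝ) : ℂ) * u) + (r : ℂ) * u := by
      push_cast; ring
    rw [hbdef]
    conv_lhs => rw [h1.1, h1.2]
    rw [h2, X.A_add, X.B_smul]
    ring
  have hs : |s₁ - W / 2| ≤ ‖z - b‖ := by
    rw [← hAz', hbA, X.dist_A, hdec]
    have h1 : x₀ + (s₁ : ℂ) * e + (τ : ℂ) * u -
        (x₀ + ((W / 2 : ℝ) : ℂ) * e + ((t - r : ℝ) : ℂ) * u) =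
        ((s₁ - W / 2 : ℝ) : ℂ) * e + ((τ - (t - r) : ℝ) : ℂ) * u := by
      push_cast; ring
    rw [h1]
    have h2 : ‖((s₁ - W / 2 : ℝ) : ℂ) * e + ((τ - (t - r) : ℝ) : ℂ) * u‖ =
        ‖(((s₁ - W / 2 : ℝ) : ℂ) * e + ((τ - (t - r) : ℝ) : ℂ) * u) * conj u‖ := by
      rw [norm_mul, RCLike.norm_conj, hu, mul_one]
    rw [h2]
    rcases g.orth with ho | ho
    · have h3 : (((s₁ - W / 2 : ℝ) : ℂ) * e + ((τ - (t - r) : ℝ) : ℂ) * u) * conj u =
          ((τ - (t - r) : ℝ) : ℂ) + ((s₁ - W / 2 : ℝ) : ℂ) * I := by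
        rw [ho]
        linear_combination (((s₁ - W / 2 : ℝ) : ℂ) * I + ((τ - (t - r) : ℝ) : ℂ)) * huc
      rw [h3]
      have h4 := Complex.abs_im_le_norm (((τ - (t - r) : ℝ) : ℂ) + ((s₁ - W / 2 : ℝ) : ℂ) * I)
      rw [Complex.add_im, Complex.ofReal_im, im_ofReal_mul_I_GapAux] at h4
      simpa using h4
    · have h3 : (((s₁ - W / 2 : ℝ) : ℂ) * e + ((τ - (t - r) : ℝ) : ℂ) * u) * conj u =
          ((τ - (t - r) : ℝ) : ℂ) + ((-(s₁ - W / 2) : ℝ) : ℂ) * I := by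
        rw [ho]
        push_cast
        linear_combination (-((s₁ : ℂ) - W / 2) * I + ((τ : ℂ) - (t - r))) * huc
      rw [h3]
      have h4 := Complex.abs_im_le_norm (((τ - (t - r) : ℝ) : ℂ) + ((-(s₁ - W / 2) : ℝ) : ℂ) * I)
      rw [Complex.add_im, Complex.ofReal_im, im_ofReal_mul_I_GapAux] at h4
      rw [zero_add, abs_neg] at h4
      exact h4
  have hs2 : |s₁ - W / 2| < W / 2 := by
    refine hs.trans_lt ?_
    rw [norm_sub_rev]
    exact hclose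
  rw [abs_lt] at hs2
  have hs₁ : s₁ ∈ Ioo 0 W := ⟨by linarith, by linarith⟩
  obtain ⟨t₃, y₃, u₃, run3⟩ := hB s₁ ⟨hs₁.1.le, hs₁.2⟩ (n + 1)
  have hu3 : u₃ = u' := by rw [run3.unfold.2, run1.unfold.2]
  subst hu3
  have run3' := run3
  rw [hl1] at run3'
  obtain ⟨r₃, hr3, hrt3, hb3, hall3⟩ := run3'.last
  have hb3A : y₃ - (r₃ : ℂ) * u₃ =
      X.A (it (n + 1)) (x₀ + (s₁ : ℂ) * e + ((t₃ - r₃ : ℝ) : ℂ) * u) := by
    have h1 := run3.unfold
    have h2 : x₀ + (s₁ : ℂ) * e + (t₃ : ℂ) * u =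
        (x₀ + (s₁ : ℂ) * e + ((t₃ - r₃ : ℝ) : ℂ) * u) + (r₃ : ℂ) * u := by
      push_cast; ring
    conv_lhs => rw [h1.1, h1.2]
    rw [h2, X.A_add, X.B_smul]
    ring
  have hdiff : z - (y₃ - (r₃ : ℂ) * u₃) = ((τ - (t₃ - r₃) : ℝ) : ℂ) * u₃ := by
    rw [hb3A, ← hAz', hdec, X.A_sub]
    have h2 : x₀ + (s₁ : ℂ) * e + (τ : ℂ) * u - (x₀ + (s₁ : ℂ) * e + ((t₃ - r₃ : ℝ) : ℂ) * u) =
        ((τ - (t₃ - r₃) : ℝ) : ℂ) * u := by
      push_cast; ring
    rw [h2, X.B_smul, ← run3.unfold.2]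
  have hpar : Par (X.w i) (z - (y₃ - (r₃ : ℂ) * u₃)) :=
    OnLine.par_sub (mem_Seg.1 hz).1 (mem_Seg.1 hb3).1
  have htr : Transv N u₃ := by
    rw [run3.unfold.2]
    exact Transv.B g.rat.root (g.inv.transv _ g.mem) _
  have hzb : z = y₃ - (r₃ : ℂ) * u₃ := by
    by_cases hτ : τ - (t₃ - r₃) = 0
    · rw [hτ, Complex.ofReal_zero, zero_mul] at hdiff
      exact sub_eq_zero.1 hdiff
    · rw [hdiff] at hpar
      exact absurd (Par.of_smul hτ hpar) (htr _ (g.rat.root i))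
  have hρ : 0 < min r₃ r' := lt_min hr3 hr'
  have R1 := hall3 (min r₃ r') ⟨hρ, min_le_left _ _⟩
  have R2 := hall (min r₃ r') ⟨hρ, min_le_right _ _⟩
  rw [← hl1, ← hzb] at R1
  have hfree1 : x₀ + (s₁ : ℂ) * e ∉ X.M := g.free (by
    rw [abs_of_pos hs₁.1]; linarith [hs₁.2, g.δpos])
  have hfree2 : x₀ + ((W / 2 : ℝ) : ℂ) * e ∉ X.M := g.free (by
    rw [abs_of_pos (by linarith : (0 : ℝ) < W / 2)]; linarith [g.δpos])
  obtain ⟨L, -, hL⟩ := Cfg.Run.passes hfree1 hfree2 R1 R2 (by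
    rw [g.len, g.len]; omega)
  exact ⟨s₁, hs₁, L, _, hL⟩

end GapData

end Mir
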