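import Pool.Agent.H.MP_80ce29_pr.Defs

/-!
# Geometry of one mirror: the equation of the line and of the segment

`OnLine c w x` says that `x` lies on the line through `c` with direction `d`, `d ^ 2 = w`. Writing
`q = x - c`, this is `w * conj q = q`: indeed for a unit `d` with `d ^ 2 = w` one has
`w * conj d = d`, and conversely `q * conj d` is then its own conjugate, so `q = s * d` with
`s = q * conj d` real and `|s| = ‖q‖`.
-/

open Set MeasureTheory Complex Filter Topology
open scoped ComplexConjugate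

namespace Mir

/-- `x` lies on the line through `c` of direction `w`. -/
def OnLine (c : ℂ) (w : Circle) (x : ℂ) : Prop := (w : ℂ) * conj (x - c) = x - c

/-- `v` is parallel to the lines of direction `w` (this includes `v = 0`). -/
def Par (w : Circle) (v : ℂ) : Prop := (w : ℂ) * conj v = v

/-- Existence of a square root: take a square root in `ℂ`. -/
theorem exists_sq (w : Circle) : ∃ d : ℂ, d ^ 2 = (w : ℂ) := by
  obtain ⟨d, hd⟩ := IsAlgClosed.exists_pow_nat_eq (w : ℂ) (n := 2) (by norm_num)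
  exact ⟨d, hd⟩

/-- A square root `d` of a unit complex number has `‖d‖ = 1`: `‖d‖ ^ 2 = ‖w‖ = 1`. -/
theorem norm_sq_root {w : Circle} {d : ℂ} (hd : d ^ 2 = (w : ℂ)) : ‖d‖ = 1 := by
  have h1 : ‖d‖ ^ 2 = 1 := by
    rw [← norm_pow, hd, Circle.norm_coe]
  nlinarith [norm_nonneg d, h1]

/-- `w * conj d = d` when `d ^ 2 = w`: `d ^ 2 * conj d = d * ‖d‖ ^ 2 = d`. -/
theorem par_root {w : Circle} {d : ℂ} (hd : d ^ 2 = (w : ℂ)) : Par w d := by
  have h1 : d * conj d = 1 := by
    rw [Complex.mul_conj, Complex.normSq_eq_norm_sq, norm_sq_root hd]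
    norm_num
  show (w : ℂ) * conj d = d
  rw [← hd]
  linear_combination d * h1

/-- A vector is parallel to the direction `w` iff it is a real multiple of a square root `d` of
`w`. (←) from `par_root`. (→) `s := q * conj d` is real, because
`conj s = conj q * d` and `s = (w * conj q) * conj d = d ^ 2 * conj q * conj d = conj q * d`. Then
`q = s * d`, because `conj d * d = 1`. -/
theorem par_iff {w : Circle} {d : ℂ} (hd : d ^ 2 = (w : ℂ)) {q : ℂ} :
    Par w q ↔ ∃ s : ℝ, q = s * d := by
  have h1 : d * conj d = 1 := by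
    rw [Complex.mul_conj, Complex.normSq_eq_norm_sq, norm_sq_root hd]
    norm_num
  constructor
  · intro h
    have h2 : (w : ℂ) * conj q = q := h
    have h3 : conj (q * conj d) = q * conj d := by
      have h2' : d ^ 2 * conj q = q := by rw [hd]; exact h2
      rw [map_mul, Complex.conj_conj]
      linear_combination conj d * h2' - conj q * d * h1
    obtain ⟨s, hs⟩ := Complex.conj_eq_iff_real.1 h3
    refine ⟨s, ?_⟩
    rw [← hs]
    linear_combination -q * h1
  · rintro ⟨s, rfl⟩
    show (w : ℂ) * conj ((s : ℂ) * d) = s * d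
    rw [map_mul, Complex.conj_ofReal]
    have h2 : (w : ℂ) * conj d = d := par_root hd
    linear_combination (s : ℂ) * h2

/-- The closed segment: `x` is on the line and at distance at most `h` from the centre.
Use `par_iff` for `q = x - c` and `‖s * d‖ = |s|`. -/
theorem mem_Seg {c : ℂ} {w : Circle} {h : ℝ} {x : ℂ} :
    x ∈ Seg c w h ↔ OnLine c w x ∧ ‖x - c‖ ≤ h := by
  constructor
  · rintro ⟨d, hd, s, hs, rfl⟩
    have h1 : c + (s : ℂ) * d - c = s * d := by ring
    refine ⟨?_, ?_⟩
    · show (w : ℂ) * conj (c + s * d - c) = c + s * d - c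
      rw [h1]
      exact (par_iff hd).2 ⟨s, rfl⟩
    · rw [h1, norm_mul, norm_sq_root hd, mul_one, Complex.norm_real]
      exact hs
  · rintro ⟨h1, h2⟩
    obtain ⟨d, hd⟩ := exists_sq w
    obtain ⟨s, hs⟩ := (par_iff hd).1 h1
    refine ⟨d, hd, s, ?_, ?_⟩
    · rw [hs, norm_mul, norm_sq_root hd, mul_one, Complex.norm_real] at h2
      exact h2
    · rw [← hs]; ring

/-- The open segment, as for `mem_Seg`. -/
theorem mem_Inner {c : ℂ} {w : Circle} {h : ℝ} {x : ℂ} :
    x ∈ Inner c w h ↔ OnLine c w x ∧ ‖x - c‖ < h := by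
  constructor
  · rintro ⟨d, hd, s, hs, rfl⟩
    have h1 : c + (s : ℂ) * d - c = s * d := by ring
    refine ⟨?_, ?_⟩
    · show (w : ℂ) * conj (c + s * d - c) = c + s * d - c
      rw [h1]
      exact (par_iff hd).2 ⟨s, rfl⟩
    · rw [h1, norm_mul, norm_sq_root hd, mul_one, Complex.norm_real]
      exact hs
  · rintro ⟨h1, h2⟩
    obtain ⟨d, hd⟩ := exists_sq w
    obtain ⟨s, hs⟩ := (par_iff hd).1 h1
    refine ⟨d, hd, s, ?_, ?_⟩
    · rw [hs, norm_mul, norm_sq_root hd, mul_one, Complex.norm_real] at h2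
      exact h2
    · rw [← hs]; ring

theorem Inner_subset_Seg {c : ℂ} {w : Circle} {h : ℝ} : Inner c w h ⊆ Seg c w h := by
  intro x hx
  rw [mem_Inner] at hx
  rw [mem_Seg]
  exact ⟨hx.1, hx.2.le⟩

/-- `{(c, w, h, x) | x ∈ Seg c w h}` is closed: it is given by the closed conditions of
`mem_Seg`. -/
theorem isClosed_Seg_graph :
    IsClosed {p : (ℂ × Circle × ℝ) × ℂ | p.2 ∈ Seg p.1.1 p.1.2.1 p.1.2.2} := by
  have h1 : {p : (ℂ × Circle × ℝ) × ℂ | p.2 ∈ Seg p.1.1 p.1.2.1 p.1.2.2} =
      {p : (ℂ × Circle × ℝ) × ℂ | (p.1.2.1 : ℂ) * conj (p.2 - p.1.1) = p.2 - p.1.1} ∩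
        {p | ‖p.2 - p.1.1‖ ≤ p.1.2.2} := by
    ext p
    exact mem_Seg
  rw [h1]
  have hc : Continuous fun p : (ℂ × Circle × ℝ) × ℂ => (p.1.2.1 : ℂ) :=
    continuous_subtype_val.comp (continuous_fst.comp (continuous_snd.comp continuous_fst))
  refine IsClosed.inter (isClosed_eq ?_ ?_) (isClosed_le ?_ ?_)
  · exact hc.mul (Complex.continuous_conj.comp (by fun_prop))
  · fun_prop
  · fun_prop
  · fun_prop

theorem isClosed_Seg (c : ℂ) (w : Circle) (h : ℝ) : IsClosed (Seg c w h) := by
  have h1 : Continuous fun x : ℂ => (((c, w, h) : ℂ × Circle × ℝ), x) := by fun_prop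
  exact isClosed_Seg_graph.preimage h1

/-- Closed and bounded. -/
theorem isCompact_Seg (c : ℂ) (w : Circle) (h : ℝ) : IsCompact (Seg c w h) := by
  refine Metric.isCompact_of_isClosed_isBounded (isClosed_Seg c w h) ?_
  refine (Metric.isBounded_closedBall (x := c) (r := h)).subset fun x hx => ?_
  rw [Metric.mem_closedBall, dist_eq_norm]
  exact (mem_Seg.1 hx).2

/-- Real multiples of a parallel vector are parallel. -/
theorem Par.smul {w : Circle} {v : ℂ} (hv : Par w v) (s : ℝ) : Par w (s * v) := by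
  have h1 : (w : ℂ) * conj v = v := hv
  show (w : ℂ) * conj ((s : ℂ) * v) = s * v
  rw [map_mul, Complex.conj_ofReal]
  linear_combination (s : ℂ) * h1

theorem Par.add {w : Circle} {v v' : ℂ} (hv : Par w v) (hv' : Par w v') : Par w (v + v') := by
  have h1 : (w : ℂ) * conj v = v := hv
  have h2 : (w : ℂ) * conj v' = v' := hv'
  show (w : ℂ) * conj (v + v') = v + v'
  rw [map_add]
  linear_combination h1 + h2

theorem Par.sub {w : Circle} {v v' : ℂ} (hv : Par w v) (hv' : Par w v') : Par w (v - v') := by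
  have h1 : (w : ℂ) * conj v = v := hv
  have h2 : (w : ℂ) * conj v' = v' := hv'
  show (w : ℂ) * conj (v - v') = v - v'
  rw [map_sub]
  linear_combination h1 - h2

/-- If `r * v` is parallel and `r ≠ 0` is real then `v` is parallel. -/
theorem Par.of_smul {w : Circle} {v : ℂ} {r : ℝ} (hr : r ≠ 0) (hv : Par w (r * v)) : Par w v := by
  have h1 : (w : ℂ) * conj ((r : ℂ) * v) = r * v := hv
  rw [map_mul, Complex.conj_ofReal] at h1
  have h2 : (r : ℂ) ≠ 0 := by exact_mod_cast hr
  show (w : ℂ) * conj v = v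
  apply mul_left_cancel₀ h2
  linear_combination h1

/-- The difference of two points of a line is parallel to it. -/
theorem OnLine.par_sub {c : ℂ} {w : Circle} {x y : ℂ} (hx : OnLine c w x) (hy : OnLine c w y) :
    Par w (x - y) := by
  have h1 : (w : ℂ) * conj (x - c) = x - c := hx
  have h2 : (w : ℂ) * conj (y - c) = y - c := hy
  show (w : ℂ) * conj (x - y) = x - y
  rw [map_sub] at h1 h2 ⊢
  linear_combination h1 - h2

/-- A point of the line plus a parallel vector is on the line. -/
theorem OnLine.add_par {c : ℂ} {w : Circle} {x v : ℂ} (hx : OnLine c w x) (hv : Par w v) :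
    OnLine c w (x + v) := by
  have h1 : (w : ℂ) * conj (x - c) = x - c := hx
  have h2 : (w : ℂ) * conj v = v := hv
  show (w : ℂ) * conj (x + v - c) = x + v - c
  rw [map_sub] at h1
  rw [map_sub, map_add]
  linear_combination h1 + h2

/-- `w * conj v` is parallel iff `v` is (apply `w * conj ·`, which is an involution because
`w * conj w = 1`). -/
theorem par_refl_iff {w : Circle} {v : ℂ} : Par w ((w : ℂ) * conj v) ↔ Par w v := by
  have h1 : (w : ℂ) * conj (w : ℂ) = 1 := by
    rw [Complex.mul_conj, Complex.normSq_eq_norm_sq, Circle.norm_coe]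
    norm_num
  have h2 : (w : ℂ) * conj ((w : ℂ) * conj v) = v := by
    rw [map_mul, Complex.conj_conj]
    linear_combination v * h1
  constructor
  · intro h
    have h3 : (w : ℂ) * conj ((w : ℂ) * conj v) = (w : ℂ) * conj v := h
    rw [h2] at h3
    exact h3.symm
  · intro h
    have h3 : (w : ℂ) * conj v = v := h
    rw [h3]
    exact h

/-- The reflection of velocities is an involution. -/
theorem refl_refl (w : Circle) (v : ℂ) : (w : ℂ) * conj ((w : ℂ) * conj v) = v := by
  have h1 : (w : ℂ) * conj (w : ℂ) = 1 := by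
    rw [Complex.mul_conj, Complex.normSq_eq_norm_sq, Circle.norm_coe]
    norm_num
  rw [map_mul, Complex.conj_conj]
  linear_combination v * h1

theorem norm_refl (w : Circle) (v : ℂ) : ‖(w : ℂ) * conj v‖ = ‖v‖ := by
  rw [norm_mul, Circle.norm_coe, one_mul, RCLike.norm_conj]

/-- A ray which arrives at an inner point of a segment, coming from outside the segment, is not
parallel to it. If `Par w v`, then all points `x + s * v` are on the line, and for `s < r` close to
`r` their distance from `c` is `< h` by continuity, so they are in the segment, although they are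
in the free part of the ray. -/
theorem not_par_of_hit {c : ℂ} {w : Circle} {h : ℝ} {x v : ℂ} {r : ℝ} (hr : 0 < r)
    (hf : ∀ s ∈ Ioo 0 r, x + (s : ℂ) * v ∉ Seg c w h) (hp : x + (r : ℂ) * v ∈ Inner c w h) :
    ¬ Par w v := by
  intro hpar
  rw [mem_Inner] at hp
  obtain ⟨hl, hn⟩ := hp
  have hc : Continuous fun s : ℝ => ‖x + (s : ℂ) * v - c‖ := by fun_prop
  have h1 : ∀ᶠ s : ℝ in 𝓝 r, ‖x + (s : ℂ) * v - c‖ < h := hc.continuousAt.eventually_lt_const hn
  have h2 : ∀ᶠ s : ℝ in 𝓝[<] r, ‖x + (s : ℂ) * v - c‖ < h := h1.filter_mono nhdsWithin_le_nhds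
  have h3 : ∀ᶠ s : ℝ in 𝓝[<] r, s ∈ Ioo 0 r := Ioo_mem_nhdsLT hr
  obtain ⟨s, hs1, hs2⟩ := (h2.and h3).exists
  refine hf s hs2 (mem_Seg.2 ⟨?_, hs1.le⟩)
  have h4 : x + (s : ℂ) * v = (x + (r : ℂ) * v) + ((s - r : ℝ) : ℂ) * v := by
    push_cast; ring
  rw [h4]
  exact hl.add_par (hpar.smul _)

/-- On a transversal line, two points of the line `x + ℝ v` which are both on the line `(c, w)`
are equal: their difference `(r - r') * v` is parallel to `w`. -/
theorem cross_unique {c : ℂ} {w : Circle} {x v : ℂ} {r r' : ℝ} (hv : ¬ Par w v)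
    (h1 : OnLine c w (x + (r : ℂ) * v)) (h2 : OnLine c w (x + (r' : ℂ) * v)) : r = r' := by
  by_contra hne
  apply hv
  have h3 := h1.par_sub h2
  have h4 : x + (r : ℂ) * v - (x + (r' : ℂ) * v) = ((r - r' : ℝ) : ℂ) * v := by
    push_cast; ring
  rw [h4] at h3
  exact h3.of_smul (sub_ne_zero.2 hne)

end Mir
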