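import Pool.Agent.H.MP_80ce29_pr.Geo1

/-!
# The crossing parameter of a line and a ray

The point `x + r * v` is on the line `(c, w)` iff
`r * (v - w * conj v) = w * conj (x - c) - (x - c)`. If `v` is not parallel to `w`, then
`v - w * conj v ≠ 0`, and the quotient
`(w * conj (x - c) - (x - c)) / (v - w * conj v)` is real: its conjugate, after multiplication of
numerator and denominator by `w` (`w * conj w = 1`), is `(q - w * conj q) / (w * conj v - v)`.
-/

open Set MeasureTheory Complex Filter Topology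
open scoped ComplexConjugate

namespace Mir

/-- The time at which the ray `x + r * v` crosses the line `(c, w)`. -/
noncomputable def crossT (c : ℂ) (w : Circle) (x v : ℂ) : ℝ :=
  (((w : ℂ) * conj (x - c) - (x - c)) / (v - (w : ℂ) * conj v)).re

/-- See the header: the quotient is real, and the equation of the line is linear in `r`. -/
theorem onLine_crossT {c : ℂ} {w : Circle} {x v : ℂ} (hv : ¬ Par w v) :
    OnLine c w (x + (crossT c w x v : ℂ) * v) := by
  have hw : (w : ℂ) * conj (w : ℂ) = 1 := by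
    rw [Complex.mul_conj, Complex.normSq_eq_norm_sq, Circle.norm_coe]
    norm_num
  have hw0 : (w : ℂ) ≠ 0 := fun h => by rw [h, zero_mul] at hw; exact zero_ne_one hw
  have hD : v - (w : ℂ) * conj v ≠ 0 := fun h => hv (sub_eq_zero.1 h).symm
  set z : ℂ := ((w : ℂ) * conj (x - c) - (x - c)) / (v - (w : ℂ) * conj v) with hz
  have h1 : z * (v - (w : ℂ) * conj v) = (w : ℂ) * conj (x - c) - (x - c) := by
    rw [hz, div_mul_cancel₀ _ hD]
  have h2 : conj z * (conj v - conj (w : ℂ) * v) = conj (w : ℂ) * (x - c) - conj (x - c) := by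
    have := congrArg conj h1
    simpa only [map_mul, map_sub, Complex.conj_conj] using this
  have h3 : conj z = z := by
    apply mul_right_cancel₀ hD
    linear_combination -(w : ℂ) * h2 - h1 + (-conj z * v - (x - c)) * hw
  have h4 : ((crossT c w x v : ℝ) : ℂ) = z := by
    rw [crossT, ← hz]
    exact Complex.conj_eq_iff_re.1 h3
  show (w : ℂ) * conj (x + (crossT c w x v : ℂ) * v - c) = x + (crossT c w x v : ℂ) * v - c
  rw [h4, map_sub, map_add, map_mul, h3]
  rw [map_sub] at h1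
  linear_combination -h1

/-- Uniqueness (`cross_unique`). -/
theorem eq_crossT {c : ℂ} {w : Circle} {x v : ℂ} {r : ℝ} (hv : ¬ Par w v)
    (h : OnLine c w (x + (r : ℂ) * v)) : r = crossT c w x v :=
  cross_unique hv h (onLine_crossT hv)

/-- The crossing parameter is continuous where the denominator does not vanish. -/
theorem tendsto_crossT {Θ : Type*} {F : Filter Θ} {c : Θ → ℂ} {w : Θ → Circle} {x v : Θ → ℂ}
    {c₀ : ℂ} {w₀ : Circle} {x₀ v₀ : ℂ} (hc : Tendsto c F (𝓝 c₀)) (hw : Tendsto w F (𝓝 w₀))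
    (hx : Tendsto x F (𝓝 x₀)) (hv : Tendsto v F (𝓝 v₀)) (h0 : ¬ Par w₀ v₀) :
    Tendsto (fun θ => crossT (c θ) (w θ) (x θ) (v θ)) F (𝓝 (crossT c₀ w₀ x₀ v₀)) := by
  have hD : v₀ - (w₀ : ℂ) * conj v₀ ≠ 0 := fun h => h0 (sub_eq_zero.1 h).symm
  have hw' : Tendsto (fun θ => ((w θ : Circle) : ℂ)) F (𝓝 (w₀ : ℂ)) :=
    (continuous_subtype_val.tendsto _).comp hw
  have hcv : Tendsto (fun θ => conj (v θ)) F (𝓝 (conj v₀)) :=
    (Complex.continuous_conj.tendsto _).comp hv
  have hcx : Tendsto (fun θ => conj (x θ - c θ)) F (𝓝 (conj (x₀ - c₀))) :=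
    (Complex.continuous_conj.tendsto _).comp (hx.sub hc)
  have h1 := ((hw'.mul hcx).sub (hx.sub hc)).div (hv.sub (hw'.mul hcv)) hD
  exact (Complex.continuous_re.tendsto _).comp h1

/-- Being transversal is an open condition. -/
theorem eventually_not_par {Θ : Type*} {F : Filter Θ} {w : Θ → Circle} {v : Θ → ℂ}
    {w₀ : Circle} {v₀ : ℂ} (hw : Tendsto w F (𝓝 w₀)) (hv : Tendsto v F (𝓝 v₀))
    (h0 : ¬ Par w₀ v₀) : ∀ᶠ θ in F, ¬ Par (w θ) (v θ) := by
  have hD : v₀ - (w₀ : ℂ) * conj v₀ ≠ 0 := fun h => h0 (sub_eq_zero.1 h).symm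
  have hw' : Tendsto (fun θ => ((w θ : Circle) : ℂ)) F (𝓝 (w₀ : ℂ)) :=
    (continuous_subtype_val.tendsto _).comp hw
  have hcv : Tendsto (fun θ => conj (v θ)) F (𝓝 (conj v₀)) :=
    (Complex.continuous_conj.tendsto _).comp hv
  have h1 := (hv.sub (hw'.mul hcv)).eventually_ne hD
  filter_upwards [h1] with θ hθ hp
  exact hθ (sub_eq_zero.2 (Eq.symm hp))

/-- A transversal hit of an inner point is stable: the crossing parameters converge to `r₀` (by
`tendsto_crossT` and `eq_crossT`) and the crossing points are eventually inner points, because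
`‖x + r * v - c‖ < h` is an open condition and `onLine_crossT` gives the equation of the line. -/
theorem eventually_cross {Θ : Type*} {F : Filter Θ} {c : Θ → ℂ} {w : Θ → Circle} {h : Θ → ℝ}
    {x v : Θ → ℂ} {c₀ : ℂ} {w₀ : Circle} {h₀ : ℝ} {x₀ v₀ : ℂ} {r₀ : ℝ}
    (hc : Tendsto c F (𝓝 c₀)) (hw : Tendsto w F (𝓝 w₀)) (hh : Tendsto h F (𝓝 h₀))
    (hx : Tendsto x F (𝓝 x₀)) (hv : Tendsto v F (𝓝 v₀)) (h0 : ¬ Par w₀ v₀)
    (hp : x₀ + (r₀ : ℂ) * v₀ ∈ Inner c₀ w₀ h₀) :
    Tendsto (fun θ => crossT (c θ) (w θ) (x θ) (v θ)) F (𝓝 r₀) ∧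
    ∀ᶠ θ in F, x θ + (crossT (c θ) (w θ) (x θ) (v θ) : ℂ) * v θ ∈ Inner (c θ) (w θ) (h θ) := by
  have hp' := mem_Inner.1 hp
  have h1 : Tendsto (fun θ => crossT (c θ) (w θ) (x θ) (v θ)) F (𝓝 r₀) := by
    rw [eq_crossT h0 hp'.1]
    exact tendsto_crossT hc hw hx hv h0
  refine ⟨h1, ?_⟩
  have h2 : Tendsto (fun θ => ((crossT (c θ) (w θ) (x θ) (v θ) : ℝ) : ℂ)) F (𝓝 (r₀ : ℂ)) :=
    (Complex.continuous_ofReal.tendsto _).comp h1
  have h3 : Tendsto (fun θ => ‖x θ + (crossT (c θ) (w θ) (x θ) (v θ) : ℂ) * v θ - c θ‖) F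
      (𝓝 ‖x₀ + (r₀ : ℂ) * v₀ - c₀‖) := ((hx.add (h2.mul hv)).sub hc).norm
  filter_upwards [h3.eventually_lt hh hp'.2, eventually_not_par hw hv h0] with θ h4 h5
  exact mem_Inner.2 ⟨onLine_crossT h5, h4⟩

end Mir
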