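import Pool.Agent.H.MP_80ce29_pr.Ineq1

/-!
# The basic inequality for rational laws
-/

open Set MeasureTheory Complex Filter Topology
open scoped ComplexConjugate ENNReal

namespace Mir

/-- Almost surely (for a rational law): `C` bounded implies `(ω, ε) ∈ VG`
(`Fam.stab_bounded` for `fam_cfg`, using `ae_gp` and `ae_zero_free`); and `C` unbounded
implies that for almost every `s` the ray escapes (`escapes_of_good`), so it is in `VR m`. -/
theorem ae_alternative {μ : ProbabilityMeasure Circle} (hμ : IsRat μ) {ε : ℝ} (hε : 0 < ε)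
    (m : ℕ) : ∀ᵐ ω ∂(law μ), (ω, ε) ∈ VG ∨
      ∀ᵐ s ∂(volume : Measure unitInterval), (((ω.1, s), ω.2), ε) ∈ VR m := by
  obtain ⟨N, hN, hr⟩ := hμ
  filter_upwards [ae_root hr, ae_gp μ ε, ae_zero_free μ ε] with ω hw hgp h0
  have hX : Rat (cfg ω ε) N := rat_cfg hε hN hw hgp
  by_cases hb : Bornology.IsBounded (cfg ω ε).C
  · left
    have hpos : 0 < (cfg ω ε).h := half_pos hε
    have h1 := fam_cfg.stab_bounded (ω, ε) hpos hgp h0 hb
    exact mem_interior_iff_mem_nhds.2 h1
  · right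
    filter_upwards [ae_good_dir hX] with s hs
    exact ⟨h0, escapes_of_good hX h0 hs hb m⟩

/-- The event `VR m` in the arrangement of `fR_eq`. -/
private def ER (m : ℕ) (ε : ℝ) : Set (Sample × unitInterval) :=
  {p | (((p.1.1, p.2), p.1.2), ε) ∈ VR m}

/-- The section of `VG`. -/
private def EG (ε : ℝ) : Set Sample := {ω | (ω, ε) ∈ VG}

private theorem isOpen_ER (m : ℕ) (ε : ℝ) : IsOpen (ER m ε) := by
  have h : Continuous fun p : Sample × unitInterval =>
      ((((p.1.1, p.2), p.1.2), ε) : ((Base × unitInterval) × (Idx → Circle)) × ℝ) := by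
    fun_prop
  exact (isOpen_VR m).preimage h

private theorem isOpen_EG (ε : ℝ) : IsOpen (EG ε) := by
  have h : Continuous fun ω : Sample => ((ω, ε) : (Base × (Idx → Circle)) × ℝ) := by
    fun_prop
  exact isOpen_VG.preimage h

private theorem gG_eq (μ : ProbabilityMeasure Circle) (ε : ℝ) : gG μ ε = law μ (EG ε) := rfl

/-- The basic inequality. By `fR_eq` and Fubini `fR = ∫ volume {s | ...} dP(ω)`, and by
`ae_alternative` the integrand is `1` for almost every `ω` outside the open event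
`{ω | (ω, ε) ∈ VG}`, so `fR ≥ 1 - gG`. -/
theorem one_le_of_rat {μ : ProbabilityMeasure Circle} (hμ : IsRat μ) {ε : ℝ} (hε : 0 < ε)
    (m : ℕ) : 1 ≤ fR m μ ε + gG μ ε := by
  have h1 : fR m μ ε = ((law μ).prod (volume : Measure unitInterval)) (ER m ε) := fR_eq m μ ε
  have h2 : law μ (EG ε)ᶜ ≤ fR m μ ε := by
    rw [h1, Measure.prod_apply (isOpen_ER m ε).measurableSet,
      ← lintegral_indicator_one (isOpen_EG ε).measurableSet.compl]
    refine lintegral_mono_ae ?_
    filter_upwards [ae_alternative hμ hε m] with ω hω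
    by_cases hG : ω ∈ (EG ε)ᶜ
    · rw [Set.indicator_of_mem hG]
      rcases hω with h3 | h3
      · exact absurd h3 hG
      · have h4 : (volume : Measure unitInterval) (Prod.mk ω ⁻¹' ER m ε) =
            (volume : Measure unitInterval) univ := by
          refine measure_congr (eventuallyEq_univ.2 ?_)
          filter_upwards [h3] with s hs
          exact hs
        rw [h4, measure_univ]
        exact le_refl _
    · rw [Set.indicator_of_notMem hG]
      exact bot_le
  rw [gG_eq]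
  calc (1 : ℝ≥0∞) = law μ (EG ε)ᶜ + law μ (EG ε) := by
        rw [add_comm, measure_add_measure_compl (isOpen_EG ε).measurableSet, measure_univ]
    _ ≤ _ := by gcongr

/-- Almost surely `(ω, ε) ∈ VG` excludes that some ray is in all `VR m`: on `VG` the component `C` is
bounded, and points reached by rays are in `C` (`Escapes.unbounded`). -/
theorem not_VR_of_VG {ω : Sample} {ε : ℝ} (h : (ω, ε) ∈ VG) (s : unitInterval) :
    ∃ m, (((ω.1, s), ω.2), ε) ∉ VR m := by
  by_contra hcon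
  push Not at hcon
  have hb : Bornology.IsBounded (cfg ω ε).C := by
    have h1 : (ω, ε) ∈ {p : (Base × (Idx → Circle)) × ℝ | Bornology.IsBounded (cfg p.1 p.2).C} :=
      interior_subset h
    exact h1
  have h0 : (0 : ℂ) ∉ (cfg ω ε).M := (hcon 0).1
  have hesc : (cfg ω ε).Escapes (dir s) := by
    intro r
    obtain ⟨n, hn⟩ := exists_nat_ge r
    obtain ⟨-, l, t, y, u, hr, hy⟩ := hcon n
    exact ⟨l, t, y, u, hr, lt_of_le_of_lt hn hy⟩
  exact hesc.unbounded (fam_cfg.LF (ω, ε)) h0 hb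

/-- Converse use of the inequality: if `1 ≤ fR m μ ε + gG μ ε` for all `m` then `AllEscape μ ε`. Let
`P = law μ`, `G = {ω | (ω, ε) ∈ VG}` (open), `E m = {(ω, s) | ... ∈ VR m}` (open, decreasing),
`E = ⋂ m, E m`. By continuity from above `(P × vol) E + P G ≥ 1`. By `not_VR_of_VG`
`E ⊆ Gᶜ × [0, 1]`, which has measure `1 - P G`; so `(Gᶜ × [0, 1]) \ E` is a null set, hence for
almost every `ω ∉ G`, almost every `s` satisfies `(ω, s) ∈ E`, so that `dir s` escapes. If `C` is
unbounded then `ω ∉ G`. -/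
theorem allEscape_of_ineq {μ : ProbabilityMeasure Circle} {ε : ℝ}
    (h : ∀ m, 1 ≤ fR m μ ε + gG μ ε) : AllEscape μ ε := by
  set Q : Measure (Sample × unitInterval) := (law μ).prod (volume : Measure unitInterval) with hQ
  have hE : ∀ m, MeasurableSet (ER m ε) := fun m => (isOpen_ER m ε).measurableSet
  have hanti : Antitone fun m => ER m ε := fun m n hmn p hp => VR_anti hmn hp
  have h1 : Q (⋂ m, ER m ε) = ⨅ m, Q (ER m ε) :=
    hanti.measure_iInter (fun m => (hE m).nullMeasurableSet) ⟨0, measure_ne_top _ _⟩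
  have h2 : 1 ≤ Q (⋂ m, ER m ε) + law μ (EG ε) := by
    rw [h1, ENNReal.iInf_add]
    refine le_iInf fun m => ?_
    have h3 := h m
    rw [gG_eq, show fR m μ ε = Q (ER m ε) from fR_eq m μ ε] at h3
    exact h3
  have hsub : (⋂ m, ER m ε) ⊆ (EG ε)ᶜ ×ˢ (univ : Set unitInterval) := by
    rintro ⟨ω, s⟩ hp
    refine ⟨fun hG => ?_, mem_univ _⟩
    obtain ⟨m, hm⟩ := not_VR_of_VG hG s
    exact hm (mem_iInter.1 hp m)
  have h3 : Q ((EG ε)ᶜ ×ˢ (univ : Set unitInterval)) ≤ Q (⋂ m, ER m ε) := by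
    rw [hQ, Measure.prod_prod, measure_univ, mul_one]
    have h4 : law μ (EG ε) + law μ (EG ε)ᶜ = 1 := by
      rw [measure_add_measure_compl (isOpen_EG ε).measurableSet, measure_univ]
    have h5 : law μ (EG ε) + law μ (EG ε)ᶜ ≤ law μ (EG ε) + Q (⋂ m, ER m ε) := by
      rw [h4, add_comm]
      exact h2
    exact (ENNReal.add_le_add_iff_left (measure_ne_top _ _)).1 h5
  have h4 : Q (((EG ε)ᶜ ×ˢ (univ : Set unitInterval)) \ ⋂ m, ER m ε) = 0 := by
    rw [measure_sdiff hsub (MeasurableSet.iInter hE).nullMeasurableSet (measure_ne_top _ _)]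
    exact tsub_eq_zero_of_le h3
  have h5 : ∀ᵐ p ∂Q, p ∉ ((EG ε)ᶜ ×ˢ (univ : Set unitInterval)) \ ⋂ m, ER m ε :=
    measure_eq_zero_iff_ae_notMem.1 h4
  have h6 : ∀ᵐ ω ∂(law μ), ∀ᵐ s ∂(volume : Measure unitInterval),
      (ω, s) ∉ ((EG ε)ᶜ ×ˢ (univ : Set unitInterval)) \ ⋂ m, ER m ε :=
    Measure.ae_ae_of_ae_prod h5
  filter_upwards [h6] with ω hω hC
  have hG : ω ∈ (EG ε)ᶜ := by
    intro hG
    have h7 : (ω, ε) ∈ {p : (Base × (Idx → Circle)) × ℝ | Bornology.IsBounded (cfg p.1 p.2).C} :=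
      interior_subset hG
    exact hC h7
  filter_upwards [hω] with s hs
  have hmem : (ω, s) ∈ ⋂ m, ER m ε := by
    by_contra hne
    exact hs ⟨⟨hG, mem_univ _⟩, hne⟩
  intro r
  obtain ⟨n, hn⟩ := exists_nat_ge r
  obtain ⟨-, l, t, y, u, hr, hy⟩ := mem_iInter.1 hmem n
  exact ⟨l, t, y, u, hr, lt_of_le_of_lt hn hy⟩

end Mir
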