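import Pool.Agent.H.MP_80ce29_pr.Model0

/-!
# Continuity of infinite product laws and lower semicontinuity of the probability of open events
-/

open Set MeasureTheory Complex Filter Topology
open scoped ComplexConjugate ENNReal

namespace Mir

/-- The infinite product as a probability measure. -/
noncomputable def infProd (I : Type*) (μ : ProbabilityMeasure Circle) :
    ProbabilityMeasure (I → Circle) :=
  ⟨Measure.infinitePi fun _ : I => (μ : Measure Circle), inferInstance⟩

/-- The infinite product depends continuously on the factor. As in the proof of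
`ProbabilityMeasure.continuous_pi` (file `Mathlib/MeasureTheory/Measure/FiniteMeasurePi.lean`), use
`IsPiSystem.tendsto_probabilityMeasure_of_tendsto_of_mem` with the π-system of the sets
`Set.pi s t`, `s` a finite set of indices, `t i` measurable with `μ₀ (frontier (t i)) = 0`; their
probability is `∏ i ∈ s, μ (t i)` (`Measure.infinitePi_pi`), which is continuous at `μ₀`. These sets
contain small neighbourhoods of each point (`exists_null_frontier_thickening`). -/
theorem continuous_infProd (I : Type*) [Countable I] : Continuous (infProd I) := by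
  classical
  refine continuous_iff_continuousAt.2 (fun μ ↦ ?_)
  let S : Set (Set (I → Circle)) := {t | ∃ (F : Finset I) (s : I → Set Circle),
    t = Set.pi (F : Set I) s ∧ (∀ i, MeasurableSet (s i)) ∧
      (∀ i, (μ : Measure Circle) (frontier (s i)) = 0)}
  have hpi : IsPiSystem S := by
    rintro - ⟨F, s, rfl, smeas, hs⟩ - ⟨F', s', rfl, s'meas, hs'⟩ -
    refine ⟨F ∪ F', fun i => (if i ∈ F then s i else univ) ∩ (if i ∈ F' then s' i else univ),
      ?_, fun i => ?_, fun i => ?_⟩
    · ext x
      simp only [mem_inter_iff, Set.mem_pi, Finset.mem_coe, Finset.coe_union, mem_union]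
      constructor
      · rintro ⟨h1, h2⟩ i hi
        refine ⟨?_, ?_⟩
        · split_ifs with h
          · exact h1 i h
          · trivial
        · split_ifs with h
          · exact h2 i h
          · trivial
      · intro h
        refine ⟨fun i hi => ?_, fun i hi => ?_⟩
        · have := (h i (Or.inl hi)).1
          rwa [if_pos hi] at this
        · have := (h i (Or.inr hi)).2
          rwa [if_pos hi] at this
    · refine MeasurableSet.inter ?_ ?_
      · split_ifs
        · exact smeas i
        · exact MeasurableSet.univ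
      · split_ifs
        · exact s'meas i
        · exact MeasurableSet.univ
    · refine null_frontier_inter ?_ ?_
      · split_ifs
        · exact hs i
        · simp
      · split_ifs
        · exact hs' i
        · simp
  apply hpi.tendsto_probabilityMeasure_of_tendsto_of_mem
  · rintro - ⟨F, s, rfl, smeas, hs⟩
    exact MeasurableSet.pi F.countable_toSet fun i _ => smeas i
  · intro u u_open x xu
    obtain ⟨F, w, hw, hwu⟩ := isOpen_pi_iff.1 u_open x xu
    have hb : ∀ i : I, ∃ ε > 0, i ∈ F → Metric.ball (x i) ε ⊆ w i := by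
      intro i
      by_cases hi : i ∈ F
      · obtain ⟨ε, hε, h⟩ := Metric.isOpen_iff.1 (hw i hi).1 (x i) (hw i hi).2
        exact ⟨ε, hε, fun _ => h⟩
      · exact ⟨1, one_pos, fun h => absurd h hi⟩
    choose ε hε hεw using hb
    have A (i : I) : ∃ r ∈ Ioo 0 (ε i),
        (μ : Measure Circle) (frontier (Metric.thickening r {x i})) = 0 :=
      exists_null_frontier_thickening _ _ (hε i)
    choose r hr hr0 using A
    refine ⟨Set.pi (F : Set I) fun i => Metric.ball (x i) (r i),
      ⟨F, fun i => Metric.ball (x i) (r i), rfl, fun i => measurableSet_ball,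
        fun i => by simpa using hr0 i⟩, ?_, ?_⟩
    · apply IsOpen.mem_nhds
      · exact isOpen_set_pi F.finite_toSet fun i _ => Metric.isOpen_ball
      · intro i _
        exact Metric.mem_ball_self (hr i).1
    · refine Subset.trans ?_ hwu
      intro y hy i hi
      exact hεw i hi (Metric.ball_subset_ball (hr i).2.le (hy i hi))
  · rintro - ⟨F, s, rfl, smeas, hs⟩
    have key : ∀ ν : ProbabilityMeasure Circle,
        infProd I ν (Set.pi (F : Set I) s) = ∏ i ∈ F, ν (s i) := by
      intro ν
      have h : (Measure.infinitePi fun _ : I => (ν : Measure Circle)) (Set.pi (F : Set I) s) =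
          ∏ i ∈ F, (ν : Measure Circle) (s i) :=
        Measure.infinitePi_pi _ fun i _ => smeas i
      have h' : ((infProd I ν : Measure (I → Circle)) (Set.pi (F : Set I) s)).toNNReal =
          ∏ i ∈ F, ((ν : Measure Circle) (s i)).toNNReal := by
        rw [← ENNReal.toNNReal_prod]
        exact congrArg ENNReal.toNNReal h
      exact h'
    simp only [key]
    apply tendsto_finsetProd _ (fun i hi ↦ ?_)
    exact ProbabilityMeasure.tendsto_measure_of_null_frontier_of_tendsto tendsto_id
      ((ProbabilityMeasure.null_iff_toMeasure_null _ _).2 (hs i))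

/-- Lower semicontinuity of the probability of an open event which also depends on a real
parameter. Let `a < P_{t₀} (V_{ε₀})`, `P_t = Q ⊗ infProd I (κ t)`,
`V_ε = {x | (x, ε) ∈ V}`. For `k ∈ ℕ` let `W k` be the interior of
`{x | ∀ ε, |ε - ε₀| < 1 / (k + 1) → (x, ε) ∈ V}`. The sets `W k` are open and increase to
`V_{ε₀}`, because `V` is open. So there is `k` with `a < P_{t₀} (W k)` (continuity from below,
`Monotone.measure_iUnion`). `t ↦ P_t` is continuous into the probability measures
(`continuous_infProd`, `ProbabilityMeasure.continuous_prod`), so by the portmanteau theorem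
(`ProbabilityMeasure.le_liminf_measure_open_of_tendsto`) `a < P_t (W k)` for `t` near `t₀`, and for
`|ε - ε₀| < 1 / (k + 1)` we have `W k ⊆ V_ε`. -/
theorem lsc_law {E : Type*} [TopologicalSpace E] [MeasurableSpace E] [BorelSpace E]
    [SecondCountableTopology E] [TopologicalSpace.PseudoMetrizableSpace E]
    {I : Type*} [Countable I] {T : Type*} [TopologicalSpace T] {κ : T → ProbabilityMeasure Circle}
    (hκ : Continuous κ) (Q : ProbabilityMeasure E) {V : Set ((E × (I → Circle)) × ℝ)}
    (hV : IsOpen V) :
    LowerSemicontinuous fun p : T × ℝ =>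
      ((Q : Measure E).prod (infProd I (κ p.1) : Measure (I → Circle))) {x | (x, p.2) ∈ V} := by
  rintro ⟨t₀, ε₀⟩ a ha
  simp only at ha
  let P : T → ProbabilityMeasure (E × (I → Circle)) := fun t => Q.prod (infProd I (κ t))
  have hP : Continuous P := by
    have h1 : Continuous fun t => (Q, infProd I (κ t)) :=
      continuous_const.prodMk ((continuous_infProd I).comp hκ)
    exact ProbabilityMeasure.continuous_prod.comp h1
  have hPm : ∀ t, (P t : Measure (E × (I → Circle))) =
      (Q : Measure E).prod (infProd I (κ t) : Measure (I → Circle)) := fun t => rfl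
  let W : ℕ → Set (E × (I → Circle)) := fun k =>
    interior {x | ∀ ε : ℝ, |ε - ε₀| < 1 / ((k : ℝ) + 1) → (x, ε) ∈ V}
  have hW : ∀ k, IsOpen (W k) := fun k => isOpen_interior
  have hmono : Monotone W := by
    intro k k' hkk
    refine interior_mono fun x hx ε hε => hx ε (lt_of_lt_of_le hε ?_)
    have : (k : ℝ) ≤ k' := by exact_mod_cast hkk
    exact one_div_le_one_div_of_le (by positivity) (by linarith)
  have hU : ⋃ k, W k = {x | (x, ε₀) ∈ V} := by
    apply Subset.antisymm
    · refine iUnion_subset fun k x hx => ?_
      have h := interior_subset hx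
      refine h ε₀ ?_
      rw [sub_self, abs_zero]
      positivity
    · intro x hx
      have hx' : V ∈ 𝓝 (x, ε₀) := hV.mem_nhds hx
      rw [nhds_prod_eq, Filter.mem_prod_iff] at hx'
      obtain ⟨A, hA, B, hB, hAB⟩ := hx'
      obtain ⟨δ, hδ, hδB⟩ := Metric.mem_nhds_iff.1 hB
      obtain ⟨k, hk⟩ := exists_nat_one_div_lt hδ
      refine mem_iUnion.2 ⟨k, mem_interior_iff_mem_nhds.2 (Filter.mem_of_superset hA ?_)⟩
      intro y hy ε hε
      refine hAB ⟨hy, hδB ?_⟩
      rw [Metric.mem_ball, Real.dist_eq]
      exact hε.trans hk
  have hlim : (P t₀ : Measure (E × (I → Circle))) (⋃ k, W k) =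
      ⨆ k, (P t₀ : Measure (E × (I → Circle))) (W k) := hmono.measure_iUnion
  rw [hU, hPm] at hlim
  rw [hlim] at ha
  obtain ⟨k, hk⟩ := lt_iSup_iff.1 ha
  have hliminf : (P t₀ : Measure (E × (I → Circle))) (W k) ≤
      (𝓝 t₀).liminf fun t => (P t : Measure (E × (I → Circle))) (W k) :=
    ProbabilityMeasure.le_liminf_measure_open_of_tendsto (hP.tendsto t₀) (hW k)
  have hev : ∀ᶠ t in 𝓝 t₀, a < (P t : Measure (E × (I → Circle))) (W k) :=
    Filter.eventually_lt_of_lt_liminf (lt_of_lt_of_le hk hliminf)
  have hevε : ∀ᶠ ε in 𝓝 ε₀, |ε - ε₀| < 1 / ((k : ℝ) + 1) := by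
    have : (0 : ℝ) < 1 / ((k : ℝ) + 1) := by positivity
    filter_upwards [Metric.ball_mem_nhds ε₀ this] with ε hε
    rwa [Metric.mem_ball, Real.dist_eq] at hε
  have := hev.prod_nhds hevε
  filter_upwards [this] with p hp
  refine lt_of_lt_of_le hp.1 ?_
  refine measure_mono fun x hx => ?_
  exact interior_subset hx p.2 hp.2

end Mir
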