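import Pool.Agent.H.MP_80ce29_pr.Null
import Pool.Agent.H.MP_80ce29_pr.Law
import Pool.Agent.H.MP_80ce29_pr.Comp
import Pool.Agent.H.MP_80ce29_pr.Count

/-!
# The probabilities of the open events
-/

open Set MeasureTheory Complex Filter Topology
open scoped ComplexConjugate ENNReal

namespace Mir

/-- The probability that the ray with a uniform direction reaches distance more than `m` (and `0` is
free). -/
noncomputable def fR (m : ℕ) (μ : ProbabilityMeasure Circle) (ε : ℝ) : ℝ≥0∞ :=
  ((baseLaw.prod (volume : Measure unitInterval)).prod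
    (infProd Idx μ : Measure (Idx → Circle))) {x | (x, ε) ∈ VR m}

/-- The probability of the open event `VG`. -/
noncomputable def gG (μ : ProbabilityMeasure Circle) (ε : ℝ) : ℝ≥0∞ :=
  (baseLaw.prod (infProd Idx μ : Measure (Idx → Circle))) {x | (x, ε) ∈ VG}

theorem law_eq (μ : ProbabilityMeasure Circle) :
    law μ = baseLaw.prod (infProd Idx μ : Measure (Idx → Circle)) := rfl

/-- Rearrangement of the coordinates: the probability `fR` is the probability of the
corresponding event under `(law μ).prod volume`. The map `((b, s), W) ↦ ((b, W), s)` is a measurable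
equivalence which preserves the product measures (both measures agree on the sets
`A ×ˢ B ×ˢ C`; or compose `Measure.prodAssoc_prod`, `Measure.prod_swap`). -/
theorem fR_eq (m : ℕ) (μ : ProbabilityMeasure Circle) (ε : ℝ) :
    fR m μ ε = ((law μ).prod (volume : Measure unitInterval))
      {p | (((p.1.1, p.2), p.1.2), ε) ∈ VR m} := by
  set P : Measure (Idx → Circle) := (infProd Idx μ : Measure (Idx → Circle)) with hP
  have hVm : MeasurableSet {x : (Base × unitInterval) × (Idx → Circle) | (x, ε) ∈ VR m} := by
    have h1 : IsOpen {x : (Base × unitInterval) × (Idx → Circle) | (x, ε) ∈ VR m} :=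
      (isOpen_VR m).preimage (by fun_prop : Continuous fun x => (x, ε))
    exact h1.measurableSet
  have e1 : MeasurePreserving (MeasurableEquiv.prodAssoc :
      (Base × (Idx → Circle)) × unitInterval ≃ᵐ Base × (Idx → Circle) × unitInterval)
      ((baseLaw.prod P).prod (volume : Measure unitInterval))
      (baseLaw.prod (P.prod (volume : Measure unitInterval))) :=
    measurePreserving_prodAssoc _ _ _
  have e2 : MeasurePreserving (Prod.map (id : Base → Base)
      (Prod.swap : (Idx → Circle) × unitInterval → unitInterval × (Idx → Circle)))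
      (baseLaw.prod (P.prod (volume : Measure unitInterval)))
      (baseLaw.prod ((volume : Measure unitInterval).prod P)) :=
    (MeasurePreserving.id baseLaw).prod Measure.measurePreserving_swap
  have e3 : MeasurePreserving (MeasurableEquiv.prodAssoc.symm :
      Base × unitInterval × (Idx → Circle) ≃ᵐ (Base × unitInterval) × (Idx → Circle))
      (baseLaw.prod ((volume : Measure unitInterval).prod P))
      ((baseLaw.prod (volume : Measure unitInterval)).prod P) :=
    (measurePreserving_prodAssoc _ _ _).symm
  have hmp : MeasurePreserving (fun p : (Base × (Idx → Circle)) × unitInterval =>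
      ((p.1.1, p.2), p.1.2)) ((baseLaw.prod P).prod (volume : Measure unitInterval))
      ((baseLaw.prod (volume : Measure unitInterval)).prod P) := e3.comp (e2.comp e1)
  rw [show law μ = baseLaw.prod P from rfl, fR, ← hmp.measure_preimage hVm.nullMeasurableSet]
  rfl

/-- For a rational law, almost surely all directions are `N`-th roots of unity. -/
theorem ae_root {μ : ProbabilityMeasure Circle} {N : ℕ} (h : ∀ᵐ w ∂(μ : Measure Circle), w ^ N = 1) :
    ∀ᵐ ω ∂(law μ), ∀ i, ω.2 i ^ N = 1 := by
  have h1 : ∀ᵐ w ∂(Measure.infinitePi fun _ : Idx => (μ : Measure Circle)),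
      ∀ i : Idx, w i ^ N = 1 := by
    rw [ae_all_iff]
    intro i
    have h2 := measurePreserving_eval_infinitePi (fun _ : Idx => (μ : Measure Circle)) i
    exact h2.quasiMeasurePreserving.ae h
  have h3 : MeasurePreserving (Prod.snd : Base × (Idx → Circle) → (Idx → Circle)) (law μ)
      (Measure.infinitePi fun _ : Idx => (μ : Measure Circle)) := measurePreserving_snd
  exact h3.quasiMeasurePreserving.ae h1

/-- General position, roots of unity and `ε > 0` give a rational configuration in the sense of
`Rat`: local finiteness from `fam_cfg.LF`, the last condition from `GP`. -/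
theorem rat_cfg {ω : Sample} {ε : ℝ} {N : ℕ} (hε : 0 < ε) (hN : 0 < N)
    (hw : ∀ i, ω.2 i ^ N = 1) (hgp : (cfg ω ε).GP) : Rat (cfg ω ε) N := by
  refine ⟨hN, hw, half_pos hε, fam_cfg.LF (ω, ε), ?_⟩
  rintro i hi j hj hij ⟨z, hz1, hz2⟩
  exact (hgp i hi j hj hij z hz1 hz2).1

/-- Almost all directions `dir s`, `s ∈ [0, 1]`, are good. As in `ae_good`: the set of
`s ∈ [0, 1]` with `¬ Good X N (dir s)` is countable, since `s ↦ dir s` is at most two-to-one
(or: countable preimages), and `volume` on `unitInterval` has no atoms. -/
theorem ae_good_dir {X : Cfg Idx} {N : ℕ} (hX : Rat X N) :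
    ∀ᵐ s ∂(volume : Measure unitInterval), Good X N (dir s) := by
  have h1 := unitInterval.measurePreserving_coe
  have h2 : ∀ᵐ x : ℝ, Good X N (Complex.exp (((2 * Real.pi * x : ℝ) : ℂ) * I)) := by
    have h0 : volume {α : ℝ | ¬ Good X N (Complex.exp ((α : ℂ) * I))} = 0 := ae_good hX
    have h4 : volume ((fun x : ℝ => 2 * Real.pi * x) ⁻¹'
        {α : ℝ | ¬ Good X N (Complex.exp ((α : ℂ) * I))}) = 0 := by
      rw [Real.volume_preimage_mul_left (by positivity), h0, mul_zero]
    exact h4
  have h3 : ∀ᵐ x ∂(volume.restrict unitInterval : Measure ℝ),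
      Good X N (Complex.exp (((2 * Real.pi * x : ℝ) : ℂ) * I)) := ae_restrict_of_ae h2
  exact h1.quasiMeasurePreserving.ae h3

end Mir
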