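import Pool.Agent.H.MP_80ce29_pr.Cut
import Pool.Agent.H.MP_80ce29_pr.Ineq

/-!
# The basic inequality for laws concentrated on a coset of the roots of unity
-/

open Set MeasureTheory Complex Filter Topology
open scoped ComplexConjugate ENNReal

namespace Mir

/-- Almost surely all `ζ * w i` are roots of unity (countably many `i`, each `ω.2 i` has law
`μ`). -/
theorem ae_coset {μ : ProbabilityMeasure Circle} {ζ : Circle}
    (h : ∀ᵐ w ∂(μ : Measure Circle), ∃ n : ℕ, 0 < n ∧ (ζ * w) ^ n = 1) :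
    ∀ᵐ ω ∂(law μ), ∀ i, ∃ n : ℕ, 0 < n ∧ (ζ * ω.2 i) ^ n = 1 := by
  have h1 : ∀ᵐ w ∂(Measure.infinitePi fun _ : Idx => (μ : Measure Circle)),
      ∀ i : Idx, ∃ n : ℕ, 0 < n ∧ (ζ * w i) ^ n = 1 := by
    rw [ae_all_iff]
    intro i
    have h2 := measurePreserving_eval_infinitePi (fun _ : Idx => (μ : Measure Circle)) i
    exact h2.quasiMeasurePreserving.ae h
  have h3 : MeasurePreserving (Prod.snd : Base × (Idx → Circle) → (Idx → Circle)) (law μ)
      (Measure.infinitePi fun _ : Idx => (μ : Measure Circle)) := measurePreserving_snd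
  exact h3.quasiMeasurePreserving.ae h1

/-- As `ae_alternative`, with `ae_escapes_coset` instead of `escapes_of_good`. -/
theorem ae_alternative_coset {μ : ProbabilityMeasure Circle} {ζ : Circle}
    (h : ∀ᵐ w ∂(μ : Measure Circle), ∃ n : ℕ, 0 < n ∧ (ζ * w) ^ n = 1) {ε : ℝ} (hε : 0 < ε)
    (m : ℕ) : ∀ᵐ ω ∂(law μ), (ω, ε) ∈ VG ∨
      ∀ᵐ s ∂(volume : Measure unitInterval), (((ω.1, s), ω.2), ε) ∈ VR m := by
  filter_upwards [ae_coset h, ae_gp μ ε, ae_zero_free μ ε] with ω hw hgp h0
  have hpos : 0 < (cfg ω ε).h := half_pos hε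
  by_cases hb : Bornology.IsBounded (cfg ω ε).C
  · left
    have h1 := fam_cfg.stab_bounded (ω, ε) hpos hgp h0 hb
    exact mem_interior_iff_mem_nhds.2 h1
  · right
    filter_upwards [ae_escapes_coset (fam_cfg.LF (ω, ε)) hpos hgp h0 ζ hw hb] with s hs
    exact ⟨h0, hs m⟩

/-- The event `VR m` in the arrangement of `fR_eq`. -/
private def ER2 (m : ℕ) (ε : ℝ) : Set (Sample × unitInterval) :=
  {p | (((p.1.1, p.2), p.1.2), ε) ∈ VR m}

/-- The section of `VG`. -/
private def EG2 (ε : ℝ) : Set Sample := {ω | (ω, ε) ∈ VG}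

private theorem isOpen_ER2 (m : ℕ) (ε : ℝ) : IsOpen (ER2 m ε) := by
  have h : Continuous fun p : Sample × unitInterval =>
      ((((p.1.1, p.2), p.1.2), ε) : ((Base × unitInterval) × (Idx → Circle)) × ℝ) := by
    fun_prop
  exact (isOpen_VR m).preimage h

private theorem isOpen_EG2 (ε : ℝ) : IsOpen (EG2 ε) := by
  have h : Continuous fun ω : Sample => ((ω, ε) : (Base × (Idx → Circle)) × ℝ) := by
    fun_prop
  exact isOpen_VG.preimage h

private theorem gG_eq2 (μ : ProbabilityMeasure Circle) (ε : ℝ) : gG μ ε = law μ (EG2 ε) := rfl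

/-- As `one_le_of_rat` (the same proof). -/
theorem one_le_of_coset {μ : ProbabilityMeasure Circle} {ζ : Circle}
    (h : ∀ᵐ w ∂(μ : Measure Circle), ∃ n : ℕ, 0 < n ∧ (ζ * w) ^ n = 1) {ε : ℝ} (hε : 0 < ε)
    (m : ℕ) : 1 ≤ fR m μ ε + gG μ ε := by
  have h1 : fR m μ ε = ((law μ).prod (volume : Measure unitInterval)) (ER2 m ε) := fR_eq m μ ε
  have h2 : law μ (EG2 ε)ᶜ ≤ fR m μ ε := by
    rw [h1, Measure.prod_apply (isOpen_ER2 m ε).measurableSet,
      ← lintegral_indicator_one (isOpen_EG2 ε).measurableSet.compl]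
    refine lintegral_mono_ae ?_
    filter_upwards [ae_alternative_coset h hε m] with ω hω
    by_cases hG : ω ∈ (EG2 ε)ᶜ
    · rw [Set.indicator_of_mem hG]
      rcases hω with h3 | h3
      · exact absurd h3 hG
      · have h4 : (volume : Measure unitInterval) (Prod.mk ω ⁻¹' ER2 m ε) =
            (volume : Measure unitInterval) univ := by
          refine measure_congr (eventuallyEq_univ.2 ?_)
          filter_upwards [h3] with s hs
          exact hs
        rw [h4, measure_univ]
        exact le_refl _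
    · rw [Set.indicator_of_notMem hG]
      exact bot_le
  rw [gG_eq2]
  calc (1 : ℝ≥0∞) = law μ (EG2 ε)ᶜ + law μ (EG2 ε) := by
        rw [add_comm, measure_add_measure_compl (isOpen_EG2 ε).measurableSet, measure_univ]
    _ ≤ _ := by gcongr

end Mir
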