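import Pool.Agent.H.MP_80ce29_pr.Gap

/-!
# Invariant sets are open
-/

open Set MeasureTheory Complex Filter Topology
open scoped ComplexConjugate

namespace Mir

variable {ι : Type*} {X : Cfg ι}

/-- One-sided version: if `(x, u) ∈ K`, the ball of radius `4 * δ` about `x` is free, `e` is
orthogonal to `u`, each state of `K` is non-singular forward or backward, then
`(x + s * e, u) ∈ K` for `0 ≤ s < δ`.

Suppose `(x + β * e, u) ∉ K` with `0 ≤ β < δ`. Let `s'` be the supremum of the `s ∈ [0, β]` with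
`(x + s * e, u) ∈ K`. By `closed`, `(x₀, u) ∈ K` for `x₀ = x + s' * e`; so `s' < β`, and
`(x₀ + s * e, u) ∉ K` for `0 < s < δ' := β - s'`. The ball of radius `2 * δ'` about `x₀` is
free as `2 * δ' + s' < 4 * δ`. If the state `(x₀, u)` is non-singular forward: `gap_lemma`. If it is
non-singular backward: `gap_lemma` for `Inv.neg`, the state `(x₀, -u)` and the same `e`, which is
also orthogonal to `-u`. -/
theorem Inv.side {N : ℕ} {R : ℝ} {K : Set (ℂ × ℂ)} (hX : Rat X N) (hK : Inv X N R K)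
    (hns : ∀ q ∈ K, X.NonSing q.1 q.2 ∨ X.NonSing q.1 (-q.2)) {x u e : ℂ} (hm : (x, u) ∈ K)
    (he : e = I * u ∨ e = -(I * u)) {δ : ℝ} (hδ : 0 < δ)
    (hball : ∀ z, ‖z - x‖ < 4 * δ → z ∉ X.M) {s : ℝ} (hs : 0 ≤ s) (hsδ : s < δ) :
    (x + (s : ℂ) * e, u) ∈ K := by
  by_contra hcon
  have hu : ‖u‖ = 1 := hK.unit _ hm
  have hen : ‖e‖ = 1 := by
    rcases he with h | h
    · rw [h, norm_mul, Complex.norm_I, one_mul, hu]
    · rw [h, norm_neg, norm_mul, Complex.norm_I, one_mul, hu]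
  have hne : {a : ℝ | a ∈ Icc 0 s ∧ (x + (a : ℂ) * e, u) ∈ K}.Nonempty := by
    refine ⟨0, ⟨le_rfl, hs⟩, ?_⟩
    rw [Complex.ofReal_zero, zero_mul, add_zero]
    exact hm
  have hbd : BddAbove {a : ℝ | a ∈ Icc 0 s ∧ (x + (a : ℂ) * e, u) ∈ K} := ⟨s, fun _ ha => ha.1.2⟩
  obtain ⟨b, hb⟩ : ∃ b, b = sSup {a : ℝ | a ∈ Icc 0 s ∧ (x + (a : ℂ) * e, u) ∈ K} := ⟨_, rfl⟩
  have hb0 : 0 ≤ b := by
    rw [hb]
    refine le_csSup hbd ⟨⟨le_rfl, hs⟩, ?_⟩
    rw [Complex.ofReal_zero, zero_mul, add_zero]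
    exact hm
  have hbs : b ≤ s := by
    rw [hb]
    exact csSup_le hne fun _ ha => ha.1.2
  have hbK : (x + (b : ℂ) * e, u) ∈ K := by
    apply hK.closed
    · apply hball
      rw [add_sub_cancel_left, norm_mul, hen, mul_one, Complex.norm_real, Real.norm_eq_abs,
        abs_of_nonneg hb0]
      linarith
    · intro η hη
      obtain ⟨a, ha, hab⟩ := exists_lt_of_lt_csSup hne
        (show b - η < sSup {a : ℝ | a ∈ Icc 0 s ∧ (x + (a : ℂ) * e, u) ∈ K} by
          rw [← hb]; linarith)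
      refine ⟨x + (a : ℂ) * e, ha.2, ?_⟩
      have h1 : a ≤ b := by
        rw [hb]
        exact le_csSup hbd ha
      have h2 : x + (a : ℂ) * e - (x + (b : ℂ) * e) = ((a - b : ℝ) : ℂ) * e := by
        push_cast
        ring
      rw [h2, norm_mul, hen, mul_one, Complex.norm_real, Real.norm_eq_abs, abs_of_nonpos (by linarith)]
      linarith
  have hlt : b < s := by
    refine lt_of_le_of_ne hbs fun h => hcon ?_
    rw [← h]
    exact hbK
  have hball' : ∀ z, ‖z - (x + (b : ℂ) * e)‖ < 2 * (s - b) → z ∉ X.M := by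
    intro z hz
    apply hball
    have h1 : z - x = z - (x + (b : ℂ) * e) + (b : ℂ) * e := by ring
    have h2 : ‖z - x‖ ≤ ‖z - (x + (b : ℂ) * e)‖ + ‖(b : ℂ) * e‖ := by
      rw [h1]
      exact norm_add_le _ _
    rw [norm_mul (b : ℂ) e, hen, mul_one, Complex.norm_real, Real.norm_eq_abs,
      abs_of_nonneg hb0] at h2
    linarith
  have hgap : ∀ a ∈ Ioo 0 (s - b), (x + (b : ℂ) * e + (a : ℂ) * e, u) ∉ K := by
    intro a ha haK
    have h1 : x + (b : ℂ) * e + (a : ℂ) * e = x + ((b + a : ℝ) : ℂ) * e := by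
      push_cast
      ring
    rw [h1] at haK
    have h2 : b + a ≤ b := by
      conv_rhs => rw [hb]
      exact le_csSup hbd ⟨⟨by linarith [ha.1], by linarith [ha.2]⟩, haK⟩
    linarith [ha.1]
  rcases hns _ hbK with h | h
  · exact gap_lemma hX hK hbK h he (sub_pos.2 hlt) hball' hgap
  · refine gap_lemma (x₀ := x + (b : ℂ) * e) (u := -u) (e := e) hX hK.neg ?_ h ?_ (sub_pos.2 hlt)
      hball' ?_
    · show (x + (b : ℂ) * e, - -u) ∈ K
      rw [neg_neg]
      exact hbK
    · rcases he with h1 | h1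
      · right
        rw [h1]
        ring
      · left
        rw [h1]
        ring
    · intro a ha haK
      apply hgap a ha
      have h1 : (x + (b : ℂ) * e + (a : ℂ) * e, - -u) ∈ K := haK
      rw [neg_neg] at h1
      exact h1

/-- For each `u` the set of `x` with `(x, u) ∈ K` is open. Choose `δ` such that the ball of radius
`4 * δ` about `x` is free. For `x'` in the ball of radius `δ` write
`x' = x + β * e + α * u`, `e = ± I * u`, `0 ≤ β < δ`, `|α| < δ` (`‖u‖ = 1`, so `u, e` is an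
orthonormal basis). By `Inv.side` `(x + β * e, u) ∈ K`. If `α > 0`, then the flight of length `α` is
free (it stays in the ball of radius `4 * δ`), so `(x', u) ∈ K` by `fwd`; if `α < 0` use `bwd`. -/
theorem Inv.isOpen {N : ℕ} {R : ℝ} {K : Set (ℂ × ℂ)} (hX : Rat X N) (hK : Inv X N R K)
    (hns : ∀ q ∈ K, X.NonSing q.1 q.2 ∨ X.NonSing q.1 (-q.2)) (u : ℂ) :
    IsOpen {x | (x, u) ∈ K} := by
  rw [Metric.isOpen_iff]
  intro x hx
  have hx' : (x, u) ∈ K := hx
  have hu : ‖u‖ = 1 := hK.unit _ hx'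
  have hM : IsClosed X.M := hX.lf.isClosed_M
  obtain ⟨ε, hε, hεM⟩ := Metric.isOpen_iff.1 hM.isOpen_compl x (hK.free _ hx')
  have hball : ∀ z, ‖z - x‖ < 4 * (ε / 4) → z ∉ X.M := by
    intro z hz
    apply hεM
    rw [Metric.mem_ball, dist_eq_norm]
    linarith
  refine ⟨ε / 4, by positivity, fun x' hx'' => ?_⟩
  rw [Metric.mem_ball, dist_eq_norm] at hx''
  show (x', u) ∈ K
  have huu : conj u * u = 1 := by
    rw [mul_comm, Complex.mul_conj, Complex.normSq_eq_norm_sq, hu]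
    norm_num
  obtain ⟨q, hq⟩ : ∃ q, q = (x' - x) * conj u := ⟨_, rfl⟩
  have hqu : x' = x + q * u := by
    rw [hq, mul_assoc, huu]
    ring
  have hqn : ‖q‖ < ε / 4 := by
    rw [hq, norm_mul, RCLike.norm_conj, hu, mul_one]
    exact hx''
  have hre : |q.re| < ε / 4 := lt_of_le_of_lt (Complex.abs_re_le_norm q) hqn
  have him : |q.im| < ε / 4 := lt_of_le_of_lt (Complex.abs_im_le_norm q) hqn
  -- the orthogonal part
  obtain ⟨e, b, he, hb, hbε, hbe⟩ : ∃ (e : ℂ) (b : ℝ), (e = I * u ∨ e = -(I * u)) ∧ 0 ≤ b ∧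
      b < ε / 4 ∧ (b : ℂ) * e = (q.im : ℂ) * (I * u) := by
    rcases le_or_gt 0 q.im with h | h
    · refine ⟨I * u, q.im, Or.inl rfl, h, ?_, rfl⟩
      rwa [abs_of_nonneg h] at him
    · refine ⟨-(I * u), -q.im, Or.inr rfl, by linarith, ?_, ?_⟩
      · rwa [abs_of_neg h] at him
      · push_cast
        ring
  have hen : ‖e‖ = 1 := by
    rcases he with h | h
    · rw [h, norm_mul, Complex.norm_I, one_mul, hu]
    · rw [h, norm_neg, norm_mul, Complex.norm_I, one_mul, hu]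
  have hside := hK.side hX hns hx' he (by positivity : 0 < ε / 4) hball hb hbε
  obtain ⟨y, hy⟩ : ∃ y, y = x + (b : ℂ) * e := ⟨_, rfl⟩
  rw [← hy] at hside
  have hx'y : x' = y + (q.re : ℂ) * u := by
    rw [hqu, hy, hbe]
    conv_lhs => rw [← Complex.re_add_im q]
    ring
  have hfree : ∀ s : ℝ, |s| < ε / 4 → y + (s : ℂ) * u ∉ X.M := by
    intro s hs
    apply hball
    have h1 : y + (s : ℂ) * u - x = (b : ℂ) * e + (s : ℂ) * u := by
      rw [hy]
      ring
    have h2 : ‖(b : ℂ) * e + (s : ℂ) * u‖ ≤ ‖(b : ℂ) * e‖ + ‖(s : ℂ) * u‖ := norm_add_le _ _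
    rw [norm_mul (b : ℂ) e, norm_mul (s : ℂ) u, hen, hu, mul_one, mul_one, Complex.norm_real,
      Complex.norm_real, Real.norm_eq_abs, Real.norm_eq_abs, abs_of_nonneg hb] at h2
    rw [h1]
    linarith
  rcases lt_trichotomy q.re 0 with h | h | h
  · have hr : X.Run [] (-q.re) y (-u) (y + ((-q.re : ℝ) : ℂ) * (-u)) (-u) := by
      refine Cfg.Run.fly (by linarith) fun s hs => ?_
      have h1 := hfree (-s) (by
        rw [abs_neg, abs_of_pos hs.1]
        rw [abs_of_neg h] at hre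
        linarith [hs.2])
      have h2 : y + (s : ℂ) * -u = y + ((-s : ℝ) : ℂ) * u := by
        push_cast
        ring
      rw [h2]
      exact h1
    have h3 := hK.bwd _ _ _ _ _ _ hside hr
    have h4 : y + ((-q.re : ℝ) : ℂ) * (-u) = x' := by
      rw [hx'y]
      push_cast
      ring
    rwa [h4] at h3
  · rw [hx'y, h, Complex.ofReal_zero, zero_mul, add_zero]
    exact hside
  · have hr : X.Run [] q.re y u (y + (q.re : ℂ) * u) u := by
      refine Cfg.Run.fly h fun s hs => hfree s ?_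
      rw [abs_of_pos hs.1]
      rw [abs_of_pos h] at hre
      linarith [hs.2]
    have h3 := hK.fwd _ _ _ _ _ _ hside hr
    rwa [← hx'y] at h3

end Mir
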