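import Pool.Agent.H.MP_80ce29_pr.KSet1

/-!
# The limit set of a bounded orbit is an invariant set
-/

open Set MeasureTheory Complex Filter Topology
open scoped ComplexConjugate

namespace Mir

variable {ι : Type*} {X : Cfg ι}

variable {N : ℕ} {v₀ : ℂ}

theorem stab_KSet (hX : Rat X N) {l : List ι} {t : ℝ} {x v y u : ℂ} (h : X.Run l t x v y u)
    (hx : x ∉ X.M) : ∃ ε > 0, ∀ x', ‖x' - x‖ < ε → X.Run l t x' v (X.A l (x' + (t : ℂ) * v)) u := by
  obtain ⟨ε, hε, h1⟩ := Metric.eventually_nhds_iff.1 (h.stab hX.lf hx)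
  exact ⟨ε, hε, fun x' hx' => h1 (by rwa [dist_eq_norm])⟩

theorem dist_KSet {l : List ι} {t : ℝ} {x v y u : ℂ} (h : X.Run l t x v y u) (x' : ℂ) :
    ‖X.A l (x' + (t : ℂ) * v) - y‖ = ‖x' - x‖ := by
  rw [h.unfold.1, Cfg.dist_A]
  congr 1
  ring

theorem transv_KSet (hX : Rat X N) (hg : Good X N v₀) {q : ℂ × ℂ} (hq : q ∈ K0 X v₀) :
    Transv N q.2 := by
  obtain ⟨L, T, y, -, hr, -⟩ := hq.2 0 1 one_pos
  rw [hr.unfold.2]
  exact hg.transv.B hX.root L

/-- Forward invariance. Let `Run l t x u y u'`, `(x, u) ∈ K0`. By `Run.stab` for `x'` near `x` there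
is the run with the same list and duration from `(x', u)` to `A l (x' + t * u)`, at distance
`‖x' - x‖` from `y` (`dist_A`, `Run.unfold`); take `x'` on the orbit with at least `n` reflections
and use `append`. `y` is free by `end_free`. -/
theorem K0_fwd (hX : Rat X N) {x u : ℂ} {l : List ι} {t : ℝ} {y u' : ℂ}
    (hq : (x, u) ∈ K0 X v₀) (h : X.Run l t x u y u') : (y, u') ∈ K0 X v₀ := by
  have hx : x ∉ X.M := hq.1
  obtain ⟨ε, hε, hs⟩ := stab_KSet hX h hx
  refine ⟨h.end_free, fun n δ hδ => ?_⟩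
  obtain ⟨L, T, x', hn, hr, hd⟩ := hq.2 n (min δ ε) (lt_min hδ hε)
  have h1 := hs x' (lt_of_lt_of_le hd (min_le_right _ _))
  refine ⟨L ++ l, T + t, _, ?_, hr.append h1, ?_⟩
  · rw [List.length_append]
    omega
  · change ‖X.A l (x' + (t : ℂ) * u) - y‖ < δ
    rw [dist_KSet h]
    exact lt_of_lt_of_le hd (min_le_left _ _)

/-- Backward invariance. Let `Run l t x (-u) y (-u')`. For `x'` near `x` there is
`Run l t x' (-u) (A l (x' - t * u)) (-u')` (`Run.stab`). Take `x'` on the orbit of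
`(0, v₀)`, with a list `L` of at least `n + l.length + 1` reflections. The reversed run goes
from `(x', -u)` to `(0, -v₀)` with list `L.reverse` (`Run.reverse`), it is longer
(`lt_of_length_lt`), so `split` gives a run from `(A l (x' - t * u), -u')` to `(0, -v₀)` with at
least `n` reflections; reverse it. -/
theorem K0_bwd (hX : Rat X N) (h0 : (0 : ℂ) ∉ X.M) {x u : ℂ} {l : List ι} {t : ℝ} {y u' : ℂ}
    (hq : (x, u) ∈ K0 X v₀) (h : X.Run l t x (-u) y (-u')) : (y, u') ∈ K0 X v₀ := by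
  have hx : x ∉ X.M := hq.1
  obtain ⟨ε, hε, hs⟩ := stab_KSet hX h hx
  refine ⟨h.end_free, fun n δ hδ => ?_⟩
  obtain ⟨L, T, x', hn, hr, hd⟩ := hq.2 (n + l.length + 1) (min δ ε) (lt_min hδ hε)
  have h1 := hs x' (lt_of_lt_of_le hd (min_le_right _ _))
  have h2 := Cfg.Run.reverse hr h0
  have hl : l.length < L.reverse.length := by
    rw [List.length_reverse]
    change n + l.length + 1 ≤ L.length at hn
    omega
  obtain ⟨l'', h3, h4⟩ := Cfg.Run.split h1 h2 (Cfg.Run.lt_of_length_lt h1 h2 hl)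
  have h5 := Cfg.Run.reverse h4 h1.end_free
  rw [neg_neg, neg_neg] at h5
  refine ⟨l''.reverse, T - t, _, ?_, h5, ?_⟩
  · have h6 := congrArg List.length h3
    rw [List.length_reverse, List.length_append] at h6
    rw [List.length_reverse]
    change n + l.length + 1 ≤ L.length at hn
    omega
  · change ‖X.A l (x' + (t : ℂ) * -u) - y‖ < δ
    rw [dist_KSet h]
    exact lt_of_lt_of_le hd (min_le_left _ _)

/-- No periodic states in `K0`. Let `Run l t x u x u`. Then `B l u = u`, so `B l` is the identity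
(`Transv.B_eq_id`), and `A l (x' + t * u) = x'` for all `x'` (since it holds for `x' = x`). By
`Run.stab`, for `x'` near `x` `Run l t x' u x' u`; take `x'` on the orbit of `(0, v₀)`:
`Run L T 0 v₀ x' u`. Concatenating the loop `k` times, `k * t > T`, gives a loop at `(x', u)` of
duration `k * t`; reversed, a run of duration `k * t` from `(x', -u)` to `(x', -u)`. The reversed
run from `(x', -u)` to `(0, -v₀)` has duration `T`. By `split` there is a run from `(0, -v₀)` to
`(x', -u)`; reverse it: a run from `(x', u)` to `(0, v₀)`. With `append`: a run from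
`(0, v₀)` to itself, against `Good.nonper`. -/
theorem K0_nonper (hX : Rat X N) (h0 : (0 : ℂ) ∉ X.M) (hg : Good X N v₀) {x u : ℂ}
    {l : List ι} {t : ℝ} (hq : (x, u) ∈ K0 X v₀) : ¬ X.Run l t x u x u := by
  intro h
  have hx : x ∉ X.M := hq.1
  have hu : Transv N u := transv_KSet hX hg hq
  have hB : ∀ v', X.B l v' = v' := fun v' => hu.B_eq_id hX.root h.unfold.2.symm v'
  have hA : ∀ x' : ℂ, X.A l (x' + (t : ℂ) * u) = x' := by
    intro x'
    have h1 := X.A_sub l (x' + (t : ℂ) * u) (x + (t : ℂ) * u)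
    rw [hB, ← h.unfold.1] at h1
    have h2 : X.A l (x' + (t : ℂ) * u) = (x' + (t : ℂ) * u - (x + (t : ℂ) * u)) + x :=
      eq_add_of_sub_eq h1
    rw [h2]
    ring
  obtain ⟨ε, hε, hs⟩ := stab_KSet hX h hx
  obtain ⟨L, T, x', -, hr, hd⟩ := hq.2 0 ε hε
  have h1 : X.Run l t x' u x' u := by
    have h2 := hs x' hd
    rwa [hA] at h2
  have ht := h.time_pos
  have hloop : ∀ k : ℕ, ∃ lk, X.Run lk ((k + 1 : ℝ) * t) x' u x' u := by
    intro k
    induction k with
    | zero =>
      refine ⟨l, ?_⟩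
      have e : (((0 : ℕ) : ℝ) + 1) * t = t := by push_cast; ring
      rw [e]
      exact h1
    | succ k ih =>
      obtain ⟨lk, h2⟩ := ih
      refine ⟨lk ++ l, ?_⟩
      have e : (((k + 1 : ℕ) : ℝ) + 1) * t = ((k : ℝ) + 1) * t + t := by push_cast; ring
      rw [e]
      exact h2.append h1
  obtain ⟨k, hk⟩ := exists_nat_gt (T / t)
  obtain ⟨lk, h2⟩ := hloop k
  have hT : T < ((k : ℝ) + 1) * t := by
    rw [div_lt_iff₀ ht] at hk
    nlinarith
  have hx' : x' ∉ X.M := hr.end_free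
  have h3 := Cfg.Run.reverse h2 hx'
  have h4 := Cfg.Run.reverse hr h0
  obtain ⟨l'', -, h5⟩ := Cfg.Run.split h4 h3 hT
  have h6 := Cfg.Run.reverse h5 h0
  rw [neg_neg, neg_neg] at h6
  exact hg.nonper (hr.append h6)

/-- If the orbit is bounded by `R` then `K0` is an invariant set. -/
theorem K0_inv (hX : Rat X N) (h0 : (0 : ℂ) ∉ X.M) (hg : Good X N v₀) {R : ℝ}
    (hb : ∀ l t y u, X.Run l t 0 v₀ y u → ‖y‖ ≤ R) : Inv X N R (K0 X v₀) := by
  refine ⟨fun q hq => hq.1, fun q hq => ?_, fun q hq => ?_, fun q hq => transv_KSet hX hg hq,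
    fun x u hx h => ⟨hx, fun n δ hδ => ?_⟩, fun x u l t y u' hq h => K0_fwd hX hq h,
    fun x u l t y u' hq h => K0_bwd hX h0 hq h, fun x u l t hq => K0_nonper hX h0 hg hq⟩
  · refine le_of_forall_pos_le_add fun δ hδ => ?_
    obtain ⟨L, T, y, -, hr, hd⟩ := hq.2 0 δ hδ
    have h1 := hb _ _ _ _ hr
    have h2 : q.1 = y - (y - q.1) := by ring
    rw [h2]
    exact (norm_sub_le _ _).trans (add_le_add h1 hd.le)
  · obtain ⟨L, T, y, -, hr, -⟩ := hq.2 0 1 one_pos
    rw [hr.norm_eq, hg.unit]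
  · obtain ⟨y, hy, hd⟩ := h (δ / 2) (by positivity)
    obtain ⟨L, T, z, hn, hr, hd'⟩ := hy.2 n (δ / 2) (by positivity)
    refine ⟨L, T, z, hn, hr, ?_⟩
    have h2 : z - x = (z - y) + (y - x) := by ring
    change ‖z - y‖ < δ / 2 at hd'
    change ‖z - x‖ < δ
    rw [h2]
    refine lt_of_le_of_lt (norm_add_le _ _) ?_
    linarith

end Mir
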