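import Pool.Agent.H.MP_80ce29_pr.KOpen

/-!
# Good directions and the limit set of a bounded orbit
-/

open Set MeasureTheory Complex Filter Topology
open scoped ComplexConjugate

namespace Mir

variable {ι : Type*} {X : Cfg ι}

/-- A good direction `v₀`: transversal to all `N`-th roots of unity, and no velocity in its
(finite) orbit is the direction of a difference of two images of vertices or `0`. -/
structure Good (X : Cfg ι) (N : ℕ) (v₀ : ℂ) : Prop where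
  unit : ‖v₀‖ = 1
  transv : Transv N v₀
  sep : ∀ l₁ l₂ : List ι, ∀ τ₁ ∈ insert 0 X.V, ∀ τ₂ ∈ insert 0 X.V, ∀ a : Circle, a ^ N = 1 →
    ∀ r : ℝ, 0 < r → X.A l₁ τ₁ - X.A l₂ τ₂ ≠ (r : ℂ) * ((a : ℂ) * v₀) ∧
      X.A l₁ τ₁ - X.A l₂ τ₂ ≠ (r : ℂ) * ((a : ℂ) * conj v₀)

/-- The states at free points which are limits of the orbit of `(0, v₀)` with the number of
reflections tending to infinity. -/
def K0 (X : Cfg ι) (v₀ : ℂ) : Set (ℂ × ℂ) :=
  {q | q.1 ∉ X.M ∧ ∀ n : ℕ, ∀ δ > 0, ∃ l t y, n ≤ l.length ∧ X.Run l t 0 v₀ y q.2 ∧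
    ‖y - q.1‖ < δ}

variable {N : ℕ} {v₀ : ℂ}

/-- `0` has a good direction only if the ray from `0` never arrives at a vertex: if it arrives at
`z ∈ V` at time `t` with list `l` then `A l (t * v₀) = z` (`Arr.unfold`), so
`A l.reverse z - 0 = t * v₀` (`A_reverse`), against `sep` with `l₂ = []`, `τ₂ = 0`, `a = 1`. -/
theorem Good.nonSing (hg : Good X N v₀) : X.NonSing 0 v₀ := by
  intro l t z u h hz
  have h1 := h.unfold.1
  have h2 : X.A l.reverse z = 0 + (t : ℂ) * v₀ := by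
    rw [h1, X.A_reverse]
  have h3 := (hg.sep l.reverse [] z (Or.inr hz) 0 (Or.inl rfl) 1 (one_pow _) t h.time_pos).1
  apply h3
  rw [h2, X.A_nil, Circle.coe_one]
  ring

/-- The orbit of `(0, v₀)` is not periodic: `A l (t * v₀) = 0` gives
`A l.reverse 0 - 0 = t * v₀`. -/
theorem Good.nonper (hg : Good X N v₀) {l : List ι} {t : ℝ} : ¬ X.Run l t 0 v₀ 0 v₀ := by
  intro h
  have h1 := h.unfold.1
  have h2 : X.A l.reverse 0 = 0 + (t : ℂ) * v₀ := by
    conv_lhs => rw [h1, X.A_reverse]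
  have h3 := (hg.sep l.reverse [] 0 (Or.inl rfl) 0 (Or.inl rfl) 1 (one_pow _) t h.time_pos).1
  apply h3
  rw [h2, X.A_nil, Circle.coe_one]
  ring

/-- Each state of `K0` is non-singular forward or backward. `u = B l v₀` for some `l`, so
`u = a * v₀` or `a * conj v₀` (`B_form`). If `(x, u)` arrives at `τ₁ ∈ V` (time `t₁`, list `l₁`) and
`(x, -u)` arrives at `τ₂ ∈ V` (time `t₂`, list `l₂`) then
`A l₁.reverse τ₁ - A l₂.reverse τ₂ = (x + t₁ * u) - (x - t₂ * u) = (t₁ + t₂) * u`. -/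
theorem K0_nonSing (hX : Rat X N) (hg : Good X N v₀) {q : ℂ × ℂ} (hq : q ∈ K0 X v₀) :
    X.NonSing q.1 q.2 ∨ X.NonSing q.1 (-q.2) := by
  obtain ⟨-, hq2⟩ := hq
  obtain ⟨l, t, y, -, hrun, -⟩ := hq2 0 1 one_pos
  have hu := hrun.unfold.2
  obtain ⟨a, ha, hform⟩ := X.B_form hX.root l
  by_contra hcon
  rw [not_or] at hcon
  obtain ⟨h1, h2⟩ := hcon
  unfold Cfg.NonSing at h1 h2
  push Not at h1 h2
  obtain ⟨l₁, t₁, z₁, u₁, hA₁, hz₁⟩ := h1
  obtain ⟨l₂, t₂, z₂, u₂, hA₂, hz₂⟩ := h2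
  have e1 : X.A l₁.reverse z₁ = q.1 + (t₁ : ℂ) * q.2 := by
    rw [hA₁.unfold.1, X.A_reverse]
  have e2 : X.A l₂.reverse z₂ = q.1 + (t₂ : ℂ) * (-q.2) := by
    rw [hA₂.unfold.1, X.A_reverse]
  have hpos : 0 < t₁ + t₂ := add_pos hA₁.time_pos hA₂.time_pos
  have h3 := hg.sep l₁.reverse l₂.reverse z₁ (Or.inr hz₁) z₂ (Or.inr hz₂) a ha (t₁ + t₂) hpos
  have e3 : X.A l₁.reverse z₁ - X.A l₂.reverse z₂ = ((t₁ + t₂ : ℝ) : ℂ) * q.2 := by
    rw [e1, e2]
    push_cast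
    ring
  rcases hform with hf | hf
  · apply h3.1
    rw [e3, hu, hf]
  · apply h3.2
    rw [e3, hu, hf]

end Mir
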