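import Pool.Agent.H.MP_80ce29_pr.Defs

/-!
# Continuous logarithms on compact sets: homotopies
-/

open Set MeasureTheory Complex Filter Topology
open scoped ComplexConjugate

namespace Mir

/-- `f` has a continuous logarithm on `K`. -/
def HasLogOf (K : Set ℂ) (f : ℂ → ℂ) : Prop :=
  ∃ L : ℂ → ℂ, ContinuousOn L K ∧ ∀ z ∈ K, Complex.exp (L z) = f z

/-- The identity has a continuous logarithm on `K`. -/
def HasLog (K : Set ℂ) : Prop := HasLogOf K id

/-- One step: if `g` has a logarithm on `K`, `f` and `g` are continuous and without zeros on `K`, and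
`‖f z / g z - 1‖ < 1` on `K`, then `f` has a logarithm: `L z + log (f z / g z)`, where the
principal logarithm is continuous on the half plane `0 < re`. -/
theorem hasLogOf_step {K : Set ℂ} {f g : ℂ → ℂ} (hf : ContinuousOn f K) (hg : ContinuousOn g K)
    (hf0 : ∀ z ∈ K, f z ≠ 0) (hg0 : ∀ z ∈ K, g z ≠ 0) (hfg : ∀ z ∈ K, ‖f z / g z - 1‖ < 1)
    (h : HasLogOf K g) : HasLogOf K f := by
  obtain ⟨L, hL, hL'⟩ := h
  refine ⟨fun z => L z + Complex.log (f z / g z), ?_, fun z hz => ?_⟩
  · refine hL.add ((hf.div hg hg0).clog fun z hz => ?_)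
    have := Complex.mem_slitPlane_of_norm_lt_one (hfg z hz)
    rwa [add_sub_cancel] at this
  · show Complex.exp (L z + Complex.log (f z / g z)) = f z
    rw [Complex.exp_add, hL' z hz, Complex.exp_log (div_ne_zero (hf0 z hz) (hg0 z hz)),
      mul_div_cancel₀ _ (hg0 z hz)]

/-- Homotopy lemma. `‖G‖ ≥ m > 0` on the compact set `[0, 1] × K`, and `G` is uniformly continuous
there, so there is `n` such that `‖G s z - G t z‖ < m` for `|s - t| ≤ 1 / n`. Go from
`G 1` to `G 0` in the steps `G ((k + 1) / n)` to `G (k / n)` by `hasLogOf_step`. -/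
theorem hasLogOf_homotopy {K : Set ℂ} (hK : IsCompact K) {G : ℝ → ℂ → ℂ}
    (hG : ContinuousOn (fun p : ℝ × ℂ => G p.1 p.2) (Icc (0 : ℝ) 1 ×ˢ K))
    (h0 : ∀ t ∈ Icc (0 : ℝ) 1, ∀ z ∈ K, G t z ≠ 0) (h1 : HasLogOf K (G 1)) :
    HasLogOf K (G 0) := by
  rcases K.eq_empty_or_nonempty with rfl | hne
  · exact ⟨fun _ => 0, continuousOn_empty _, fun z hz => absurd hz (notMem_empty z)⟩
  have hC : IsCompact (Icc (0 : ℝ) 1 ×ˢ K) := isCompact_Icc.prod hK
  obtain ⟨m, hm, hm'⟩ := hC.exists_forall_le' (a := (0 : ℝ)) (f := fun p : ℝ × ℂ => ‖G p.1 p.2‖)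
    hG.norm (fun p hp => norm_pos_iff.2 (h0 p.1 hp.1 p.2 hp.2))
  have hU := hC.uniformContinuousOn_of_continuous hG
  rw [Metric.uniformContinuousOn_iff] at hU
  obtain ⟨δ, hδ, hU'⟩ := hU m hm
  obtain ⟨n, hn⟩ := exists_nat_one_div_lt hδ
  have hn0 : (0 : ℝ) < (n : ℝ) + 1 := by positivity
  have key : ∀ k : ℕ, k ≤ n + 1 → HasLogOf K (G (((n : ℝ) + 1 - k) / (n + 1))) := by
    intro k
    induction k with
    | zero =>
      intro _
      rw [Nat.cast_zero, sub_zero, div_self hn0.ne']
      exact h1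
    | succ k ih =>
      intro hk
      have hk' : (k : ℝ) + 1 ≤ n + 1 := by exact_mod_cast hk
      have hk0 : (0 : ℝ) ≤ k := Nat.cast_nonneg k
      set a : ℝ := ((n : ℝ) + 1 - ((k + 1 : ℕ) : ℝ)) / (n + 1) with ha
      set b : ℝ := ((n : ℝ) + 1 - k) / (n + 1) with hb
      have haI : a ∈ Icc (0 : ℝ) 1 := by
        rw [ha]
        push_cast
        constructor
        · apply div_nonneg <;> linarith
        · rw [div_le_one hn0]; linarith
      have hbI : b ∈ Icc (0 : ℝ) 1 := by
        rw [hb]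
        constructor
        · apply div_nonneg <;> linarith
        · rw [div_le_one hn0]; linarith
      have hab : dist a b < δ := by
        have e : b - a = 1 / ((n : ℝ) + 1) := by
          rw [ha, hb]
          push_cast
          field_simp
          ring
        rw [dist_comm, Real.dist_eq, e, abs_of_pos (by positivity)]
        exact hn
      refine hasLogOf_step (g := G b) ?_ ?_ (h0 a haI) (h0 b hbI) ?_ (ih (by omega))
      · exact hG.comp (f := fun z => (a, z)) (by fun_prop) fun z hz => ⟨haI, hz⟩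
      · exact hG.comp (f := fun z => (b, z)) (by fun_prop) fun z hz => ⟨hbI, hz⟩
      · intro z hz
        have h2 := hU' (a, z) ⟨haI, hz⟩ (b, z) ⟨hbI, hz⟩ (by
          rw [Prod.dist_eq, dist_self]
          exact max_lt hab hδ)
        have h3 := hm' (b, z) ⟨hbI, hz⟩
        simp only at h2 h3
        have h4 : 0 < ‖G b z‖ := norm_pos_iff.2 (h0 b hbI z hz)
        have e : G a z / G b z - 1 = (G a z - G b z) / G b z := by
          rw [sub_div, div_self (h0 b hbI z hz)]
        rw [e, norm_div, div_lt_one h4, ← dist_eq_norm]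
        exact h2.trans_le h3
  have := key (n + 1) le_rfl
  push_cast at this
  rwa [sub_self, zero_div] at this

/-- If a continuous function on a preconnected set satisfies `exp (φ t) = a` for all `t`, it is
constant: `φ t - φ s` is an integer multiple of `2 * π * I`, so the image of `φ` is a
preconnected subset of a discrete set. -/
theorem const_of_exp_const {A : Type*} [TopologicalSpace A] {S : Set A} (hS : IsPreconnected S)
    {φ : A → ℂ} (hφ : ContinuousOn φ S) {a : ℂ} (h : ∀ t ∈ S, Complex.exp (φ t) = a) {s t : A}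
    (hs : s ∈ S) (ht : t ∈ S) : φ s = φ t := by
  have hm : MapsTo (fun t => φ t - φ s) S
      (AddSubgroup.zmultiples (2 * (Real.pi : ℂ) * Complex.I) : Set ℂ) := by
    intro t' ht'
    have h1 : Complex.exp (φ t') = Complex.exp (φ s) := (h t' ht').trans (h s hs).symm
    obtain ⟨n, hn⟩ := Complex.exp_eq_exp_iff_exists_int.1 h1
    show φ t' - φ s ∈ AddSubgroup.zmultiples (2 * (Real.pi : ℂ) * Complex.I)
    rw [AddSubgroup.mem_zmultiples_iff]
    exact ⟨n, by rw [hn, zsmul_eq_mul]; ring⟩
  have hdisc : IsDiscrete (AddSubgroup.zmultiples (2 * (Real.pi : ℂ) * Complex.I) : Set ℂ) :=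
    ⟨inferInstanceAs (DiscreteTopology (AddSubgroup.zmultiples (2 * (Real.pi : ℂ) * Complex.I)))⟩
  have h2 := hS.constant_of_mapsTo hdisc (f := fun t => φ t - φ s)
    (hφ.sub continuousOn_const) hm hs ht
  simp only [sub_self] at h2
  exact (sub_eq_zero.1 h2.symm).symm

/-- The identity has no continuous logarithm on a circle about `0`: `φ θ = L (r * exp (i θ)) - i θ`
is continuous with `exp (φ θ) = r`, so `φ 0 = φ (2 π)` by `const_of_exp_const`, but
`φ 0 - φ (2 π) = 2 π i`. -/
theorem not_hasLog_sphere {r : ℝ} (hr : 0 < r) : ¬ HasLog (Metric.sphere (0 : ℂ) r) := by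
  rintro ⟨L, hL, hL'⟩
  have hmem : ∀ θ : ℝ, (r : ℂ) * Complex.exp (θ * Complex.I) ∈ Metric.sphere (0 : ℂ) r := by
    intro θ
    rw [mem_sphere_zero_iff_norm, norm_mul, Complex.norm_exp_ofReal_mul_I, mul_one,
      Complex.norm_real, Real.norm_eq_abs, abs_of_pos hr]
  have hc : Continuous fun θ : ℝ => L ((r : ℂ) * Complex.exp (θ * Complex.I)) - θ * Complex.I := by
    refine Continuous.sub ?_ (by fun_prop)
    exact hL.comp_continuous (by fun_prop) hmem
  have h1 := const_of_exp_const (S := (univ : Set ℝ)) isPreconnected_univ (a := (r : ℂ))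
    (s := 0) (t := 2 * Real.pi) hc.continuousOn (fun θ _ => by
      rw [Complex.exp_sub, hL' _ (hmem θ)]
      exact mul_div_cancel_right₀ _ (Complex.exp_ne_zero _)) (mem_univ _) (mem_univ _)
  simp only [Complex.ofReal_zero, zero_mul, Complex.exp_zero, mul_one, sub_zero,
    Complex.ofReal_mul, Complex.ofReal_ofNat, Complex.exp_two_pi_mul_I] at h1
  have h2 : 2 * (Real.pi : ℂ) * Complex.I = 0 := by linear_combination h1
  exact Complex.two_pi_I_ne_zero h2

end Mir
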