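import Pool.Agent.H.MP_80ce29_pr.Log1

/-!
# Continuous logarithms and components of the complement
-/

open Set MeasureTheory Complex Filter Topology
open scoped ComplexConjugate

namespace Mir

/-- The frontier of a component of the complement of a closed set is in the closed set. -/
theorem Log2_frontier {K : Set ℂ} (hK : IsClosed K) (x : ℂ) :
    frontier (connectedComponentIn Kᶜ x) ⊆ K := by
  intro a ha
  by_contra haK
  have hU : IsOpen (connectedComponentIn Kᶜ x) := hK.isOpen_compl.connectedComponentIn
  have hV : IsOpen (connectedComponentIn Kᶜ a) := hK.isOpen_compl.connectedComponentIn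
  have haV : a ∈ connectedComponentIn Kᶜ a := mem_connectedComponentIn haK
  rw [frontier, hU.interior_eq] at ha
  obtain ⟨y, hyV, hyU⟩ := mem_closure_iff.1 ha.1 _ hV haV
  have h1 := connectedComponentIn_eq hyV
  have h2 := connectedComponentIn_eq hyU
  rw [h1, ← h2] at haV
  exact ha.2 haV

/-- If `0` is in a bounded component `U` of the complement of the compact set `K`, then the
identity has no continuous logarithm on `K`. Suppose `L` is one. By Tietze's theorem (`ℂ` is a
Tietze extension space) there is a continuous `L' : ℂ → ℂ` with `L' = L` on `K`. Put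
`g z = z * exp (- L' z)` for `z ∈ U` and `g z = 1` for `z ∉ U`. The frontier of `U` is contained in
`K` (`U` is open, and closed in the complement of `K`), and there `z * exp (- L z) = 1`, so `g` is
continuous. `g z ≠ 0` for `z ≠ 0`, and `g z = 1` for `‖z‖ ≥ ρ` if `U` is contained in the ball of
radius `ρ`. Let `r > 0` be such that the circle of radius `r` is contained in `U`. Apply
`hasLogOf_homotopy` on this circle to `G t z = g ((1 + t * (ρ / r)) * z)`: `G 1 = 1` there, as
`(1 + ρ / r) * r ≥ ρ`. So `g` has a logarithm `ℓ` on the circle, and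
`z = g z * exp (L' z) = exp (ℓ z + L' z)` there, against `not_hasLog_sphere`. -/
theorem not_hasLog_of_bounded {K : Set ℂ} (hK : IsCompact K) (h0 : (0 : ℂ) ∉ K)
    (hb : Bornology.IsBounded (connectedComponentIn Kᶜ 0)) : ¬ HasLog K := by
  classical
  rintro ⟨L, hL, hL'⟩
  set U := connectedComponentIn Kᶜ (0 : ℂ) with hU
  have hUo : IsOpen U := hK.isClosed.isOpen_compl.connectedComponentIn
  have h0U : (0 : ℂ) ∈ U := mem_connectedComponentIn h0
  obtain ⟨M, hM⟩ := ContinuousMap.exists_restrict_eq hK.isClosed
    (⟨K.domRestrict L, hL.domRestrict⟩ : C(K, ℂ))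
  have hML : ∀ z ∈ K, M z = L z := by
    intro z hz
    exact congrArg (fun f : C(K, ℂ) => f ⟨z, hz⟩) hM
  set g : ℂ → ℂ := U.piecewise (fun z => z * Complex.exp (-M z)) (fun _ => 1) with hg
  have hgc : Continuous g := by
    refine Continuous.piecewise (fun a ha => ?_) ?_ continuous_const
    · have haK := Log2_frontier hK.isClosed 0 ha
      rw [hML a haK, Complex.exp_neg, hL' a haK, id]
      exact mul_inv_cancel₀ fun h => h0 (h ▸ haK)
    · exact continuous_id.mul (Complex.continuous_exp.comp M.continuous.neg)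
  have hgU : ∀ z ∈ U, g z = z * Complex.exp (-M z) := fun z hz => piecewise_eq_of_mem _ _ _ hz
  have hgn : ∀ z, z ∉ U → g z = 1 := fun z hz => piecewise_eq_of_notMem _ _ _ hz
  have hg0 : ∀ z, z ≠ 0 → g z ≠ 0 := by
    intro z hz
    by_cases hzU : z ∈ U
    · rw [hgU z hzU]
      exact mul_ne_zero hz (Complex.exp_ne_zero _)
    · rw [hgn z hzU]
      exact one_ne_zero
  obtain ⟨ρ, hρ⟩ := hb.subset_ball (0 : ℂ)
  have hρ0 : 0 < ρ := by
    have := hρ h0U
    rwa [mem_ball_zero_iff, norm_zero] at this
  obtain ⟨r, hr, hrU⟩ := Metric.isOpen_iff.1 hUo 0 h0U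
  have hr2 : 0 < r / 2 := by linarith
  have hsph : Metric.sphere (0 : ℂ) (r / 2) ⊆ U := by
    intro z hz
    apply hrU
    rw [mem_ball_zero_iff]
    rw [mem_sphere_zero_iff_norm] at hz
    linarith
  have hnz : ∀ z ∈ Metric.sphere (0 : ℂ) (r / 2), z ≠ 0 := by
    intro z hz h
    rw [mem_sphere_zero_iff_norm, h, norm_zero] at hz
    linarith
  have hpos : ∀ t ∈ Icc (0 : ℝ) 1, 0 < 1 + t * (ρ / (r / 2)) := by
    intro t ht
    have : 0 ≤ t * (ρ / (r / 2)) := mul_nonneg ht.1 (by positivity)
    linarith
  have hlog : HasLogOf (Metric.sphere (0 : ℂ) (r / 2)) (g ∘ fun z => ((1 + 0 * (ρ / (r / 2)) : ℝ) : ℂ) * z) := by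
    refine hasLogOf_homotopy (G := fun t => g ∘ fun z => ((1 + t * (ρ / (r / 2)) : ℝ) : ℂ) * z)
      (isCompact_sphere _ _) ?_ ?_ ?_
    · refine Continuous.continuousOn ?_
      refine hgc.comp ?_
      fun_prop
    · intro t ht z hz
      refine hg0 _ (mul_ne_zero ?_ (hnz z hz))
      exact_mod_cast (hpos t ht).ne'
    · refine ⟨fun _ => 0, continuousOn_const, fun z hz => ?_⟩
      rw [Complex.exp_zero]
      refine (hgn _ fun h => ?_).symm
      have h2 := hρ h
      rw [mem_ball_zero_iff, norm_mul, Complex.norm_real, Real.norm_eq_abs,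
        abs_of_pos (hpos 1 ⟨by norm_num, le_rfl⟩), mem_sphere_zero_iff_norm.1 hz] at h2
      have h3 : (1 + 1 * (ρ / (r / 2))) * (r / 2) = r / 2 + ρ := by
        field_simp
      rw [h3] at h2
      linarith
  obtain ⟨ℓ, hℓ, hℓ'⟩ := hlog
  refine not_hasLog_sphere hr2 ⟨fun z => ℓ z + M z, hℓ.add M.continuous.continuousOn,
    fun z hz => ?_⟩
  have h4 := hℓ' z hz
  simp only [Function.comp, zero_mul, add_zero, Complex.ofReal_one, one_mul] at h4
  rw [Complex.exp_add, h4, hgU z (hsph hz), mul_assoc, ← Complex.exp_add, neg_add_cancel,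
    Complex.exp_zero, mul_one, id]

/-- If `0` is in an unbounded component `U` of the complement of the compact set `K`, then the
identity has a continuous logarithm on `K`. `U` is open and connected, hence path connected;
let `γ` be a path in `U` from `0` to a point `b` with `‖b‖ > ‖z‖` for all `z ∈ K` (`b ≠ 0`). Apply
`hasLogOf_homotopy` to `G t z = z - γ t`, which does not vanish for `z ∈ K`; `G 1 z = z - b` has
the logarithm `log (- b) + log (1 - z / b)` on `K`, as `‖z / b‖ < 1`. -/
theorem hasLog_of_unbounded {K : Set ℂ} (hK : IsCompact K) (h0 : (0 : ℂ) ∉ K)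
    (hu : ¬ Bornology.IsBounded (connectedComponentIn Kᶜ 0)) : HasLog K := by
  set U := connectedComponentIn Kᶜ (0 : ℂ) with hU
  have hUo : IsOpen U := hK.isClosed.isOpen_compl.connectedComponentIn
  have h0U : (0 : ℂ) ∈ U := mem_connectedComponentIn h0
  have hUK : ∀ z ∈ U, z ∉ K := fun z hz => connectedComponentIn_subset _ _ hz
  have hUc : IsConnected U := ⟨⟨0, h0U⟩, isPreconnected_connectedComponentIn⟩
  have hUp : IsPathConnected U := hUo.isConnected_iff_isPathConnected.1 hUc
  obtain ⟨R, hR⟩ := hK.isBounded.subset_closedBall (0 : ℂ)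
  obtain ⟨b, hbU, hbR⟩ : ∃ b ∈ U, max R 0 < ‖b‖ := by
    by_contra h
    push Not at h
    refine hu ((Metric.isBounded_closedBall (x := (0 : ℂ)) (r := max R 0)).subset fun z hz => ?_)
    rw [mem_closedBall_zero_iff]
    exact h z hz
  have hb0 : 0 < ‖b‖ := (le_max_right _ _).trans_lt hbR
  have hbne : b ≠ 0 := norm_pos_iff.1 hb0
  obtain ⟨γ, hγ⟩ := hUp.joinedIn 0 h0U b hbU
  have hlog : HasLogOf K ((fun t z => z - γ.extend t : ℝ → ℂ → ℂ) 0) := by
    refine hasLogOf_homotopy (G := fun t z => z - γ.extend t) hK ?_ ?_ ?_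
    · refine Continuous.continuousOn ?_
      exact continuous_snd.sub (γ.continuous_extend.comp continuous_fst)
    · intro t ht z hz h
      rw [sub_eq_zero] at h
      rw [Path.extend_apply _ ht] at h
      exact hUK _ (hγ ⟨t, ht⟩) (h ▸ hz)
    · refine ⟨fun z => Complex.log (-b) + Complex.log (1 + -(z / b)), ?_, fun z hz => ?_⟩
      · refine continuousOn_const.add (ContinuousOn.clog (by fun_prop) fun z hz => ?_)
        apply Complex.mem_slitPlane_of_norm_lt_one
        rw [norm_neg, norm_div, div_lt_one hb0]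
        have := hR hz
        rw [mem_closedBall_zero_iff] at this
        exact this.trans_lt ((le_max_left _ _).trans_lt hbR)
      · have hz1 : ‖z‖ < ‖b‖ := by
          have := hR hz
          rw [mem_closedBall_zero_iff] at this
          exact this.trans_lt ((le_max_left _ _).trans_lt hbR)
        have hne : 1 + -(z / b) ≠ 0 := by
          intro h
          have h2 : z / b = 1 := by linear_combination -h
          rw [div_eq_one_iff_eq hbne] at h2
          rw [h2] at hz1
          exact lt_irrefl _ hz1
        simp only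
        rw [Complex.exp_add, Complex.exp_log (neg_ne_zero.2 hbne), Complex.exp_log hne,
          Path.extend_one]
        field_simp
        ring
  obtain ⟨L, hL, hL'⟩ := hlog
  refine ⟨L, hL, fun z hz => ?_⟩
  rw [hL' z hz]
  simp

end Mir
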