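import Pool.Agent.H.MP_80ce29_pr.Pert1
import Pool.Agent.H.MP_80ce29_pr.Log2

/-!
# Stability of bounded components
-/

open Set MeasureTheory Complex Filter Topology
open scoped ComplexConjugate

namespace Mir

variable {ι : Type*} {Θ : Type*} [TopologicalSpace Θ] {X : Θ → Cfg ι}

/-- General position: different present mirrors which meet have different directions, and they meet
in inner points. -/
def Cfg.GP (X : Cfg ι) : Prop := ∀ i ∈ X.S, ∀ j ∈ X.S, i ≠ j → ∀ z, z ∈ X.seg i → z ∈ X.seg j →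
  X.w i ≠ X.w j ∧ z ∈ X.inner i ∧ z ∈ X.inner j

/-- Gluing: let `L i` be continuous on the closed set `T i` for `i` in a finite set `F`, and
`L i z = L j z` for `z ∈ T i ∩ T j`. Then there is one function which is continuous on the union and
equal to `L i` on `T i` (choose for each `z` some `i` with `z ∈ T i`;
`LocallyFinite.continuousOn_iUnion` or induction). -/
theorem glue {F : Finset ι} {T : ι → Set ℂ} (hT : ∀ i ∈ F, IsClosed (T i)) {L : ι → ℂ → ℂ}
    (hL : ∀ i ∈ F, ContinuousOn (L i) (T i))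
    (hc : ∀ i ∈ F, ∀ j ∈ F, ∀ z, z ∈ T i → z ∈ T j → L i z = L j z) :
    ∃ G : ℂ → ℂ, ContinuousOn G (⋃ i ∈ F, T i) ∧ ∀ i ∈ F, ∀ z ∈ T i, G z = L i z := by
  classical
  refine ⟨fun z => if h : ∃ i ∈ F, z ∈ T i then L h.choose z else 0, ?_, ?_⟩
  · have hU : (⋃ i ∈ F, T i) = ⋃ i : F, T i.1 := by
      ext z; simp
    rw [hU]
    refine LocallyFinite.continuousOn_iUnion (locallyFinite_of_finite _)
      (fun i => hT i.1 i.2) (fun i => ?_)
    refine (hL i.1 i.2).congr (fun z hz => ?_)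
    have h : ∃ i ∈ F, z ∈ T i := ⟨i.1, i.2, hz⟩
    simp only [dif_pos h]
    exact hc _ h.choose_spec.1 _ i.2 z h.choose_spec.2 hz
  · intro i hi z hz
    have h : ∃ i ∈ F, z ∈ T i := ⟨i, hi, hz⟩
    simp only [dif_pos h]
    exact hc _ h.choose_spec.1 _ hi z h.choose_spec.2 hz

/-- A logarithm on slightly perturbed segments gives one on the original segments. Let `K₀` be the
union of the mirrors `i ∈ F` at `θ₀`, compact, `‖z‖ ≥ ρ > 0` on `K₀`, and let `ε = ρ / 100`. There are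
finitely many crossing points (each pair of different mirrors of `F` meets in at most one point, by
`hx` and `inter_subsingleton`). For `θ` near `θ₀` we have the maps `φ i` of `Fam.seg_map` and
for each crossing `x` of `i ≠ j` a point `x'` on both mirrors at `θ`, with `‖x' - x‖ < ε`
(`Fam.cross_persist`). Let `L'` be a logarithm on the union of the mirrors at `θ`. Put
`L i z = L' (φ i z) + log (z / φ i z)` on mirror `i` at `θ₀`: continuous, as `z / φ i z` is close
to `1`, and `exp (L i z) = z`. At a crossing `x` of `i` and `j` let `D = L i x - L j x`; `exp D = 1`,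
and `‖D‖ < 2 * π` because `‖L' (φ i x) - L' x'‖` is small by `log_along_segment` (the segment
from `φ i x` to `x'` is in mirror `i` at `θ`, `convex_Seg`), similarly for `j`, and
`log (x / φ i x)`, `log (x / φ j x)` are small. So `D = 0`
(`Complex.exp_eq_one_iff`). Now `glue`. -/
theorem Fam.hasLog_of_near (hF : Fam X) (θ₀ : Θ) (hpos : 0 < (X θ₀).h) (F : Finset ι)
    (h0 : ∀ i ∈ F, (0 : ℂ) ∉ (X θ₀).seg i)
    (hx : ∀ i ∈ F, ∀ j ∈ F, i ≠ j → ∀ z, z ∈ (X θ₀).seg i → z ∈ (X θ₀).seg j →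
      (X θ₀).w i ≠ (X θ₀).w j ∧ z ∈ (X θ₀).inner i ∧ z ∈ (X θ₀).inner j) :
    ∀ᶠ θ in 𝓝 θ₀, HasLog (⋃ i ∈ F, (X θ).seg i) → HasLog (⋃ i ∈ F, (X θ₀).seg i) := by
  classical
  obtain ⟨ρ, hρ, hball⟩ : ∃ ρ > 0, ∀ i ∈ F, ∀ z ∈ (X θ₀).seg i, ρ ≤ ‖z‖ := by
    have hcl : IsClosed (⋃ i ∈ F, (X θ₀).seg i) :=
      F.finite_toSet.isClosed_biUnion (fun i _ => (isCompact_Seg _ _ _).isClosed)
    have hmem : (0 : ℂ) ∈ (⋃ i ∈ F, (X θ₀).seg i)ᶜ := by
      simp only [mem_compl_iff, mem_iUnion, not_exists]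
      exact fun i hi => h0 i hi
    obtain ⟨ρ, hρ, hb⟩ := Metric.isOpen_iff.1 hcl.isOpen_compl 0 hmem
    refine ⟨ρ, hρ, fun i hi z hz => ?_⟩
    by_contra hlt
    push Not at hlt
    have := hb (by simpa using hlt : z ∈ Metric.ball (0 : ℂ) ρ)
    exact this (mem_biUnion hi hz)
  have hε : 0 < ρ / 100 := by positivity
  have h1 : ∀ᶠ θ in 𝓝 θ₀, ∀ i ∈ F, ∃ φ : ℂ → ℂ, Continuous φ ∧
      ∀ z ∈ (X θ₀).seg i, φ z ∈ (X θ).seg i ∧ ‖φ z - z‖ < ρ / 100 :=
    (Filter.eventually_all_finset F).2 (fun i _ => hF.seg_map θ₀ hpos i hε)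
  have h2 : ∀ᶠ θ in 𝓝 θ₀, ∀ i ∈ F, ∀ j ∈ F, i ≠ j → ∀ z, z ∈ (X θ₀).seg i → z ∈ (X θ₀).seg j →
      ∃ x', x' ∈ (X θ).seg i ∧ x' ∈ (X θ).seg j ∧ ‖x' - z‖ < ρ / 100 := by
    refine (Filter.eventually_all_finset F).2 (fun i hi => ?_)
    refine (Filter.eventually_all_finset F).2 (fun j hj => ?_)
    by_cases hij : i = j
    · exact Eventually.of_forall (fun θ h => absurd hij h)
    by_cases hz : ∃ z, z ∈ (X θ₀).seg i ∧ z ∈ (X θ₀).seg j
    · obtain ⟨z, hz1, hz2⟩ := hz
      obtain ⟨h3, h4, h5⟩ := hx i hi j hj hij z hz1 hz2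
      filter_upwards [hF.cross_persist θ₀ h3 h4 h5 hε] with θ hθ
      intro _ z' hz1' hz2'
      have : z' = z := inter_subsingleton h3 ⟨hz1', hz2'⟩ ⟨hz1, hz2⟩
      rw [this]; exact hθ
    · exact Eventually.of_forall (fun θ _ z h3 h4 => absurd ⟨z, h3, h4⟩ hz)
  filter_upwards [h1, h2] with θ hφ hcross
  rintro ⟨L', hL', hexp'⟩
  simp only [id] at hexp'
  choose! φ hφc hφ1 using hφ
  -- size of the images
  have hbig : ∀ i ∈ F, ∀ z ∈ (X θ₀).seg i, 99 / 100 * ρ ≤ ‖φ i z‖ := by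
    intro i hi z hz
    have h3 := hball i hi z hz
    have h4 := (hφ1 i hi z hz).2
    have h5 : ‖z‖ ≤ ‖φ i z‖ + ‖φ i z - z‖ := by
      have : z = φ i z - (φ i z - z) := by ring
      calc ‖z‖ = ‖φ i z - (φ i z - z)‖ := by rw [← this]
        _ ≤ _ := norm_sub_le _ _
    linarith
  have hne : ∀ i ∈ F, ∀ z ∈ (X θ₀).seg i, φ i z ≠ 0 := by
    intro i hi z hz h
    have := hbig i hi z hz
    rw [h, norm_zero] at this
    linarith
  have hq : ∀ i ∈ F, ∀ z ∈ (X θ₀).seg i, z / φ i z = 1 + (z - φ i z) / φ i z := by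
    intro i hi z hz
    have := hne i hi z hz
    field_simp
    ring
  have hq1 : ∀ i ∈ F, ∀ z ∈ (X θ₀).seg i, ‖(z - φ i z) / φ i z‖ ≤ 1 / 99 := by
    intro i hi z hz
    have h3 := hbig i hi z hz
    have h4 := (hφ1 i hi z hz).2
    rw [norm_div, norm_sub_rev, div_le_iff₀ (by linarith)]
    linarith
  have hsubK : ∀ i ∈ F, (X θ).seg i ⊆ ⋃ i ∈ F, (X θ).seg i := fun i hi z hz => mem_biUnion hi hz
  have hLc : ∀ i ∈ F, ContinuousOn (fun z => L' (φ i z) + Complex.log (z / φ i z))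
      ((X θ₀).seg i) := by
    intro i hi
    refine ContinuousOn.add ?_ ?_
    · exact hL'.comp (hφc i hi).continuousOn (fun z hz => hsubK i hi (hφ1 i hi z hz).1)
    · refine ContinuousOn.clog ?_ ?_
      · exact continuousOn_id.div (hφc i hi).continuousOn (fun z hz => hne i hi z hz)
      · intro z hz
        rw [hq i hi z hz]
        exact Complex.mem_slitPlane_of_norm_lt_one (lt_of_le_of_lt (hq1 i hi z hz) (by norm_num))
  have hLe : ∀ i ∈ F, ∀ j ∈ F, ∀ z, z ∈ (X θ₀).seg i → z ∈ (X θ₀).seg j →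
      L' (φ i z) + Complex.log (z / φ i z) = L' (φ j z) + Complex.log (z / φ j z) := by
    intro i hi j hj z hzi hzj
    by_cases hij : i = j
    · rw [hij]
    obtain ⟨x', hx1, hx2, hx3⟩ := hcross i hi j hj hij z hzi hzj
    have key : ∀ k ∈ F, z ∈ (X θ₀).seg k → x' ∈ (X θ).seg k →
        ‖L' x' - L' (φ k z)‖ ≤ 4 / 99 ∧ ‖Complex.log (z / φ k z)‖ ≤ 3 / 198 := by
      intro k hk hzk hxk
      have h3 := hbig k hk z hzk
      have h4 := (hφ1 k hk z hzk).2
      have h5 : ‖x' - φ k z‖ ≤ ρ / 50 := by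
        have : x' - φ k z = (x' - z) - (φ k z - z) := by ring
        rw [this]
        have := norm_sub_le (x' - z) (φ k z - z)
        linarith
      have hseg : segment ℝ (φ k z) x' ⊆ (X θ).seg k :=
        (convex_Seg _ _ _).segment_subset (hφ1 k hk z hzk).1 hxk
      constructor
      · have h6 := (log_along_segment (L := L') (hne k hk z hzk) (by linarith)
          (hL'.mono (hseg.trans (hsubK k hk))) (fun w hw => hexp' w (hsubK k hk (hseg hw)))).2
        refine h6.trans ?_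
        rw [div_le_iff₀ (by linarith)]
        linarith
      · rw [hq k hk z hzk]
        have h6 := hq1 k hk z hzk
        refine (Complex.norm_log_one_add_half_le_self (h6.trans (by norm_num))).trans ?_
        linarith
    obtain ⟨hi1, hi2⟩ := key i hi hzi hx1
    obtain ⟨hj1, hj2⟩ := key j hj hzj hx2
    have hz0 : z ≠ 0 := by
      intro h
      have := hball i hi z hzi
      rw [h, norm_zero] at this
      linarith
    have hexpL : ∀ k ∈ F, z ∈ (X θ₀).seg k →
        Complex.exp (L' (φ k z) + Complex.log (z / φ k z)) = z := by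
      intro k hk hzk
      have hn := hne k hk z hzk
      rw [Complex.exp_add, hexp' _ (hsubK k hk (hφ1 k hk z hzk).1),
        Complex.exp_log (div_ne_zero hz0 hn)]
      field_simp
    have hD : Complex.exp ((L' (φ i z) + Complex.log (z / φ i z)) -
        (L' (φ j z) + Complex.log (z / φ j z))) = 1 := by
      rw [Complex.exp_sub, hexpL i hi hzi, hexpL j hj hzj, div_self hz0]
    have hDn : ‖(L' (φ i z) + Complex.log (z / φ i z)) -
        (L' (φ j z) + Complex.log (z / φ j z))‖ ≤ 1 := by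
      have e1 : (L' (φ i z) + Complex.log (z / φ i z)) -
        (L' (φ j z) + Complex.log (z / φ j z)) =
        ((L' x' - L' (φ j z)) - (L' x' - L' (φ i z))) +
          (Complex.log (z / φ i z) - Complex.log (z / φ j z)) := by ring
      rw [e1]
      refine (norm_add_le _ _).trans ?_
      have e2 := norm_sub_le (L' x' - L' (φ j z)) (L' x' - L' (φ i z))
      have e3 := norm_sub_le (Complex.log (z / φ i z)) (Complex.log (z / φ j z))
      linarith
    obtain ⟨n, hn⟩ := Complex.exp_eq_one_iff.1 hD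
    rw [hn] at hDn
    have hn0 : n = 0 := by
      by_contra hne0
      have h3 : (1 : ℝ) ≤ |(n : ℝ)| := by
        exact_mod_cast Int.one_le_abs hne0
      rw [norm_mul, norm_mul, norm_mul] at hDn
      simp only [Complex.norm_intCast, Complex.norm_ofNat, Complex.norm_real, Complex.norm_I,
        mul_one, Real.norm_eq_abs, abs_of_pos Real.pi_pos] at hDn
      nlinarith [Real.pi_gt_three]
    rw [hn0] at hn
    simp only [Int.cast_zero, zero_mul] at hn
    exact sub_eq_zero.1 hn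
  obtain ⟨G, hG, hG1⟩ := glue (F := F) (T := fun i => (X θ₀).seg i)
    (fun i _ => (isCompact_Seg _ _ _).isClosed)
    (L := fun i z => L' (φ i z) + Complex.log (z / φ i z)) hLc hLe
  refine ⟨G, hG, fun z hz => ?_⟩
  obtain ⟨i, hi, hz⟩ := mem_iUnion₂.1 hz
  rw [hG1 i hi z hz, Complex.exp_add, hexp' _ (hsubK i hi (hφ1 i hi z hz).1)]
  have hn := hne i hi z hz
  have hz0 : z ≠ 0 := by
    intro h
    have := hball i hi z hz
    rw [h, norm_zero] at this
    linarith
  rw [Complex.exp_log (div_ne_zero hz0 hn)]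
  exact mul_div_cancel₀ z hn

/-- Stability of bounded components. Let `C` at `θ₀` be contained in the ball of radius `R`, and `F`
the finite set of the present mirrors at `θ₀` which meet the closed ball of radius `R + 1`
(`LF.finite_meet`), `K θ` the union of the mirrors `i ∈ F` at `θ`. The component `U` of the
complement of `K θ₀` at `0` is contained in `C`: `C` is open and contains `0`, and a point `x ∉ K θ₀`
of the closure of `C` satisfies `‖x‖ ≤ R`, so it is on no present mirror (such a mirror would be in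
`F`), so `x ∈ C`; use `IsPreconnected.subset_of_closure_inter_subset`. So `U` is bounded, and
`K θ₀` has no logarithm (`not_hasLog_of_bounded`). For `θ` near `θ₀` all `i ∈ F` are present, so
`K θ ⊆ M θ`, and `K θ` has no logarithm (`hasLog_of_near`). If `0 ∉ M θ` and `C` at `θ` were
unbounded, then so would be the larger component of the complement of `K θ`, against
`hasLog_of_unbounded`. If `0 ∈ M θ` then `C` at `θ` is empty. -/
theorem Fam.stab_bounded (hF : Fam X) (θ₀ : Θ) (hpos : 0 < (X θ₀).h) (hgp : (X θ₀).GP)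
    (h0 : (0 : ℂ) ∉ (X θ₀).M) (hb : Bornology.IsBounded (X θ₀).C) :
    ∀ᶠ θ in 𝓝 θ₀, Bornology.IsBounded (X θ).C := by
  classical
  have hlf : (X θ₀).LF := by
    intro R
    obtain ⟨F, hF1⟩ := hF.lf θ₀ R
    exact F.finite_toSet.subset (fun i hi => hF1.self_of_nhds i hi.1 hi.2)
  obtain ⟨R, hR⟩ := hb.subset_closedBall 0
  have hfin := hlf.finite_meet (R + 1)
  set F := hfin.toFinset with hFdef
  have hFmem : ∀ i, i ∈ F ↔ i ∈ (X θ₀).S ∧ ∃ z ∈ (X θ₀).seg i, ‖z‖ ≤ R + 1 := by
    intro i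
    rw [hFdef, Set.Finite.mem_toFinset]; rfl
  have hKc : ∀ θ, IsCompact (⋃ i ∈ F, (X θ).seg i) := fun θ =>
    F.finite_toSet.isCompact_biUnion (fun i _ => isCompact_Seg _ _ _)
  have hKM : (⋃ i ∈ F, (X θ₀).seg i) ⊆ (X θ₀).M := by
    intro z hz
    obtain ⟨i, hi, hz⟩ := mem_iUnion₂.1 hz
    exact mem_biUnion ((hFmem i).1 hi).1 hz
  have hMo : IsOpen (X θ₀).Mᶜ := hlf.isClosed_M.isOpen_compl
  have hU : connectedComponentIn (⋃ i ∈ F, (X θ₀).seg i)ᶜ 0 ⊆ (X θ₀).C := by
    have h0C : (0 : ℂ) ∈ (X θ₀).C := mem_connectedComponentIn h0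
    have h0U : (0 : ℂ) ∈ connectedComponentIn (⋃ i ∈ F, (X θ₀).seg i)ᶜ 0 :=
      mem_connectedComponentIn (fun h => h0 (hKM h))
    refine isPreconnected_connectedComponentIn.subset_of_closure_inter_subset
      hMo.connectedComponentIn ⟨0, h0U, h0C⟩ ?_
    rintro x ⟨hx1, hx2⟩
    have hxR : ‖x‖ ≤ R := by
      have := closure_minimal hR Metric.isClosed_closedBall hx1
      simpa using this
    have hxM : x ∈ (X θ₀).Mᶜ := by
      intro hxM
      obtain ⟨i, hi, hz⟩ := mem_iUnion₂.1 hxM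
      have hiF : i ∈ F := (hFmem i).2 ⟨hi, x, hz, by linarith⟩
      exact connectedComponentIn_subset _ _ hx2 (mem_biUnion hiF hz)
    have hxo : IsOpen (connectedComponentIn (X θ₀).Mᶜ x) := hMo.connectedComponentIn
    obtain ⟨y, hy1, hy2⟩ := mem_closure_iff.1 hx1 _ hxo (mem_connectedComponentIn hxM)
    have e1 : connectedComponentIn (X θ₀).Mᶜ x = connectedComponentIn (X θ₀).Mᶜ y :=
      connectedComponentIn_eq hy1
    have e2 : connectedComponentIn (X θ₀).Mᶜ 0 = connectedComponentIn (X θ₀).Mᶜ y :=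
      connectedComponentIn_eq hy2
    show x ∈ connectedComponentIn (X θ₀).Mᶜ 0
    rw [e2, ← e1]
    exact mem_connectedComponentIn hxM
  have hnl : ¬ HasLog (⋃ i ∈ F, (X θ₀).seg i) :=
    not_hasLog_of_bounded (hKc θ₀) (fun h => h0 (hKM h)) (hb.subset hU)
  have h1 := hF.hasLog_of_near θ₀ hpos F (fun i hi h => h0 (hKM (mem_biUnion hi h)))
    (fun i hi j hj hij z hz1 hz2 => hgp i ((hFmem i).1 hi).1 j ((hFmem j).1 hj).1 hij z hz1 hz2)
  have h2 : ∀ᶠ θ in 𝓝 θ₀, ∀ i ∈ F, i ∈ (X θ).S :=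
    (Filter.eventually_all_finset F).2
      (fun i hi => (hF.hS i).isOpen.mem_nhds ((hFmem i).1 hi).1)
  filter_upwards [h1, h2] with θ hθ1 hθ2
  have hKM' : (⋃ i ∈ F, (X θ).seg i) ⊆ (X θ).M := by
    intro z hz
    obtain ⟨i, hi, hz⟩ := mem_iUnion₂.1 hz
    exact mem_biUnion (hθ2 i hi) hz
  by_cases h0' : (0 : ℂ) ∈ (X θ).M
  · have : (X θ).C = ∅ := connectedComponentIn_eq_empty (fun h => h h0')
    rw [this]
    exact Bornology.isBounded_empty
  · by_contra hunb
    apply hnl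
    apply hθ1
    refine hasLog_of_unbounded (hKc θ) (fun h => h0' (hKM' h)) (fun hbd => hunb ?_)
    exact hbd.subset (connectedComponentIn_mono _ (compl_subset_compl.2 hKM'))

end Mir
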