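import Pool.Agent.H.MP_80ce29_pr.Stab1

/-!
# Stability of runs
-/

open Set MeasureTheory Complex Filter Topology
open scoped ComplexConjugate

namespace Mir

variable {ι : Type*} {Θ : Type*} [TopologicalSpace Θ] {X : Θ → Cfg ι}

theorem Run.fly_Stab {X : Cfg ι} {x v y : ℂ} {r : ℝ} (hr : 0 < r)
    (hf : ∀ s ∈ Ioc 0 r, x + (s : ℂ) * v ∉ X.M)
    (hy : y = x + (r : ℂ) * v) : X.Run [] r x v y v := by
  subst hy
  exact Cfg.Run.fly hr hf

theorem Run.bounce_Stab {X : Cfg ι} {x v p w' y u y' u' : ℂ} {r t T : ℝ} {i : ι} {l : List ι}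
    (hr : 0 < r)
    (hf : ∀ s ∈ Ioo 0 r, x + (s : ℂ) * v ∉ X.M) (hi : i ∈ X.S) (hp : p ∈ X.inner i)
    (ho : ∀ j ∈ X.S, j ≠ i → p ∉ X.seg j) (hn : X.Run l t p w' y u)
    (hpe : p = x + (r : ℂ) * v) (hw : w' = (X.w i : ℂ) * conj v) (hT : T = r + t)
    (hy : y' = y) (hu : u' = u) :
    X.Run (i :: l) T x v y' u' := by
  subst hpe hw hT hy hu
  exact Cfg.Run.bounce hr hf hi hp ho hn

/-- Stability of runs, general form. Induction on the run, for all start conditions `o`.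
* fly: `Fam.flight` with `b = none` gives that `(0, t)` is free, and `x + t * v` is free by
  `Fam.isClosed_M`; also `t > 0` nearby.
* bounce at `i`: by `Fam.hit`, nearby the ray flies the time `r := crossT (c i) (w i) x v`, and
  is reflected; the map `(θ, x, v, t) ↦ (θ, x + r * v, w i * conj v, t - r)` is continuous at
  the base point (`tendsto_crossT`) with value the start of the rest of the run, for which the
  induction hypothesis holds with the start condition `some i`. Note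
  `pt i (x + t * v) = (x + r * v) + (t - r) * (w i * conj v)`. -/
theorem Fam.stab_aux (hF : Fam X) {θ₀ : Θ} {l : List ι} {t₀ : ℝ} {x₀ v₀ y₀ u₀ : ℂ}
    (h : (X θ₀).Run l t₀ x₀ v₀ y₀ u₀) : ∀ o : Option ι, (X θ₀).Dep o x₀ v₀ →
    ∀ᶠ q : Θ × ℂ × ℂ × ℝ in 𝓝 (θ₀, x₀, v₀, t₀), (X q.1).Dep o q.2.1 q.2.2.1 →
      (X q.1).Run l q.2.2.2 q.2.1 q.2.2.1
        ((X q.1).A l (q.2.1 + (q.2.2.2 : ℂ) * q.2.2.1)) ((X q.1).B l q.2.2.1) := by
  induction h with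
  | @fly x v r hr hf =>
    intro o hd
    have h1 := hF.flight (o := o) (b := none) hd hr (fun s hs => hf s ⟨hs.1, hs.2.le⟩)
      (hf r ⟨hr, le_rfl⟩)
    have h2 : ∀ᶠ q : Θ × ℂ × ℂ × ℝ in 𝓝 (θ₀, x, v, r),
        q.2.1 + (q.2.2.2 : ℂ) * q.2.2.1 ∉ (X q.1).M := by
      have hcont : Continuous fun q : Θ × ℂ × ℂ × ℝ => (q.1, q.2.1 + (q.2.2.2 : ℂ) * q.2.2.1) := by
        fun_prop
      have hmem : {p : Θ × ℂ | p.2 ∈ (X p.1).M}ᶜ ∈ 𝓝 (θ₀, x + (r : ℂ) * v) :=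
        hF.isClosed_M.isOpen_compl.mem_nhds (hf r ⟨hr, le_rfl⟩)
      exact (hcont.tendsto (θ₀, x, v, r)).eventually hmem
    have h3 : ∀ᶠ q : Θ × ℂ × ℂ × ℝ in 𝓝 (θ₀, x, v, r), 0 < q.2.2.2 := by
      have hcont : Continuous fun q : Θ × ℂ × ℂ × ℝ => q.2.2.2 := by fun_prop
      exact hcont.continuousAt.eventually (lt_mem_nhds hr)
    filter_upwards [h1, h2, h3] with q h1 h2 h3 hdq
    refine Run.fly_Stab h3 (fun s hs => ?_) rfl
    rcases hs.2.lt_or_eq with h4 | h4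
    · exact h1 hdq (fun i' hi' => by simp at hi') s ⟨hs.1, h4⟩
    · rw [h4]
      exact h2
  | @bounce x v r i l t y u hr hf hi hp ho hn ih =>
    intro o hd
    have hnp : ¬ Par ((X θ₀).w i) v := Cfg.Run.bounce_not_par hr hf hi hp
    have hol : OnLine ((X θ₀).c i) ((X θ₀).w i) (x + (r : ℂ) * v) := (mem_Inner.1 hp).1
    have hd' : (X θ₀).Dep (some i) (x + (r : ℂ) * v) (((X θ₀).w i : ℂ) * conj v) :=
      ⟨hi, hol, fun hc => hnp (par_refl_iff.1 hc), ho⟩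
    have h1 := hF.hit hd hr hf hi hp ho
    have hpr : Continuous fun q : Θ × ℂ × ℂ × ℝ => (q.1, q.2.1, q.2.2.1) := by fun_prop
    have h2 : ∀ᶠ q : Θ × ℂ × ℂ × ℝ in 𝓝 (θ₀, x, v, r + t), _ :=
      (hpr.tendsto (θ₀, x, v, r + t)).eventually h1
    have hfst : Tendsto (fun q : Θ × ℂ × ℂ × ℝ => q.1) (𝓝 (θ₀, x, v, r + t)) (𝓝 θ₀) :=
      (continuous_fst.tendsto _)
    have hc : Tendsto (fun q : Θ × ℂ × ℂ × ℝ => (X q.1).c i) (𝓝 (θ₀, x, v, r + t))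
        (𝓝 ((X θ₀).c i)) := ((hF.hc i).tendsto θ₀).comp hfst
    have hw : Tendsto (fun q : Θ × ℂ × ℂ × ℝ => (X q.1).w i) (𝓝 (θ₀, x, v, r + t))
        (𝓝 ((X θ₀).w i)) := ((hF.hw i).tendsto θ₀).comp hfst
    have hx : Tendsto (fun q : Θ × ℂ × ℂ × ℝ => q.2.1) (𝓝 (θ₀, x, v, r + t)) (𝓝 x) :=
      (show Continuous fun q : Θ × ℂ × ℂ × ℝ => q.2.1 by fun_prop).tendsto _
    have hv : Tendsto (fun q : Θ × ℂ × ℂ × ℝ => q.2.2.1) (𝓝 (θ₀, x, v, r + t)) (𝓝 v) :=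
      (show Continuous fun q : Θ × ℂ × ℂ × ℝ => q.2.2.1 by fun_prop).tendsto _
    have ht : Tendsto (fun q : Θ × ℂ × ℂ × ℝ => q.2.2.2) (𝓝 (θ₀, x, v, r + t)) (𝓝 (r + t)) :=
      (show Continuous fun q : Θ × ℂ × ℂ × ℝ => q.2.2.2 by fun_prop).tendsto _
    have hR := tendsto_crossT hc hw hx hv hnp
    rw [← eq_crossT hnp hol] at hR
    have hRc : Tendsto (fun q : Θ × ℂ × ℂ × ℝ =>
        (crossT ((X q.1).c i) ((X q.1).w i) q.2.1 q.2.2.1 : ℂ)) (𝓝 (θ₀, x, v, r + t))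
        (𝓝 (r : ℂ)) := (Complex.continuous_ofReal.tendsto r).comp hR
    have hwc : Tendsto (fun q : Θ × ℂ × ℂ × ℝ => ((X q.1).w i : ℂ)) (𝓝 (θ₀, x, v, r + t))
        (𝓝 ((X θ₀).w i : ℂ)) := (continuous_subtype_val.tendsto _).comp hw
    have hvc : Tendsto (fun q : Θ × ℂ × ℂ × ℝ => conj q.2.2.1) (𝓝 (θ₀, x, v, r + t))
        (𝓝 (conj v)) := (Complex.continuous_conj.tendsto v).comp hv
    have hmap : Tendsto (fun q : Θ × ℂ × ℂ × ℝ => (q.1,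
        q.2.1 + (crossT ((X q.1).c i) ((X q.1).w i) q.2.1 q.2.2.1 : ℂ) * q.2.2.1,
        ((X q.1).w i : ℂ) * conj q.2.2.1,
        q.2.2.2 - crossT ((X q.1).c i) ((X q.1).w i) q.2.1 q.2.2.1)) (𝓝 (θ₀, x, v, r + t))
        (𝓝 (θ₀, x + (r : ℂ) * v, ((X θ₀).w i : ℂ) * conj v, t)) := by
      refine hfst.prodMk_nhds ((hx.add (hRc.mul hv)).prodMk_nhds
        ((hwc.mul hvc).prodMk_nhds ?_))
      have h3 := ht.sub hR
      rwa [add_sub_cancel_left] at h3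
    have h3 := hmap.eventually (ih (some i) hd')
    filter_upwards [h2, h3] with q h2 h3 hdq
    obtain ⟨a1, a2, a3, a4, a5, a6⟩ := h2 hdq
    have h4 := h3 a6
    refine Run.bounce_Stab a1 a2 a3 a4 a5 h4 rfl rfl ?_ ?_ ?_
    · ring
    · rw [Cfg.A_cons]
      congr 1
      have e : q.2.1 + (q.2.2.2 : ℂ) * q.2.2.1 =
          (q.2.1 + (crossT ((X q.1).c i) ((X q.1).w i) q.2.1 q.2.2.1 : ℂ) * q.2.2.1) +
          ((q.2.2.2 - crossT ((X q.1).c i) ((X q.1).w i) q.2.1 q.2.2.1 : ℝ) : ℂ) * q.2.2.1 := by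
        push_cast
        ring
      rw [e, Cfg.pt_add, Cfg.pt_of_onLine _ (mem_Inner.1 a4).1, map_mul, Complex.conj_ofReal]
      ring
    · rfl

/-- Stability of runs which start at a free point: the start condition `none` is open by
`Fam.isClosed_M`. -/
theorem Fam.stab (hF : Fam X) {θ₀ : Θ} {l : List ι} {t₀ : ℝ} {x₀ v₀ y₀ u₀ : ℂ}
    (h : (X θ₀).Run l t₀ x₀ v₀ y₀ u₀) (hx : x₀ ∉ (X θ₀).M) :
    ∀ᶠ q : Θ × ℂ × ℂ × ℝ in 𝓝 (θ₀, x₀, v₀, t₀),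
      (X q.1).Run l q.2.2.2 q.2.1 q.2.2.1
        ((X q.1).A l (q.2.1 + (q.2.2.2 : ℂ) * q.2.2.1)) ((X q.1).B l q.2.2.1) := by
  have h1 := hF.stab_aux h none hx
  have h2 : ∀ᶠ q : Θ × ℂ × ℂ × ℝ in 𝓝 (θ₀, x₀, v₀, t₀), q.2.1 ∉ (X q.1).M := by
    have hcont : Continuous fun q : Θ × ℂ × ℂ × ℝ => (q.1, q.2.1) := by fun_prop
    have hmem : {p : Θ × ℂ | p.2 ∈ (X p.1).M}ᶜ ∈ 𝓝 (θ₀, x₀) :=
      hF.isClosed_M.isOpen_compl.mem_nhds hx
    exact (hcont.tendsto (θ₀, x₀, v₀, t₀)).eventually hmem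
  filter_upwards [h1, h2] with q h1 h2
  exact h1 h2

/-- Stability for a fixed configuration: the same list and the same duration, start `x'` near
`x`. -/
theorem Cfg.Run.stab {X : Cfg ι} (hlf : X.LF) {l : List ι} {t : ℝ} {x v y u : ℂ}
    (h : X.Run l t x v y u) (hx : x ∉ X.M) :
    ∀ᶠ x' in 𝓝 x, X.Run l t x' v (X.A l (x' + (t : ℂ) * v)) u := by
  have hF : Fam (fun _ : Unit => X) := Fam.const hlf
  have h1 := hF.stab (θ₀ := ()) h hx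
  have hcont : Continuous fun x' : ℂ => (((), x', v, t) : Unit × ℂ × ℂ × ℝ) := by fun_prop
  have h2 := (hcont.tendsto x).eventually h1
  filter_upwards [h2] with x' h2
  rw [h.unfold.2]
  exact h2

end Mir
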