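import Pool.Agent.H.MP_80ce29_pr.Model0
import Pool.Agent.H.MP_80ce29_pr.Stab
import Pool.Agent.H.MP_80ce29_pr.Pert2

/-!
# The Poisson mirror model is a continuous family; open events
-/

open Set MeasureTheory Complex Filter Topology
open scoped ComplexConjugate ENNReal

namespace Mir

theorem continuous_count (z : ℤ × ℤ) : Continuous fun p : Sample × ℝ => p.1.1.1 z := by
  have h1 : Continuous fun f : ℤ × ℤ → ℕ => f z := continuous_apply z
  exact h1.comp (continuous_fst.comp (continuous_fst.comp continuous_fst))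

/-- The configurations form a continuous family in the sample and the length. The centre of `i` is a
continuous function of `ω.1.2 i`; the set of `ω` with `i.2 < ω.1.1 i.1` is clopen since `ℕ` is
discrete. Local finiteness: if `‖c i‖ ≤ R` then `|i.1.1|, |i.1.2| ≤ R + 1`, which holds for finitely
many cells; for `θ` near `θ₀` the numbers of points in these cells are the same as for `θ₀`, so
`F` = all `(z, n)` with `z` one of these cells and `n` less than the number at `θ₀`. -/
theorem fam_cfg : Fam (fun p : Sample × ℝ => cfg p.1 p.2) := by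
  refine ⟨fun i => ?_, fun i => ?_, ?_, fun i => ?_, fun θ₀ R => ?_⟩
  · have h0 : Continuous fun p : Sample × ℝ => p.1.1.2 i := by
      have h1 : Continuous fun f : Idx → unitInterval × unitInterval => f i := continuous_apply i
      exact h1.comp (continuous_snd.comp (continuous_fst.comp continuous_fst))
    have h1 : Continuous fun p : Sample × ℝ => ((p.1.1.2 i).1 : ℝ) :=
      continuous_subtype_val.comp (continuous_fst.comp h0)
    have h2 : Continuous fun p : Sample × ℝ => ((p.1.1.2 i).2 : ℝ) :=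
      continuous_subtype_val.comp (continuous_snd.comp h0)
    show Continuous fun p : Sample × ℝ =>
      ((((i.1.1 : ℝ) + (p.1.1.2 i).1 : ℝ) : ℂ) + (((i.1.2 : ℝ) + (p.1.1.2 i).2 : ℝ) : ℂ) * I)
    exact (Complex.continuous_ofReal.comp (continuous_const.add h1)).add
      ((Complex.continuous_ofReal.comp (continuous_const.add h2)).mul continuous_const)
  · show Continuous fun p : Sample × ℝ => p.1.2 i
    have h1 : Continuous fun f : Idx → Circle => f i := continuous_apply i
    exact h1.comp (continuous_snd.comp continuous_fst)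
  · show Continuous fun p : Sample × ℝ => p.2 / 2
    exact continuous_snd.div_const 2
  · show IsClopen ((fun p : Sample × ℝ => p.1.1.1 i.1) ⁻¹' {n | i.2 < n})
    exact (isClopen_discrete _).preimage (continuous_count i.1)
  · classical
    let K : Finset ℤ := Finset.Icc (-⌈R + 1⌉) ⌈R + 1⌉
    let F : Finset Idx := (K ×ˢ K).biUnion
      (fun z => (Finset.range (θ₀.1.1.1 z)).image (fun n => (z, n)))
    refine ⟨F, ?_⟩
    have h1 : ∀ᶠ θ : Sample × ℝ in 𝓝 θ₀, ∀ z ∈ K ×ˢ K, θ.1.1.1 z = θ₀.1.1.1 z := by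
      rw [Filter.eventually_all_finset]
      intro z _
      have h2 : {n : ℕ | n = θ₀.1.1.1 z} ∈ 𝓝 (θ₀.1.1.1 z) := by
        rw [nhds_discrete]
        exact rfl
      exact ((continuous_count z).tendsto θ₀).eventually h2
    refine h1.mono fun θ hθ i hi hR => ?_
    have hi' : i.2 < θ.1.1.1 i.1 := hi
    have hre : (cfg θ.1 θ.2).c i =
        ((((i.1.1 : ℝ) + (θ.1.1.2 i).1 : ℝ) : ℂ) + (((i.1.2 : ℝ) + (θ.1.1.2 i).2 : ℝ) : ℂ) * I) :=
      rfl
    have hR' : ‖(cfg θ.1 θ.2).c i‖ ≤ R := hR
    have e1 : ((cfg θ.1 θ.2).c i).re = (i.1.1 : ℝ) + (θ.1.1.2 i).1 := by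
      rw [hre]; simp
    have e2 : ((cfg θ.1 θ.2).c i).im = (i.1.2 : ℝ) + (θ.1.1.2 i).2 := by
      rw [hre]; simp
    have a1 := (Complex.abs_re_le_norm ((cfg θ.1 θ.2).c i)).trans hR'
    have a2 := (Complex.abs_im_le_norm ((cfg θ.1 θ.2).c i)).trans hR'
    rw [e1] at a1
    rw [e2] at a2
    have b1 := (θ.1.1.2 i).1.2
    have b2 := (θ.1.1.2 i).2.2
    have key : ∀ (a : ℤ) (x : ℝ), x ∈ Icc (0 : ℝ) 1 → |(a : ℝ) + x| ≤ R → a ∈ K := by
      intro a x hx ha
      rw [abs_le] at ha
      have c1 : (a : ℝ) ≤ R + 1 := by linarith [hx.1, ha.2]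
      have c2 : -(R + 1) ≤ (a : ℝ) := by linarith [hx.2, ha.1]
      have c3 : R + 1 ≤ (⌈R + 1⌉ : ℝ) := Int.le_ceil _
      refine Finset.mem_Icc.2 ⟨?_, ?_⟩
      · have : (-(⌈R + 1⌉ : ℝ)) ≤ (a : ℝ) := by linarith
        exact_mod_cast this
      · have : (a : ℝ) ≤ (⌈R + 1⌉ : ℝ) := by linarith
        exact_mod_cast this
    have m1 := key _ _ b1 a1
    have m2 := key _ _ b2 a2
    have hz : i.1 ∈ K ×ˢ K := Finset.mem_product.2 ⟨m1, m2⟩
    refine Finset.mem_biUnion.2 ⟨i.1, hz, Finset.mem_image.2 ⟨i.2, ?_, rfl⟩⟩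
    rw [Finset.mem_range, ← hθ i.1 hz]
    exact hi'

/-- The event that `0` is free and the ray with direction `dir s` reaches a point at distance
more than `m`. The arrangement of the coordinates is the one needed for lower
semicontinuity. -/
def VR (m : ℕ) : Set (((Base × unitInterval) × (Idx → Circle)) × ℝ) :=
  {p | (0 : ℂ) ∉ (cfg (p.1.1.1, p.1.2) p.2).M ∧
    ∃ l t y u, (cfg (p.1.1.1, p.1.2) p.2).Run l t 0 (dir p.1.1.2) y u ∧ (m : ℝ) < ‖y‖}

/-- The interior of the event that `C` is bounded. -/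
def VG : Set ((Base × (Idx → Circle)) × ℝ) :=
  interior {p | Bornology.IsBounded (cfg p.1 p.2).C}

theorem continuous_dir : Continuous dir := by
  unfold dir
  have h1 : Continuous fun s : unitInterval => (2 * Real.pi * (s : ℝ) : ℝ) :=
    continuous_const.mul continuous_subtype_val
  exact Complex.continuous_exp.comp ((Complex.continuous_ofReal.comp h1).mul continuous_const)

theorem norm_dir (s : unitInterval) : ‖dir s‖ = 1 := by
  unfold dir
  exact Complex.norm_exp_ofReal_mul_I _

/-- `VR m` is open: `0 ∉ M` is open by `Fam.isClosed_M`; by `Fam.stab` (with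
`x = 0`, `v = dir s`, duration `t` fixed) the run persists, with end
`A l (0 + t * dir s)`, which depends continuously on the parameters (`Fam.tendsto_A`) and equals
`y` at the base point (`Run.unfold`), so its norm stays larger than `m`. -/
theorem isOpen_VR (m : ℕ) : IsOpen (VR m) := by
  rw [isOpen_iff_mem_nhds]
  rintro p₀ ⟨h0, l, t, y, u, hrun, hm⟩
  let g : ((Base × unitInterval) × (Idx → Circle)) × ℝ → Sample × ℝ :=
    fun p => ((p.1.1.1, p.1.2), p.2)
  have hg : Continuous g := by
    show Continuous fun p : ((Base × unitInterval) × (Idx → Circle)) × ℝ =>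
      (((p.1.1.1, p.1.2), p.2) : Sample × ℝ)
    exact ((continuous_fst.comp (continuous_fst.comp continuous_fst)).prodMk
      (continuous_snd.comp continuous_fst)).prodMk continuous_snd
  have hF : Fam (fun p : ((Base × unitInterval) × (Idx → Circle)) × ℝ =>
      cfg (p.1.1.1, p.1.2) p.2) := fam_cfg.comp hg
  have hdir : Continuous fun p : ((Base × unitInterval) × (Idx → Circle)) × ℝ => dir p.1.1.2 :=
    continuous_dir.comp (continuous_snd.comp (continuous_fst.comp continuous_fst))
  have h1 := hF.stab (θ₀ := p₀) hrun h0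
  have hcont : Continuous fun p : ((Base × unitInterval) × (Idx → Circle)) × ℝ =>
      ((p, (0 : ℂ), dir p.1.1.2, t) :
        (((Base × unitInterval) × (Idx → Circle)) × ℝ) × ℂ × ℂ × ℝ) :=
    continuous_id.prodMk (continuous_const.prodMk (hdir.prodMk continuous_const))
  have h2 := (hcont.tendsto p₀).eventually h1
  have hz : Tendsto (fun p : ((Base × unitInterval) × (Idx → Circle)) × ℝ =>
      (0 : ℂ) + (t : ℂ) * dir p.1.1.2) (𝓝 p₀) (𝓝 ((0 : ℂ) + (t : ℂ) * dir p₀.1.1.2)) :=
    (continuous_const.add (continuous_const.mul hdir)).tendsto p₀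
  have h3 := hF.tendsto_A l (θ₀ := p₀) le_rfl hz
  rw [← hrun.unfold.1] at h3
  have h4 := h3.norm.eventually (lt_mem_nhds hm)
  have h5 : ∀ᶠ p : ((Base × unitInterval) × (Idx → Circle)) × ℝ in 𝓝 p₀,
      (0 : ℂ) ∉ (cfg (p.1.1.1, p.1.2) p.2).M := by
    have hc : Continuous fun p : ((Base × unitInterval) × (Idx → Circle)) × ℝ => (p, (0 : ℂ)) :=
      continuous_id.prodMk continuous_const
    have hmem := hF.isClosed_M.isOpen_compl.mem_nhds (show (p₀, (0 : ℂ)) ∈
      {p : (((Base × unitInterval) × (Idx → Circle)) × ℝ) × ℂ |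
        p.2 ∈ (cfg (p.1.1.1.1, p.1.1.2) p.1.2).M}ᶜ from h0)
    exact (hc.tendsto p₀).eventually hmem
  filter_upwards [h2, h4, h5] with p h2 h4 h5
  exact ⟨h5, l, t, _, _, h2, h4⟩

theorem isOpen_VG : IsOpen VG := isOpen_interior

theorem VR_anti : Antitone VR := by
  rintro m n hmn p ⟨h0, l, t, y, u, hrun, hm⟩
  refine ⟨h0, l, t, y, u, hrun, lt_of_le_of_lt ?_ hm⟩
  exact_mod_cast hmn

end Mir
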