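import Pool.Agent.H.MP_80ce29_pr.Null2

/-!
# General position holds almost surely
-/

open Set MeasureTheory Complex Filter Topology
open scoped ComplexConjugate ENNReal

namespace Mir

private theorem null_end {c : ℂ} {w : Circle} {h : ℝ} {z : ℂ} (hz : z ∈ Seg c w h)
    (hn : z ∉ Inner c w h) :
    ∃ σ : ℝ, (σ = 1 ∨ σ = -1) ∧ z = c + (σ * h : ℝ) * root w := by
  rw [mem_Seg] at hz
  rw [mem_Inner] at hn
  obtain ⟨h1, h2⟩ := hz
  have h3 : h ≤ ‖z - c‖ := by
    by_contra h4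
    exact hn ⟨h1, not_le.1 h4⟩
  have h4 : ‖z - c‖ = h := le_antisymm h2 h3
  obtain ⟨s, hs⟩ := (par_iff (root_sq w)).1 h1
  rw [hs, norm_mul, norm_sq_root (root_sq w), mul_one, Complex.norm_real, Real.norm_eq_abs] at h4
  have h5 : z = c + s * root w := by rw [← hs]; ring
  rcases abs_choice s with h6 | h6
  · refine ⟨1, Or.inl rfl, ?_⟩
    rw [h5, ← h4, h6, one_mul]
  · refine ⟨-1, Or.inr rfl, ?_⟩
    rw [h5, ← h4, h6, neg_one_mul, neg_neg]

private theorem null_swap {c : ℂ} {w : Circle} {x : ℂ} (h : OnLine c w x) : OnLine x w c := by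
  have h1 : (w : ℂ) * conj (x - c) = x - c := h
  show (w : ℂ) * conj (c - x) = c - x
  rw [map_sub] at h1 ⊢
  linear_combination -h1

/-- If general position fails for the labels `i ≠ j`, one of five equations holds. Let
`z ∈ seg i ∩ seg j`, `h = ε / 2`. If `w i = w j` then `c i` is on the line of mirror `j`. If `z` is
not an inner point of `j` then `z = c j ± h * root (w j)` and `z` is on the line of mirror `i`, that
is `c i` is on the line through `c j ± h * root (w j)` with direction `w i`. If `z` is not an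
inner point of `i` then `z = c i ± h * root (w i)` is on the line of mirror `j`. -/
theorem gp_fail {ω : Sample} {ε : ℝ} {i j : Idx} {z : ℂ} (hi : z ∈ (cfg ω ε).seg i)
    (hj : z ∈ (cfg ω ε).seg j)
    (h : ¬ ((cfg ω ε).w i ≠ (cfg ω ε).w j ∧ z ∈ (cfg ω ε).inner i ∧ z ∈ (cfg ω ε).inner j)) :
    OnLine (cellPt j.1 (ω.1.2 j)) (ω.2 j) (cellPt i.1 (ω.1.2 i)) ∨
    (∃ σ : ℝ, (σ = 1 ∨ σ = -1) ∧ OnLine (cellPt j.1 (ω.1.2 j) + (σ * (ε / 2) : ℝ) * root (ω.2 j))
      (ω.2 i) (cellPt i.1 (ω.1.2 i))) ∨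
    (∃ σ : ℝ, (σ = 1 ∨ σ = -1) ∧ OnLine (cellPt j.1 (ω.1.2 j)) (ω.2 j)
      (cellPt i.1 (ω.1.2 i) + (σ * (ε / 2) : ℝ) * root (ω.2 i))) := by
  change z ∈ Seg (cellPt i.1 (ω.1.2 i)) (ω.2 i) (ε / 2) at hi
  change z ∈ Seg (cellPt j.1 (ω.1.2 j)) (ω.2 j) (ε / 2) at hj
  change ¬ (ω.2 i ≠ ω.2 j ∧ z ∈ Inner (cellPt i.1 (ω.1.2 i)) (ω.2 i) (ε / 2) ∧
    z ∈ Inner (cellPt j.1 (ω.1.2 j)) (ω.2 j) (ε / 2)) at h
  have li := (mem_Seg.1 hi).1
  have lj := (mem_Seg.1 hj).1
  by_cases hw : ω.2 i = ω.2 j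
  · left
    rw [hw] at li
    have h1 : Par (ω.2 j) (cellPt i.1 (ω.1.2 i) - z) := (null_swap li)
    have h2 := lj.add_par h1
    have h3 : z + (cellPt i.1 (ω.1.2 i) - z) = cellPt i.1 (ω.1.2 i) := by ring
    rwa [h3] at h2
  · by_cases hin : z ∈ Inner (cellPt j.1 (ω.1.2 j)) (ω.2 j) (ε / 2)
    · have hout : z ∉ Inner (cellPt i.1 (ω.1.2 i)) (ω.2 i) (ε / 2) := fun h1 => h ⟨hw, h1, hin⟩
      obtain ⟨σ, hσ, e⟩ := null_end hi hout
      right; right
      refine ⟨σ, hσ, ?_⟩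
      rw [← e]
      exact lj
    · obtain ⟨σ, hσ, e⟩ := null_end hj hin
      right; left
      refine ⟨σ, hσ, ?_⟩
      rw [← e]
      exact null_swap li

/-- Almost surely general position holds: `gp_fail` and `null_pair` for the countably many pairs. -/
theorem ae_gp (μ : ProbabilityMeasure Circle) (ε : ℝ) : ∀ᵐ ω ∂(law μ), (cfg ω ε).GP := by
  have m1 : Measurable fun p : Circle × Circle => root p.1 := measurable_root.comp measurable_fst
  have m2 : Measurable fun p : Circle × Circle => root p.2 := measurable_root.comp measurable_snd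
  have key : ∀ i j : Idx, i ≠ j → ∀ᵐ ω ∂(law μ), ∀ z, z ∈ (cfg ω ε).seg i →
      z ∈ (cfg ω ε).seg j →
      ((cfg ω ε).w i ≠ (cfg ω ε).w j ∧ z ∈ (cfg ω ε).inner i ∧ z ∈ (cfg ω ε).inner j) := by
    intro i j hij
    have a1 := null_pair μ hij (a := fun _ => 0) (b := fun _ => 0) (v := fun p => p.2)
      measurable_const measurable_const measurable_snd
    have a2 : ∀ σ : ℝ, ∀ᵐ ω ∂(law μ), ¬ OnLine (cellPt j.1 (ω.1.2 j) +
        (σ * (ε / 2) : ℝ) * root (ω.2 j)) (ω.2 i) (cellPt i.1 (ω.1.2 i) + 0) := fun σ =>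
      null_pair μ hij (a := fun p => (σ * (ε / 2) : ℝ) * root p.2) (b := fun _ => 0)
        (v := fun p => p.1) (m2.const_mul _) measurable_const measurable_fst
    have a3 : ∀ σ : ℝ, ∀ᵐ ω ∂(law μ), ¬ OnLine (cellPt j.1 (ω.1.2 j) + 0) (ω.2 j)
        (cellPt i.1 (ω.1.2 i) + (σ * (ε / 2) : ℝ) * root (ω.2 i)) := fun σ =>
      null_pair μ hij (a := fun _ => 0) (b := fun p => (σ * (ε / 2) : ℝ) * root p.1)
        (v := fun p => p.2) measurable_const (m1.const_mul _) measurable_snd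
    filter_upwards [a1, a2 1, a2 (-1), a3 1, a3 (-1)] with ω b1 b2 b2' b3 b3' z hi hj
    by_contra hn
    simp only [add_zero] at b1 b2 b2' b3 b3'
    rcases gp_fail hi hj hn with h1 | ⟨σ, hσ, h1⟩ | ⟨σ, hσ, h1⟩
    · exact b1 h1
    · rcases hσ with rfl | rfl
      · exact b2 h1
      · exact b2' h1
    · rcases hσ with rfl | rfl
      · exact b3 h1
      · exact b3' h1
  have key2 : ∀ᵐ ω ∂(law μ), ∀ i j : Idx, i ≠ j → ∀ z, z ∈ (cfg ω ε).seg i →
      z ∈ (cfg ω ε).seg j →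
      ((cfg ω ε).w i ≠ (cfg ω ε).w j ∧ z ∈ (cfg ω ε).inner i ∧ z ∈ (cfg ω ε).inner j) := by
    rw [ae_all_iff]
    intro i
    rw [ae_all_iff]
    intro j
    by_cases hij : i = j
    · exact Eventually.of_forall fun ω h => absurd hij h
    · filter_upwards [key i j hij] with ω hω _
      exact hω
  filter_upwards [key2] with ω hω i _ j _ hij z hi hj
  exact hω i j hij z hi hj

end Mir
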