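import Pool.Agent.H.MP_80ce29_pr.Model

/-!
# Null sets: lines, joint laws of two coordinates
-/

open Set MeasureTheory Complex Filter Topology
open scoped ComplexConjugate ENNReal

namespace Mir

/-- The point of the plane with coordinates `U` relative to the cell `z`. -/
noncomputable def cellPt (z : ℤ × ℤ) (U : unitInterval × unitInterval) : ℂ :=
  ((((z.1 : ℝ) + U.1 : ℝ) : ℂ) + (((z.2 : ℝ) + U.2 : ℝ) : ℂ) * I)

/-- A measurable square root on the circle. -/
noncomputable def root (w : Circle) : ℂ := Complex.exp (((Complex.arg (w : ℂ) / 2 : ℝ) : ℂ) * I)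

theorem measurable_root : Measurable root := by
  unfold root
  have h0 : Continuous fun w : Circle => (w : ℂ) := continuous_subtype_val
  have h1 : Measurable fun w : Circle => Complex.arg (w : ℂ) :=
    Complex.measurable_arg.comp h0.measurable
  have h2 : Measurable fun w : Circle => ((Complex.arg (w : ℂ) / 2 : ℝ) : ℂ) :=
    Complex.measurable_ofReal.comp (h1.div_const 2)
  exact Complex.measurable_exp.comp (h2.mul_const I)

theorem root_sq (w : Circle) : root w ^ 2 = (w : ℂ) := by
  unfold root
  rw [← Complex.exp_nat_mul]
  have h1 : ((2 : ℕ) : ℂ) * (((Complex.arg (w : ℂ) / 2 : ℝ) : ℂ) * I) = (Complex.arg (w : ℂ) : ℂ) * I := by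
    push_cast
    ring
  rw [h1]
  have h2 := Complex.norm_mul_exp_arg_mul_I (w : ℂ)
  rwa [Circle.norm_coe, Complex.ofReal_one, one_mul] at h2

theorem cellPt_re_Null1 (z : ℤ × ℤ) (U : unitInterval × unitInterval) :
    (cellPt z U).re = (z.1 : ℝ) + U.1 := by
  unfold cellPt
  simp

theorem cellPt_im_Null1 (z : ℤ × ℤ) (U : unitInterval × unitInterval) :
    (cellPt z U).im = (z.2 : ℝ) + U.2 := by
  unfold cellPt
  simp

theorem continuous_cellPt_Null1 (z : ℤ × ℤ) : Continuous (cellPt z) := by
  unfold cellPt
  fun_prop

/-- Two points on a line differ by a real multiple of the direction. -/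
theorem onLine_sub_Null1 {c : ℂ} {w : Circle} {x y : ℂ} (hx : OnLine c w x) (hy : OnLine c w y) :
    ∃ s : ℝ, x - y = s * root w := by
  obtain ⟨s, hs⟩ := (par_iff (root_sq w)).1 hx
  obtain ⟨t, ht⟩ := (par_iff (root_sq w)).1 hy
  refine ⟨s - t, ?_⟩
  push_cast
  linear_combination hs - ht

/-- A line meets the unit square in a null set. Write `U = (x, y)` and let `d = root w`; the
equation `OnLine c w (cellPt z U + b)` is `im ((cellPt z U + b - c) * conj d) = 0`, that is
`y * re d - x * im d = const`. If `re d ≠ 0` there is for each `x` at most one `y`; otherwise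
`im d ≠ 0` and for each `y` there is at most one `x`. Use `Measure.measure_prod_null` (the set is
closed) and that `volume` on `unitInterval` has no atoms. -/
theorem null_line (z : ℤ × ℤ) (c b : ℂ) (w : Circle) :
    (volume : Measure (unitInterval × unitInterval)) {U | OnLine c w (cellPt z U + b)} = 0 := by
  have hcl : IsClosed {U : unitInterval × unitInterval | OnLine c w (cellPt z U + b)} := by
    have h1 := continuous_cellPt_Null1 z
    refine isClosed_eq ?_ ?_
    · exact continuous_const.mul (Complex.continuous_conj.comp ((h1.add continuous_const).sub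
        continuous_const))
    · exact (h1.add continuous_const).sub continuous_const
  have hdiff : ∀ U U' : unitInterval × unitInterval, OnLine c w (cellPt z U + b) →
      OnLine c w (cellPt z U' + b) → ∃ s : ℝ, ((U.1 : ℝ) - U'.1 = s * (root w).re) ∧
        ((U.2 : ℝ) - U'.2 = s * (root w).im) := by
    intro U U' h1 h2
    obtain ⟨s, hs⟩ := onLine_sub_Null1 h1 h2
    refine ⟨s, ?_, ?_⟩
    · have h3 := congrArg Complex.re hs
      rw [Complex.re_ofReal_mul, Complex.sub_re, Complex.add_re, Complex.add_re,
        cellPt_re_Null1, cellPt_re_Null1] at h3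
      linarith
    · have h3 := congrArg Complex.im hs
      rw [Complex.im_ofReal_mul, Complex.sub_im, Complex.add_im, Complex.add_im,
        cellPt_im_Null1, cellPt_im_Null1] at h3
      linarith
  rw [Measure.volume_eq_prod]
  by_cases hre : (root w).re = 0
  · have him : (root w).im ≠ 0 := by
      intro h0
      have h1 : root w = 0 := Complex.ext hre h0
      have h2 := norm_sq_root (root_sq w)
      rw [h1, norm_zero] at h2
      exact zero_ne_one h2
    rw [Measure.prod_apply_symm hcl.measurableSet]
    have h3 : ∀ y : unitInterval, (volume : Measure unitInterval)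
        ((fun x => (x, y)) ⁻¹' {U : unitInterval × unitInterval | OnLine c w (cellPt z U + b)}) = 0 := by
      intro y
      refine Set.Subsingleton.measure_zero ?_ _
      intro x hx x' hx'
      obtain ⟨s, hs1, hs2⟩ := hdiff _ _ hx hx'
      apply Subtype.ext
      rw [hre, mul_zero] at hs1
      exact sub_eq_zero.1 hs1
    simp only [h3, lintegral_zero]
  · rw [Measure.measure_prod_null hcl.measurableSet]
    refine Filter.Eventually.of_forall fun x => ?_
    refine Set.Subsingleton.measure_zero ?_ _
    intro y hy y' hy'
    obtain ⟨s, hs1, hs2⟩ := hdiff _ _ hy hy'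
    apply Subtype.ext
    rw [sub_self] at hs1
    have h3 : s = 0 := (mul_eq_zero.1 hs1.symm).resolve_right hre
    rw [h3, zero_mul] at hs2
    exact sub_eq_zero.1 hs2

/-- The joint law of two different coordinates of an infinite product is the product
(`ProbabilityTheory.iIndepFun_infinitePi`, or `Measure.infinitePi_map_restrict'` and a
measurable equivalence). -/
theorem infinitePi_pair {I Y : Type*} [MeasurableSpace Y] (ν : Measure Y)
    [IsProbabilityMeasure ν] {i j : I} (hij : i ≠ j) :
    (Measure.infinitePi fun _ : I => ν).map (fun ω => (ω i, ω j)) = ν.prod ν := by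
  classical
  refine (Measure.prod_eq fun s t hs ht => ?_).symm
  have hm : Measurable fun ω : I → Y => (ω i, ω j) :=
    (measurable_pi_apply i).prodMk (measurable_pi_apply j)
  rw [Measure.map_apply hm (hs.prod ht)]
  have h1 : (fun ω : I → Y => (ω i, ω j)) ⁻¹' (s ×ˢ t) =
      Set.pi (({i, j} : Finset I) : Set I) (fun k => if k = i then s else t) := by
    ext ω
    simp only [Set.mem_preimage, Set.mem_prod, Set.mem_pi, Finset.coe_insert,
      Finset.coe_singleton, Set.mem_insert_iff, Set.mem_singleton_iff]
    constructor
    · rintro ⟨h1, h2⟩ k (rfl | rfl)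
      · rw [if_pos rfl]
        exact h1
      · rw [if_neg hij.symm]
        exact h2
    · intro h
      have h1 := h i (Or.inl rfl)
      have h2 := h j (Or.inr rfl)
      rw [if_pos rfl] at h1
      rw [if_neg hij.symm] at h2
      exact ⟨h1, h2⟩
  rw [h1, Measure.infinitePi_pi]
  · rw [Finset.prod_pair hij, if_pos rfl, if_neg hij.symm]
  · intro k _
    split_ifs
    · exact hs
    · exact ht

end Mir
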