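import Pool.Agent.H.MP_80ce29_pr.Null1

/-!
# Null events for pairs of mirrors
-/

open Set MeasureTheory Complex Filter Topology
open scoped ComplexConjugate ENNReal

namespace Mir

theorem null2_measurable_coe : Measurable (fun w : Circle => (w : ℂ)) :=
  (by fun_prop : Continuous (fun w : Circle => (w : ℂ))).measurable

theorem null2_continuous_cellPt (z : ℤ × ℤ) : Continuous (cellPt z) := by
  unfold cellPt
  fun_prop

theorem null2_measurable_cellPt (z : ℤ × ℤ) : Measurable (cellPt z) :=
  (null2_continuous_cellPt z).measurable

/-- the event that a point is on a line is measurable. -/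
theorem null2_measurableSet {Ω : Type*} [MeasurableSpace Ω] {c x : Ω → ℂ} {w : Ω → Circle}
    (hc : Measurable c) (hx : Measurable x) (hw : Measurable w) :
    MeasurableSet {ω | ¬ OnLine (c ω) (w ω) (x ω)} := by
  have h1 : Measurable (fun ω => ((w ω : ℂ)) * conj (x ω - c ω) - (x ω - c ω)) := by
    have h2 : Measurable (fun ω => x ω - c ω) := hx.sub hc
    have h3 : Measurable (fun ω => conj (x ω - c ω)) := continuous_conj.measurable.comp h2
    exact ((null2_measurable_coe.comp hw).mul h3).sub h2
  have h2 : {ω | ¬ OnLine (c ω) (w ω) (x ω)} =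
      ((fun ω => ((w ω : ℂ)) * conj (x ω - c ω) - (x ω - c ω)) ⁻¹' {0})ᶜ := by
    ext ω
    simp only [mem_setOf_eq, mem_compl_iff, mem_preimage, mem_singleton_iff, OnLine, sub_eq_zero]
  rw [h2]
  exact (h1 (measurableSet_singleton 0)).compl

/-- Let `a`, `b` be measurable functions and `v` a measurable function of the two directions. For
`i ≠ j`, almost surely the point `c i + b` is not on the line through `c j + a` with direction `v`
(here `c` denotes the centres). By Fubini in the directions it is enough to
treat fixed directions; then the event depends on the positions `U i`, `U j` only, whose joint law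
is the product (`infinitePi_pair`), and for fixed `U j` the set of `U i` is null (`null_line`). The
event is measurable, because the equation of the line is `w * conj (x - c) - (x - c) = 0`, with a
measurable left side. -/
theorem null_pair (μ : ProbabilityMeasure Circle) {i j : Idx} (hij : i ≠ j)
    {a b : Circle × Circle → ℂ} {v : Circle × Circle → Circle} (ha : Measurable a)
    (hb : Measurable b) (hv : Measurable v) :
    ∀ᵐ ω ∂(law μ), ¬ OnLine (cellPt j.1 (ω.1.2 j) + a (ω.2 i, ω.2 j)) (v (ω.2 i, ω.2 j))
      (cellPt i.1 (ω.1.2 i) + b (ω.2 i, ω.2 j)) := by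
  have hd : Measurable (fun ω : Sample => (ω.2 i, ω.2 j)) :=
    ((measurable_pi_apply i).comp measurable_snd).prodMk
      ((measurable_pi_apply j).comp measurable_snd)
  have hU : ∀ l : Idx, Measurable (fun ω : Sample => cellPt l.1 (ω.1.2 l)) := fun l =>
    (null2_measurable_cellPt l.1).comp ((measurable_pi_apply l).comp
      (measurable_snd.comp measurable_fst))
  have hm : MeasurableSet {ω : Sample | ¬ OnLine (cellPt j.1 (ω.1.2 j) + a (ω.2 i, ω.2 j))
      (v (ω.2 i, ω.2 j)) (cellPt i.1 (ω.1.2 i) + b (ω.2 i, ω.2 j))} :=
    null2_measurableSet ((hU j).add (ha.comp hd)) ((hU i).add (hb.comp hd)) (hv.comp hd)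
  unfold law
  rw [Measure.ae_prod_iff_ae_ae hm]
  have hm' : MeasurableSet {ω : Base × (Idx → Circle) |
      (fun (B : Base) (D : Idx → Circle) => ¬ OnLine (cellPt j.1 (B.2 j) + a (D i, D j))
      (v (D i, D j)) (cellPt i.1 (B.2 i) + b (D i, D j))) ω.1 ω.2} := hm
  rw [Measure.ae_ae_comm hm']
  refine Eventually.of_forall fun D => ?_
  unfold baseLaw
  have hU' : ∀ l : Idx, Measurable (fun B : Base => cellPt l.1 (B.2 l)) := fun l =>
    (null2_measurable_cellPt l.1).comp ((measurable_pi_apply l).comp measurable_snd)
  have hm2 : MeasurableSet {B : Base | ¬ OnLine (cellPt j.1 (B.2 j) + a (D i, D j))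
      (v (D i, D j)) (cellPt i.1 (B.2 i) + b (D i, D j))} :=
    null2_measurableSet ((hU' j).add measurable_const) ((hU' i).add measurable_const)
      measurable_const
  rw [Measure.ae_prod_iff_ae_ae hm2]
  refine Eventually.of_forall fun N => ?_
  -- the joint law
  have hpair : Measurable (fun U : Idx → unitInterval × unitInterval => (U i, U j)) :=
    (measurable_pi_apply i).prodMk (measurable_pi_apply j)
  have hm3 : MeasurableSet {p : (unitInterval × unitInterval) × (unitInterval × unitInterval) |
      ¬ OnLine (cellPt j.1 p.2 + a (D i, D j)) (v (D i, D j)) (cellPt i.1 p.1 + b (D i, D j))} :=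
    null2_measurableSet (((null2_measurable_cellPt j.1).comp measurable_snd).add measurable_const)
      (((null2_measurable_cellPt i.1).comp measurable_fst).add measurable_const) measurable_const
  have key : ∀ᵐ p ∂((volume : Measure (unitInterval × unitInterval)).prod
      (volume : Measure (unitInterval × unitInterval))),
      ¬ OnLine (cellPt j.1 p.2 + a (D i, D j)) (v (D i, D j)) (cellPt i.1 p.1 + b (D i, D j)) := by
    rw [Measure.ae_prod_iff_ae_ae hm3]
    have hm3' : MeasurableSet {p : (unitInterval × unitInterval) × (unitInterval × unitInterval) |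
      (fun p1 p2 => ¬ OnLine (cellPt j.1 p2 + a (D i, D j)) (v (D i, D j))
        (cellPt i.1 p1 + b (D i, D j))) p.1 p.2} := hm3
    rw [Measure.ae_ae_comm hm3']
    refine Eventually.of_forall fun Uj => ?_
    rw [ae_iff]
    simp only [not_not]
    exact null_line _ _ _ _
  rw [← infinitePi_pair (volume : Measure (unitInterval × unitInterval)) hij] at key
  exact (ae_map_iff hpair.aemeasurable hm3).1 key

/-- Almost surely `0` is not on the line of mirror `i`: Fubini and `null_line` (the roles of the
centre and the point on the line can be exchanged: `OnLine c w x ↔ OnLine x w c`). -/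
theorem null_zero (μ : ProbabilityMeasure Circle) (i : Idx) :
    ∀ᵐ ω ∂(law μ), ¬ OnLine (cellPt i.1 (ω.1.2 i)) (ω.2 i) 0 := by
  have hm : MeasurableSet {ω : Sample | ¬ OnLine (cellPt i.1 (ω.1.2 i)) (ω.2 i) 0} :=
    null2_measurableSet ((null2_measurable_cellPt i.1).comp ((measurable_pi_apply i).comp
      (measurable_snd.comp measurable_fst))) measurable_const
      ((measurable_pi_apply i).comp measurable_snd)
  unfold law
  rw [Measure.ae_prod_iff_ae_ae hm]
  have hm' : MeasurableSet {ω : Base × (Idx → Circle) |
      (fun (B : Base) (D : Idx → Circle) => ¬ OnLine (cellPt i.1 (B.2 i)) (D i) 0) ω.1 ω.2} := hm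
  rw [Measure.ae_ae_comm hm']
  refine Eventually.of_forall fun D => ?_
  unfold baseLaw
  have hm2 : MeasurableSet {B : Base | ¬ OnLine (cellPt i.1 (B.2 i)) (D i) 0} :=
    null2_measurableSet ((null2_measurable_cellPt i.1).comp ((measurable_pi_apply i).comp
      measurable_snd)) measurable_const measurable_const
  rw [Measure.ae_prod_iff_ae_ae hm2]
  refine Eventually.of_forall fun N => ?_
  have hm3 : MeasurableSet {U : unitInterval × unitInterval | ¬ OnLine (cellPt i.1 U) (D i) 0} :=
    null2_measurableSet (null2_measurable_cellPt i.1) measurable_const measurable_const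
  have key : ∀ᵐ U ∂(volume : Measure (unitInterval × unitInterval)),
      ¬ OnLine (cellPt i.1 U) (D i) 0 := by
    rw [ae_iff]
    simp only [not_not]
    have h := null_line i.1 0 0 (D i)
    have e : {U : unitInterval × unitInterval | OnLine (cellPt i.1 U) (D i) 0} =
        {U | OnLine 0 (D i) (cellPt i.1 U + 0)} := by
      ext U
      simp only [mem_setOf_eq, OnLine, add_zero, sub_zero, zero_sub, map_neg, mul_neg, neg_inj]
    rw [e]
    exact h
  have hmap := Measure.infinitePi_map_eval
    (fun _ : Idx => (volume : Measure (unitInterval × unitInterval))) i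
  rw [← hmap] at key
  exact (ae_map_iff (measurable_pi_apply i).aemeasurable hm3).1 key

/-- Almost surely `0 ∉ M`: countable intersection of `null_zero`. -/
theorem ae_zero_free (μ : ProbabilityMeasure Circle) (ε : ℝ) :
    ∀ᵐ ω ∂(law μ), (0 : ℂ) ∉ (cfg ω ε).M := by
  have h := ae_all_iff.2 (fun i : Idx => null_zero μ i)
  filter_upwards [h] with ω hω hc
  unfold Cfg.M at hc
  rw [mem_iUnion₂] at hc
  obtain ⟨i, _, hi⟩ := hc
  exact hω i (mem_Seg.1 hi).1

end Mir
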