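import Pool.Agent.H.MP_80ce29_pr.Fam1
import Pool.Agent.H.MP_80ce29_pr.Log1

/-!
# Perturbation of finitely many segments: preparations
-/

open Set MeasureTheory Complex Filter Topology
open scoped ComplexConjugate

namespace Mir

variable {ι : Type*} {Θ : Type*} [TopologicalSpace Θ] {X : Θ → Cfg ι}

/-- Segments are convex. -/
theorem convex_Seg (c : ℂ) (w : Circle) (h : ℝ) : Convex ℝ (Seg c w h) := by
  intro x hx y hy a b ha hb hab
  rw [mem_Seg] at hx hy ⊢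
  obtain ⟨h1, h2⟩ := hx
  obtain ⟨h3, h4⟩ := hy
  have h1' : (w : ℂ) * conj (x - c) = x - c := h1
  have h3' : (w : ℂ) * conj (y - c) = y - c := h3
  have hab' : (a : ℂ) + b = 1 := by exact_mod_cast hab
  have h5 : a • x + b • y - c = a * (x - c) + b * (y - c) := by
    rw [Complex.real_smul, Complex.real_smul]
    linear_combination c * hab'
  constructor
  · show (w : ℂ) * conj (a • x + b • y - c) = a • x + b • y - c
    rw [h5, map_add, map_mul, map_mul, Complex.conj_ofReal, Complex.conj_ofReal]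
    linear_combination (a : ℂ) * h1' + (b : ℂ) * h3'
  · rw [h5]
    calc ‖(a : ℂ) * (x - c) + b * (y - c)‖ ≤ ‖(a : ℂ) * (x - c)‖ + ‖(b : ℂ) * (y - c)‖ :=
          norm_add_le _ _
      _ = a * ‖x - c‖ + b * ‖y - c‖ := by
          rw [norm_mul, norm_mul, Complex.norm_real, Complex.norm_real, Real.norm_of_nonneg ha,
            Real.norm_of_nonneg hb]
      _ ≤ a * h + b * h := by
          have h6 := mul_le_mul_of_nonneg_left h2 ha
          have h7 := mul_le_mul_of_nonneg_left h4 hb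
          linarith
      _ = h := by rw [← add_mul, hab, one_mul]

/-- A square root of the direction near a point: there is `a : Θ → ℂ`, continuous at `θ₀`, with
`a θ₀ = d₀` and `a θ ^ 2 = w θ` for all `θ` near `θ₀`. Take
`a θ = d₀ * exp (log (w θ / w θ₀) / 2)`. -/
theorem exists_sqrt_near {w : Θ → Circle} (hw : Continuous w) (θ₀ : Θ) {d₀ : ℂ}
    (hd : d₀ ^ 2 = (w θ₀ : ℂ)) :
    ∃ a : Θ → ℂ, Tendsto a (𝓝 θ₀) (𝓝 d₀) ∧ ∀ᶠ θ in 𝓝 θ₀, a θ ^ 2 = (w θ : ℂ) := by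
  have h0 : ∀ u : Circle, (u : ℂ) ≠ 0 := fun u => by
    rw [← norm_ne_zero_iff, Circle.norm_coe]
    exact one_ne_zero
  refine ⟨fun θ => d₀ * Complex.exp (Complex.log ((w θ : ℂ) / w θ₀) / 2), ?_,
    Filter.Eventually.of_forall fun θ => ?_⟩
  · have h1 : Tendsto (fun θ => (w θ : ℂ) / w θ₀) (𝓝 θ₀) (𝓝 ((w θ₀ : ℂ) / w θ₀)) :=
      ((continuous_subtype_val.comp hw).tendsto θ₀).div_const _
    rw [div_self (h0 _)] at h1
    have h2 : Tendsto (fun θ => Complex.log ((w θ : ℂ) / w θ₀)) (𝓝 θ₀) (𝓝 (Complex.log 1)) :=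
      (continuousAt_clog Complex.one_mem_slitPlane).tendsto.comp h1
    have h3 : Tendsto (fun θ => d₀ * Complex.exp (Complex.log ((w θ : ℂ) / w θ₀) / 2)) (𝓝 θ₀)
        (𝓝 (d₀ * Complex.exp (Complex.log 1 / 2))) :=
      ((Complex.continuous_exp.tendsto _).comp (h2.div_const 2)).const_mul d₀
    rw [Complex.log_one, zero_div, Complex.exp_zero, mul_one] at h3
    exact h3
  · show (d₀ * Complex.exp (Complex.log ((w θ : ℂ) / w θ₀) / 2)) ^ 2 = (w θ : ℂ)
    rw [mul_pow, ← Complex.exp_nat_mul, hd]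
    have h1 : ((2 : ℕ) : ℂ) * (Complex.log ((w θ : ℂ) / w θ₀) / 2) =
        Complex.log ((w θ : ℂ) / w θ₀) := by
      push_cast
      ring
    rw [h1, Complex.exp_log (div_ne_zero (h0 _) (h0 _)), mul_div_cancel₀ _ (h0 _)]

/-- Each mirror at `θ₀` is mapped continuously to the mirror at `θ`, close to the identity: with `a`
from `exists_sqrt_near` (`d₀` a root of `w i θ₀`), `φ z = c' + (h' / h) * (a θ / d₀) * (z - c)`,
primes denoting the values at `θ`. -/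
theorem Fam.seg_map (hF : Fam X) (θ₀ : Θ) (hpos : 0 < (X θ₀).h) (i : ι) {ε : ℝ} (hε : 0 < ε) :
    ∀ᶠ θ in 𝓝 θ₀, ∃ φ : ℂ → ℂ, Continuous φ ∧
      ∀ z ∈ (X θ₀).seg i, φ z ∈ (X θ).seg i ∧ ‖φ z - z‖ < ε := by
  obtain ⟨d₀, hd⟩ := exists_sq ((X θ₀).w i)
  have hd0 : d₀ ≠ 0 := by
    rw [← norm_ne_zero_iff, norm_sq_root hd]
    exact one_ne_zero
  obtain ⟨a, ha, ha2⟩ := exists_sqrt_near (hF.hw i) θ₀ hd
  have hhpos : ∀ᶠ θ in 𝓝 θ₀, 0 < (X θ).h := hF.hh.continuousAt.eventually_const_lt hpos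
  have hhc : Tendsto (fun θ => (X θ).h) (𝓝 θ₀) (𝓝 (X θ₀).h) := hF.hh.tendsto θ₀
  have hcc : Tendsto (fun θ => (X θ).c i) (𝓝 θ₀) (𝓝 ((X θ₀).c i)) := (hF.hc i).tendsto θ₀
  have hq : Tendsto (fun θ => (((X θ).h / (X θ₀).h : ℝ) : ℂ) * a θ) (𝓝 θ₀) (𝓝 d₀) := by
    have h1 : Tendsto (fun θ => (X θ).h / (X θ₀).h) (𝓝 θ₀) (𝓝 ((X θ₀).h / (X θ₀).h)) :=
      hhc.div_const _
    rw [div_self hpos.ne'] at h1
    have h2 := ((Complex.continuous_ofReal.tendsto _).comp h1).mul ha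
    rw [Complex.ofReal_one, one_mul] at h2
    exact h2
  have hb : Tendsto (fun θ => ‖(X θ).c i - (X θ₀).c i‖ +
      (X θ₀).h * ‖(((X θ).h / (X θ₀).h : ℝ) : ℂ) * a θ - d₀‖) (𝓝 θ₀) (𝓝 0) := by
    have h1 := (hcc.sub_const ((X θ₀).c i)).norm
    have h2 := ((hq.sub_const d₀).norm).const_mul (X θ₀).h
    rw [sub_self, norm_zero] at h1 h2
    rw [mul_zero] at h2
    have h3 := h1.add h2
    rw [add_zero] at h3
    exact h3
  filter_upwards [ha2, hhpos, hb.eventually_lt_const hε] with θ h1 h2 h3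
  refine ⟨fun z => (X θ).c i + (((X θ).h / (X θ₀).h : ℝ) : ℂ) * (a θ / d₀) *
    (z - (X θ₀).c i), by fun_prop, fun z hz => ?_⟩
  obtain ⟨h4, h5⟩ := mem_Seg.1 hz
  obtain ⟨s, hs⟩ := (par_iff hd).1 h4
  have h6 : |s| ≤ (X θ₀).h := by
    rw [hs, norm_mul, norm_sq_root hd, mul_one, Complex.norm_real] at h5
    exact h5
  have h7 : (X θ).c i + (((X θ).h / (X θ₀).h : ℝ) : ℂ) * (a θ / d₀) * (z - (X θ₀).c i) =
      (X θ).c i + (((X θ).h / (X θ₀).h * s : ℝ) : ℂ) * a θ := by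
    rw [hs]
    push_cast
    field_simp
  refine ⟨⟨a θ, h1, (X θ).h / (X θ₀).h * s, ?_, h7⟩, ?_⟩
  · rw [abs_mul, abs_of_nonneg (div_nonneg h2.le hpos.le), div_mul_eq_mul_div, div_le_iff₀ hpos]
    exact mul_le_mul_of_nonneg_left h6 h2.le
  · have h8 : (X θ).c i + (((X θ).h / (X θ₀).h : ℝ) : ℂ) * (a θ / d₀) * (z - (X θ₀).c i) - z =
        ((X θ).c i - (X θ₀).c i) + (s : ℂ) * ((((X θ).h / (X θ₀).h : ℝ) : ℂ) * a θ - d₀) := by
      rw [h7]
      have h9 : z = (X θ₀).c i + s * d₀ := by rw [← hs]; ring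
      rw [h9]
      push_cast
      ring
    show ‖(X θ).c i + (((X θ).h / (X θ₀).h : ℝ) : ℂ) * (a θ / d₀) * (z - (X θ₀).c i) - z‖ < ε
    rw [h8]
    refine lt_of_le_of_lt ((norm_add_le _ _).trans ?_) h3
    rw [norm_mul, Complex.norm_real]
    have h10 := mul_le_mul_of_nonneg_right h6
      (norm_nonneg ((((X θ).h / (X θ₀).h : ℝ) : ℂ) * a θ - d₀))
    rw [Real.norm_eq_abs]
    linarith

/-- Transversal crossings persist. Let `x = c i + s₀ * d₀` be an inner point of both mirrors at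
`θ₀`, `|s₀| < h`. With `a` from `exists_sqrt_near` for mirror `i`, apply `eventually_cross` to the
line `c i θ + r * a θ` and the mirror `j` (`d₀` is not parallel to `w j` because
`w i * conj d₀ = d₀`, `d₀ ≠ 0` and `w i ≠ w j`): the crossing parameter `r θ` tends to `s₀`, so
`|r θ| < h θ` for `θ` near `θ₀`, and the crossing point is on both mirrors and tends to `x`. -/
theorem Fam.cross_persist (hF : Fam X) (θ₀ : Θ) {i j : ι} (hij : (X θ₀).w i ≠ (X θ₀).w j) {x : ℂ}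
    (hi : x ∈ (X θ₀).inner i) (hj : x ∈ (X θ₀).inner j) {ε : ℝ} (hε : 0 < ε) :
    ∀ᶠ θ in 𝓝 θ₀, ∃ x', x' ∈ (X θ).seg i ∧ x' ∈ (X θ).seg j ∧ ‖x' - x‖ < ε := by
  obtain ⟨d₀, hd, s₀, hs₀, hx⟩ := hi
  have hd0 : d₀ ≠ 0 := by
    rw [← norm_ne_zero_iff, norm_sq_root hd]
    exact one_ne_zero
  obtain ⟨a, ha, ha2⟩ := exists_sqrt_near (hF.hw i) θ₀ hd
  have hpar : ¬ Par ((X θ₀).w j) d₀ := by
    intro h
    have h1 : ((X θ₀).w j : ℂ) * conj d₀ = d₀ := h
    have h2 : ((X θ₀).w i : ℂ) * conj d₀ = d₀ := par_root hd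
    have h3 : conj d₀ ≠ 0 := (map_ne_zero _).2 hd0
    exact hij (Circle.ext (mul_right_cancel₀ h3 (h2.trans h1.symm)))
  have hcc : Tendsto (fun θ => (X θ).c i) (𝓝 θ₀) (𝓝 ((X θ₀).c i)) := (hF.hc i).tendsto θ₀
  have hcross := eventually_cross ((hF.hc j).tendsto θ₀) ((hF.hw j).tendsto θ₀)
    (hF.hh.tendsto θ₀) hcc ha hpar (r₀ := s₀) (by rw [← hx]; exact hj)
  obtain ⟨hr, hin⟩ := hcross
  have hlt : ∀ᶠ θ in 𝓝 θ₀, |crossT ((X θ).c j) ((X θ).w j) ((X θ).c i) (a θ)| < (X θ).h :=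
    hr.abs.eventually_lt (hF.hh.tendsto θ₀) hs₀
  have hlim : Tendsto (fun θ => ‖(X θ).c i +
      (crossT ((X θ).c j) ((X θ).w j) ((X θ).c i) (a θ) : ℂ) * a θ - x‖) (𝓝 θ₀) (𝓝 0) := by
    have h1 := ((hcc.add (((Complex.continuous_ofReal.tendsto _).comp hr).mul ha)).sub_const x).norm
    rw [← hx, sub_self, norm_zero] at h1
    exact h1
  filter_upwards [ha2, hin, hlt, hlim.eventually_lt_const hε] with θ h1 h2 h3 h4
  exact ⟨_, ⟨a θ, h1, _, h3.le, rfl⟩, Inner_subset_Seg h2, h4⟩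

/-- A continuous logarithm along a short segment is the principal one: let `L` be continuous on the
segment from `a` to `b` with `exp (L z) = z` there, and `‖b - a‖ ≤ ‖a‖ / 2`, `a ≠ 0`. Then
`L b - L a = log (b / a)`. Indeed `φ t = L (a + t * (b - a)) - log ((a + t * (b - a)) / a)`,
`t ∈ [0, 1]`, is continuous with `exp (φ t) = a`; use `const_of_exp_const`. Also
`‖log (b / a)‖ ≤ 2 * ‖b - a‖ / ‖a‖` (`Complex.norm_log_one_add_half_le_self`). -/
theorem log_along_segment {L : ℂ → ℂ} {a b : ℂ} (ha : a ≠ 0) (hab : ‖b - a‖ ≤ ‖a‖ / 2)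
    (hL : ContinuousOn L (segment ℝ a b)) (hexp : ∀ z ∈ segment ℝ a b, Complex.exp (L z) = z) :
    L b - L a = Complex.log (b / a) ∧ ‖L b - L a‖ ≤ 2 * ‖b - a‖ / ‖a‖ := by
  have hna : 0 < ‖a‖ := norm_pos_iff.2 ha
  have hz : ‖(b - a) / a‖ ≤ 1 / 2 := by
    rw [norm_div, div_le_iff₀ hna]
    linarith
  have hseg : ∀ t ∈ Icc (0 : ℝ) 1, a + (t : ℂ) * (b - a) ∈ segment ℝ a b := by
    intro t ht
    rw [segment_eq_image']
    exact ⟨t, ht, by simp only [Complex.real_smul]⟩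
  have hquot : ∀ t ∈ Icc (0 : ℝ) 1, (a + (t : ℂ) * (b - a)) / a ∈ Complex.slitPlane := by
    intro t ht
    have h1 : (a + (t : ℂ) * (b - a)) / a = 1 + (t : ℂ) * ((b - a) / a) := by
      field_simp
    rw [h1]
    apply Complex.mem_slitPlane_of_norm_lt_one
    rw [norm_mul, Complex.norm_real, Real.norm_of_nonneg ht.1]
    have h2 : t * ‖(b - a) / a‖ ≤ 1 * (1 / 2) := mul_le_mul ht.2 hz (norm_nonneg _) zero_le_one
    linarith
  have hcont : ContinuousOn (fun t : ℝ => L (a + (t : ℂ) * (b - a)) -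
      Complex.log ((a + (t : ℂ) * (b - a)) / a)) (Icc (0 : ℝ) 1) := by
    refine ContinuousOn.sub ?_ ?_
    · refine hL.comp (Continuous.continuousOn (by fun_prop)) hseg
    · exact ContinuousOn.clog (Continuous.continuousOn (by fun_prop)) hquot
  have hconst := const_of_exp_const (S := Icc (0 : ℝ) 1) isPreconnected_Icc hcont (a := a) (by
      intro t ht
      have h1 := Complex.slitPlane_ne_zero (hquot t ht)
      have h2 : a + (t : ℂ) * (b - a) ≠ 0 := fun h => h1 (by rw [h, zero_div])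
      show Complex.exp (L (a + (t : ℂ) * (b - a)) -
        Complex.log ((a + (t : ℂ) * (b - a)) / a)) = a
      rw [Complex.exp_sub, hexp _ (hseg t ht), Complex.exp_log h1, div_div_cancel₀ h2])
    (s := 0) (t := 1) ⟨le_rfl, zero_le_one⟩ ⟨zero_le_one, le_rfl⟩
  simp only [Complex.ofReal_zero, zero_mul, add_zero, Complex.ofReal_one, one_mul, div_self ha,
    Complex.log_one, sub_zero, add_sub_cancel] at hconst
  have h1 : L b - L a = Complex.log (b / a) := by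
    rw [hconst]
    ring
  refine ⟨h1, ?_⟩
  rw [h1]
  have h2 : b / a = 1 + (b - a) / a := by field_simp; ring
  rw [h2]
  have h3 := Complex.norm_log_one_add_half_le_self hz
  have h4 : 3 / 2 * ‖(b - a) / a‖ = 3 / 2 * (‖b - a‖ / ‖a‖) := by rw [norm_div]
  have h5 : 2 * ‖b - a‖ / ‖a‖ = 2 * (‖b - a‖ / ‖a‖) := by ring
  rw [h4] at h3
  rw [h5]
  have h6 : 0 ≤ ‖b - a‖ / ‖a‖ := by positivity
  linarith

end Mir
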