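import Pool.Agent.H.MP_80ce29_pr.Comp
import Pool.Agent.H.MP_80ce29_pr.Count
import Pool.Agent.H.MP_80ce29_pr.Pert2

/-!
# Rotation of a configuration
-/

open Set MeasureTheory Complex Filter Topology
open scoped ComplexConjugate

namespace Mir

variable {ι : Type*}

/-- The configuration rotated about `0` by the unit complex number `a`. -/
noncomputable def Cfg.rot (X : Cfg ι) (a : Circle) : Cfg ι where
  S := X.S
  c := fun i => (a : ℂ) * X.c i
  w := fun i => a ^ 2 * X.w i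
  h := X.h

variable {X : Cfg ι}

private theorem a_ne_Rot (a : Circle) : (a : ℂ) ≠ 0 := Circle.coe_ne_zero a

private theorem onLine_Rot (a : Circle) {c z : ℂ} {w : Circle} :
    OnLine ((a : ℂ) * c) (a ^ 2 * w) ((a : ℂ) * z) ↔ OnLine c w z := by
  have h1 : (a : ℂ) * conj (a : ℂ) = 1 := by
    rw [Complex.mul_conj, Complex.normSq_eq_norm_sq, Circle.norm_coe]
    norm_num
  unfold OnLine
  have h2 : ((a ^ 2 * w : Circle) : ℂ) * conj ((a : ℂ) * z - (a : ℂ) * c) =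
      (a : ℂ) * ((w : ℂ) * conj (z - c)) := by
    rw [← mul_sub, map_mul, Circle.coe_mul, Circle.coe_pow]
    linear_combination (a : ℂ) * (w : ℂ) * conj (z - c) * h1
  rw [h2, ← mul_sub]
  exact mul_right_inj' (a_ne_Rot a)

private theorem norm_Rot (a : Circle) (z c : ℂ) : ‖(a : ℂ) * z - (a : ℂ) * c‖ = ‖z - c‖ := by
  rw [← mul_sub, norm_mul, Circle.norm_coe, one_mul]

/-- From `mem_Seg`: the equation of the line is rotated, and `‖a * z - a * c‖ = ‖z - c‖`. -/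
theorem Cfg.mem_seg_rot (a : Circle) {i : ι} {z : ℂ} :
    (a : ℂ) * z ∈ (X.rot a).seg i ↔ z ∈ X.seg i := by
  show (a : ℂ) * z ∈ Seg ((a : ℂ) * X.c i) (a ^ 2 * X.w i) X.h ↔ z ∈ Seg (X.c i) (X.w i) X.h
  rw [mem_Seg, mem_Seg, onLine_Rot, norm_Rot]

theorem Cfg.mem_inner_rot (a : Circle) {i : ι} {z : ℂ} :
    (a : ℂ) * z ∈ (X.rot a).inner i ↔ z ∈ X.inner i := by
  show (a : ℂ) * z ∈ Inner ((a : ℂ) * X.c i) (a ^ 2 * X.w i) X.h ↔ z ∈ Inner (X.c i) (X.w i) X.h
  rw [mem_Inner, mem_Inner, onLine_Rot, norm_Rot]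

theorem Cfg.mem_M_rot (a : Circle) {z : ℂ} : (a : ℂ) * z ∈ (X.rot a).M ↔ z ∈ X.M := by
  rw [Cfg.mem_M_iff, Cfg.mem_M_iff]
  exact exists_congr fun i => and_congr_right fun _ => Cfg.mem_seg_rot a

/-- Rotating back. -/
theorem Cfg.rot_rot_inv (a : Circle) : (X.rot a).rot a⁻¹ = X := by
  obtain ⟨S, c, w, h⟩ := X
  have h1 : ∀ z : ℂ, ((a⁻¹ : Circle) : ℂ) * ((a : ℂ) * z) = z := fun z => by
    rw [← mul_assoc, Circle.coe_inv, inv_mul_cancel₀ (a_ne_Rot a), one_mul]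
  have h2 : ∀ u : Circle, (a⁻¹) ^ 2 * (a ^ 2 * u) = u := fun u => by
    rw [← mul_assoc, ← mul_pow, inv_mul_cancel, one_pow, one_mul]
  simp only [Cfg.rot, h1, h2]

/-- Runs are rotated: `(a ^ 2 * w) * conj (a * v) = a * (w * conj v)`. Induction. -/
theorem Cfg.Run.rot (a : Circle) {l : List ι} {t : ℝ} {x v y u : ℂ} (h : X.Run l t x v y u) :
    (X.rot a).Run l t ((a : ℂ) * x) ((a : ℂ) * v) ((a : ℂ) * y) ((a : ℂ) * u) := by
  induction h with
  | @fly x v r hr hf =>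
    have h1 : (a : ℂ) * (x + (r : ℂ) * v) = (a : ℂ) * x + (r : ℂ) * ((a : ℂ) * v) := by ring
    rw [h1]
    refine Cfg.Run.fly hr fun s hs => ?_
    have h2 : (a : ℂ) * x + (s : ℂ) * ((a : ℂ) * v) = (a : ℂ) * (x + (s : ℂ) * v) := by ring
    rw [h2, Cfg.mem_M_rot]
    exact hf s hs
  | @bounce x v r i l t y u hr hf hi hp ho hn ih =>
    have h2 : ∀ s : ℝ, (a : ℂ) * x + (s : ℂ) * ((a : ℂ) * v) = (a : ℂ) * (x + (s : ℂ) * v) :=
      fun s => by ring
    refine Cfg.Run.bounce hr (fun s hs => ?_) hi ?_ (fun j hj hji => ?_) ?_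
    · rw [h2, Cfg.mem_M_rot]
      exact hf s hs
    · rw [h2, Cfg.mem_inner_rot]
      exact hp
    · rw [h2, Cfg.mem_seg_rot]
      exact ho j hj hji
    · have h3 : (((X.rot a).w i : Circle) : ℂ) * conj ((a : ℂ) * v) =
          (a : ℂ) * ((X.w i : ℂ) * conj v) := by
        have h1 : (a : ℂ) * conj (a : ℂ) = 1 := by
          rw [Complex.mul_conj, Complex.normSq_eq_norm_sq, Circle.norm_coe]
          norm_num
        show ((a ^ 2 * X.w i : Circle) : ℂ) * conj ((a : ℂ) * v) = _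
        rw [map_mul, Circle.coe_mul, Circle.coe_pow]
        linear_combination (a : ℂ) * (X.w i : ℂ) * conj v * h1
      rw [h2, h3]
      exact ih

/-- From `Run.rot` for `a⁻¹` and `rot_rot_inv`. -/
theorem Cfg.Escapes.of_rot (a : Circle) {v : ℂ} (h : (X.rot a).Escapes ((a : ℂ) * v)) :
    X.Escapes v := by
  intro m
  obtain ⟨l, t, y, u, hr, hy⟩ := h m
  have h1 := hr.rot a⁻¹
  rw [Cfg.rot_rot_inv, mul_zero] at h1
  have h2 : ((a⁻¹ : Circle) : ℂ) * ((a : ℂ) * v) = v := by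
    rw [← mul_assoc, Circle.coe_inv, inv_mul_cancel₀ (a_ne_Rot a), one_mul]
  rw [h2] at h1
  refine ⟨l, t, _, _, h1, ?_⟩
  rwa [norm_mul, Circle.norm_coe, one_mul]

/-- The component of `0` is rotated; in particular it is bounded if the rotated one is: `z ↦ a * z`
is a homeomorphism which maps the complement of `X.M` onto the complement of `(X.rot a).M`, so it
maps `X.C` into `(X.rot a).C`, and it preserves norms. -/
theorem Cfg.bounded_of_rot (a : Circle) (h : Bornology.IsBounded (X.rot a).C) :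
    Bornology.IsBounded X.C := by
  by_cases h0 : (0 : ℂ) ∈ X.Mᶜ
  · have hcont : Continuous fun z : ℂ => (a : ℂ) * z := continuous_const.mul continuous_id
    have h1 : (fun z : ℂ => (a : ℂ) * z) '' X.C ⊆ (X.rot a).C := by
      refine IsPreconnected.subset_connectedComponentIn
        (isPreconnected_connectedComponentIn.image _ hcont.continuousOn) ?_ ?_
      · exact ⟨0, mem_connectedComponentIn h0, mul_zero _⟩
      · rintro _ ⟨z, hz, rfl⟩
        have hz1 : z ∉ X.M := connectedComponentIn_subset _ _ hz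
        show (a : ℂ) * z ∉ (X.rot a).M
        rwa [Cfg.mem_M_rot]
    obtain ⟨R, hR⟩ := isBounded_iff_forall_norm_le.1 h
    refine isBounded_iff_forall_norm_le.2 ⟨R, fun z hz => ?_⟩
    have h2 := hR _ (h1 ⟨z, hz, rfl⟩)
    simpa [norm_mul, Circle.norm_coe] using h2
  · have h1 : X.C = ∅ := connectedComponentIn_eq_empty h0
    rw [h1]
    exact Bornology.isBounded_empty

theorem Cfg.LF.rot (h : X.LF) (a : Circle) : (X.rot a).LF := by
  intro R
  refine (h R).subset ?_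
  rintro i ⟨hi, hR⟩
  refine ⟨hi, ?_⟩
  have h1 : ‖(a : ℂ) * X.c i‖ ≤ R := hR
  rwa [norm_mul, Circle.norm_coe, one_mul] at h1

theorem Cfg.GP.rot (h : X.GP) (a : Circle) : (X.rot a).GP := by
  intro i hi j hj hij z hzi hzj
  obtain ⟨z', rfl⟩ : ∃ z' : ℂ, z = (a : ℂ) * z' :=
    ⟨(a : ℂ)⁻¹ * z, by rw [← mul_assoc, mul_inv_cancel₀ (a_ne_Rot a), one_mul]⟩
  rw [Cfg.mem_seg_rot] at hzi hzj
  obtain ⟨h1, h2, h3⟩ := h i hi j hj hij z' hzi hzj
  refine ⟨fun h4 => h1 ?_, (Cfg.mem_inner_rot a).2 h2, (Cfg.mem_inner_rot a).2 h3⟩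
  exact mul_left_cancel (show a ^ 2 * X.w i = a ^ 2 * X.w j from h4)

end Mir
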