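import Pool.Agent.H.MP_80ce29_pr.Fold

/-!
# First properties of runs
-/

open Set MeasureTheory Complex Filter Topology
open scoped ComplexConjugate

namespace Mir

variable {ι : Type*} {X : Cfg ι}

/-- A point of a present mirror is in `M`. -/
theorem Cfg.mem_M_of_seg {i : ι} (hi : i ∈ X.S) {z : ℂ} (hz : z ∈ X.seg i) : z ∈ X.M := by
  simp only [Cfg.M, mem_iUnion]
  exact ⟨i, hi, hz⟩

theorem Cfg.mem_M_iff {z : ℂ} : z ∈ X.M ↔ ∃ i ∈ X.S, z ∈ X.seg i := by
  simp [Cfg.M]

theorem Cfg.inner_sub_seg {i : ι} {z : ℂ} (hz : z ∈ X.inner i) : z ∈ X.seg i :=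
  Inner_subset_Seg hz

namespace Cfg.Run

variable {l l' : List ι} {t t' : ℝ} {x v y u z w : ℂ}

/-- Induction. -/
theorem time_pos (h : X.Run l t x v y u) : 0 < t := by
  induction h with
  | fly hr _ => exact hr
  | bounce hr _ _ _ _ _ ih => linarith

/-- Induction; in the case `fly` use `s = r` in `hf`. -/
theorem end_free (h : X.Run l t x v y u) : y ∉ X.M := by
  induction h with
  | fly hr hf => exact hf _ ⟨hr, le_rfl⟩
  | bounce _ _ _ _ _ _ ih => exact ih

/-- The mirrors of the list are present. Induction. -/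
theorem mem (h : X.Run l t x v y u) : ∀ i ∈ l, i ∈ X.S := by
  induction h with
  | fly _ _ => intro i hi; simp at hi
  | bounce _ _ hi _ _ _ ih =>
    intro j hj
    rcases List.mem_cons.1 hj with rfl | hj
    · exact hi
    · exact ih j hj

/-- At a bounce the velocity is transversal (`not_par_of_hit`): stated for use in inductions. -/
theorem bounce_not_par {i : ι} {r : ℝ} (hr : 0 < r)
    (hf : ∀ s ∈ Ioo 0 r, x + (s : ℂ) * v ∉ X.M) (hi : i ∈ X.S)
    (hp : x + (r : ℂ) * v ∈ X.inner i) : ¬ Par (X.w i) v :=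
  not_par_of_hit hr (fun s hs hx => hf s hs (Cfg.mem_M_of_seg hi hx)) hp

/-- Unfolding: induction; the bounce point `p = x + r * v` is on the line of mirror `i`, so
`pt i (x + (r + t) * v) = pt i (p + t * v) = p + t * (w i * conj v)` (`pt_add`,
`pt_of_onLine`). -/
theorem unfold (h : X.Run l t x v y u) : y = X.A l (x + (t : ℂ) * v) ∧ u = X.B l v := by
  induction h with
  | fly _ _ => exact ⟨rfl, rfl⟩
  | @bounce x v r i l t y u hr hf hi hp ho hn ih =>
    obtain ⟨ih1, ih2⟩ := ih
    refine ⟨?_, ?_⟩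
    · rw [ih1, Cfg.A_cons]
      congr 1
      have h1 : x + ((r + t : ℝ) : ℂ) * v = (x + (r : ℂ) * v) + (t : ℂ) * v := by
        push_cast
        ring
      have h2 : OnLine (X.c i) (X.w i) (x + (r : ℂ) * v) := (mem_Inner.1 hp).1
      rw [h1, Cfg.pt_add, Cfg.pt_of_onLine X h2, map_mul, Complex.conj_ofReal]
      ring
    · rw [ih2, Cfg.B_cons]

theorem norm_eq (h : X.Run l t x v y u) : ‖u‖ = ‖v‖ := by
  rw [h.unfold.2, Cfg.norm_B]

/-- The speed is constant: induction with the triangle inequality and `norm_refl`. -/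
theorem dist_le (h : X.Run l t x v y u) : ‖y - x‖ ≤ t * ‖v‖ := by
  induction h with
  | @fly x v r hr _ =>
    rw [add_sub_cancel_left, norm_mul, Complex.norm_real, Real.norm_of_nonneg hr.le]
  | @bounce x v r i l t y u hr hf hi hp ho hn ih =>
    rw [norm_refl] at ih
    have h1 : y - x = (y - (x + (r : ℂ) * v)) + (r : ℂ) * v := by ring
    have h2 : ‖(r : ℂ) * v‖ = r * ‖v‖ := by
      rw [norm_mul, Complex.norm_real, Real.norm_of_nonneg hr.le]
    calc ‖y - x‖ = ‖(y - (x + (r : ℂ) * v)) + (r : ℂ) * v‖ := by rw [h1]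
      _ ≤ ‖y - (x + (r : ℂ) * v)‖ + ‖(r : ℂ) * v‖ := norm_add_le _ _
      _ ≤ (r + t) * ‖v‖ := by rw [h2]; linarith

/-- A flight followed by a run. -/
theorem fly_run {x' : ℂ} {r : ℝ} (hr : 0 < r) (hf : ∀ s ∈ Ioc 0 r, x + (s : ℂ) * v ∉ X.M)
    (hx : x' = x + (r : ℂ) * v) (h : X.Run l t x' v y u) : X.Run l (r + t) x v y u := by
  cases h with
  | @fly _ _ _ hr' hf' =>
    have h1 : x' + (t : ℂ) * v = x + ((r + t : ℝ) : ℂ) * v := by
      rw [hx]
      push_cast
      ring
    rw [h1]
    refine Run.fly (by linarith) ?_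
    intro s hs
    rcases le_or_gt s r with h2 | h2
    · exact hf s ⟨hs.1, h2⟩
    · have h3 := hf' (s - r) ⟨by linarith, by linarith [hs.2]⟩
      have h4 : x' + ((s - r : ℝ) : ℂ) * v = x + (s : ℂ) * v := by
        rw [hx]
        push_cast
        ring
      rwa [h4] at h3
  | @bounce _ _ r' i l' t' _ _ hr' hf' hi hp ho hn =>
    have h1 : x' + (r' : ℂ) * v = x + ((r + r' : ℝ) : ℂ) * v := by
      rw [hx]
      push_cast
      ring
    rw [h1] at hp ho hn
    have h5 : r + (r' + t') = (r + r') + t' := by ring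
    rw [h5]
    refine Run.bounce (by linarith) ?_ hi hp ho hn
    intro s hs
    rcases le_or_gt s r with h2 | h2
    · exact hf s ⟨hs.1, h2⟩
    · have h3 := hf' (s - r) ⟨by linarith, by linarith [hs.2]⟩
      have h4 : x' + ((s - r : ℝ) : ℂ) * v = x + (s : ℂ) * v := by
        rw [hx]
        push_cast
        ring
      rwa [h4] at h3

/-- Concatenation, by induction on the first run. If the first run is a flight of length `r` and
the second run starts with a flight (or a bounce after a flight) of length `r'`, the combined flight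
has length `r + r'`; its free part is `(0, r]` together with `r + (0, r']` (or `r + (0, r')`). -/
theorem append (h : X.Run l t x v y u) (h' : X.Run l' t' y u z w) :
    X.Run (l ++ l') (t + t') x v z w := by
  induction h with
  | fly hr hf => exact fly_run hr hf rfl h'
  | @bounce x v r i l t y u hr hf hi hp ho hn ih =>
    have h1 : r + t + t' = r + (t + t') := by ring
    rw [h1]
    exact Run.bounce hr hf hi hp ho (ih h')

/-- A run with list `l ++ l'` passes a free point right after the reflections of `l`. Induction on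
`l`. For `l = []`: the run starts with a flight or a bounce with free part `(0, r)` at least, so fly
`r / 2`. If `l = i :: l₁` the run is a bounce at `i` and the rest has list `l₁ ++ l'`. -/
theorem take (h : X.Run (l ++ l') t x v y u) : ∃ s z w, s ≤ t ∧ X.Run l s x v z w := by
  induction l generalizing t x v with
  | nil =>
    rw [List.nil_append] at h
    cases h with
    | @fly _ _ r hr hf => exact ⟨_, _, _, le_rfl, Run.fly hr hf⟩
    | @bounce _ _ r i l' t' _ _ hr hf hi hp ho hn =>
      have ht := hn.time_pos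
      refine ⟨r / 2, x + ((r / 2 : ℝ) : ℂ) * v, v, by linarith, Run.fly (by linarith) ?_⟩
      intro s hs
      exact hf s ⟨hs.1, by linarith [hs.2]⟩
  | cons i l ih =>
    rw [List.cons_append] at h
    cases h with
    | @bounce _ _ r _ _ t' _ _ hr hf hi hp ho hn =>
      obtain ⟨s, z, w, hs, hrun⟩ := ih hn
      exact ⟨r + s, z, w, by linarith, Run.bounce hr hf hi hp ho hrun⟩

/-- The flight after the last reflection: if the list is `l ++ [i]` then there are `r > 0` and a
point `b = y - r * u` of mirror `i` such that the ray, after the same reflections, passes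
`b + ρ * u` for all `ρ ∈ (0, r]`. Induction on `l`. For `l = []` the run is a bounce at `i` after
a time `r₁` followed by a run with empty list, that is a flight of length `r`; `b` is the bounce
point. -/
theorem last {i : ι} (h : X.Run (l ++ [i]) t x v y u) :
    ∃ r : ℝ, 0 < r ∧ r < t ∧ y - (r : ℂ) * u ∈ X.seg i ∧
      ∀ ρ ∈ Ioc 0 r, X.Run (l ++ [i]) (t - r + ρ) x v (y - (r : ℂ) * u + (ρ : ℂ) * u) u := by
  induction l generalizing t x v with
  | nil =>
    rw [List.nil_append] at h
    cases h with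
    | @bounce _ _ r₁ _ _ t' _ _ hr hf hi hp ho hn =>
      cases hn with
      | @fly _ _ _ hr' hf' =>
        have h1 : x + (r₁ : ℂ) * v + (t' : ℂ) * ((X.w i : ℂ) * conj v)
            - (t' : ℂ) * ((X.w i : ℂ) * conj v) = x + (r₁ : ℂ) * v := by ring
        refine ⟨t', hr', by linarith, ?_, ?_⟩
        · rw [h1]
          exact Cfg.inner_sub_seg hp
        · intro ρ hρ
          have h2 : r₁ + t' - t' + ρ = r₁ + ρ := by ring
          rw [h1, h2]
          exact Run.bounce hr hf hi hp ho
            (Run.fly hρ.1 fun s hs => hf' s ⟨hs.1, hs.2.trans hρ.2⟩)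
  | cons j l ih =>
    rw [List.cons_append] at h
    cases h with
    | @bounce _ _ r₁ _ _ t' _ _ hr hf hi hp ho hn =>
      obtain ⟨r, h1, h2, h3, h4⟩ := ih hn
      refine ⟨r, h1, by linarith, h3, ?_⟩
      intro ρ hρ
      have h5 : r₁ + t' - r + ρ = r₁ + (t' - r + ρ) := by ring
      rw [h5]
      exact Run.bounce hr hf hi hp ho (h4 ρ hρ)

/-- If `j` is in the list, the ray has been on mirror `j` at some time in `(0, t)`. Induction. -/
theorem visit (h : X.Run l t x v y u) {j : ι} (hj : j ∈ l) :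
    ∃ b ∈ X.seg j, ‖b - x‖ ≤ t * ‖v‖ := by
  induction h with
  | fly _ _ => simp at hj
  | @bounce x v r i l t y u hr hf hi hp ho hn ih =>
    have ht := hn.time_pos
    have h2 : ‖(r : ℂ) * v‖ = r * ‖v‖ := by
      rw [norm_mul, Complex.norm_real, Real.norm_of_nonneg hr.le]
    rcases List.mem_cons.1 hj with rfl | hj
    · refine ⟨x + (r : ℂ) * v, Cfg.inner_sub_seg hp, ?_⟩
      rw [add_sub_cancel_left, h2]
      nlinarith [norm_nonneg v, mul_nonneg ht.le (norm_nonneg v)]
    · obtain ⟨b, hb, hb'⟩ := ih hj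
      rw [norm_refl] at hb'
      refine ⟨b, hb, ?_⟩
      have h1 : b - x = (b - (x + (r : ℂ) * v)) + (r : ℂ) * v := by ring
      calc ‖b - x‖ = ‖(b - (x + (r : ℂ) * v)) + (r : ℂ) * v‖ := by rw [h1]
        _ ≤ ‖b - (x + (r : ℂ) * v)‖ + ‖(r : ℂ) * v‖ := norm_add_le _ _
        _ ≤ (r + t) * ‖v‖ := by rw [h2]; linarith

/-- If `j` is in the list, some point of mirror `j` is a limit of points passed by the ray (the
points just before the bounce). Induction: if the first bounce, after time `r`, is at `j`, take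
`b = x + r * v` and the flights of length `r - ρ`, `ρ > 0` small. Otherwise use the induction
hypothesis and put the first bounce in front. -/
theorem visit_lim (h : X.Run l t x v y u) {j : ι} (hj : j ∈ l) :
    ∃ b ∈ X.seg j, ∀ δ > 0, ∃ l' t' y' u', X.Run l' t' x v y' u' ∧ ‖y' - b‖ < δ := by
  induction h with
  | fly _ _ => simp at hj
  | @bounce x v r i l t y u hr hf hi hp ho hn ih =>
    rcases List.mem_cons.1 hj with rfl | hj
    · refine ⟨x + (r : ℂ) * v, Cfg.inner_sub_seg hp, ?_⟩
      intro δ hδ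
      have hv : 0 < ‖v‖ + 1 := by positivity
      obtain ⟨ρ, hρ0, hρ⟩ : ∃ ρ : ℝ, 0 < ρ ∧ ρ < r ∧ ρ * (‖v‖ + 1) ≤ δ / 2 := by
        refine ⟨min (r / 2) (δ / 2 / (‖v‖ + 1)), by positivity, ?_, ?_⟩
        · exact (min_le_left _ _).trans_lt (by linarith)
        · calc min (r / 2) (δ / 2 / (‖v‖ + 1)) * (‖v‖ + 1)
              ≤ (δ / 2 / (‖v‖ + 1)) * (‖v‖ + 1) :=
                mul_le_mul_of_nonneg_right (min_le_right _ _) hv.le
            _ = δ / 2 := by field_simp
      refine ⟨[], r - ρ, x + ((r - ρ : ℝ) : ℂ) * v, v, Run.fly (by linarith) ?_, ?_⟩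
      · intro s hs
        exact hf s ⟨hs.1, by linarith [hs.2]⟩
      · have h1 : x + ((r - ρ : ℝ) : ℂ) * v - (x + (r : ℂ) * v) = -((ρ : ℂ) * v) := by
          push_cast
          ring
        rw [h1, norm_neg, norm_mul, Complex.norm_real, Real.norm_of_nonneg hρ0.le]
        nlinarith [hρ.2]
    · obtain ⟨b, hb, hb'⟩ := ih hj
      refine ⟨b, hb, ?_⟩
      intro δ hδ
      obtain ⟨l', t', y', u', hrun, hd⟩ := hb' δ hδ
      exact ⟨i :: l', r + t', y', u', Run.bounce hr hf hi hp ho hrun, hd⟩

/-- Shortening the last flight: if the run ends with a free flight of length `> ρ` before `y`, one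
can stop earlier. Induction. -/
theorem shorten (h : X.Run l t x v y u) :
    ∃ ρ₀ > 0, ρ₀ < t ∧ ∀ ρ ∈ Ioo 0 ρ₀, X.Run l (t - ρ) x v (y - (ρ : ℂ) * u) u := by
  induction h with
  | @fly x v r hr hf =>
    refine ⟨r / 2, by linarith, by linarith, ?_⟩
    intro ρ hρ
    have h1 : x + (r : ℂ) * v - (ρ : ℂ) * v = x + ((r - ρ : ℝ) : ℂ) * v := by
      push_cast
      ring
    rw [h1]
    exact Run.fly (by linarith [hρ.2]) fun s hs => hf s ⟨hs.1, by linarith [hs.2, hρ.1]⟩
  | @bounce x v r i l t y u hr hf hi hp ho hn ih =>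
    obtain ⟨ρ₀, h0, h1, h2⟩ := ih
    refine ⟨ρ₀, h0, by linarith, ?_⟩
    intro ρ hρ
    have h3 : r + t - ρ = r + (t - ρ) := by ring
    rw [h3]
    exact Run.bounce hr hf hi hp ho (h2 ρ hρ)

/-- Extending the last flight: `y ∉ M` and `M` is closed, so `y + s * u ∉ M` for small `s`. Then
`append` with a flight. -/
theorem extend (hM : IsClosed X.M) (h : X.Run l t x v y u) :
    ∃ ρ₀ > 0, ∀ ρ ∈ Ioo 0 ρ₀, X.Run l (t + ρ) x v (y + (ρ : ℂ) * u) u := by
  obtain ⟨ε, hε, hball⟩ := Metric.isOpen_iff.1 hM.isOpen_compl y h.end_free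
  have hv : 0 < ‖u‖ + 1 := by positivity
  refine ⟨ε / (‖u‖ + 1), by positivity, ?_⟩
  intro ρ hρ
  have h1 : X.Run [] ρ y u (y + (ρ : ℂ) * u) u := by
    refine Run.fly hρ.1 ?_
    intro s hs
    have h2 : y + (s : ℂ) * u ∈ Metric.ball y ε := by
      rw [Metric.mem_ball, dist_eq_norm, add_sub_cancel_left, norm_mul, Complex.norm_real,
        Real.norm_of_nonneg hs.1.le]
      have h3 : s < ε / (‖u‖ + 1) := hs.2.trans_lt hρ.2
      rw [lt_div_iff₀ hv] at h3
      nlinarith [hs.1, norm_nonneg u]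
    exact hball h2
  have h4 := h.append h1
  rwa [List.append_nil] at h4

end Cfg.Run

end Mir
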