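import Pool.Agent.H.MP_80ce29_pr.Run1

/-!
# Determinism, splitting and reversal of runs
-/

open Set MeasureTheory Complex Filter Topology
open scoped ComplexConjugate

namespace Mir

variable {ι : Type*} {X : Cfg ι}

namespace Cfg.Run

variable {l l' : List ι} {t t' : ℝ} {x v y u y' u' : ℂ}

theorem fly_Run2 {x v y : ℂ} {r : ℝ} (hr : 0 < r) (hf : ∀ s ∈ Ioc 0 r, x + (s : ℂ) * v ∉ X.M)
    (hy : y = x + (r : ℂ) * v) : X.Run [] r x v y v := by
  subst hy
  exact Run.fly hr hf

theorem bounce_Run2 {x v p w' y u : ℂ} {r t T : ℝ} {i : ι} {l : List ι} (hr : 0 < r)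
    (hf : ∀ s ∈ Ioo 0 r, x + (s : ℂ) * v ∉ X.M) (hi : i ∈ X.S) (hp : p ∈ X.inner i)
    (ho : ∀ j ∈ X.S, j ≠ i → p ∉ X.seg j) (hn : X.Run l t p w' y u)
    (hpe : p = x + (r : ℂ) * v) (hw : w' = (X.w i : ℂ) * conj v) (hT : T = r + t) :
    X.Run (i :: l) T x v y u := by
  subst hpe hw hT
  exact Run.bounce hr hf hi hp ho hn

theorem start_free_Run2 {x v y u : ℂ} {t : ℝ} {l : List ι} (h : X.Run l t x v y u) :
    ∃ c : ℝ, 0 < c ∧ ∀ s ∈ Ioo 0 c, x + (s : ℂ) * v ∉ X.M := by
  cases h with
  | fly hr hf => exact ⟨t, hr, fun s hs => hf s ⟨hs.1, hs.2.le⟩⟩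
  | @bounce _ _ r _ _ _ _ _ hr hf hi hp ho hn => exact ⟨r, hr, hf⟩

/-- Two runs from the same state: the longer one passes the end of the shorter one.

Induction on the first run, then cases on the second.
* fly `r` / fly `r'`, `r < r'`: the rest is a flight of length `r' - r`.
* fly `r` / bounce after `r'`: `x + r' * v ∈ M`, so `r' ∉ (0, r]`, so `r < r'`; the rest is the
  bounce after the flight of length `r' - r`.
* bounce after `r` / fly `r'` with `r' = t' > r`: impossible, `x + r * v ∈ M` but `(0, r']` is
  free.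
* bounce after `r` at `i` / bounce after `r'` at `j`: `r < r'` is impossible as
  `x + r * v ∈ M` and `(0, r')` is free, `r' < r` likewise, so `r = r'`; if `i ≠ j`, then the point
  is not on mirror `i` by `ho` of the second run, contradiction. So `i = j`; induction
  hypothesis. -/
theorem split (h : X.Run l t x v y u) (h' : X.Run l' t' x v y' u') (ht : t < t') :
    ∃ l'', l' = l ++ l'' ∧ X.Run l'' (t' - t) y u y' u' := by
  induction h generalizing l' t' y' u' with
  | @fly x v r hr hf =>
    cases h' with
    | fly hr' hf' =>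
      refine ⟨[], rfl, ?_⟩
      refine fly_Run2 (by linarith) (fun s hs => ?_) ?_
      · have h1 := hf' (r + s) ⟨by linarith [hs.1], by linarith [hs.2]⟩
        have e : x + (r : ℂ) * v + (s : ℂ) * v = x + ((r + s : ℝ) : ℂ) * v := by push_cast; ring
        rw [e]
        exact h1
      · push_cast
        ring
    | @bounce _ _ r' i l₁ t₁ _ _ hr' hf' hi hp ho hn =>
      have hlt : r < r' := by
        by_contra hc
        push Not at hc
        exact hf r' ⟨hr', hc⟩ (Cfg.mem_M_of_seg hi (Cfg.inner_sub_seg hp))
      refine ⟨i :: l₁, rfl, ?_⟩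
      refine bounce_Run2 (r := r' - r) (by linarith) (fun s hs => ?_) hi hp ho hn ?_ rfl (by ring)
      · have h1 := hf' (r + s) ⟨by linarith [hs.1], by linarith [hs.2]⟩
        have e : x + (r : ℂ) * v + (s : ℂ) * v = x + ((r + s : ℝ) : ℂ) * v := by push_cast; ring
        rw [e]
        exact h1
      · push_cast
        ring
  | @bounce x v r i l t y u hr hf hi hp ho hn ih =>
    have htp := hn.time_pos
    cases h' with
    | fly hr' hf' =>
      exact absurd (Cfg.mem_M_of_seg hi (Cfg.inner_sub_seg hp)) (hf' r ⟨hr, by linarith⟩)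
    | @bounce _ _ r' j l₁ t₁ _ _ hr' hf' hj hp' ho' hn' =>
      obtain rfl : r = r' := by
        rcases lt_trichotomy r r' with h1 | h1 | h1
        · exact absurd (Cfg.mem_M_of_seg hi (Cfg.inner_sub_seg hp)) (hf' r ⟨hr, h1⟩)
        · exact h1
        · exact absurd (Cfg.mem_M_of_seg hj (Cfg.inner_sub_seg hp')) (hf r' ⟨hr', h1⟩)
      obtain rfl : i = j := by
        by_contra hne
        exact ho' i hi hne (Cfg.inner_sub_seg hp)
      obtain ⟨l'', h1, h2⟩ := ih hn' (by linarith)
      refine ⟨l'', by rw [h1]; rfl, ?_⟩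
      have e : r + t₁ - (r + t) = t₁ - t := by ring
      rw [e]
      exact h2

/-- Two runs from the same state of the same duration are equal: the same case distinction as for
`split`. -/
theorem det (h : X.Run l t x v y u) (h' : X.Run l' t x v y' u') :
    l = l' ∧ y = y' ∧ u = u' := by
  induction h generalizing l' y' u' with
  | @fly x v r hr hf =>
    cases h' with
    | fly hr' hf' => exact ⟨rfl, rfl, rfl⟩
    | @bounce _ _ r' i l₁ t₁ _ _ hr' hf' hi hp ho hn =>
      have htp := hn.time_pos
      exact absurd (Cfg.mem_M_of_seg hi (Cfg.inner_sub_seg hp)) (hf r' ⟨hr', by linarith⟩)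
  | @bounce x v r i l t y u hr hf hi hp ho hn ih =>
    have htp := hn.time_pos
    generalize hT : r + t = T at h'
    cases h' with
    | fly hr' hf' =>
      exact absurd (Cfg.mem_M_of_seg hi (Cfg.inner_sub_seg hp)) (hf' r ⟨hr, by linarith⟩)
    | @bounce _ _ r' j l₁ t₁ _ _ hr' hf' hj hp' ho' hn' =>
      obtain rfl : r = r' := by
        rcases lt_trichotomy r r' with h1 | h1 | h1
        · exact absurd (Cfg.mem_M_of_seg hi (Cfg.inner_sub_seg hp)) (hf' r ⟨hr, h1⟩)
        · exact h1
        · exact absurd (Cfg.mem_M_of_seg hj (Cfg.inner_sub_seg hp')) (hf r' ⟨hr', h1⟩)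
      obtain rfl : i = j := by
        by_contra hne
        exact ho' i hi hne (Cfg.inner_sub_seg hp)
      obtain rfl : t = t₁ := by linarith
      obtain ⟨h1, h2, h3⟩ := ih hn'
      exact ⟨by rw [h1], h2, h3⟩

/-- If the list of the first run is strictly shorter, it is earlier. Otherwise `t' ≤ t` and `split`
or `det` give `l = l' ++ l''` or `l = l'`. -/
theorem lt_of_length_lt (h : X.Run l t x v y u) (h' : X.Run l' t' x v y' u')
    (hl : l.length < l'.length) : t < t' := by
  by_contra hc
  push Not at hc
  rcases hc.lt_or_eq with h1 | h1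
  · obtain ⟨l'', h2, -⟩ := split h' h h1
    have h3 := congrArg List.length h2
    rw [List.length_append] at h3
    omega
  · subst h1
    obtain ⟨h2, -, -⟩ := det h h'
    rw [h2] at hl
    exact lt_irrefl _ hl

/-- If the two lists have the same length they are equal. By `split` or `det` one is a prefix of
the other. -/
theorem list_eq (h : X.Run l t x v y u) (h' : X.Run l' t' x v y' u')
    (hl : l.length = l'.length) : l = l' := by
  rcases lt_trichotomy t t' with h1 | h1 | h1
  · obtain ⟨l'', h2, -⟩ := split h h' h1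
    have h3 := congrArg List.length h2
    rw [List.length_append] at h3
    have h4 : l'' = [] := List.length_eq_zero_iff.1 (by omega)
    rw [h2, h4, List.append_nil]
  · subst h1
    exact (det h h').1
  · obtain ⟨l'', h2, -⟩ := split h' h h1
    have h3 := congrArg List.length h2
    rw [List.length_append] at h3
    have h4 : l'' = [] := List.length_eq_zero_iff.1 (by omega)
    rw [h2, h4, List.append_nil]

/-- One list is a prefix of the other if it is not longer. -/
theorem prefix_of_le (h : X.Run l t x v y u) (h' : X.Run l' t' x v y' u')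
    (hl : l.length ≤ l'.length) : l <+: l' := by
  rcases hl.lt_or_eq with h1 | h1
  · obtain ⟨l'', h2, -⟩ := split h h' (lt_of_length_lt h h' h1)
    exact ⟨l'', h2.symm⟩
  · rw [list_eq h h' h1]

/-- Reversal, general form (the start `x` may be on a mirror): for every small `a > 0` the reversed
run goes from `y` to `x + a * v`. Induction on the run.
* fly `r`: `a < r`, the points `y - s * v = x + (r - s) * v`, `s ∈ (0, r - a]`, are free.
* bounce after `r` at `i`, `p = x + r * v`, `v' = w i * conj v`: by induction there is a small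
  `b > 0` and a run with list `l.reverse` from `(y, -u)` to `(p + b * v', -v')`, of duration
  `t - b`. From there the ray flies to `p` (free, by choosing `b` so small that `p + s * v'` is
  free for `s ∈ (0, b]`; such `b` exist since the rest of the run starts with a free flight), and is
  reflected at `i` to the velocity `w i * conj (-v') = -v` (`refl_refl`), then flies to
  `x + a * v` (duration `r - a`; free since `(0, r)` was). Use `append`. -/
theorem reverse_aux (h : X.Run l t x v y u) : ∃ a₀ > 0, a₀ ≤ t ∧ ∀ a ∈ Ioo 0 a₀,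
    X.Run l.reverse (t - a) y (-u) (x + (a : ℂ) * v) (-v) := by
  induction h with
  | @fly x v r hr hf =>
    refine ⟨r, hr, le_rfl, fun a ha => ?_⟩
    refine fly_Run2 (by linarith [ha.2]) (fun s hs => ?_) ?_
    · have h1 := hf (r - s) ⟨by linarith [ha.1, hs.2], by linarith [hs.1]⟩
      have e : x + (r : ℂ) * v + (s : ℂ) * -v = x + ((r - s : ℝ) : ℂ) * v := by push_cast; ring
      rw [e]
      exact h1
    · push_cast
      ring
  | @bounce x v r i l t y u hr hf hi hp ho hn ih =>
    obtain ⟨b₀, hb₀, hb₁, hb⟩ := ih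
    obtain ⟨c, hc, hcf⟩ := start_free_Run2 hn
    have htp := hn.time_pos
    refine ⟨r, hr, by linarith, fun a ha => ?_⟩
    obtain ⟨b, hb2, hb3, hb4⟩ : ∃ b : ℝ, 0 < b ∧ b < b₀ ∧ b < c := by
      refine ⟨min b₀ c / 2, by positivity, ?_, ?_⟩
      · have := min_le_left b₀ c
        linarith
      · have := min_le_right b₀ c
        linarith
    have h1 := hb b ⟨hb2, hb3⟩
    have h2 : X.Run [] (r - a) (x + (r : ℂ) * v) (-v) (x + (a : ℂ) * v) (-v) := by
      refine fly_Run2 (by linarith [ha.2]) (fun s hs => ?_) ?_
      · have h1 := hf (r - s) ⟨by linarith [ha.1, hs.2], by linarith [hs.1]⟩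
        have e : x + (r : ℂ) * v + (s : ℂ) * -v = x + ((r - s : ℝ) : ℂ) * v := by push_cast; ring
        rw [e]
        exact h1
      · push_cast
        ring
    have h3 : X.Run [i] (b + (r - a)) (x + (r : ℂ) * v + (b : ℂ) * ((X.w i : ℂ) * conj v))
        (-((X.w i : ℂ) * conj v)) (x + (a : ℂ) * v) (-v) := by
      refine bounce_Run2 (r := b) hb2 (fun s hs => ?_) hi hp ho h2 (by ring) ?_ rfl
      · have h4 := hcf (b - s) ⟨by linarith [hs.2], by linarith [hs.1]⟩
        have e : x + (r : ℂ) * v + (b : ℂ) * ((X.w i : ℂ) * conj v) +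
            (s : ℂ) * -((X.w i : ℂ) * conj v) =
            x + (r : ℂ) * v + ((b - s : ℝ) : ℂ) * ((X.w i : ℂ) * conj v) := by push_cast; ring
        rw [e]
        exact h4
      · rw [map_neg, mul_neg, refl_refl]
    have h4 := h1.append h3
    have e : r + t - a = t - b + (b + (r - a)) := by ring
    rw [e, List.reverse_cons]
    exact h4

/-- Reversal for runs which start at a free point: `reverse_aux` followed by the flight from
`x + a * v` to `x`. The points `x + a * v - s * v`, `s ∈ (0, a)`, are free for small `a` because the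
run `h` starts with a free flight, and `x` is free. -/
theorem reverse (h : X.Run l t x v y u) (hx : x ∉ X.M) :
    X.Run l.reverse t y (-u) x (-v) := by
  obtain ⟨a₀, ha₀, ha₁, ha⟩ := reverse_aux h
  obtain ⟨c, hc, hcf⟩ := start_free_Run2 h
  obtain ⟨a, hb2, hb3, hb4⟩ : ∃ b : ℝ, 0 < b ∧ b < a₀ ∧ b < c := by
    refine ⟨min a₀ c / 2, by positivity, ?_, ?_⟩
    · have := min_le_left a₀ c
      linarith
    · have := min_le_right a₀ c
      linarith
  have h1 := ha a ⟨hb2, hb3⟩
  have h2 : X.Run [] a (x + (a : ℂ) * v) (-v) x (-v) := by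
    refine fly_Run2 hb2 (fun s hs => ?_) (by ring)
    have e : x + (a : ℂ) * v + (s : ℂ) * -v = x + ((a - s : ℝ) : ℂ) * v := by push_cast; ring
    rw [e]
    rcases hs.2.lt_or_eq with h3 | h3
    · exact hcf (a - s) ⟨by linarith, by linarith [hs.1]⟩
    · rw [h3, sub_self]
      simpa using hx
  have h3 := h1.append h2
  have e : t - a + a = t := by ring
  rw [e, List.append_nil] at h3
  exact h3

/-- Merging of two orbits. If a run from `p` (list `l`) and a run from `q` (list `l'`) end in the
same state and `l` is shorter, then `q` passes `p`: reverse both runs, split the longer one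
(`lt_of_length_lt`, `split`), and reverse the rest. -/
theorem passes {p q vp vq : ℂ} (hp : p ∉ X.M) (hq : q ∉ X.M)
    (h : X.Run l t p vp y u) (h' : X.Run l' t' q vq y u) (hl : l.length < l'.length) :
    ∃ L, l' = L ++ l ∧ X.Run L (t' - t) q vq p vp := by
  have h1 := reverse h hp
  have h2 := reverse h' hq
  have hl' : l.reverse.length < l'.reverse.length := by
    rw [List.length_reverse, List.length_reverse]
    exact hl
  obtain ⟨l'', h3, h4⟩ := split h1 h2 (lt_of_length_lt h1 h2 hl')
  have h5 := reverse h4 hp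
  rw [neg_neg, neg_neg] at h5
  refine ⟨l''.reverse, ?_, h5⟩
  have h6 := congrArg List.reverse h3
  rw [List.reverse_reverse, List.reverse_append, List.reverse_reverse] at h6
  exact h6

end Cfg.Run

end Mir
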