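import Pool.Agent.H.MP_80ce29_pr.Fam

/-!
# Stability of one bounce
-/

open Set MeasureTheory Complex Filter Topology
open scoped ComplexConjugate

namespace Mir

variable {ι : Type*} {Θ : Type*} [TopologicalSpace Θ] {X : Θ → Cfg ι}

/-- The reflection of a point and a velocity depend continuously on the parameter: used to pull
back neighbourhoods in the induction. -/
theorem Fam.tendsto_A (hF : Fam X) (l : List ι) {F : Filter Θ} {θ₀ : Θ} (hθ : F ≤ 𝓝 θ₀)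
    {z : Θ → ℂ} {z₀ : ℂ} (hz : Tendsto z F (𝓝 z₀)) :
    Tendsto (fun θ => (X θ).A l (z θ)) F (𝓝 ((X θ₀).A l z₀)) := by
  induction l generalizing z z₀ with
  | nil => exact hz
  | cons i l ih =>
    have hc : Tendsto (fun θ => (X θ).c i) F (𝓝 ((X θ₀).c i)) :=
      ((hF.hc i).tendsto θ₀).mono_left hθ
    have hw : Tendsto (fun θ => ((X θ).w i : ℂ)) F (𝓝 ((X θ₀).w i : ℂ)) :=
      ((continuous_subtype_val.comp (hF.hw i)).tendsto θ₀).mono_left hθ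
    have h1 : Tendsto (fun θ => conj (z θ - (X θ).c i)) F (𝓝 (conj (z₀ - (X θ₀).c i))) :=
      (Complex.continuous_conj.tendsto _).comp (hz.sub hc)
    exact ih (hc.add (hw.mul h1))

/-- The same for the linear part. -/
theorem Fam.tendsto_B (hF : Fam X) (l : List ι) {F : Filter Θ} {θ₀ : Θ} (hθ : F ≤ 𝓝 θ₀)
    {z : Θ → ℂ} {z₀ : ℂ} (hz : Tendsto z F (𝓝 z₀)) :
    Tendsto (fun θ => (X θ).B l (z θ)) F (𝓝 ((X θ₀).B l z₀)) := by
  induction l generalizing z z₀ with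
  | nil => exact hz
  | cons i l ih =>
    have hw : Tendsto (fun θ => ((X θ).w i : ℂ)) F (𝓝 ((X θ₀).w i : ℂ)) :=
      ((continuous_subtype_val.comp (hF.hw i)).tendsto θ₀).mono_left hθ
    have h1 : Tendsto (fun θ => conj (z θ)) F (𝓝 (conj z₀)) :=
      (Complex.continuous_conj.tendsto _).comp hz
    exact ih (hw.mul h1)

/-- One flight followed by a bounce at `i'` is stable. With `r := crossT ...` (continuous, equal
to `r₀` at the base point, `eventually_cross`): `r > 0`, `(0, r)` is free (`Fam.flight` with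
`b = some i'`), `x + r * v` is an inner point of `i'`, present, and on no other mirror
(`Fam.isClosed_graph` for `J = {j | j ≠ i'}`), and the new state satisfies the start condition
`some i'` (`par_refl_iff` for the transversality of the new velocity, `eventually_not_par`). -/
theorem Fam.hit (hF : Fam X) {θ₀ : Θ} {x₀ v₀ : ℂ} {r₀ : ℝ} {o : Option ι} {i' : ι}
    (hd : (X θ₀).Dep o x₀ v₀) (hr : 0 < r₀)
    (hf : ∀ s ∈ Ioo 0 r₀, x₀ + (s : ℂ) * v₀ ∉ (X θ₀).M) (hi : i' ∈ (X θ₀).S)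
    (hp : x₀ + (r₀ : ℂ) * v₀ ∈ (X θ₀).inner i')
    (ho : ∀ j ∈ (X θ₀).S, j ≠ i' → x₀ + (r₀ : ℂ) * v₀ ∉ (X θ₀).seg j) :
    ∀ᶠ q : Θ × ℂ × ℂ in 𝓝 (θ₀, x₀, v₀), (X q.1).Dep o q.2.1 q.2.2 →
      0 < crossT ((X q.1).c i') ((X q.1).w i') q.2.1 q.2.2 ∧
      (∀ s ∈ Ioo 0 (crossT ((X q.1).c i') ((X q.1).w i') q.2.1 q.2.2),
        q.2.1 + (s : ℂ) * q.2.2 ∉ (X q.1).M) ∧ i' ∈ (X q.1).S ∧
      q.2.1 + (crossT ((X q.1).c i') ((X q.1).w i') q.2.1 q.2.2 : ℂ) * q.2.2 ∈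
        (X q.1).inner i' ∧
      (∀ j ∈ (X q.1).S, j ≠ i' →
        q.2.1 + (crossT ((X q.1).c i') ((X q.1).w i') q.2.1 q.2.2 : ℂ) * q.2.2 ∉
          (X q.1).seg j) ∧
      (X q.1).Dep (some i')
        (q.2.1 + (crossT ((X q.1).c i') ((X q.1).w i') q.2.1 q.2.2 : ℂ) * q.2.2)
        (((X q.1).w i' : ℂ) * conj q.2.2) := by
  have hnp : ¬ Par ((X θ₀).w i') v₀ := by
    refine not_par_of_hit hr (fun s hs hm => hf s hs ?_) hp
    exact mem_biUnion hi hm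
  -- limits of the data
  have t1 : Tendsto (fun q : Θ × ℂ × ℂ => q.1) (𝓝 (θ₀, x₀, v₀)) (𝓝 θ₀) :=
    continuous_fst.tendsto (θ₀, x₀, v₀)
  have hx : Tendsto (fun q : Θ × ℂ × ℂ => q.2.1) (𝓝 (θ₀, x₀, v₀)) (𝓝 x₀) :=
    (continuous_fst.comp continuous_snd).tendsto (θ₀, x₀, v₀)
  have hv : Tendsto (fun q : Θ × ℂ × ℂ => q.2.2) (𝓝 (θ₀, x₀, v₀)) (𝓝 v₀) :=
    (continuous_snd.comp continuous_snd).tendsto (θ₀, x₀, v₀)
  have hc : Tendsto (fun q : Θ × ℂ × ℂ => (X q.1).c i') (𝓝 (θ₀, x₀, v₀)) (𝓝 ((X θ₀).c i')) :=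
    ((hF.hc i').tendsto θ₀).comp t1
  have hw : Tendsto (fun q : Θ × ℂ × ℂ => (X q.1).w i') (𝓝 (θ₀, x₀, v₀)) (𝓝 ((X θ₀).w i')) :=
    ((hF.hw i').tendsto θ₀).comp t1
  have hh : Tendsto (fun q : Θ × ℂ × ℂ => (X q.1).h) (𝓝 (θ₀, x₀, v₀)) (𝓝 ((X θ₀).h)) :=
    (hF.hh.tendsto θ₀).comp t1
  obtain ⟨hT, hE⟩ := eventually_cross hc hw hh hx hv hnp hp
  have hpos := hT.eventually (lt_mem_nhds hr)
  have hS : ∀ᶠ q : Θ × ℂ × ℂ in 𝓝 (θ₀, x₀, v₀), i' ∈ (X q.1).S :=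
    t1.eventually ((hF.hS i').isOpen.mem_nhds hi)
  have hNP := eventually_not_par hw hv hnp
  have hpt : Tendsto (fun q : Θ × ℂ × ℂ =>
      (q.1, q.2.1 + (crossT ((X q.1).c i') ((X q.1).w i') q.2.1 q.2.2 : ℂ) * q.2.2))
      (𝓝 (θ₀, x₀, v₀)) (𝓝 (θ₀, x₀ + (r₀ : ℂ) * v₀)) :=
    t1.prodMk_nhds (hx.add (((Complex.continuous_ofReal.tendsto r₀).comp hT).mul hv))
  have hG : ∀ᶠ p : Θ × ℂ in 𝓝 (θ₀, x₀ + (r₀ : ℂ) * v₀),
      p ∉ {p : Θ × ℂ | ∃ j ∈ {j | j ≠ i'}, j ∈ (X p.1).S ∧ p.2 ∈ (X p.1).seg j} := by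
    refine (hF.isClosed_graph {j | j ≠ i'}).isOpen_compl.mem_nhds ?_
    rintro ⟨j, hj, hjS, hjs⟩
    exact ho j hjS hj hjs
  have hO := hpt.eventually hG
  have hfl := Fam.flight hF (b := some i') hd hr hf ⟨hnp, ho⟩
  have hq : Tendsto (fun q : Θ × ℂ × ℂ =>
      (q.1, q.2.1, q.2.2, crossT ((X q.1).c i') ((X q.1).w i') q.2.1 q.2.2))
      (𝓝 (θ₀, x₀, v₀)) (𝓝 (θ₀, x₀, v₀, r₀)) :=
    t1.prodMk_nhds (hx.prodMk_nhds (hv.prodMk_nhds hT))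
  have hFl := hq.eventually hfl
  filter_upwards [hE, hpos, hS, hNP, hO, hFl] with q e1 e2 e3 e4 e5 e6 hdq
  have hline : OnLine ((X q.1).c i') ((X q.1).w i')
      (q.2.1 + (crossT ((X q.1).c i') ((X q.1).w i') q.2.1 q.2.2 : ℂ) * q.2.2) :=
    (mem_Inner.1 e1).1
  have hoth : ∀ j ∈ (X q.1).S, j ≠ i' →
      q.2.1 + (crossT ((X q.1).c i') ((X q.1).w i') q.2.1 q.2.2 : ℂ) * q.2.2 ∉
        (X q.1).seg j := fun j hjS hj hm => e5 ⟨j, hj, hjS, hm⟩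
  refine ⟨e2, ?_, e3, e1, hoth, e3, hline, ?_, hoth⟩
  · refine e6 hdq ?_
    intro i hi
    rw [Option.mem_some_iff] at hi
    subst hi
    exact hline
  · rw [par_refl_iff]
    exact e4

end Mir
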