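import Pool.Agent.H.MP_80ce29_pr.Stab

/-!
# The transfer lemma
-/

open Set MeasureTheory Complex Filter Topology
open scoped ComplexConjugate

namespace Mir

variable {ι : Type*} {X : Cfg ι}

/-- Parallel states `p s = (x₀ + s * e, u)`, `s ∈ [a, b]`. Suppose the ray of `p b` passes
`p (b + c)` at time `T` with list `L`, all points `x₀ + s * e` and all targets
`x₀ + (s + c) * e` are free, and each `p s`, `s ∈ [a, b)`, has a run with more than `L.length`
reflections. Then `p a` passes `p (a + c)` at time `T` with list `L`.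

Proof. By `Run.unfold` for the given run, `B L u = u`, so `B L` is the identity
(`Transv.B_eq_id`), and `A L (x₀ + s * e + T * u) = x₀ + (s + c) * e` for all `s` (`A_add`).
Let `G` be the set of `s ∈ [a, b]` such that `p s` passes `p (s + c)` at time `T` with list `L`, and
`s' = sInf G`; `b ∈ G`.

(1) `s' ∈ G`. Suppose `s' < b`, `s' ∉ G`; then there are `s ∈ G` arbitrarily close to `s'`. Let
`Run l t (p s')` be a run with `L.length < l.length`.
Case `t ≤ T`: by `Run.stab`, `p s` has a run with the same `l` and `t` for `s` near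
`s'`; take `s ∈ G`: by `split` (or `det` if `t = T`) `l` is a prefix of `L`, contradiction.
Case `T < t`: by `Run.at_time` there are two cases. (i) `p s'` has a run of duration `T` with a
list `l₁`; by `Run.stab` so has `p s` for `s` near `s'`; take `s ∈ G`: `det` gives `l₁ = L`, and by
`Run.unfold` the end of the run of `p s'` is `A L (x₀ + s' * e + T * u) = x₀ + (s' + c) * e`
with velocity `u`. So `s' ∈ G`.
(ii) `p s'` arrives at time `T` at a point `z ∈ M`: for all small `ρ` there is a run of duration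
`T - ρ` to `z - ρ * u₁`. By `Run.stab` for `s ∈ G` near `s'` there is the run of `p s` with the
same list and duration to a point `y` with `‖y - (z - ρ * u₁)‖ ≤ |s - s'|` (`dist_A`), and `split`
gives a run of duration `ρ` from `y` to `x₀ + (s + c) * e`, so `‖x₀ + (s + c) * e - y‖ ≤ ρ`
(`dist_le`). With `|s - s'| < ρ` and `‖u₁‖ = 1`: `‖x₀ + (s' + c) * e - z‖ ≤ 4 * ρ` for all small
`ρ > 0`, so `z = x₀ + (s' + c) * e`, which is free: contradiction.

(2) `s' = a`. If `s' > a`, then by `Run.stab` all `s < s'` near `s'` are in `G` (the end of the run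
is `A L (x₀ + s * e + T * u) = x₀ + (s + c) * e`), contradiction. -/
theorem transfer {N : ℕ} (hlf : X.LF) (hw : ∀ i, X.w i ^ N = 1) {L : List ι} {T : ℝ}
    {x₀ e u : ℂ} {a b c : ℝ} (hu : ‖u‖ = 1) (ht : Transv N u) (he : ‖e‖ = 1) (hab : a ≤ b)
    (h0 : X.Run L T (x₀ + (b : ℂ) * e) u (x₀ + ((b + c : ℝ) : ℂ) * e) u)
    (hf : ∀ s ∈ Icc a b, x₀ + (s : ℂ) * e ∉ X.M)
    (hf' : ∀ s ∈ Icc a b, x₀ + ((s + c : ℝ) : ℂ) * e ∉ X.M)
    (hlong : ∀ s ∈ Ico a b, ∃ l t y u', L.length < l.length ∧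
      X.Run l t (x₀ + (s : ℂ) * e) u y u') :
    X.Run L T (x₀ + (a : ℂ) * e) u (x₀ + ((a + c : ℝ) : ℂ) * e) u := by
  have hT : 0 < T := h0.time_pos
  have hBu : X.B L u = u := h0.unfold.2.symm
  have hB : ∀ v', X.B L v' = v' := fun v' => Transv.B_eq_id hw ht hBu v'
  have hA : ∀ s : ℝ, X.A L (x₀ + (s : ℂ) * e + (T : ℂ) * u) = x₀ + ((s + c : ℝ) : ℂ) * e := by
    intro s
    have h1 : x₀ + (s : ℂ) * e + (T : ℂ) * u =
        x₀ + (b : ℂ) * e + (T : ℂ) * u + ((s : ℂ) - b) * e := by ring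
    rw [h1, Cfg.A_add, ← h0.unfold.1, hB]
    push_cast
    ring
  have hP : Continuous fun s : ℝ => x₀ + (s : ℂ) * e := by fun_prop
  have hst : ∀ s ∈ Icc a b, ∀ l t y u', X.Run l t (x₀ + (s : ℂ) * e) u y u' →
      ∀ᶠ r : ℝ in 𝓝 s, X.Run l t (x₀ + (r : ℂ) * e) u
        (X.A l (x₀ + (r : ℂ) * e + (t : ℂ) * u)) u' := by
    intro s hs l t y u' h
    exact hP.continuousAt.eventually (h.stab hlf (hf s hs))
  have hopen : ∀ s ∈ Icc a b, X.Run L T (x₀ + (s : ℂ) * e) u (x₀ + ((s + c : ℝ) : ℂ) * e) u →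
      ∀ᶠ r : ℝ in 𝓝 s, X.Run L T (x₀ + (r : ℂ) * e) u (x₀ + ((r + c : ℝ) : ℂ) * e) u := by
    intro s hs h
    filter_upwards [hst s hs L T _ u h] with r hr
    rwa [hA r] at hr
  have hclosed : ∀ s ∈ Icc a b,
      (∃ᶠ r : ℝ in 𝓝 s, X.Run L T (x₀ + (r : ℂ) * e) u (x₀ + ((r + c : ℝ) : ℂ) * e) u) →
      X.Run L T (x₀ + (s : ℂ) * e) u (x₀ + ((s + c : ℝ) : ℂ) * e) u := by
    intro s hs hfreq
    rcases eq_or_lt_of_le hs.2 with hsb | hsb
    · rw [hsb]
      exact h0
    obtain ⟨l, t, y, u', hl, hrun⟩ := hlong s ⟨hs.1, hsb⟩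
    rcases lt_trichotomy t T with h1 | h1 | h1
    · obtain ⟨r, hr1, hr2⟩ := (hfreq.and_eventually (hst s hs l t y u' hrun)).exists
      obtain ⟨l'', hl'', -⟩ := hr2.split hr1 h1
      rw [hl'', List.length_append] at hl
      omega
    · subst h1
      obtain ⟨r, hr1, hr2⟩ := (hfreq.and_eventually (hst s hs l t y u' hrun)).exists
      have h2 := (hr2.det hr1).1
      rw [h2] at hl
      exact absurd hl (lt_irrefl _)
    · rcases hrun.at_time hT h1 with ⟨l₁, z, u₁, h2⟩ | ⟨l₁, z, u₁, hzM, ρ₀, hρ₀, h2⟩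
      · obtain ⟨r, hr1, hr2⟩ := (hfreq.and_eventually (hst s hs l₁ T z u₁ h2)).exists
        obtain ⟨h3, -, h4⟩ := hr2.det hr1
        rw [h3, h4] at h2
        have h5 := h2.unfold.1
        rw [hA s] at h5
        rwa [h5] at h2
      · exfalso
        have key : ∀ ρ ∈ Ioo (0 : ℝ) ρ₀, ‖x₀ + ((s + c : ℝ) : ℂ) * e - z‖ ≤ 4 * ρ := by
          intro ρ hρ
          have h3 := h2 ρ hρ
          have h4 : ∀ᶠ r : ℝ in 𝓝 s, |r - s| < ρ := by
            filter_upwards [Metric.ball_mem_nhds s hρ.1] with r hr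
            rwa [Metric.mem_ball, Real.dist_eq] at hr
          obtain ⟨r, hr1, hr2, hr3⟩ :=
            (hfreq.and_eventually ((hst s hs l₁ _ _ u₁ h3).and h4)).exists
          obtain ⟨l'', -, h5⟩ := hr2.split hr1 (by linarith [hρ.1])
          have hu₁ : ‖u₁‖ = 1 := by rw [h3.norm_eq, hu]
          have h6 := h5.dist_le
          rw [hu₁, mul_one, sub_sub_cancel] at h6
          have h7 := h3.unfold.1
          have h8 := X.dist_A l₁ (x₀ + (r : ℂ) * e + ((T - ρ : ℝ) : ℂ) * u)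
            (x₀ + (s : ℂ) * e + ((T - ρ : ℝ) : ℂ) * u)
          rw [← h7] at h8
          have h9 : x₀ + (r : ℂ) * e + ((T - ρ : ℝ) : ℂ) * u -
              (x₀ + (s : ℂ) * e + ((T - ρ : ℝ) : ℂ) * u) = ((r - s : ℝ) : ℂ) * e := by
            push_cast
            ring
          have h10 : ‖((r - s : ℝ) : ℂ) * e‖ = |r - s| := by
            rw [norm_mul, he, mul_one, Complex.norm_real, Real.norm_eq_abs]
          rw [h9, h10] at h8
          have h11 : ‖x₀ + ((s + c : ℝ) : ℂ) * e - (x₀ + ((r + c : ℝ) : ℂ) * e)‖ = |r - s| := by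
            rw [← h10, ← norm_neg (((r - s : ℝ) : ℂ) * e)]
            congr 1
            push_cast
            ring
          have h12 : ‖(ρ : ℂ) * u₁‖ = ρ := by
            rw [norm_mul, hu₁, mul_one, Complex.norm_real, Real.norm_eq_abs, abs_of_pos hρ.1]
          have h13 : x₀ + ((s + c : ℝ) : ℂ) * e - z =
              (x₀ + ((s + c : ℝ) : ℂ) * e - (x₀ + ((r + c : ℝ) : ℂ) * e)) +
              (x₀ + ((r + c : ℝ) : ℂ) * e -
                X.A l₁ (x₀ + (r : ℂ) * e + ((T - ρ : ℝ) : ℂ) * u)) +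
              (X.A l₁ (x₀ + (r : ℂ) * e + ((T - ρ : ℝ) : ℂ) * u) - (z - (ρ : ℂ) * u₁)) +
              - ((ρ : ℂ) * u₁) := by ring
          rw [h13]
          refine (norm_add_le _ _).trans ?_
          refine (add_le_add_left ((norm_add_le _ _).trans
            (add_le_add_left (norm_add_le _ _) _)) _).trans ?_
          rw [h11, h8, norm_neg, h12]
          linarith
        have hz : x₀ + ((s + c : ℝ) : ℂ) * e = z := by
          by_contra hne
          have h3 : 0 < ‖x₀ + ((s + c : ℝ) : ℂ) * e - z‖ := norm_pos_iff.2 (sub_ne_zero.2 hne)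
          have h4 := key (min (ρ₀ / 2) (‖x₀ + ((s + c : ℝ) : ℂ) * e - z‖ / 8))
            ⟨lt_min (by linarith) (by linarith), (min_le_left _ _).trans_lt (by linarith)⟩
          have h5 := min_le_right (ρ₀ / 2) (‖x₀ + ((s + c : ℝ) : ℂ) * e - z‖ / 8)
          linarith
        exact hf' s hs (hz ▸ hzM)
  -- the set of good parameters
  have hsub : Icc a b ⊆ interior {s : ℝ | X.Run L T (x₀ + (s : ℂ) * e) u
      (x₀ + ((s + c : ℝ) : ℂ) * e) u} := by
    refine isPreconnected_Icc.subset_of_closure_inter_subset isOpen_interior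
      ⟨b, right_mem_Icc.2 hab, ?_⟩ ?_
    · exact mem_interior_iff_mem_nhds.2 (hopen b (right_mem_Icc.2 hab) h0)
    · rintro s ⟨hs1, hs2⟩
      have h1 := mem_closure_iff_frequently.1 (closure_mono interior_subset hs1)
      exact mem_interior_iff_mem_nhds.2 (hopen s hs2 (hclosed s hs2 h1))
  have hfin : a ∈ {s : ℝ | X.Run L T (x₀ + (s : ℂ) * e) u
      (x₀ + ((s + c : ℝ) : ℂ) * e) u} := interior_subset (hsub (left_mem_Icc.2 hab))
  exact hfin

end Mir
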