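import Pool.Agent.H.MP_80ce29_pr.Run2
import Pool.Agent.H.MP_80ce29_pr.Geo2

/-!
# Local finiteness, vertices, rational configurations
-/

open Set MeasureTheory Complex Filter Topology
open scoped ComplexConjugate

namespace Mir

variable {ι : Type*} (X : Cfg ι)

/-- Vertices: end points of present mirrors and points on two present mirrors. -/
def Cfg.V : Set ℂ :=
  {z | (∃ i ∈ X.S, z ∈ X.seg i ∧ z ∉ X.inner i) ∨
    ∃ i ∈ X.S, ∃ j ∈ X.S, i ≠ j ∧ z ∈ X.seg i ∧ z ∈ X.seg j}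

/-- Local finiteness: finitely many present centres in each ball. -/
def Cfg.LF : Prop := ∀ R : ℝ, {i | i ∈ X.S ∧ ‖X.c i‖ ≤ R}.Finite

/-- A locally finite configuration with positive half length, whose directions are `N`-th roots of
unity, and where different mirrors which meet have different directions. -/
structure Rat (N : ℕ) : Prop where
  pos : 0 < N
  root : ∀ i, X.w i ^ N = 1
  hpos : 0 < X.h
  lf : X.LF
  cross : ∀ i ∈ X.S, ∀ j ∈ X.S, i ≠ j → (X.seg i ∩ X.seg j).Nonempty → X.w i ≠ X.w j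

variable {X}

/-- Finitely many present mirrors meet a given ball: if `z ∈ X.seg i` and `‖z‖ ≤ R` then
`‖X.c i‖ ≤ R + X.h` by `mem_Seg`. -/
theorem Cfg.LF.finite_meet (h : X.LF) (R : ℝ) :
    {i | i ∈ X.S ∧ ∃ z ∈ X.seg i, ‖z‖ ≤ R}.Finite := by
  refine (h (R + X.h)).subset ?_
  rintro i ⟨hi, z, hz, hR⟩
  refine ⟨hi, ?_⟩
  have h1 : ‖z - X.c i‖ ≤ X.h := (mem_Seg.1 hz).2
  have h2 : ‖X.c i‖ ≤ ‖z‖ + ‖z - X.c i‖ := by
    have h3 : X.c i = z - (z - X.c i) := by ring
    calc ‖X.c i‖ = ‖z - (z - X.c i)‖ := by rw [← h3]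
      _ ≤ ‖z‖ + ‖z - X.c i‖ := norm_sub_le _ _
  linarith

/-- A neighbourhood of `z` avoids all present mirrors with label in `J` if `z` does. -/
theorem Cfg.LF.nhd_Vert (h : X.LF) (J : Set ι) (z : ℂ) (hz : ∀ j ∈ J, j ∈ X.S → z ∉ X.seg j) :
    ∃ η > 0, ∀ y ∈ Metric.ball z η, ∀ j ∈ J, j ∈ X.S → y ∉ X.seg j := by
  set F : Set ι := {i | i ∈ X.S ∧ ∃ y ∈ X.seg i, ‖y‖ ≤ ‖z‖ + 1} with hF
  have hFin : F.Finite := h.finite_meet (‖z‖ + 1)
  have hcl : IsClosed (⋃ i ∈ F ∩ J, X.seg i) :=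
    (hFin.subset inter_subset_left).isClosed_biUnion fun i _ => isClosed_Seg _ _ _
  have hzm : z ∈ (⋃ i ∈ F ∩ J, X.seg i)ᶜ := by
    intro hc
    simp only [mem_iUnion] at hc
    obtain ⟨i, hi, hzi⟩ := hc
    exact hz i hi.2 hi.1.1 hzi
  obtain ⟨η, hη, hb⟩ := Metric.isOpen_iff.1 hcl.isOpen_compl z hzm
  refine ⟨min η 1, lt_min hη one_pos, fun y hy j hj hjS hyj => ?_⟩
  have h1 : dist y z < min η 1 := hy
  have h2 : y ∈ (⋃ i ∈ F ∩ J, X.seg i)ᶜ := hb (lt_of_lt_of_le h1 (min_le_left _ _))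
  apply h2
  simp only [mem_iUnion]
  refine ⟨j, ⟨⟨hjS, y, hyj, ?_⟩, hj⟩, hyj⟩
  have h3 : dist y z < 1 := lt_of_lt_of_le h1 (min_le_right _ _)
  rw [dist_eq_norm] at h3
  have h4 : y = z + (y - z) := by ring
  calc ‖y‖ = ‖z + (y - z)‖ := by rw [← h4]
    _ ≤ ‖z‖ + ‖y - z‖ := norm_add_le _ _
    _ ≤ ‖z‖ + 1 := by linarith

/-- `M` is closed: near a point it is a finite union of closed sets. More precisely, for `z ∉ M`
let `F` be the finite set of the mirrors which meet the closed ball of radius `‖z‖ + 1`; then a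
neighbourhood of `z` inside the ball of radius `‖z‖ + 1` avoids the closed set
`⋃ i ∈ F, seg i`. -/
theorem Cfg.LF.isClosed_M (h : X.LF) : IsClosed X.M := by
  rw [← isOpen_compl_iff, Metric.isOpen_iff]
  intro z hz
  obtain ⟨η, hη, hb⟩ := h.nhd_Vert univ z fun j _ hj hzj => hz (Cfg.mem_M_of_seg hj hzj)
  refine ⟨η, hη, fun y hy hyM => ?_⟩
  obtain ⟨i, hi, hyi⟩ := Cfg.mem_M_iff.1 hyM
  exact hb y hy i (mem_univ _) hi hyi

/-- The same for the union of the mirrors with label in `J`. -/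
theorem Cfg.LF.isClosed_sub (h : X.LF) (J : Set ι) : IsClosed {z | ∃ j ∈ J, j ∈ X.S ∧ z ∈ X.seg j} := by
  rw [← isOpen_compl_iff, Metric.isOpen_iff]
  intro z hz
  obtain ⟨η, hη, hb⟩ := h.nhd_Vert J z fun j hj hjS hzj => hz ⟨j, hj, hjS, hzj⟩
  refine ⟨η, hη, fun y hy hyM => ?_⟩
  obtain ⟨i, hiJ, hi, hyi⟩ := hyM
  exact hb y hy i hiJ hi hyi

/-- Each point `z` has a ball such that all present mirrors which meet the ball pass through
`z`: the present mirrors which meet the ball of radius `1` about `z` are finitely many, and those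
which do not pass through `z` have positive distance from `z`. -/
theorem Cfg.LF.local_star (h : X.LF) (z : ℂ) :
    ∃ η > 0, ∀ i ∈ X.S, (X.seg i ∩ Metric.ball z η).Nonempty → z ∈ X.seg i := by
  obtain ⟨η, hη, hb⟩ := h.nhd_Vert {i | z ∉ X.seg i} z fun j hj _ => hj
  refine ⟨η, hη, fun i hi hne => ?_⟩
  obtain ⟨y, hy1, hy2⟩ := hne
  by_contra hc
  exact hb y hy2 i hc hi hy1

/-- A point of `M` which is not a vertex is an inner point of exactly one present mirror. -/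
theorem Cfg.not_vertex {z : ℂ} (hz : z ∈ X.M) (hV : z ∉ X.V) :
    ∃ i ∈ X.S, z ∈ X.inner i ∧ ∀ j ∈ X.S, j ≠ i → z ∉ X.seg j := by
  obtain ⟨i, hi, hzi⟩ := Cfg.mem_M_iff.1 hz
  refine ⟨i, hi, ?_, fun j hj hne hzj => ?_⟩
  · by_contra hc
    exact hV (Or.inl ⟨i, hi, hzi, hc⟩)
  · exact hV (Or.inr ⟨j, hj, i, hi, hne, hzj, hzi⟩)

theorem Cfg.V_subset_M : X.V ⊆ X.M := by
  rintro z (⟨i, hi, hz, -⟩ | ⟨i, hi, j, -, -, hz, -⟩)
  · exact Cfg.mem_M_of_seg hi hz
  · exact Cfg.mem_M_of_seg hi hz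

/-- A mirror has at most two end points: a point of `seg i` outside `inner i` is `c i + s * d` with
`|s| = h`, so it satisfies `(z - c) ^ 2 = h ^ 2 * w`, which has at most two solutions. -/
theorem tips_finite (i : ι) : {z | z ∈ X.seg i ∧ z ∉ X.inner i}.Finite := by
  obtain ⟨d, hd⟩ := exists_sq (X.w i)
  refine (Set.toFinite {X.c i + (X.h : ℂ) * d, X.c i - (X.h : ℂ) * d}).subset ?_
  rintro z ⟨⟨e, he, s, hs, rfl⟩, hz⟩
  have h1 : |s| = X.h := by
    refine le_antisymm hs ?_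
    by_contra hc
    push Not at hc
    exact hz ⟨e, he, s, hc, rfl⟩
  have h2 : e = d ∨ e = -d := sq_eq_sq_iff_eq_or_eq_neg.1 (he.trans hd.symm)
  have h3 : s = X.h ∨ s = -X.h := by
    rcases abs_choice s with h4 | h4
    · left
      rw [← h1, h4]
    · right
      rw [← h1, h4, neg_neg]
  simp only [mem_insert_iff, mem_singleton_iff]
  rcases h2 with rfl | rfl <;> rcases h3 with rfl | rfl
  · left; ring
  · right; push_cast; ring
  · right; ring
  · left; push_cast; ring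

/-- Two mirrors with different directions have at most one common point: the difference `q` of two
common points satisfies `w i * conj q = q = w j * conj q`, so `q = 0`. -/
theorem inter_subsingleton {i j : ι} (h : X.w i ≠ X.w j) : (X.seg i ∩ X.seg j).Subsingleton := by
  rintro x ⟨hx1, hx2⟩ y ⟨hy1, hy2⟩
  have h1 : (X.w i : ℂ) * conj (x - y) = x - y := (mem_Seg.1 hx1).1.par_sub (mem_Seg.1 hy1).1
  have h2 : (X.w j : ℂ) * conj (x - y) = x - y := (mem_Seg.1 hx2).1.par_sub (mem_Seg.1 hy2).1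
  have h3 : ((X.w i : ℂ) - (X.w j : ℂ)) * conj (x - y) = 0 := by
    rw [sub_mul, h1, h2, sub_self]
  rcases mul_eq_zero.1 h3 with h4 | h4
  · exact absurd (Circle.coe_injective (sub_eq_zero.1 h4)) h
  · have h5 : x - y = 0 := by
      rw [← h1, h4, mul_zero]
    exact sub_eq_zero.1 h5

/-- Finitely many vertices in each ball: a vertex `z` with `‖z‖ ≤ R` is an end point of a mirror of
the finite set `finite_meet R`, or the common point of two different mirrors of this set. -/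
theorem Rat.V_finite {N : ℕ} (h : Rat X N) (R : ℝ) : {z | z ∈ X.V ∧ ‖z‖ ≤ R}.Finite := by
  set F : Set ι := {i | i ∈ X.S ∧ ∃ y ∈ X.seg i, ‖y‖ ≤ R} with hF
  have hFin : F.Finite := h.lf.finite_meet R
  have h1 : (⋃ i ∈ F, {z | z ∈ X.seg i ∧ z ∉ X.inner i}).Finite :=
    hFin.biUnion fun i _ => tips_finite i
  have h2 : (⋃ i ∈ F, ⋃ j ∈ F, {z | z ∈ X.seg i ∩ X.seg j ∧ X.w i ≠ X.w j}).Finite := by
    refine hFin.biUnion fun i _ => hFin.biUnion fun j _ => ?_
    by_cases hw : X.w i ≠ X.w j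
    · exact (inter_subsingleton hw).finite.subset fun z hz => hz.1
    · exact Set.finite_empty.subset fun z hz => hw hz.2
  refine (h1.union h2).subset ?_
  rintro z ⟨(⟨i, hi, hz1, hz2⟩ | ⟨i, hi, j, hj, hne, hz1, hz2⟩), hR⟩
  · left
    simp only [mem_iUnion]
    exact ⟨i, ⟨hi, z, hz1, hR⟩, hz1, hz2⟩
  · right
    simp only [mem_iUnion]
    exact ⟨i, ⟨hi, z, hz1, hR⟩, j, ⟨hj, z, hz2, hR⟩, ⟨hz1, hz2⟩,
      h.cross i hi j hj hne ⟨z, hz1, hz2⟩⟩

/-- Union over integers `R`. -/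
theorem Rat.V_countable {N : ℕ} (h : Rat X N) : X.V.Countable := by
  have h1 : (⋃ n : ℕ, {z | z ∈ X.V ∧ ‖z‖ ≤ n}).Countable :=
    Set.countable_iUnion fun n => (h.V_finite n).countable
  refine h1.mono fun z hz => ?_
  obtain ⟨n, hn⟩ := exists_nat_ge ‖z‖
  exact mem_iUnion.2 ⟨n, hz, hn⟩

/-- Finitely many directions: the set `{a * v, a * conj v | a ^ N = 1}` contains all velocities
`X.B l v` (`B_form`), and it is finite because `{a : Circle | a ^ N = 1}` is finite. -/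
theorem Rat.B_finite {N : ℕ} (h : Rat X N) (v : ℂ) : {u | ∃ l, u = X.B l v}.Finite := by
  have hN := h.pos
  have h0 : {z : ℂ | z ^ N = 1}.Finite := by
    refine ((Polynomial.nthRoots N (1 : ℂ)).toFinset.finite_toSet).subset fun z hz => ?_
    rw [Finset.mem_coe, Multiset.mem_toFinset, Polynomial.mem_nthRoots hN]
    exact hz
  have h1 : {a : Circle | a ^ N = 1}.Finite := by
    refine (h0.preimage (f := fun a : Circle => (a : ℂ)) Circle.coe_injective.injOn).subset ?_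
    intro a ha
    show ((a : ℂ)) ^ N = 1
    have ha' : a ^ N = 1 := ha
    rw [← Circle.coe_pow, ha', Circle.coe_one]
  refine ((h1.image fun a : Circle => (a : ℂ) * v).union
    (h1.image fun a : Circle => (a : ℂ) * conj v)).subset ?_
  rintro u ⟨l, rfl⟩
  obtain ⟨a, ha, hB | hB⟩ := X.B_form h.root l
  · left
    exact ⟨a, ha, (hB v).symm⟩
  · right
    exact ⟨a, ha, (hB v).symm⟩

end Mir
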